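import Pool.Agent.Lib.MP_1ae3da_al.C.ALf2
import Pool.Agent.Lib.MP_1ae3da_al.C.TE

/-! Lifting from a cover whose kernel is the part prime to `p` of the multiplier. -/

namespace Pool.Agent.Lib.MP_1ae3da_al.CT

open Submodule

variable {F A X Y S : Type} [Field F] [Ring A] [Algebra F A] [Group X] [Group Y] [Group S]
  {π : X →* S} {u : S → A}

theorem lift_gen {p : ℕ} [CharZero F] [Finite X] {GG : Subgroup (RingAut F)}
    (hpf : commutator X = ⊤) (hsj : Function.Surjective π) (hct : π.ker ≤ Subgroup.center X)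
    (hu : TG F u) (N : Subgroup S) {φ : X → A} (h1 : ∀ x y, φ (x * y) = φ x * φ y)
    (h3 : ∀ x, ∃ c : F, c ≠ 0 ∧ φ x = c • u (π x))
    (h4 : ∀ (σ : RingAut F) (γ : RingAut A), SL F σ γ → γ ∈ Stb (Hm F u ⊤) →
      ∃ a : MulAut X, ∀ x, φ (a x) = γ (φ x))
    (hl : ML F p GG (Hm F (gu F X) ⊤) (Hm F (gu F X) (N.comap π))) :
    ML F p GG (Hm F u ⊤) (Hm F u N) := by
  obtain ⟨Φ, ε, hT, hΦ, hε⟩ := lf_data hsj hct hu h1 h3
  have him : ∀ K : Subgroup S, Φ '' Hm F (gu F X) (K.comap π) = Hm F u K := fun K => by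
    ext a
    constructor
    · rintro ⟨_, ⟨c, hc, x, hx, rfl⟩, rfl⟩
      obtain ⟨d, hd, e⟩ := h3 x
      rw [map_smul, hΦ, e]
      exact Hm_smul hc (Hm_smul hd (mem_Hm hx))
    · rintro ⟨c, hc, t, ht, rfl⟩
      obtain ⟨x, rfl⟩ := hsj t
      obtain ⟨d, hd, e⟩ := h3 x
      refine ⟨(c * d⁻¹) • gu F X x, 
        Hm_smul (mul_ne_zero hc (inv_ne_zero hd)) (mem_Hm ht), ?_⟩
      rw [map_smul, hΦ, e, smul_smul, inv_mul_cancel_right₀ hd]
  have hπ : ∀ x y, φ x = φ y → π x = π y := fun x y e => by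
    obtain ⟨c, hc, e1⟩ := h3 x
    obtain ⟨d, -, e2⟩ := h3 y
    exact (hu.eq_of hc (e1.symm.trans (e.trans e2))).1
  have hN : ∀ x, φ x ∈ Hm F u N ↔ x ∈ N.comap π := fun x => by
    obtain ⟨c, hc, e⟩ := h3 x
    rw [e, hu.smul_mem_Hm hc]; rfl
  have hker : π.ker ≤ N.comap π := fun z hz => by
    rw [Subgroup.mem_comap, MonoidHom.mem_ker.mp hz]; exact one_mem _
  have hH : Ht Φ (SG GG A ⊓ Stb (Hm F u ⊤) ⊓ Stb (Hm F u N))
      (SG GG _ ⊓ Stb (Hm F (gu F X) ⊤) ⊓ Stb (Hm F (gu F X) (N.comap π))) (Hm F (gu F X) ⊤)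
      (Hm F (gu F X) (N.comap π)) fun γ δ => ∃ σ ∈ GG, SL F σ γ ∧ SL F σ δ ∧ ∃ a : MulAut X,
        (∀ x, δ (gu F X x) = gu F X (a x)) ∧ ∀ x, φ (a x) = γ (φ x) := by
    refine ⟨?_, ?_, ?_, ?_, ?_, ?_, ?_, ?_⟩
    · rintro γ ⟨⟨⟨σ, hσ, hs⟩, hγ⟩, -⟩
      obtain ⟨a, ha⟩ := h4 σ γ hs hγ
      obtain ⟨δ, hδ, hδ'⟩ := lf_aut σ a
      exact ⟨δ, σ, hσ, hs, hδ, a, hδ', ha⟩
    · rintro γ ⟨-, hγ⟩ δ ⟨σ, hσ, -, hδ, a, hδ', ha⟩
      have k : ∀ x, ∃ c : F, c ≠ 0 ∧ δ (gu F X x) = c • gu F X (a x) := fun x =>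
        ⟨1, one_ne_zero, by rw [hδ', one_smul]⟩
      refine ⟨⟨⟨σ, hσ, hδ⟩, (lf_tg.stb_iff hδ k _).mpr ?_⟩, (lf_tg.stb_iff hδ k _).mpr ?_⟩
      · exact Subgroup.map_top_of_surjective _ a.surjective
      · have k2 : ∀ x, a x ∈ N.comap π ↔ x ∈ N.comap π := fun x => by
          rw [← hN, ← hN, ha]; exact hγ _
        ext x
        exact ⟨fun ⟨y, hy, e⟩ => e ▸ (k2 y).mpr hy,
          fun hx => ⟨a.symm x, (k2 _).mp (by simpa using hx), by simp⟩⟩
    · rintro γ δ ⟨σ, -, hs, hδ, a, hδ', ha⟩ b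
      induction b using lf_ind with
      | h0 => simp
      | ha b b' k k' => simp only [map_add, k, k']
      | hs d y => rw [hδ, map_smul, map_smul, hs, hδ', hΦ, hΦ, ha]
    · rintro γ δ δ' ⟨σ, -, hs, hδ, a, k1, k2⟩ ⟨σ', -, hs', hδ', a', k3, k4⟩
      obtain rfl := lf_sl_eq hs hs' (hu.ne 1)
      obtain rfl : a = a' := uce_aut_ext hpf hct fun x => hπ _ _ (by rw [k2, k4])
      refine RingEquiv.ext fun b => ?_
      induction b using lf_ind with
      | h0 => simp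
      | ha b b' k k' => simp only [map_add, k, k']
      | hs d y => rw [hδ, hδ', k1, k3]
    · rintro γ δ γ' δ' ⟨σ, hσ, hs, hδ, a, k1, k2⟩ ⟨σ', hσ', hs', hδ', a', k3, k4⟩
      refine ⟨σ * σ', mul_mem hσ hσ', fun c x => ?_, fun c x => ?_, a * a', fun x => ?_,
        fun x => ?_⟩
      · change γ (γ' (c • x)) = σ (σ' c) • γ (γ' x)
        rw [hs', hs]
      · change δ (δ' (c • x)) = σ (σ' c) • δ (δ' x)
        rw [hδ', hδ]
      · change δ (δ' _) = gu F X (a (a' x))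
        rw [k3, k1]
      · change φ (a (a' x)) = γ (γ' _)
        rw [k2, k4]
    · rintro γ δ ⟨σ, hσ, hs, hδ, a, k1, k2⟩
      refine ⟨σ⁻¹, inv_mem hσ, lf_sl_inv hs, lf_sl_inv hδ, a⁻¹, fun x => ?_, fun x => ?_⟩
      · change δ.symm _ = _
        rw [RingEquiv.symm_apply_eq, k1, MulAut.apply_inv_self]
      · change _ = γ.symm _
        rw [RingEquiv.eq_symm_apply, ← k2, MulAut.apply_inv_self]
    · rintro γ δ ⟨σ, -, hs, hδ, -⟩ hl'
      obtain rfl : σ = 1 := lf_sl_eq hs hl' (hu.ne 1)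
      exact hδ
    · rintro γ δ ⟨σ, -, hs, hδ, a, k1, k2⟩ _ ⟨c, hc, y, -, rfl⟩ hm _ ⟨d, hd, x, -, rfl⟩
      have hne : ∀ x, φ x ≠ 0 := fun x => by
        obtain ⟨c, hc, e⟩ := h3 x
        rw [e]; exact smul_ne_zero hc (hu.ne _)
      have k3 : ∀ (d : F), d ≠ 0 → ∀ x, d • φ (y * x) = σ d • φ (a x * y) := fun d hd x => by
        have e := hm _ (Hm_smul hd (mem_Hm (Subgroup.mem_top x)))
        rw [map_smul, map_smul, hΦ, hΦ, hs, ← k2, smul_mul_smul_comm, smul_mul_smul_comm,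
          ← h1, ← h1, mul_comm (σ d), mul_smul, mul_smul] at e
        exact smul_right_injective A hc e
      have k4 : ∀ x, φ (y * x) = φ (a x * y) := fun x => by
        simpa using k3 1 one_ne_zero x
      have k5 : a = MulAut.conj y := uce_aut_ext hpf hct fun x => by
        have e := hπ _ _ (k4 x)
        rw [map_mul, map_mul] at e
        simp [e]
      have k6 : σ d = d := by
        have e := k3 d hd x
        rw [k4] at e
        exact (smul_left_injective F (hne _) e).symm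
      rw [hδ, k1, k6, smul_mul_smul_comm, smul_mul_smul_comm, lf_mul, lf_mul, k5, mul_comm c]
      simp
  have key := lk_transport (p := p) (GG := GG) hT hH (inf_le_left.trans inf_le_left)
    (fun b _ => lf_span _) (fun b hb => lf_tg.span_mul hb (span_Hm_mono hker hε))
    (mem_Hm (u := gu F X) (one_mem _)) (span_mono ?_ hε) hl
  · rw [him N, ← Subgroup.comap_top π, him ⊤] at key
    exact key
  · rintro _ ⟨c, hc, z, hz, rfl⟩
    refine ⟨Hm_smul hc (mem_Hm (hker hz)), lf_span _, ?_⟩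
    rintro _ ⟨d, -, x, -, rfl⟩
    rw [smul_mul_smul_comm, smul_mul_smul_comm, lf_mul, lf_mul, mul_comm c,
      Subgroup.mem_center_iff.mp (hct hz) x]

/-- blocks over a nontrivial character of `p`-power order have degree divisible by `p` -/
theorem lift_deg {p : ℕ} (hp : p.Prime) [CharZero F] [IsAlgClosed F] [Finite X]
    (hpf : commutator X = ⊤) (hsj : Function.Surjective π) (hct : π.ker ≤ Subgroup.center X)
    (hu : TG F u) {φ : X → A} (h1 : ∀ x y, φ (x * y) = φ x * φ y) (h2 : φ 1 = u 1)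
    (h3 : ∀ x, ∃ c : F, c ≠ 0 ∧ φ x = c • u (π x)) {H : Subgroup S} (hH : ¬ p ∣ H.index)
    {e : A} (he : e ∈ IrrP F p (Hm F u H)) {z : X} (hz : π z = 1) {k : ℕ} (hk : z ^ p ^ k = 1) :
    φ z = u 1 := by
  have : Finite S := Finite.of_surjective π hsj
  have hS := nice_Hm0 hu H
  obtain ⟨n, ρ, m⟩ := exists_MM hS he.1
  have hn : ¬ p ∣ n := fun q => he.2 (by rw [m.dimsq hS he.1]; exact dvd_pow q two_ne_zero)
  have mem (x : H.comap π) : φ x ∈ span F (Hm F u H) := by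
    obtain ⟨c, -, q⟩ := h3 x
    rw [q]
    exact smul_mem _ _ (subset_span (u_mem_Hm x.2))
  have u1 : u 1 ∈ span F (Hm F u H) := subset_span (u_mem_Hm (one_mem H))
  have r1 : ρ (u 1) = 1 := by
    rw [← mul_one (ρ _), ← m.one, ← m.mul _ u1 _ he.1.1.1, (one_span hu he.1.1.1).1]
  let D : H.comap π →* F :=
    { toFun := fun x => (ρ (φ x)).det
      map_one' := by rw [OneMemClass.coe_one, h2, r1, Matrix.det_one]
      map_mul' := fun x y => by
        rw [Subgroup.coe_mul, h1, m.mul _ (mem x) _ (mem y), Matrix.det_mul] }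
  obtain ⟨c, -, hc⟩ := h3 z
  rw [hz] at hc
  have pw (j : ℕ) : φ (z ^ j) = c ^ j • u 1 := by
    induction j with
    | zero => rw [pow_zero, pow_zero, one_smul, h2]
    | succ j ih => rw [pow_succ, h1, ih, hc, smul_mul_smul_comm, hu.one, pow_succ]
  have c1 : c ^ p ^ k = 1 :=
    smul_left_injective F (hu.ne 1) ((pw _).symm.trans (by rw [hk, h2]; exact (one_smul F _).symm))
  have t := MonoidHom.transfer_eq_pow D.toHomUnits z fun j g _ => by
    rw [mul_assoc, ← Subgroup.mem_center_iff.1 (pow_mem (hct hz) j) g, inv_mul_cancel_left]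
  have t1 : MonoidHom.transfer D.toHomUnits z = 1 :=
    Abelianization.commutator_subset_ker _ (hpf ▸ Subgroup.mem_top z)
  have t2 : (ρ (φ (z ^ (H.comap π).index))).det = 1 := congrArg Units.val (t.symm.trans t1)
  rw [pw, map_smul, r1, Matrix.det_smul, Matrix.det_one, mul_one, Fintype.card_fin, ← pow_mul,
    Subgroup.index_comap_of_surjective _ hsj] at t2
  have co : (H.index * n).Coprime (p ^ k) := Nat.Coprime.pow_right k
    ((Nat.Prime.coprime_iff_not_dvd hp).2 fun q => (hp.dvd_mul.1 q).elim hH hn).symm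
  rw [hc, (pow_eq_one_iff_of_coprime co).1 ⟨t2, c1⟩, one_smul]

theorem lift_ker {p : ℕ} (hp : p.Prime) [Finite X] {κ : X →* Y} {f : Y →* S}
    (hκ : ∀ x, f (κ x) = π x) (hs : Function.Surjective κ) (h0 : ¬ p ∣ Nat.card f.ker)
    (hM : ∀ l : ℕ, l.Prime → l ≠ p → ∀ k, l ^ k ∣ Nat.card π.ker → l ^ k ∣ Nat.card f.ker)
    (z : X) : κ z = 1 ↔ π z = 1 ∧ ∃ k, z ^ p ^ k = 1 := by
  have : Finite Y := Finite.of_surjective κ hs
  have := Fact.mk hp
  constructor
  · intro hz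
    refine ⟨by rw [← hκ, hz, map_one], ?_⟩
    have e : π.ker = f.ker.comap κ := by
      ext x
      simp [MonoidHom.mem_ker, hκ]
    have c : Nat.card π.ker = Nat.card κ.ker * Nat.card f.ker := by
      have a1 := π.ker.card_mul_index
      have a2 := f.ker.card_mul_index
      have a3 := κ.ker.card_mul_index
      rw [Subgroup.index_ker, MonoidHom.range_eq_top.2 hs, Subgroup.card_top, ← a2, ← a1, e,
        Subgroup.index_comap_of_surjective _ hs, ← mul_assoc] at a3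
      rw [e]
      exact (Nat.eq_of_mul_eq_mul_right (Nat.pos_of_ne_zero Subgroup.index_ne_zero_of_finite)
        a3).symm
    have hP : IsPGroup p κ.ker := IsPGroup.iff_card.2 ⟨_, Nat.eq_prime_pow_of_unique_prime_dvd
      Nat.card_pos.ne' fun {l} hl q => by
        by_contra n
        refine Nat.pow_succ_factorization_not_dvd (Nat.card_pos (α := f.ker)).ne' hl (hM l hl n _ ?_)
        rw [c, pow_succ']
        exact mul_dvd_mul q (Nat.ordProj_dvd _ _)⟩
    obtain ⟨k, hk⟩ := hP ⟨z, hz⟩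
    exact ⟨k, congrArg Subtype.val hk⟩
  · rintro ⟨h1, k, hk⟩
    have m : κ z ∈ f.ker := by rw [MonoidHom.mem_ker, hκ, h1]
    have a : κ z ^ Nat.card f.ker = 1 :=
      congrArg Subtype.val (pow_card_eq_one' (x := (⟨κ z, m⟩ : f.ker)))
    exact (pow_eq_one_iff_of_coprime (Nat.Coprime.pow_left k
      ((Nat.Prime.coprime_iff_not_dvd hp).2 h0))).1 ⟨by rw [← map_pow, hk, map_one], a⟩

theorem lift_desc {κ : X →* Y} (hs : Function.Surjective κ) (a : MulAut X)
    (h : ∀ x, κ (a x) = 1 ↔ κ x = 1) : ∃ b : MulAut Y, ∀ x, b (κ x) = κ (a x) := by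
  let g : Y →* Y := κ.liftOfSurjective hs ⟨κ.comp a.toMonoidHom, fun x hx => (h x).2 hx⟩
  have hg (x : X) : g (κ x) = κ (a x) := κ.liftOfRightInverse_comp_apply _ _ _ x
  refine ⟨MulEquiv.ofBijective g ⟨(injective_iff_map_eq_one g).2 fun y hy => ?_, fun y => ?_⟩, hg⟩
  · obtain ⟨x, rfl⟩ := hs y
    exact (h x).1 (hg x ▸ hy)
  · obtain ⟨x, rfl⟩ := hs y
    exact ⟨κ (a.symm x), by rw [hg, a.apply_symm_apply]⟩

/-- LIFT -/
theorem lift_ml {p : ℕ} (hp : p.Prime) [CharZero F] [IsAlgClosed F] [Finite X]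
    {GG : Subgroup (RingAut F)} (h : IsUce π) (hu : TG F u) (f : Y →* S)
    (hf : Function.Surjective f) (hY : commutator Y = ⊤) (hc : f.ker ≤ Subgroup.center Y)
    (h0 : ¬ p ∣ Nat.card f.ker)
    (hM : ∀ l : ℕ, l.Prime → l ≠ p → ∀ k, l ^ k ∣ Nat.card π.ker → l ^ k ∣ Nat.card f.ker)
    (N : Subgroup S) (hN : ¬ p ∣ N.index)
    (hl : ML F p GG (Hm F (gu F Y) ⊤) (Hm F (gu F Y) (N.comap f))) :
    ML F p GG (Hm F u ⊤) (Hm F u N) := by
  obtain ⟨φ, h1, h2, h3, h4⟩ := lf_phi h hu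
  obtain ⟨κ, hκ⟩ := h.lift Y S f (MonoidHom.id S) hc fun s => hf s
  have hκ : ∀ x, f (κ x) = π x := hκ
  have hs := h.lift_surj hY f hc hκ
  have : Finite Y := Finite.of_surjective κ hs
  have kk := lift_ker hp hκ hs h0 hM
  by_cases t : ∀ z, κ z = 1 → φ z = u 1
  · choose s hs' using id hs
    have q (x : X) : φ (s (κ x)) = φ x := by
      obtain ⟨c, -, e⟩ := h3 x
      have e1 := h1 x (x⁻¹ * s (κ x))
      rw [t (x⁻¹ * s (κ x)) (by simp [hs']), mul_inv_cancel_left] at e1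
      rw [e1, e, smul_mul_assoc, hu.mul_one]
    refine lift_gen hY hf hc hu N (φ := fun y => φ (s y)) (fun x y => ?_) (fun y => ?_)
      (fun σ γ k1 k2 => ?_) hl
    · obtain ⟨x, rfl⟩ := hs x
      obtain ⟨y, rfl⟩ := hs y
      rw [← map_mul, q, q, q, h1]
    · obtain ⟨x, rfl⟩ := hs y
      rw [q, hκ]
      exact h3 x
    obtain ⟨a, ha⟩ := h4 σ γ k1 k2
    have g1 := map_one_u hu k2
    have k3 (x : X) : π (a x) = 1 ↔ π x = 1 := by
      obtain ⟨c, c0, e⟩ := h3 x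
      obtain ⟨d, d0, e'⟩ := h3 (a x)
      rw [ha, e, k1] at e'
      refine ⟨fun z => ?_, fun z => ?_⟩
      · rw [z, ← g1] at e'
        have e2 : γ (c • u (π x)) = γ (σ.symm d • u 1) := by
          rw [k1, k1, e', σ.apply_symm_apply]
        exact (hu.eq_of c0 (γ.injective e2)).1
      · rw [z, g1] at e'
        exact (hu.eq_of d0 e'.symm).1
    obtain ⟨b, hb⟩ := lift_desc hs a fun x => by
      rw [kk, kk, k3]
      simp only [← map_pow, EmbeddingLike.map_eq_one_iff]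
    refine ⟨b, fun y => ?_⟩
    obtain ⟨x, rfl⟩ := hs y
    rw [hb, q, q, ha]
  · have em {H : Subgroup S} (hH : ¬ p ∣ H.index) : IrrP F p (Hm F u H) = ∅ :=
      Set.eq_empty_of_forall_notMem fun e he => t fun z hz => by
        obtain ⟨z1, k, z2⟩ := (kk z).1 hz
        exact lift_deg hp h.perf h.surj h.cent hu h1 h2 h3 hH he z1 z2
    rw [ML, em hN, em (by rw [Subgroup.index_top]; exact hp.not_dvd_one)]
    exact ⟨id, ⟨Set.bijOn_empty id, fun _ _ _ k => k.elim⟩, fun _ k => k.elim⟩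

end Pool.Agent.Lib.MP_1ae3da_al.CT
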