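import Pool.Agent.Lib.MP_1ae3da_al.S.Aut

/-! The Sylow subgroup of `SL(2, K)` in the defining characteristic and its normaliser. -/

namespace Pool.Agent.Lib.MP_1ae3da_al.CT

open Matrix Subgroup
open scoped MatrixGroups Pointwise

variable {K : Type} [Field K]

/-- the upper unipotent matrices as a homomorphism -/
def gpX (K : Type) [Field K] : Multiplicative K →* SL(2, K) where
  toFun s := autX s.toAdd
  map_one' := autX_zero
  map_mul' _ _ := autX_add _ _

/-- the group of upper unipotent matrices -/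
def gpU (K : Type) [Field K] : Subgroup SL(2, K) := (gpX K).range

theorem gp_memU {g : SL(2, K)} : g ∈ gpU K ↔ ∃ s, autX s = g := Iff.rfl

theorem gp_mul10 {g h : SL(2, K)} (hg : g.1 1 0 = 0) (hh : h.1 1 0 = 0) : (g * h).1 1 0 = 0 := by
  simp [mul_apply, Fin.sum_univ_two, hg, hh]

theorem gp_inv10 {g : SL(2, K)} (hg : g.1 1 0 = 0) : (g⁻¹).1 1 0 = 0 := by
  simp [adjugate_fin_two, hg]

/-- the group of upper triangular matrices -/
def gpB (K : Type) [Field K] : Subgroup SL(2, K) where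
  carrier := {g | g.1 1 0 = 0}
  one_mem' := by simp
  mul_mem' := gp_mul10
  inv_mem' := gp_inv10

theorem gp_memB {g : SL(2, K)} : g ∈ gpB K ↔ g.1 1 0 = 0 := Iff.rfl

theorem gp_U_le : gpU K ≤ gpB K := by
  rintro _ ⟨s, rfl⟩
  rfl

theorem gp_center_le : center SL(2, K) ≤ gpB K := fun z hz => by
  have h := congrArg (fun g : SL(2, K) => g.1 0 0) (mem_center_iff.1 hz (autX 1))
  rw [gp_memB]
  simpa [autX_val, mul_apply, Fin.sum_univ_two] using h

theorem gp_conj_mem {g u : SL(2, K)} (hg : g ∈ gpB K) (hu : u ∈ gpU K) : g * u * g⁻¹ ∈ gpU K := by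
  obtain ⟨s, rfl⟩ := gp_memU.1 hu
  exact gp_memU.2 ⟨_, by rw [aut_conjX g hg, mul_inv_cancel_right]⟩

theorem gp_of_conj {g : SL(2, K)} (h : g * autX 1 * g⁻¹ ∈ gpB K) : g ∈ gpB K := by
  rw [gp_memB, aut_conjW] at h
  simpa [gp_memB] using h

theorem gp_normU : normalizer (gpU K : Set SL(2, K)) = gpB K := by
  ext g
  rw [mem_normalizer_iff]
  refine ⟨fun h => gp_of_conj (gp_U_le ((h _).1 (gp_memU.2 ⟨1, rfl⟩))), fun hg u =>
    ⟨gp_conj_mem hg, fun h => ?_⟩⟩
  simpa [mul_assoc] using gp_conj_mem (inv_mem hg) h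

theorem gp_cardU : Nat.card (gpU K) = Nat.card K :=
  (Nat.card_congr (MonoidHom.ofInjective (f := gpX K) fun _ _ h =>
    autX_inj (K := K) h).toEquiv).symm

theorem gp_card [Finite K] : Nat.card SL(2, K) = Nat.card K * (Nat.card K ^ 2 - 1) := by
  classical
  have := Fintype.ofFinite K
  have h1 := Matrix.card_GL_field (𝔽 := K) 2
  rw [Fin.prod_univ_two] at h1
  have h2 := Subgroup.card_mul_index (GeneralLinearGroup.det : GL (Fin 2) K →* Kˣ).ker
  rw [Subgroup.index_ker, MonoidHom.range_eq_top.2 GeneralLinearGroup.det_surjective,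
    Subgroup.card_top, Nat.card_units] at h2
  have h3 : (SpecialLinearGroup.toGL : SL(2, K) →* GL (Fin 2) K).range =
      (GeneralLinearGroup.det : GL (Fin 2) K →* Kˣ).ker := by
    ext g
    constructor
    · rintro ⟨x, rfl⟩
      exact Units.ext (by simp)
    · intro hg
      exact ⟨⟨g.1, by simpa using congrArg Units.val (MonoidHom.mem_ker.1 hg)⟩, Units.ext rfl⟩
  have h4 : Nat.card SL(2, K) =
      Nat.card (GeneralLinearGroup.det : GL (Fin 2) K →* Kˣ).ker := by
    rw [← h3]
    exact Nat.card_congr (MonoidHom.ofInjective SpecialLinearGroup.toGL_injective).toEquiv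
  have h5 : 0 < Nat.card K - 1 := Nat.sub_pos_of_lt Finite.one_lt_card
  apply Nat.eq_of_mul_eq_mul_right h5
  rw [h4, h2, h1, Nat.card_eq_fintype_card]
  simp only [Fin.val_zero, pow_zero, Fin.val_one, pow_one]
  rw [mul_comm (Fintype.card K), mul_assoc, Nat.mul_sub_one, sq]

variable [Finite K] {p : ℕ} [hp : Fact p.Prime] [CharP K p]

omit [Finite K] hp in
theorem gp_pU : IsPGroup p (gpU K) := by
  rintro ⟨_, s, rfl⟩
  refine ⟨1, Subtype.ext ?_⟩
  change autX s.toAdd ^ p ^ 1 = 1
  rw [autX_pow, pow_one, CharP.cast_eq_zero, zero_mul, autX_zero]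

omit hp [CharP K p] in
theorem gp_indexU : (gpU K).index = Nat.card K ^ 2 - 1 := by
  have h := (gpU K).card_mul_index
  rw [gp_cardU, gp_card] at h
  exact Nat.eq_of_mul_eq_mul_left Nat.card_pos h

omit hp in
theorem gp_dvd_card : p ∣ Nat.card K := by
  have := Fintype.ofFinite K
  obtain ⟨n, -, hn⟩ := FiniteField.card K p
  rw [Nat.card_eq_fintype_card, hn]
  exact dvd_pow_self p n.ne_zero

theorem gp_not_dvd : ¬ p ∣ (gpU K).index := by
  rw [gp_indexU]
  intro h
  have h1 : p ∣ Nat.card K ^ 2 := dvd_pow gp_dvd_card two_ne_zero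
  exact hp.out.one_lt.ne' (Nat.dvd_one.1
    ((Nat.dvd_sub_iff_right (Nat.one_le_pow _ _ Nat.card_pos) h1).1 h))

/-- the upper unipotent group as a Sylow subgroup -/
noncomputable def gpSyl (K : Type) [Field K] [Finite K] (p : ℕ) [Fact p.Prime] [CharP K p] :
    Sylow p SL(2, K) := (gp_pU (K := K) (p := p)).toSylow gp_not_dvd

theorem gpSyl_coe : (gpSyl K p : Subgroup SL(2, K)) = gpU K := rfl

variable {S : Type} [Group S]

omit [Finite K] in
theorem gp_norm_map (f : SL(2, K) →* S) (hc : f.ker ≤ center SL(2, K)) :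
    (normalizer ((gpU K).map f : Set S)).comap f = gpB K := by
  ext g
  rw [mem_comap]
  refine ⟨fun h => ?_, fun hg => le_normalizer_map f (mem_map_of_mem f (by rwa [gp_normU]))⟩
  obtain ⟨u, hu, e⟩ := (mem_normalizer_iff.1 h (f (autX 1))).1 
    (mem_map_of_mem f (gp_memU.2 ⟨1, rfl⟩))
  have hz : g * autX 1 * g⁻¹ * u⁻¹ ∈ gpB K := gp_center_le (hc (by
    rw [MonoidHom.mem_ker, map_mul, map_mul, map_mul, map_inv, map_inv, e, mul_inv_cancel]))
  exact gp_of_conj (by simpa using mul_mem hz (gp_U_le hu))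

/-- every Sylow subgroup of a central quotient is moved to the image of `U` -/
theorem gp_norm (f : SL(2, K) →* S) (hf : Function.Surjective f)
    (hc : f.ker ≤ center SL(2, K)) (Q : Sylow p S) :
    ∃ f' : SL(2, K) →* S, Function.Surjective f' ∧ f'.ker = f.ker ∧ (gpU K).map f' = Q ∧
      (normalizer (Q : Set S)).comap f' = gpB K := by
  have : Finite S := Finite.of_surjective f hf
  obtain ⟨s, hs⟩ := MulAction.exists_smul_eq S ((gpSyl K p).mapSurjective hf) Q
  let f' : SL(2, K) →* S := (MulAut.conj s).toMonoidHom.comp f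
  have h1 : f'.ker = f.ker := by
    ext g
    simp [f', MonoidHom.mem_ker]
  have h2 : (gpU K).map f' = Q := by
    rw [← hs, ← Subgroup.map_map]
    rfl
  refine ⟨f', (MulAut.conj s).surjective.comp hf, h1, h2, ?_⟩
  rw [← gp_norm_map f' (h1 ▸ hc), h2]
  rfl

end Pool.Agent.Lib.MP_1ae3da_al.CT
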