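import Pool.Agent.Lib.MP_1ae3da_al.C.AUce

/-! Bounds for the kernel of a perfect central extension, by transfer. -/

namespace Pool.Agent.Lib.MP_1ae3da_al.CT

open Subgroup Matrix
open scoped commutatorElement MatrixGroups

section gen
variable {X S : Type*} [Group X] [Group S]

/-- transfer of a central element of a perfect group -/
theorem mult_tr [Finite X] (hX : commutator X = ⊤) (H : Subgroup X) {z : X} (hz : z ∈ center X) :
    z ^ H.index ∈ ⁅H, H⁆ := by
  have h1 := MonoidHom.transfer_eq_pow (Abelianization.of (G := H)) z fun k g _ => by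
    rw [mul_assoc, ← mem_center_iff.mp (pow_mem hz k) g, inv_mul_cancel_left]
  have h2 : MonoidHom.transfer (Abelianization.of (G := H)) z = 1 :=
    Abelianization.commutator_subset_ker _ (hX ▸ mem_top _)
  rw [h2] at h1
  have h3 := (QuotientGroup.eq_one_iff (N := commutator H) _).mp h1.symm
  rw [← map_subtype_commutator]
  exact ⟨_, h3, rfl⟩

/-- commutators upstairs only depend on a generating family of lifts -/
theorem mult_le (π : X →* S) (hc : π.ker ≤ center X) (H : Subgroup X) :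
    ⁅(H.map π).comap π, (H.map π).comap π⁆ ≤ ⁅H, H⁆ := by
  rw [commutator_le]
  rintro x ⟨x', hx, hx'⟩ y ⟨y', hy, hy'⟩
  rw [← uce_comm π hc hx' hy']
  exact commutator_mem_commutator hx hy

/-- a cyclic subgroup of index prime to `l` -/
theorem mult_cyc [Finite X] (hX : commutator X = ⊤) (π : X →* S) (hs : Function.Surjective π)
    (hc : π.ker ≤ center X) {l : ℕ} (hl : l.Prime) (a : S) (hi : ¬ l ∣ (zpowers a).index) :
    ¬ l ∣ Nat.card π.ker := by
  intro hd
  have := Fact.mk hl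
  obtain ⟨z, hz⟩ := exists_prime_orderOf_dvd_card' l hd
  obtain ⟨A, rfl⟩ := hs a
  have h1 := mult_le π hc (zpowers A) (mult_tr hX _ (hc z.2))
  have h2 : ⁅zpowers A, zpowers A⁆ = ⊥ := by
    rw [eq_bot_iff, commutator_le]
    rintro _ ⟨m, rfl⟩ _ ⟨n, rfl⟩
    exact mem_bot.mpr (commutatorElement_eq_one_iff_commute.mpr (Commute.zpow_zpow_self A m n))
  rw [h2, mem_bot, index_comap_of_surjective _ hs, MonoidHom.map_zpowers] at h1
  have h3 := orderOf_dvd_of_pow_eq_one h1
  rw [orderOf_coe, hz] at h3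
  exact hi h3

theorem mult_norm [Finite X] {c b : X} (h : b * c * b⁻¹ ∈ zpowers c) :
    b ∈ normalizer (zpowers c : Set X) := by
  refine mem_normalizer_fintype ?_
  rintro _ ⟨n, rfl⟩
  have h1 : b * c ^ n * b⁻¹ = (b * c * b⁻¹) ^ n := conj_zpow.symm
  exact h1 ▸ zpow_mem h n

theorem mult_two {A B : X} {N : Subgroup X} (hA : A ∈ normalizer (N : Set X))
    (hB : B ∈ normalizer (N : Set X)) (h : ⁅B, A⁆ ∈ N) :
    ⁅closure {A, B}, closure {A, B}⁆ ≤ N := by
  have hM : closure {A, B} ≤ normalizer (N : Set X) := by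
    rw [closure_le]
    rintro _ (rfl | rfl) <;> assumption
  have key : ∀ x ∈ closure ({A, B} : Set X), ∀ n ∈ N, x * n * x⁻¹ ∈ N := fun x hx n hn =>
    (mem_normalizer_iff.mp (hM hx) n).mp hn
  rw [commutator_le]
  intro x hx y hy
  induction hx, hy using closure_induction₂ with
  | mem x y hx hy =>
    rcases hx with rfl | rfl <;> rcases hy with rfl | rfl
    · simp
    · rw [← commutatorElement_inv]; exact inv_mem h
    · exact h
    · simp
  | one_left => simp
  | one_right => simp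
  | mul_left x y z hx _ _ h1 h2 =>
    have : ⁅x * y, z⁆ = x * ⁅y, z⁆ * x⁻¹ * ⁅x, z⁆ := by group
    exact this ▸ mul_mem (key x hx _ h2) h1
  | mul_right y z x hy _ _ h1 h2 =>
    have : ⁅x, y * z⁆ = ⁅x, y⁆ * (y * ⁅x, z⁆ * y⁻¹) := by group
    exact this ▸ mul_mem h1 (key y hy _ h2)
  | inv_left x y hx _ h1 =>
    have : ⁅x⁻¹, y⁆ = x⁻¹ * ⁅x, y⁆⁻¹ * x⁻¹⁻¹ := by group
    exact this ▸ key _ (inv_mem hx) _ (inv_mem h1)
  | inv_right x y _ hy h1 =>
    have : ⁅x, y⁻¹⁆ = y⁻¹ * ⁅x, y⁆⁻¹ * y⁻¹⁻¹ := by group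
    exact this ▸ key _ (inv_mem hy) _ (inv_mem h1)

/-- a dihedral type subgroup of odd index -/
theorem mult_dih [Finite X] (hX : commutator X = ⊤) (π : X →* S) (hs : Function.Surjective π)
    (hc : π.ker ≤ center X) (a b : S) (hab : b * a * b⁻¹ = a⁻¹)
    (hi : ¬ 2 ∣ (closure {a, b}).index) : ¬ 4 ∣ Nat.card π.ker := by
  intro hd
  obtain ⟨A, rfl⟩ := hs a
  obtain ⟨B, rfl⟩ := hs b
  have hz : A * (B * A * B⁻¹) ∈ center X := hc (by simp [MonoidHom.mem_ker, hab])
  obtain ⟨z, hz0⟩ : ∃ z, z = A * (B * A * B⁻¹) := ⟨_, rfl⟩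
  rw [← hz0] at hz
  have hz1 := mem_center_iff.mp hz
  have e1 : B * A * B⁻¹ = A⁻¹ * z := by rw [hz0]; group
  have e2 : ⁅B, A⁆ = A⁻¹ * A⁻¹ * z := by
    rw [commutatorElement_def, e1, mul_assoc, ← hz1 A⁻¹, mul_assoc]
  have e3 : A * ⁅B, A⁆ * A⁻¹ = ⁅B, A⁆ := by
    rw [e2, mul_assoc, mul_assoc, ← hz1 A⁻¹]; group
  have e4 : B * ⁅B, A⁆ * B⁻¹ = ⁅B, A⁆⁻¹ := by
    have h1 : B * ⁅B, A⁆ * B⁻¹ = (B * A * B⁻¹)⁻¹ * (B * A * B⁻¹)⁻¹ * z := by
      rw [e2, mul_assoc, mul_assoc, ← hz1 B⁻¹]; group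
    have h2 : z⁻¹ * A = A * z⁻¹ := (mem_center_iff.mp (inv_mem hz) A).symm
    rw [h1, e1, e2]
    simp only [_root_.mul_inv_rev, inv_inv]
    rw [h2, mul_assoc (A * z⁻¹), mul_assoc A z⁻¹ z, inv_mul_cancel, mul_one, ← h2, mul_assoc]
  have hN := (mult_le π hc (closure {A, B})).trans (mult_two (N := zpowers ⁅B, A⁆)
    (mult_norm (e3.symm ▸ mem_zpowers _)) (mult_norm (e4.symm ▸ inv_mem (mem_zpowers _)))
    (mem_zpowers _))
  obtain ⟨P, hP⟩ := Sylow.exists_subgroup_card_pow_prime 2 (n := 2) hd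
  have hmem : ∀ w : P, ((w : π.ker) : X) ∈ zpowers ⁅B, A⁆ := fun w => by
    have h1 := hN (mult_tr hX _ (hc (w : π.ker).2))
    rw [index_comap_of_surjective _ hs, MonoidHom.map_closure, Set.image_pair] at h1
    have h2 : orderOf ((w : π.ker) : X) ∣ 2 ^ 2 := by
      rw [orderOf_coe, orderOf_coe, ← hP]; exact orderOf_dvd_natCard w
    have h3 : (closure {π A, π B}).index.Coprime (orderOf ((w : π.ker) : X)) :=
      ((Nat.prime_two.coprime_iff_not_dvd.mpr hi).symm.pow_right 2).coprime_dvd_right h2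
    obtain ⟨m, hm⟩ := exists_pow_eq_self_of_coprime h3
    exact hm ▸ pow_mem h1 m
  let j : P →* zpowers ⁅B, A⁆ :=
    ((π.ker.subtype.comp P.subtype).codRestrict _ hmem)
  have hj : Function.Injective j := fun x y h =>
    Subtype.ext (Subtype.ext (congrArg (fun t : zpowers ⁅B, A⁆ => (t : X)) h))
  have hcyc : IsCyclic P := isCyclic_of_injective j hj
  obtain ⟨g, hg⟩ := IsCyclic.exists_ofOrder_eq_natCard (α := P)
  obtain ⟨n, hn⟩ := hmem g
  have h4 : ((g : π.ker) : X) ^ 2 = 1 := by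
    have h5 : B * ((g : π.ker) : X) * B⁻¹ = ((g : π.ker) : X)⁻¹ := by
      rw [← hn, ← conj_zpow, e4, _root_.inv_zpow]
    rw [mem_center_iff.mp (hc (g : π.ker).2) B, mul_inv_cancel_right] at h5
    rw [pow_two]
    nth_rewrite 1 [h5]
    exact inv_mul_cancel _
  have h6 := orderOf_dvd_of_pow_eq_one h4
  rw [orderOf_coe, orderOf_coe, hg, hP] at h6
  norm_num at h6

theorem mult_odd [Finite X] {a b : X} (hab : b * a * b⁻¹ = a⁻¹) (ha : ¬ orderOf a ∣ 2)
    (hi : ¬ 4 ∣ (zpowers a).index) : ¬ 2 ∣ (closure {a, b}).index := by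
  intro h2
  have hle : zpowers a ≤ closure {a, b} := zpowers_le.mpr (subset_closure (by simp))
  have hM : closure {a, b} ≤ normalizer (zpowers a : Set X) := by
    rw [closure_le]
    rintro _ (rfl | rfl)
    · exact le_normalizer (mem_zpowers _)
    · exact mult_norm (hab.symm ▸ inv_mem (mem_zpowers _))
  have hn := normal_subgroupOf_of_le_normalizer hM
  have h3 := pow_index_mem ((zpowers a).subgroupOf (closure {a, b}))
    ⟨b, subset_closure (by simp)⟩
  have h4 : ¬ 2 ∣ ((zpowers a).subgroupOf (closure {a, b})).index := fun h => hi (by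
    rw [← relIndex_mul_index hle]
    exact mul_dvd_mul h h2)
  obtain ⟨k, hk⟩ : Odd ((zpowers a).subgroupOf (closure {a, b})).index :=
    Nat.odd_iff.mpr (by omega)
  rw [hk, mem_subgroupOf] at h3
  obtain ⟨n, hn⟩ := h3
  have h5 : b ^ (2 * k + 1) = a ^ n := hn.symm
  have h6 : Commute (b ^ 2) a := by
    have h7 : b * a⁻¹ * b⁻¹ = a := by rw [← conj_inv, hab, inv_inv]
    have h8 : b * (b * a * b⁻¹) * b⁻¹ = a := by rw [hab, h7]
    rw [Commute, SemiconjBy, pow_two]
    nth_rewrite 2 [← h8]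
    group
  have h9 : Commute b a := by
    have h10 : b = ((b ^ 2) ^ k)⁻¹ * a ^ n := by rw [← h5, ← pow_mul, pow_succ]; group
    rw [h10]
    exact (h6.pow_left k).inv_left.mul_left (Commute.zpow_self a n)
  apply ha
  apply orderOf_dvd_of_pow_eq_one
  rw [h9.eq, mul_inv_cancel_right] at hab
  rw [pow_two]
  nth_rewrite 1 [hab]
  exact inv_mul_cancel _

/-- the two transfer bounds read in a group `Y` that maps onto `S` -/
theorem mult_cyc' {Y : Type*} [Group Y] [Finite X] (hX : commutator X = ⊤) (π : X →* S)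
    (hs : Function.Surjective π) (hc : π.ker ≤ center X) (f : Y →* S)
    (hf : Function.Surjective f) {l : ℕ} (hl : l.Prime) (a : Y)
    (hi : ¬ l ∣ (zpowers a).index) : ¬ l ∣ Nat.card π.ker :=
  mult_cyc hX π hs hc hl (f a) fun h => hi (h.trans (by
    rw [← MonoidHom.map_zpowers]; exact index_map_dvd _ hf))

theorem mult_dih' {Y : Type*} [Group Y] [Finite Y] [Finite X] (hX : commutator X = ⊤)
    (π : X →* S) (hs : Function.Surjective π) (hc : π.ker ≤ center X) (f : Y →* S)
    (hf : Function.Surjective f) (a b : Y) (hab : b * a * b⁻¹ = a⁻¹) (ha : ¬ orderOf a ∣ 2)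
    (hi : ¬ 4 ∣ (zpowers a).index) : ¬ 4 ∣ Nat.card π.ker :=
  mult_dih hX π hs hc (f a) (f b) (by rw [← map_inv, ← map_mul, ← map_mul, hab, map_inv])
    fun h => mult_odd hab ha hi (h.trans (by
      rw [← Set.image_pair, ← MonoidHom.map_closure]; exact index_map_dvd _ hf))

end gen

section sl2
variable (K : Type) [Field K] [Finite K]

theorem mult_card : Nat.card SL(2, K) = Nat.card K * ((Nat.card K - 1) * (Nat.card K + 1)) := by
  classical
  have := Fintype.ofFinite K
  have h1 := Matrix.card_GL_field (𝔽 := K) 2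
  rw [Fin.prod_univ_two] at h1
  have h2 := Subgroup.card_mul_index (GeneralLinearGroup.det : GL (Fin 2) K →* Kˣ).ker
  rw [Subgroup.index_ker, MonoidHom.range_eq_top.2 GeneralLinearGroup.det_surjective,
    Subgroup.card_top, Nat.card_units] at h2
  have h3 : (SpecialLinearGroup.toGL : SL(2, K) →* GL (Fin 2) K).range =
      (GeneralLinearGroup.det : GL (Fin 2) K →* Kˣ).ker := by
    ext g
    constructor
    · rintro ⟨x, rfl⟩
      exact Units.ext (by simp)
    · intro hg
      exact ⟨⟨g.1, by simpa using congrArg Units.val (MonoidHom.mem_ker.1 hg)⟩, Units.ext rfl⟩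
  have h4 : Nat.card SL(2, K) =
      Nat.card (GeneralLinearGroup.det : GL (Fin 2) K →* Kˣ).ker := by
    rw [← h3]
    exact Nat.card_congr (MonoidHom.ofInjective SpecialLinearGroup.toGL_injective).toEquiv
  rw [← h4, h1, ← Nat.card_eq_fintype_card] at h2
  have h5 : 1 < Nat.card K := Finite.one_lt_card
  obtain ⟨m, hm⟩ : ∃ m, Nat.card K = m + 1 := ⟨Nat.card K - 1, by omega⟩
  rw [hm] at h2 h5 ⊢
  simp only [Fin.val_zero, Fin.val_one, pow_zero, pow_one, Nat.add_sub_cancel] at h2 ⊢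
  have h6 : (m + 1) ^ 2 - 1 = m * (m + 1 + 1) := Nat.sub_eq_of_eq_add (by ring)
  have h7 : (m + 1) ^ 2 - (m + 1) = (m + 1) * m := Nat.sub_eq_of_eq_add (by ring)
  rw [h6, h7] at h2
  exact Nat.eq_of_mul_eq_mul_right (m := m) (by omega) (by rw [h2]; ring)

/-- the split torus and an element that inverts it -/
theorem mult_split : ∃ a b : SL(2, K), orderOf a = Nat.card K - 1 ∧ b * a * b⁻¹ = a⁻¹ := by
  obtain ⟨g, hg⟩ := IsCyclic.exists_ofOrder_eq_natCard (α := Kˣ)
  let t : Kˣ →* SL(2, K) := MonoidHom.mk' (fun x => ⟨!![(x : K), 0; 0, (x⁻¹ : Kˣ)], by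
    simp [det_fin_two]⟩) fun x y => by
      ext i j
      fin_cases i <;> fin_cases j <;> simp [mul_apply, Fin.sum_univ_two, mul_comm]
  have ht : Function.Injective t := fun x y h =>
    Units.ext (by simpa [t] using congrArg (fun m : SL(2, K) => m.1 0 0) h)
  refine ⟨t g, ⟨!![0, 1; -1, 0], by simp [det_fin_two]⟩, ?_, ?_⟩
  · rw [orderOf_injective t ht, hg, Nat.card_units]
  · rw [← map_inv, mul_inv_eq_iff_eq_mul]
    ext i j
    fin_cases i <;> fin_cases j <;> simp [t, mul_apply, Fin.sum_univ_two]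

/-- the non split torus and an element that inverts it -/
theorem mult_nonsplit (p : ℕ) [Fact p.Prime] [CharP K p] :
    ∃ a b : SL(2, K), orderOf a = Nat.card K + 1 ∧ b * a * b⁻¹ = a⁻¹ := by
  classical
  let L := FiniteField.Extension K p 2
  have hr : Module.finrank K L = 2 := FiniteField.finrank_extension K p 2
  have hL : Nat.card L = Nat.card K ^ 2 := FiniteField.natCard_extension K p 2
  have h5 : 1 < Nat.card K := Finite.one_lt_card
  have h6 : Nat.card K ^ 2 - 1 = (Nat.card K - 1) * (Nat.card K + 1) := by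
    rw [mul_comm, ← Nat.sq_sub_sq, one_pow]
  let β := Module.finBasisOfFinrankEq K L hr
  obtain ⟨g, hg⟩ := IsCyclic.exists_ofOrder_eq_natCard (α := Lˣ)
  rw [Nat.card_units, hL, h6] at hg
  have hx : orderOf (g ^ (Nat.card K - 1)) = Nat.card K + 1 := by
    rw [orderOf_pow_of_dvd (by omega) (hg ▸ Dvd.intro _ rfl), hg,
      Nat.mul_div_cancel_left _ (by omega)]
  obtain ⟨x, hx0⟩ : ∃ x : L, x = (g ^ (Nat.card K - 1) : Lˣ) := ⟨_, rfl⟩
  have hx1 : orderOf x = Nat.card K + 1 := by rw [hx0, orderOf_units, hx]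
  have hx2 : x ^ (Nat.card K + 1) = 1 := hx1 ▸ pow_orderOf_eq_one x
  have hn : Algebra.norm K x = 1 := by
    apply (algebraMap K L).injective
    rw [FiniteField.algebraMap_norm_eq_pow, hL, h6, Nat.mul_div_cancel_left _ (by omega), hx2,
      map_one]
  let σ : L ≃ₐ[K] L := FiniteField.Extension.frob K p 2
  have hσ : ∀ y, σ y = y ^ Nat.card K := fun y => FiniteField.Extension.frob_apply K p 2
  let s : Matrix (Fin 2) (Fin 2) K := LinearMap.toMatrix β β σ.toLinearMap
  have hs0 : s.det ≠ 0 := (LinearEquiv.isUnit_det σ.toLinearEquiv β β).ne_zero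
  obtain ⟨y, hy⟩ := FiniteField.norm_surjective K L s.det⁻¹
  let m := Algebra.leftMulMatrix β
  have hm : ∀ w, s * m w = m (σ w) * s := fun w => by
    simp only [s, m, ← Algebra.toMatrix_lmul_eq, ← LinearMap.toMatrix_mul]
    congr 1
    ext v
    simp
  let a : SL(2, K) := ⟨m x, by rw [← Algebra.norm_eq_matrix_det, hn]⟩
  let b : SL(2, K) := ⟨s * m y, by
    rw [det_mul, ← Algebra.norm_eq_matrix_det, hy, mul_inv_cancel₀ hs0]⟩
  refine ⟨a, b, ?_, ?_⟩
  · rw [← orderOf_injective SpecialLinearGroup.coeMonoidHom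
      SpecialLinearGroup.coeMonoidHom_injective, ← hx1]
    exact orderOf_injective m.toMonoidHom (Algebra.leftMulMatrix_injective β) x
  · rw [mul_inv_eq_iff_eq_mul, eq_inv_mul_iff_mul_eq]
    apply Subtype.ext
    change m x * (s * m y * m x) = s * m y
    rw [mul_assoc s, ← map_mul, hm, hm, ← mul_assoc, ← map_mul, map_mul σ, hσ x, mul_left_comm,
      ← pow_succ', hx2, mul_one]

end sl2

section fin
variable {X S : Type*} [Group X] [Group S] [Finite X]

theorem mult_fin {n l k : ℕ} (hl : l.Prime) (h4 : l = 2 → ¬ 4 ∣ n) (h1 : l ≠ 2 → ¬ l ∣ n)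
    (h : l ^ k ∣ n) : l ^ k ∣ 2 := by
  rcases k with _ | k
  · simp
  · by_cases h2 : l = 2
    · subst h2
      rcases k with _ | k
      · simp
      · exact absurd ((pow_dvd_pow 2 (by omega : 2 ≤ k + 1 + 1)).trans h) (h4 rfl)
    · exact absurd ((dvd_pow_self l k.succ_ne_zero).trans h) (h1 h2)

/-- away from the characteristic the multiplier of a quotient of `SL(2, K)` has order at most two -/
theorem mult_sl2 (p : ℕ) (hp : p.Prime) (hp2 : p ≠ 2) (K : Type) [Field K] [Finite K] [CharP K p]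
    (hX : commutator X = ⊤) (π : X →* S) (hs : Function.Surjective π) (hc : π.ker ≤ center X)
    (f : SL(2, K) →* S) (hf : Function.Surjective f) (l : ℕ) (hl : l.Prime) (hlp : l ≠ p) (k : ℕ)
    (h : l ^ k ∣ Nat.card π.ker) : l ^ k ∣ 2 := by
  have := Fact.mk hp
  have := Fintype.ofFinite K
  obtain ⟨n, -, hn⟩ := FiniteField.card K p
  rw [← Nat.card_eq_fintype_card] at hn
  have hlq : ¬ l ∣ Nat.card K := fun h =>
    hlp ((Nat.prime_dvd_prime_iff_eq hl hp).mp (hl.dvd_of_dvd_pow (hn ▸ h)))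
  have hodd : Odd (Nat.card K) := hn ▸ (hp.odd_of_ne_two hp2).pow
  have h5 : 1 < Nat.card K := Finite.one_lt_card
  obtain ⟨a, b, ha, hab⟩ := mult_split K
  obtain ⟨a', b', ha', hab'⟩ := mult_nonsplit K p
  have i1 := (zpowers a).card_mul_index
  have i2 := (zpowers a').card_mul_index
  rw [Nat.card_zpowers, ha, mult_card, mul_left_comm] at i1
  rw [Nat.card_zpowers, ha', mult_card, mul_comm (_ - 1), mul_left_comm] at i2
  replace i1 := Nat.eq_of_mul_eq_mul_left (by omega) i1
  replace i2 := Nat.eq_of_mul_eq_mul_left (by omega) i2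
  have hco : (4 : ℕ).Coprime (Nat.card K) := (Nat.coprime_two_left.mpr hodd).pow_left 2
  obtain ⟨m, hm⟩ := hodd
  refine mult_fin hl (fun _ => ?_) (fun h2 => ?_) h
  · by_cases h3 : 4 ∣ Nat.card K + 1
    · refine mult_dih' hX π hs hc f hf a' b' hab' (fun h => ?_) fun h => ?_
      · have := Nat.le_of_dvd two_pos h
        omega
      · have := hco.dvd_of_dvd_mul_left (i2 ▸ h)
        omega
    · refine mult_dih' hX π hs hc f hf a b hab (fun h => ?_) fun h => ?_
      · have := Nat.le_of_dvd two_pos h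
        omega
      · exact h3 (hco.dvd_of_dvd_mul_left (i1 ▸ h))
  · by_cases h3 : l ∣ Nat.card K + 1
    · refine mult_cyc' hX π hs hc f hf hl a' fun h => ?_
      have h4 := (hl.dvd_mul.mp (i2 ▸ h)).resolve_left hlq
      have h6 := Nat.dvd_sub h3 h4
      rw [show Nat.card K + 1 - (Nat.card K - 1) = 2 by omega] at h6
      exact h2 ((Nat.prime_dvd_prime_iff_eq hl Nat.prime_two).mp h6)
    · exact mult_cyc' hX π hs hc f hf hl a fun h =>
        h3 ((hl.dvd_mul.mp (i1 ▸ h)).resolve_left hlq)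

/-- away from three the multiplier of the alternating group on seven letters has order at most two -/
theorem mult_a7 (hX : commutator X = ⊤) (π : X →* S) (hs : Function.Surjective π)
    (hc : π.ker ≤ center X) (e : S ≃* alternatingGroup (Fin 7)) (l : ℕ) (hl : l.Prime)
    (hl3 : l ≠ 3) (k : ℕ) (h : l ^ k ∣ Nat.card π.ker) : l ^ k ∣ 2 := by
  have hcard : Nat.card (alternatingGroup (Fin 7)) = 2520 := by
    have := two_mul_nat_card_alternatingGroup (α := Fin 7)
    rw [Nat.card_perm, Nat.card_fin, show Nat.factorial 7 = 5040 by decide] at this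
    omega
  refine mult_fin hl (fun _ => ?_) (fun h2 => ?_) h
  · let a : alternatingGroup (Fin 7) :=
      ⟨Equiv.swap 0 1 * Equiv.swap 1 2 * Equiv.swap 2 3 * Equiv.swap 4 5, by
        simp [Equiv.Perm.mem_alternatingGroup]⟩
    let b : alternatingGroup (Fin 7) := ⟨Equiv.swap 0 2 * Equiv.swap 4 5, by
        simp [Equiv.Perm.mem_alternatingGroup]⟩
    have ha : orderOf a = 2 ^ (1 + 1) :=
      orderOf_eq_prime_pow (fun h => absurd (congrArg Subtype.val h) (by decide))
        (Subtype.ext (by decide))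
    have i1 := (zpowers a).card_mul_index
    rw [Nat.card_zpowers, ha, hcard] at i1
    refine mult_dih' hX π hs hc e.symm.toMonoidHom e.symm.surjective a b
      (Subtype.ext (by decide)) (by rw [ha]; decide) (by omega)
  · have := Fact.mk hl
    have : Finite S := Finite.of_surjective π hs
    refine uce_transfer hX π hc fun h3 => ?_
    rw [Nat.card_congr e.toEquiv, hcard] at h3
    have h4 : l * l ≤ 2520 := pow_two l ▸ Nat.le_of_dvd (by norm_num) h3
    have h5 : l ≤ 50 := by nlinarith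
    have h6 := hl.two_le
    interval_cases l <;> first | omega | norm_num at hl

end fin

end Pool.Agent.Lib.MP_1ae3da_al.CT
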