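import Pool.Agent.Lib.MP_1ae3da_al.S.A7c
import Pool.Agent.Lib.MP_1ae3da_al.S.Lift
import Pool.Agent.Lib.MP_1ae3da_al.S.Mult

/-! The linked McKay bijection for the alternating group on seven letters, `p = 3`. -/

namespace Pool.Agent.Lib.MP_1ae3da_al.CT

open Submodule Pool.Agent.Lib.McK

variable {p : ℕ} {F k A : Type} [Field F] [Field k] [Ring A] [Algebra F A] {O R : Subring F}
  {r : F → k} {GG : Subgroup (RingAut F)}

theorem a7_ml (h : PM p O R r GG) (hp3 : p = 3) (j : NSV.Qbar →+* F)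
    (hj : ∀ σ ∈ GG, ∃ s ∈ NSV.H p, ∀ x, σ (j x) = j (s x))
    (S : Type) [Group S] [Finite S] (e : S ≃* alternatingGroup (Fin 7)) {u : S → A}
    (hu : TG F u) (Q : Sylow p S) :
    ML F p GG (Hm F u ⊤) (Hm F u (Subgroup.normalizer (Q : Set S))) := by
  subst hp3
  have hp := h.prime
  have : Fact (Nat.Prime 3) := ⟨hp⟩
  have := h.charF
  have := h.algF
  obtain ⟨Y, _, _, f, f1, f2, f3, f4, f5⟩ := a7_cover 7 le_rfl
  let g : Y →* S := e.symm.toMonoidHom.comp f
  have hg : g.ker = f.ker := by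
    ext x
    simp [g, MonoidHom.mem_ker]
  have g2 : Function.Surjective g := e.symm.surjective.comp f2
  have hperf : commutator S = ⊤ := by
    rw [← Subgroup.map_top_of_surjective g g2, ← f1, commutator_def, commutator_def,
      Subgroup.map_commutator, Subgroup.map_top_of_surjective g g2]
  obtain ⟨X, _, _, π, hπ⟩ := exists_uce S hperf
  obtain ⟨T, hT, -⟩ := uce_syl g g2 (hg ▸ f3) Q
  have hN : (Subgroup.normalizer (Q : Set S)).comap g = Subgroup.normalizer (T : Set Y) := by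
    ext x
    rw [uce_norm g (hg ▸ f3) T x, hT]; rfl
  refine lift_ml hp hπ hu g g2 f1 (hg ▸ f3) (by rw [hg, f4]; decide) (fun l h1 h2 m h3 => ?_) _
    (fun hd => Q.not_dvd_index (hd.trans (Subgroup.index_dvd_of_le Subgroup.le_normalizer))) ?_
  · rw [hg, f4]
    exact mult_a7 hπ.perf π hπ.surj hπ.cent e l h1 h2 m h3
  · rw [hN]
    exact alt_link j hj Y f1 T (f5 3 hp (by decide) (by decide) T)

end Pool.Agent.Lib.MP_1ae3da_al.CT
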