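import Pool.Agent.Lib.MP_1ae3da_al.C.TL
import Pool.Agent.Lib.MP_1ae3da_al.C.TP

/-! General lemmas: commutative corners, links from fixed primitive idempotents, restriction. -/

namespace Pool.Agent.Lib.MP_1ae3da_al.CT

open Submodule

variable {F A : Type} [Field F] [Ring A] [Algebra F A] {GG : Subgroup (RingAut F)}
  {Γ : Subgroup (RingAut A)} {S L M L' M' X Y : Set A} {e e' f f' j j' : A}

/-- `j` is an idempotent of the span of `S` with commutative corner. -/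
def CC (F : Type) {A : Type} [Field F] [Ring A] [Algebra F A] (S : Set A) (j : A) : Prop :=
  j ∈ span F S ∧ j * j = j ∧
    ∀ a ∈ span F S, ∀ b ∈ span F S, j * a * j * b * j = j * b * j * a * j

theorem g2_mat {n : ℕ} {x : Matrix (Fin n) (Fin n) F} (h0 : x ≠ 0) (h1 : x * x = x)
    (h : ∀ a b, x * a * x * b * x = x * b * x * a * x) : x.rank = 1 := by
  obtain ⟨i, k, hik⟩ : ∃ i k, x i k ≠ 0 := by
    by_contra hn
    push Not at hn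
    exact h0 (Matrix.ext hn)
  have key (a b s t : Fin n) : (x * Matrix.single a i (1 : F) * x * Matrix.single b i (1 : F) * x :
      Matrix (Fin n) (Fin n) F) s t = x s a * x i b * x i t := by
    simp [Matrix.mul_apply, Matrix.single_apply, ite_and, Finset.sum_ite_eq]
  have rk : x = Matrix.vecMulVec (fun s => x s k) fun t => x i t / x i k := by
    ext s t
    have q := congrFun (congrFun (h (Matrix.single t i 1) (Matrix.single k i 1)) s) k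
    rw [key, key] at q
    rw [Matrix.vecMulVec_apply, ← mul_div_assoc, eq_div_iff hik]
    exact mul_right_cancel₀ hik q
  exact (tpa_rank h1).2 ⟨_, _, tpa_norm h1 h0 rk, rk⟩

/-- COMM -/
theorem CC.prim [IsAlgClosed F] (hS : Nice F S) (h : CC F S j) (he : e ∈ Irr F S)
    (h0 : j * e ≠ 0) : Prim F S e (j * e) := by
  obtain ⟨n, ρ, m⟩ := exists_MM hS he
  have hm := hS.span_mul h.1 he.1.1
  have q : ρ (j * e) = ρ j := by rw [m.mul _ h.1 _ he.1.1, m.one, mul_one]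
  refine (m.prim_iff hS he hm (by rw [mul_assoc, he.2.1]) ?_).2 ?_
  · rw [mul_assoc, ← mul_assoc e, ← te_cen he h.1, mul_assoc j e, he.2.1, ← mul_assoc, h.2.1]
  rw [q]
  refine g2_mat (fun z => h0 (m.inj _ h.1 z)) (by rw [← m.mul _ h.1 _ h.1, h.2.1]) fun a b => ?_
  obtain ⟨a, ha, rfl⟩ := m.surj a
  obtain ⟨b, hb, rfl⟩ := m.surj b
  have k {a b : A} (ha : a ∈ span F S) (hb : b ∈ span F S) :
      ρ j * ρ a * ρ j * ρ b * ρ j = ρ (j * a * j * b * j) := by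
    have p1 := hS.span_mul h.1 ha
    have p2 := hS.span_mul p1 h.1
    rw [m.mul _ (hS.span_mul p2 hb) _ h.1, m.mul _ p2 _ hb, m.mul _ p1 _ h.1, m.mul _ h.1 _ ha]
  rw [k ha hb, k hb ha, h.2.2 a ha b hb]

theorem CC.comm [IsAlgClosed F] (hS : Nice F S) (h : CC F S j) (he : e ∈ Irr F S) :
    j * e = 0 ∨ Prim F S e (j * e) := (eq_or_ne (j * e) 0).imp_right (h.prim hS he)

theorem g2_cut (he : e ∈ Irr F S) (_hj : j ∈ span F S) {y : A} (hy : y ∈ span F S) :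
    j * e * y * (j' * e) = j * y * j' * e ∨ j' ∉ span F S := by
  refine or_iff_not_imp_right.2 fun hj' => ?_
  have hj' := not_not.1 hj'
  rw [mul_assoc j e, ← te_cen he hy, ← mul_assoc j, mul_assoc (j * y), ← mul_assoc e,
    ← te_cen he hj', mul_assoc j', he.2.1, ← mul_assoc]

/-- PAIRB, existence of the basis vector of one block. -/
theorem pairb_ex [IsAlgClosed F] (hS : Nice F S) (h : CC F S j) (h' : CC F S j')
    (he : e ∈ Irr F S) (h0 : j * e ≠ 0) (h0' : j' * e ≠ 0) :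
    ∃ y ∈ span F S, j * y * j' = y ∧ y * e = y ∧ y ≠ 0 := by
  obtain ⟨y, hy, y', -, a, -, b, -⟩ := Prim.equiv hS he (h.prim hS he h0) (h'.prim hS he h0')
  rw [(g2_cut he h.1 hy).resolve_right (not_not.2 h'.1)] at a
  have c : y * e = y := by rw [← a, mul_assoc _ e, he.2.1]
  refine ⟨y, hy, ?_, c, fun z => h0 (by rw [← b, z, zero_mul])⟩
  rw [← a, ← mul_assoc, ← mul_assoc, ← mul_assoc, h.2.1, mul_assoc _ e, ← te_cen he h'.1,
    ← mul_assoc, mul_assoc _ j' j', h'.2.1]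

/-- PAIRB, independence. -/
theorem pairb_ind {P : Set A} (hP : P ⊆ Irr F S) {y : A → A}
    (hy : ∀ e ∈ P, y e * e = y e ∧ y e ≠ 0) : LinearIndependent F fun e : P => y e := by
  classical
  refine linearIndependent_iff'.2 fun s g hg i hi => ?_
  have q := congrArg (· * (i : A)) hg
  simp only [Finset.sum_mul, zero_mul, smul_mul_assoc] at q
  rw [Finset.sum_eq_single i (fun k _ hk => by
    rw [← (hy k k.2).1, mul_assoc, Irr_orth (hP k.2) (hP i.2) fun z => hk (Subtype.ext z),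
      mul_zero, smul_zero]) fun z => (z hi).elim, (hy i i.2).1] at q
  exact (smul_eq_zero.1 q).resolve_right (hy i i.2).2

/-- PAIRB, span. -/
theorem pairb_span [IsAlgClosed F] (hS : Nice F S) (h : CC F S j) (h' : CC F S j') {P : Set A}
    (hP : ∀ e, e ∈ P ↔ e ∈ Irr F S ∧ j * e ≠ 0 ∧ j' * e ≠ 0) {y : A → A}
    (hy : ∀ e ∈ P, y e ∈ span F S ∧ j * y e * j' = y e ∧ y e * e = y e ∧ y e ≠ 0) (a : A) :
    a ∈ span F (Set.range fun e : P => y e) ↔ a ∈ span F S ∧ j * a * j' = a := by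
  constructor
  · intro ha
    induction ha using span_induction with
    | mem x k =>
      obtain ⟨e, rfl⟩ := k
      exact ⟨(hy e e.2).1, (hy e e.2).2.1⟩
    | zero => simp
    | add x y _ _ p q => exact ⟨add_mem p.1 q.1, by rw [mul_add, add_mul, p.2, q.2]⟩
    | smul c x _ p => exact ⟨smul_mem _ c p.1, by rw [mul_smul_comm, smul_mul_assoc, p.2]⟩
  rintro ⟨ha, k⟩
  obtain ⟨s, h1, h2⟩ := hS.irr_sum
  rw [← h2 a ha]
  refine sum_mem fun e he => ?_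
  have he : e ∈ Irr F S := h1 ▸ he
  have c := (g2_cut (j' := j') he h.1 ha).resolve_right (not_not.2 h'.1)
  rw [k] at c
  by_cases z : j * e = 0
  · rw [← c, z, zero_mul, zero_mul]; exact zero_mem _
  by_cases z' : j' * e = 0
  · rw [← c, z', mul_zero]; exact zero_mem _
  have hp := (hP e).2 ⟨he, z, z'⟩
  obtain ⟨y1, y2, y3, y4⟩ := hy e hp
  obtain ⟨t, ht⟩ := (Prim.line hS he (h.prim hS he z) (h'.prim hS he z') y1 (by
    rw [(g2_cut he h.1 y1).resolve_right (not_not.2 h'.1), y2, y3]) y4).2 a ha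
  rw [← c, ht]
  exact smul_mem _ t (subset_span ⟨⟨e, hp⟩, rfl⟩)

theorem g2_scal [IsAlgClosed F] (hS : Nice F S) (he : e ∈ Irr F S) (hj : Prim F S e j)
    {a : RingAut A} (ha : Lin F a) (h1 : a ∈ Stb S) (h2 : a j = j) {w : A} (hw : w ∈ Ln F S e a) :
    ∃ c : F, c ≠ 0 ∧ w * j = c • j := by
  obtain ⟨c, hc⟩ := hj.2.2.2.2 w hw.1
  have q : w * j = c • j := by
    rw [← hc, ← h2, ← Ln_span ha hw hj.1, h2, mul_assoc, hj.2.2.1]
  obtain ⟨w', -, -, k⟩ := Ln_unit hS he ha h1 hw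
  refine ⟨c, fun z => hj.2.2.2.1 ?_, q⟩
  rw [← hj.2.1, te_cen he hj.1, ← k, mul_assoc, q, z, zero_smul, mul_zero]

/-- LINE -/
theorem link_line [IsAlgClosed F] (hL : Nice F L) (hM : Nice F M) (hML : M ⊆ L)
    (he : e ∈ Irr F L) (he' : e' ∈ Irr F M) (hj : Prim F L e j) (hj' : Prim F M e' j')
    (hΓ : ∀ γ ∈ Γ, γ ∈ SG GG A ∧ γ ∈ Stb L ∧ γ ∈ Stb M ∧ γ e = e ∧ γ e' = e' ∧ γ j = j ∧ γ j' = j')
    (hm : ∀ a ∈ Γ, Lin F a → ∀ m ∈ M, (∀ x ∈ L, m * x = a x * m) →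
      ∃ c : F, m * j = c • j ∧ m * j' = c • j') : ∃ U, Link F Γ L M e e' U := by
  refine ⟨fun a w w' => a ∈ Γ ∧ Lin F a ∧ w ∈ Ln F L e a ∧ w' ∈ Ln F M e' a ∧
    ∃ c : F, w * j = c • j ∧ w' * j' = c • j', fun a w w' k => ⟨k.1, k.2.1, k.2.2.1, k.2.2.2.1⟩,
    fun a ha l => ?_, ?_, ?_, ?_, fun a ha l m hm' k => ?_, ?_⟩
  · obtain ⟨-, g1, g2, g3, g4, g5, g6⟩ := hΓ a ha
    obtain ⟨w, hw⟩ := Ln_exists hL he l g1 g3
    obtain ⟨v, hv⟩ := Ln_exists hM he' l g2 g4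
    obtain ⟨c, c0, hc⟩ := g2_scal hL he hj l g1 g5 hw
    obtain ⟨d, d0, hd⟩ := g2_scal hM he' hj' l g2 g6 hv
    exact ⟨d • w, c • v, ha, l, Ln_smul hw d0, Ln_smul hv c0, c * d,
      by rw [smul_mul_assoc, hc, smul_smul, mul_comm], by rw [smul_mul_assoc, hd, smul_smul]⟩
  · rintro a w w' b v v' ⟨a1, a2, a3, a4, c, a5, a6⟩ ⟨b1, b2, b3, b4, d, b5, b6⟩
    exact ⟨mul_mem a1 b1, a2.mul b2, Ln_mul hL he a2 (hΓ a a1).2.1 (hΓ b b1).2.1 a3 b3,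
      Ln_mul hM he' a2 (hΓ a a1).2.2.1 (hΓ b b1).2.2.1 a4 b4, d * c,
      by rw [mul_assoc, b5, mul_smul_comm, a5, smul_smul],
      by rw [mul_assoc, b6, mul_smul_comm, a6, smul_smul]⟩
  · rintro a w w' t ht ⟨a1, a2, a3, a4, c, a5, a6⟩
    exact ⟨a1, a2, Ln_smul a3 ht, Ln_smul a4 ht, t * c, by rw [smul_mul_assoc, a5, smul_smul],
      by rw [smul_mul_assoc, a6, smul_smul]⟩
  · rintro a w w₁ w₂ ⟨a1, a2, -, a4, c, a5, a6⟩ ⟨-, -, -, b4, d, b5, b6⟩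
    obtain ⟨-, -, g2, -, -, -, g6⟩ := hΓ a a1
    obtain rfl : c = d := smul_left_injective F hj.2.2.2.1 (a5.symm.trans b5)
    obtain ⟨t, -, rfl⟩ := Ln_unique hM he' a2 g2 a4 b4
    obtain ⟨r, r0, hr⟩ := g2_scal hM he' hj' a2 g2 g6 a4
    rw [smul_mul_assoc, ← a6, hr, smul_smul] at b6
    rw [mul_right_cancel₀ r0 ((smul_left_injective F hj'.2.2.2.1 b6).trans (one_mul r).symm),
      one_smul]
  · obtain ⟨c, p, q⟩ := hm a ha l m hm' k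
    exact ⟨ha, l, Ln_hm hL he (hML hm') k, Ln_hm hM he' hm' fun x hx => k x (hML hx), c,
      by rw [mul_assoc, ← te_cen he hj.1, hj.2.1, p],
      by rw [mul_assoc, ← te_cen he' hj'.1, hj'.2.1, q]⟩
  · rintro γ hγ a w w' ⟨a1, a2, a3, a4, c, a5, a6⟩
    obtain ⟨g0, g1, g2, g3, g4, g5, g6⟩ := hΓ γ hγ
    obtain ⟨σ, -, s⟩ := id g0
    exact ⟨mul_mem (mul_mem hγ a1) (inv_mem hγ), s.lin a2, g3 ▸ ln_stb g0 g1 a3,
      g4 ▸ ln_stb g0 g2 a4, σ c, by rw [← g5, ← map_mul, a5, s], by rw [← g6, ← map_mul, a6, s]⟩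

theorem g2_res [IsAlgClosed F] (hL : Nice F L) (hL' : Nice F L') (hLL : L ⊆ L')
    (he : e ∈ Irr F L) (hf : f ∈ Irr F L') (hef : e * f = f)
    (hs : ∀ b ∈ L', ∃ a ∈ span F L, b * f = a * f) {a : RingAut A} (ha : Lin F a) (h1 : a ∈ Stb L)
    (h2 : a f = f) {w : A} (hw : w ∈ Ln F L e a) : w * f ∈ Ln F L' f a := by
  have hw' : w ∈ span F L' := span_mono hLL hw.1
  obtain ⟨w', -, -, k⟩ := Ln_unit hL he ha h1 hw
  refine ⟨hL'.span_mul hw' hf.1.1, by rw [mul_assoc, hf.2.1], fun z => hf.2.2.1 ?_, fun x hx => ?_⟩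
  · rw [← hef, ← k, mul_assoc, z, mul_zero]
  obtain ⟨b, hb, q⟩ := hs x hx
  have q' : a x * f = a b * f := by rw [← h2, ← map_mul, q, map_mul]
  rw [mul_assoc, hf.1.2 x hx, q, ← mul_assoc, Ln_span ha hw hb, mul_assoc, te_cen hf hw',
    ← mul_assoc, ← mul_assoc, q']

/-- RES -/
theorem link_res [IsAlgClosed F] {U : RingAut A → A → A → Prop} (h : Link F Γ L' M' f f' U)
    (hL : Nice F L) (hM : Nice F M) (hL' : Nice F L') (hM' : Nice F M') (hML : M ⊆ L)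
    (hLL : L ⊆ L') (hMM : M ⊆ M') (he : e ∈ Irr F L) (he' : e' ∈ Irr F M) (hf : f ∈ Irr F L')
    (hf' : f' ∈ Irr F M') (hef : e * f = f) (hef' : e' * f' = f')
    (hs : ∀ b ∈ L', ∃ a ∈ span F L, b * f = a * f)
    (hs' : ∀ b ∈ M', ∃ a ∈ span F M, b * f' = a * f')
    (hΓ : ∀ γ ∈ Γ, γ ∈ SG GG A ∧ γ ∈ Stb L ∧ γ ∈ Stb M ∧ γ ∈ Stb L' ∧ γ ∈ Stb M' ∧
      γ e = e ∧ γ e' = e' ∧ γ f = f ∧ γ f' = f')
    (hm : ∀ a ∈ Γ, Lin F a → ∀ m ∈ M, (∀ x ∈ L, m * x = a x * m) → ∀ x ∈ L', m * x = a x * m) :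
    ∃ U', Link F Γ L M e e' U' := by
  have cm {S : Set A} {g w v : A} (hg : g ∈ Irr F S) (hv : v ∈ span F S) :
      w * v * g = w * g * (v * g) := by
    rw [mul_assoc w g, ← mul_assoc g, ← te_cen hg hv, mul_assoc v, hg.2.1, mul_assoc]
  refine ⟨fun a w w' => w ∈ Ln F L e a ∧ w' ∈ Ln F M e' a ∧ U a (w * f) (w' * f'),
    fun a w w' k => ⟨(h.int a _ _ k.2.2).1, (h.int a _ _ k.2.2).2.1, k.1, k.2.1⟩,
    fun a ha l => ?_, ?_, ?_, ?_, fun a ha l m hm' k => ?_, ?_⟩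
  · obtain ⟨-, g1, g2, -, g4, g5, g6, g7, g8⟩ := hΓ a ha
    obtain ⟨w, hw⟩ := Ln_exists hL he l g1 g5
    obtain ⟨v, hv⟩ := Ln_exists hM he' l g2 g6
    obtain ⟨y, hy⟩ := h.tot' hL' hf (fun γ k => (hΓ γ k).2.2.2.1) ha l
      (g2_res hL hL' hLL he hf hef hs l g1 g7 hw)
    obtain ⟨c, c0, rfl⟩ := Ln_unique hM' hf' l g4 (g2_res hM hM' hMM he' hf' hef' hs' l g2 g8 hv)
      (h.int a _ _ hy).2.2.2
    exact ⟨w, c • v, hw, Ln_smul hv c0, by rwa [smul_mul_assoc]⟩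
  · rintro a w w' b v v' ⟨a1, a2, a3⟩ ⟨b1, b2, b3⟩
    obtain ⟨ha, l, -⟩ := h.int a _ _ a3
    have hb := (h.int b _ _ b3).1
    refine ⟨Ln_mul hL he l (hΓ a ha).2.1 (hΓ b hb).2.1 a1 b1,
      Ln_mul hM he' l (hΓ a ha).2.2.1 (hΓ b hb).2.2.1 a2 b2, ?_⟩
    rw [cm hf (span_mono hLL b1.1), cm hf' (span_mono hMM b2.1)]
    exact h.mul _ _ _ _ _ _ a3 b3
  · rintro a w w' t ht ⟨a1, a2, a3⟩
    refine ⟨Ln_smul a1 ht, Ln_smul a2 ht, ?_⟩
    rw [smul_mul_assoc, smul_mul_assoc]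
    exact h.smul _ _ _ t ht a3
  · rintro a w w₁ w₂ ⟨-, a2, a3⟩ ⟨-, b2, b3⟩
    obtain ⟨ha, l, -, i⟩ := h.int a _ _ a3
    obtain ⟨t, -, rfl⟩ := Ln_unique hM he' l (hΓ a ha).2.2.1 a2 b2
    have q := h.fn _ _ _ _ a3 b3
    rw [smul_mul_assoc] at q
    rw [smul_left_injective F i.2.2.1 (q.symm.trans (one_smul F _).symm), one_smul]
  · refine ⟨Ln_hm hL he (hML hm') k, Ln_hm hM he' hm' fun x hx => k x (hML hx), ?_⟩
    rw [mul_assoc, mul_assoc, hef, hef']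
    exact h.loc a ha l m (hMM hm') (hm a ha l m hm' k)
  · rintro γ hγ a w w' ⟨a1, a2, a3⟩
    obtain ⟨g0, g1, g2, -, -, g5, g6, g7, g8⟩ := hΓ γ hγ
    refine ⟨g5 ▸ ln_stb g0 g1 a1, g6 ▸ ln_stb g0 g2 a2, ?_⟩
    have q := h.nat γ hγ a _ _ a3
    rwa [map_mul, map_mul, g7, g8] at q

/-- REL -/
theorem lk_rel (R : A → A → Prop) (iX : ∀ γ ∈ Γ, ∀ x ∈ X, γ x ∈ X) (iY : ∀ γ ∈ Γ, ∀ y ∈ Y, γ y ∈ Y)
    (hR : ∀ γ ∈ Γ, ∀ x ∈ X, ∀ y ∈ Y, R x y → R (γ x) (γ y))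
    (h1 : ∀ x ∈ X, ∃ y ∈ Y, R x y) (h2 : ∀ y ∈ Y, ∃ x ∈ X, R x y)
    (u1 : ∀ x ∈ X, ∀ y ∈ Y, ∀ y' ∈ Y, R x y → R x y' → y = y')
    (u2 : ∀ x ∈ X, ∀ x' ∈ X, ∀ y ∈ Y, R x y → R x' y → x = x')
    (hl : ∀ x ∈ X, ∀ y ∈ Y, R x y → ∃ U, Link F (Γ ⊓ Fx x) L M x y U) : LK F Γ L M X Y := by
  choose! Ω o1 o2 using h1
  refine ⟨Ω, ⟨⟨o1, fun x hx x' hx' q => u2 x hx x' hx' _ (o1 x hx) (o2 x hx) (q ▸ o2 x' hx'),
    fun y hy => ?_⟩, fun γ hγ x hx => ⟨iX γ hγ x hx, ?_⟩⟩, fun x hx => hl x hx _ (o1 x hx) (o2 x hx)⟩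
  · obtain ⟨x, hx, r⟩ := h2 y hy
    exact ⟨x, hx, u1 x hx _ (o1 x hx) y hy (o2 x hx) r⟩
  · have k := iX γ hγ x hx
    exact u1 _ k _ (o1 _ k) _ (iY γ hγ _ (o1 x hx)) (o2 _ k) (hR γ hγ x hx _ (o1 x hx) (o2 x hx))

end Pool.Agent.Lib.MP_1ae3da_al.CT
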