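import Pool.Agent.Lib.MP_1ae3da_al.S.Gen1
import Pool.Agent.Lib.MP_1ae3da_al.S.Gen2

/-! Counting blocks and degrees with idempotents whose corners are commutative. -/

namespace Pool.Agent.Lib.MP_1ae3da_al.CT

open Submodule

variable {F A : Type} [Field F] [Ring A] [Algebra F A] {S L L' : Set A} {e x j j' a w : A}

theorem CC.mono (h : CC F L' j) (hL : L ⊆ L') (hj : j ∈ span F L) : CC F L j :=
  ⟨hj, h.2.1, fun a ha b hb => h.2.2 a (span_mono hL ha) b (span_mono hL hb)⟩

/-- the corner lies in the span of pairwise commuting elements -/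
theorem cc_comm {T : Set A} (hj : j ∈ span F S) (h1 : j * j = j)
    (h : ∀ a ∈ span F S, j * a * j ∈ span F T) (hT : ∀ s ∈ T, ∀ t ∈ T, s * t = t * s) :
    CC F S j := by
  refine ⟨hj, h1, fun a ha b hb => ?_⟩
  have k (a b : A) : j * a * j * b * j = (j * a * j) * (j * b * j) := by
    rw [← mul_assoc, ← mul_assoc, mul_assoc _ j j, h1]
  have c : ∀ s ∈ span F T, ∀ t ∈ span F T, s * t = t * s := by
    intro s hs t ht
    induction hs, ht using span_induction₂ with
    | mem_mem y z hy hz => exact hT y hy z hz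
    | zero_left => simp
    | zero_right => simp
    | add_left y z v _ _ _ p q => rw [add_mul, mul_add, p, q]
    | add_right y z v _ _ _ p q => rw [add_mul, mul_add, p, q]
    | smul_left r y z _ _ p => rw [smul_mul_assoc, mul_smul_comm, p]
    | smul_right r y z _ _ p => rw [smul_mul_assoc, mul_smul_comm, p]
  rw [k, k, c _ (h a ha) _ (h b hb)]

theorem cc_line (hj : j ∈ span F S) (h1 : j * j = j)
    (h : ∀ a ∈ span F S, ∃ c : F, j * a * j = c • j) : CC F S j :=
  cc_comm (T := {j}) hj h1 (fun a ha => by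
    obtain ⟨c, hc⟩ := h a ha
    exact mem_span_singleton.2 ⟨c, hc.symm⟩) (by rintro _ rfl _ rfl; rfl)

theorem cc_two (hj : j ∈ span F S) (h1 : j * j = j) (hw : j * w = w * j)
    (h : ∀ a ∈ span F S, ∃ c d : F, j * a * j = c • j + d • w) : CC F S j :=
  cc_comm (T := {j, w}) hj h1 (fun a ha => by
    obtain ⟨c, d, hc⟩ := h a ha
    exact mem_span_pair.2 ⟨c, d, hc.symm⟩) (by
      rintro _ (rfl | rfl) _ (rfl | rfl)
      exacts [rfl, hw, hw.symm, rfl])

variable [IsAlgClosed F]

open Classical in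
/-- the degree is the number of idempotents that survive -/
theorem rank_dg [CharZero F] {I : Type} (hS : Nice F S) (he : e ∈ Irr F S) (s : Finset I)
    (j : I → A) (hj : ∀ i ∈ s, CC F S (j i)) (h1 : (∑ i ∈ s, j i) * e = e) :
    dg F S e = (s.filter fun i => j i * e ≠ 0).card := by
  obtain ⟨n, ρ, m⟩ := exists_MM hS he
  rw [m.size hS he]
  have t (i : I) (hi : i ∈ s) : (ρ (j i * e)).trace = if j i * e ≠ 0 then 1 else 0 := by
    split_ifs with h0
    · have p := (hj i hi).prim hS he h0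
      have q : ρ (j i * e) * ρ (j i * e) = ρ (j i * e) := by
        rw [← m.mul _ p.1 _ p.1, p.2.2.1]
      obtain ⟨x, y, a, b⟩ := (tpa_rank q).1 ((m.prim_iff hS he p.1 p.2.1 p.2.2.1).1 p)
      rw [b, Matrix.trace_vecMulVec, dotProduct_comm, a]
    · rw [not_not.1 h0, map_zero, Matrix.trace_zero]
  have k := congrArg (fun y => (ρ y).trace) h1
  simp only [Finset.sum_mul, map_sum, Matrix.trace_sum, m.one, Matrix.trace_one,
    Fintype.card_fin] at k
  rw [Finset.sum_congr rfl t, Finset.sum_boole] at k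
  exact_mod_cast k.symm

/-- a block is a simple algebra -/
theorem blk_full (hS : Nice F S) (he : e ∈ Irr F S) (ha : a ∈ span F S) (h0 : a * e ≠ 0) :
    ∃ (n : ℕ) (y z : Fin n → A), (∀ i, y i ∈ span F S) ∧ (∀ i, z i ∈ span F S) ∧
      (∑ i, y i * a * z i) * e = e := by
  obtain ⟨n, ρ, m⟩ := exists_MM hS he
  obtain ⟨i, k, hik⟩ : ∃ i k, ρ a i k ≠ 0 := by
    by_contra hn
    push Not at hn
    exact h0 (m.inj a ha (Matrix.ext hn))
  choose y hy hy' using fun s : Fin n => m.surj (Matrix.single s i (ρ a i k)⁻¹)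
  choose z hz hz' using fun s : Fin n => m.surj (Matrix.single k s 1)
  refine ⟨n, y, z, hy, hz, ?_⟩
  have p (s : Fin n) := hS.span_mul (hy s) ha
  have q : ρ (∑ s, y s * a * z s - e) = 0 := by
    rw [map_sub, map_sum, m.one, Finset.sum_congr rfl fun s _ => by
      rw [m.mul _ (p s) _ (hz s), m.mul _ (hy s) _ ha, hy', hz',
        Matrix.single_mul_mul_single, mul_one, inv_mul_cancel₀ hik], sub_eq_zero]
    exact Matrix.sum_single_one
  have r := m.inj _ (sub_mem (sum_mem fun s _ => hS.span_mul (p s) (hz s)) he.1.1) q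
  rwa [sub_mul, he.2.1, sub_eq_zero] at r

/-- multiplication by an element that commutes with the block is injective on the block -/
theorem blk_inj (hS : Nice F S) (he : e ∈ Irr F S) (ha : a ∈ span F S) (h0 : a * e ≠ 0)
    (hx : ∀ b ∈ span F S, b * x = x * b) (h1 : e * x ≠ 0) : a * e * x ≠ 0 := by
  obtain ⟨n, y, z, -, hz, h⟩ := blk_full hS he ha h0
  intro q
  apply h1
  rw [← h, Finset.sum_mul, Finset.sum_mul]
  refine Finset.sum_eq_zero fun i _ => ?_
  rw [mul_assoc _ (z i), te_cen he (hz i), ← mul_assoc, mul_assoc _ (z i), hx _ (hz i),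
    ← mul_assoc, mul_assoc (y i), mul_assoc (y i), q, mul_zero, zero_mul]

/-- OVER, first half: `j` of rank at most one upstairs sees only `e`. -/
theorem over_j (hL : Nice F L) (hL' : Nice F L') (hLL : L ⊆ L') (he : e ∈ Irr F L)
    (hx : x ∈ Irr F L') (h0 : e * x ≠ 0) (h : CC F L' j) (hj : j ∈ span F L) (h1 : j * e ≠ 0) :
    j * e * x = j * x ∧ j * x ≠ 0 := by
  have n0 := blk_inj hL he hj h1 (fun b hb => te_cen hx (span_mono hLL hb)) h0
  have ex : e * x = x * e := te_cen hx (span_mono hLL he.1.1)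
  have je : j * e = e * j := te_cen he hj
  have jx : j * x = x * j := te_cen hx h.1
  have n1 : j * x ≠ 0 := fun q => n0 (by rw [je, mul_assoc, q, mul_zero])
  have p := h.prim hL' hx n1
  obtain ⟨c, hc⟩ := p.2.2.2.2 e (span_mono hLL he.1.1)
  have k : j * x * e = j * e * x := by rw [mul_assoc, ← ex, mul_assoc]
  have k2 : j * x * e * (j * x) = j * e * x := by
    rw [mul_assoc (j * x), ← mul_assoc e, ← je, mul_assoc j e, ex, ← mul_assoc j,
      ← mul_assoc, p.2.2.1, k]
  rw [k2] at hc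
  have k3 : j * e * x * e = j * e * x := by
    rw [mul_assoc _ x, ← ex, ← mul_assoc, mul_assoc j e e, he.2.1]
  have k4 : c • (j * e * x) = j * e * x := by
    conv_rhs => rw [← k3, hc, smul_mul_assoc, k]
  have c1 : c = 1 := by
    have : (c - 1) • (j * e * x) = 0 := by rw [sub_smul, k4, one_smul, sub_self]
    exact sub_eq_zero.1 ((smul_eq_zero.1 this).resolve_right n0)
  exact ⟨by rw [hc, c1, one_smul], n1⟩

/-- OVER, second half: the restriction is irreducible. -/
theorem over_span (hL : Nice F L) (hL' : Nice F L') (hLL : L ⊆ L') (he : e ∈ Irr F L)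
    (hx : x ∈ Irr F L') (h0 : e * x = x) (h : CC F L' j) (hj : j ∈ span F L) (h1 : j * e ≠ 0) :
    ∀ b ∈ span F L', ∃ a ∈ span F L, a * x = b * x := by
  intro b hb
  obtain ⟨n, y, z, hy, hz, k⟩ := blk_full hL he hj h1
  have n1 := (over_j hL hL' hLL he hx (h0.symm ▸ hx.2.2.1) h hj h1).2
  have p := h.prim hL' hx n1
  have up {a : A} (ha : a ∈ span F L) : a ∈ span F L' := span_mono hLL ha
  have k1 : (∑ i, y i * j * z i) * x = x := by
    conv_lhs => rw [← h0, ← mul_assoc, k, h0]
  have m (i l : Fin n) := hL'.span_mul (hL'.span_mul (up (hz i)) hb) (up (hy l))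
  choose c hc using fun i l : Fin n => p.2.2.2.2 _ (m i l)
  have q (i l : Fin n) : y i * j * z i * (b * (y l * j * z l * x)) =
      (c i l • (y i * j * z l)) * x := by
    have r : j * (z i * b * y l) * (j * x) = c i l • (j * x) := by
      rw [← hc, mul_assoc j x, ← te_cen hx (m i l), ← mul_assoc j _ x, mul_assoc _ x,
        ← te_cen hx p.1, p.2.1]
    calc y i * j * z i * (b * (y l * j * z l * x))
        = y i * (j * (z i * b * y l) * (j * x)) * z l := by
          rw [mul_assoc _ (z l) x, te_cen hx (up (hz l))]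
          simp only [mul_assoc]
      _ = _ := by
          rw [r, smul_mul_assoc, mul_assoc _ (z l) x, te_cen hx (up (hz l))]
          simp only [mul_assoc, mul_smul_comm, smul_mul_assoc]
  refine ⟨∑ i, ∑ l, c i l • (y i * j * z l), sum_mem fun i _ => sum_mem fun l _ =>
    smul_mem _ _ (hL.span_mul (hL.span_mul (hy i) hj) (hz l)), ?_⟩
  have k2 : (∑ i, y i * j * z i) * (b * x) = b * x := by
    rw [te_cen hx hb, ← mul_assoc, k1]
  rw [← k2, Finset.sum_mul, Finset.sum_mul]
  refine Finset.sum_congr rfl fun i _ => ?_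
  conv_rhs => rw [← k1, Finset.sum_mul, Finset.mul_sum, Finset.mul_sum]
  rw [Finset.sum_mul]
  exact Finset.sum_congr rfl fun l _ => (q i l).symm

theorem rank_fin (hS : Nice F S) : (Irr F S).Finite := by
  obtain ⟨s, hs, -⟩ := hS.irr_sum
  rw [← hs]; exact s.finite_toSet

/-- a basis of `j span(S) j'` indexed by the blocks -/
theorem pair_basis (hS : Nice F S) (h : CC F S j) (h' : CC F S j') (P : Finset A)
    (hP : ∀ e, e ∈ P ↔ e ∈ Irr F S ∧ j * e ≠ 0 ∧ j' * e ≠ 0) :
    ∃ y : A → A, (∀ e ∈ P, y e * e = y e) ∧ (LinearIndependent F fun e : P => y e) ∧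
      ∀ a, a ∈ span F (Set.range fun e : P => y e) ↔ a ∈ span F S ∧ j * a * j' = a := by
  choose! y hy using fun e (he : e ∈ (P : Set A)) =>
    pairb_ex hS h h' ((hP e).1 he).1 ((hP e).1 he).2.1 ((hP e).1 he).2.2
  exact ⟨y, fun e he => (hy e he).2.2.1,
    pairb_ind (P := (P : Set A)) (fun e he => ((hP e).1 he).1) fun e he => (hy e he).2.2,
    pairb_span hS h h' (P := (P : Set A)) hP hy⟩

theorem pair_fin (hS : Nice F S) (j j' : A) :
    ∃ P : Finset A, ∀ e, e ∈ P ↔ e ∈ Irr F S ∧ j * e ≠ 0 ∧ j' * e ≠ 0 :=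
  ⟨((rank_fin hS).subset (s := Irr F S) (t := {e | e ∈ Irr F S ∧ j * e ≠ 0 ∧ j' * e ≠ 0})
    fun _ q => q.1).toFinset, fun _ => Set.Finite.mem_toFinset _⟩

/-- the number of blocks that see both idempotents -/
theorem pair_card {I : Type} [Fintype I] (hS : Nice F S) (h : CC F S j) (h' : CC F S j')
    {y : I → A} (hy : LinearIndependent F y)
    (hs : ∀ a, a ∈ span F (Set.range y) ↔ a ∈ span F S ∧ j * a * j' = a) :
    {e | e ∈ Irr F S ∧ j * e ≠ 0 ∧ j' * e ≠ 0}.ncard = Fintype.card I := by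
  obtain ⟨P, hP⟩ := pair_fin hS j j'
  obtain ⟨z, -, hz, hs'⟩ := pair_basis hS h h' P hP
  have q : span F (Set.range y) = span F (Set.range fun e : P => z e) :=
    Submodule.ext fun a => (hs a).trans (hs' a).symm
  rw [← finrank_span_eq_card hy, q, finrank_span_eq_card hz, Fintype.card_coe,
    ← Set.ncard_coe_finset]
  congr 1
  exact Set.ext fun e => (hP e).symm

theorem pair_line (hS : Nice F S) (h : CC F S j) (h' : CC F S j') (hw : w ∈ span F S)
    (h0 : w ≠ 0) (h1 : j * w * j' = w) (h2 : ∀ a ∈ span F S, ∃ c : F, j * a * j' = c • w) :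
    ∃! e, e ∈ Irr F S ∧ j * e ≠ 0 ∧ j' * e ≠ 0 := by
  have := pair_card (y := fun _ : Unit => w) hS h h' (linearIndependent_unique_iff.2 h0) fun a => by
    rw [Set.range_const, mem_span_singleton]
    constructor
    · rintro ⟨c, rfl⟩
      exact ⟨smul_mem _ c hw, by rw [mul_smul_comm, smul_mul_assoc, h1]⟩
    · rintro ⟨ha, k⟩
      obtain ⟨c, hc⟩ := h2 a ha
      exact ⟨c, by rw [← hc, k]⟩
  obtain ⟨e, he⟩ := Set.ncard_eq_one.1 this
  exact ⟨e, he.ge rfl, fun f hf => he.le hf⟩

/-- some block sees both elements iff the mixed corner is not zero -/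
theorem pair_ne (hS : Nice F S) (hj : j ∈ span F S) (hj' : j' ∈ span F S) :
    (∃ e ∈ Irr F S, j * e ≠ 0 ∧ j' * e ≠ 0) ↔ ∃ a ∈ span F S, j * a * j' ≠ 0 := by
  constructor
  · rintro ⟨e, he, h, h'⟩
    by_contra hn
    push Not at hn
    obtain ⟨n, y, z, -, hz, k⟩ := blk_full hS he hj h
    apply h'
    rw [te_cen he hj', ← k, Finset.sum_mul, Finset.sum_mul]
    refine Finset.sum_eq_zero fun i _ => ?_
    rw [mul_assoc _ (z i), mul_assoc (y i), mul_assoc (y i),
      hn _ (hS.span_mul (hz i) he.1.1), mul_zero]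
  · rintro ⟨a, ha, h⟩
    obtain ⟨s, h1, h2⟩ := hS.irr_sum
    rw [← h2 a ha, Finset.mul_sum, Finset.sum_mul] at h
    obtain ⟨e, he, q⟩ := Finset.exists_ne_zero_of_sum_ne_zero h
    have he : e ∈ Irr F S := h1 ▸ he
    refine ⟨e, he, fun z => q ?_, fun z => q ?_⟩
    · rw [te_cen he ha, ← mul_assoc, z, zero_mul, zero_mul]
    · rw [← mul_assoc, mul_assoc _ e, ← te_cen he hj', z, mul_zero]

open Classical in
/-- trace of the multiplication by an element that is a scalar on every block -/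
theorem pair_trace {I : Type} [Fintype I] (hS : Nice F S) (h : CC F S j) (h' : CC F S j')
    (P : Finset A) (hP : ∀ e, e ∈ P ↔ e ∈ Irr F S ∧ j * e ≠ 0 ∧ j' * e ≠ 0)
    {y : I → A} (hy : LinearIndependent F y)
    (hs : ∀ a, a ∈ span F (Set.range y) ↔ a ∈ span F S ∧ j * a * j' = a) (z : A) (c : A → F)
    (hc : ∀ e ∈ P, z * e = c e • e) (τ : I → I) (d : I → F)
    (hd : ∀ i, z * y i = d i • y (τ i)) : ∑ e ∈ P, c e = ∑ i with τ i = i, d i := by
  obtain ⟨v, h1, hv, hs'⟩ := pair_basis hS h h' P hP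
  have := trace_perm hv hy (Submodule.ext fun a => (hs' a).trans (hs a).symm)
    (LinearMap.mulLeft F z) id τ (fun e => c e) d (fun e => by
      have m := ((hs' _).1 (subset_span ⟨e, rfl⟩)).1
      change z * v e = c e • v e
      rw [← h1 e e.2, te_cen ((hP e).1 e.2).1 m, ← mul_assoc, hc e e.2, smul_mul_assoc]) hd
  rw [← this, ← Finset.sum_coe_sort]
  simp

open Classical in
/-- trace of a linear map that permutes the lines through the `j * e` -/
theorem corner_trace {I : Type} [Fintype I] (hS : Nice F S) (h : CC F S j)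
    (P : Finset A) (hP : ∀ e, e ∈ P ↔ e ∈ Irr F S ∧ j * e ≠ 0)
    {y : I → A} (hy : LinearIndependent F y)
    (hs : ∀ a, a ∈ span F (Set.range y) ↔ a ∈ span F S ∧ j * a * j = a) (f : A →ₗ[F] A)
    (σ : A → A) (c : A → F) (hσ : ∀ e ∈ P, σ e ∈ P ∧ f (j * e) = c e • (j * σ e))
    (τ : I → I) (d : I → F) (hd : ∀ i, f (y i) = d i • y (τ i)) :
    ∑ e ∈ P with σ e = e, c e = ∑ i with τ i = i, d i := by
  have k (e : A) (he : e ∈ (P : Set A)) := h.prim hS ((hP e).1 he).1 ((hP e).1 he).2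
  have hv := pairb_ind (F := F) (P := (P : Set A)) (y := fun e => j * e)
    (fun e he => ((hP e).1 he).1) fun e he => ⟨(k e he).2.1, (k e he).2.2.2.1⟩
  have hs' := pairb_span hS h h (P := (P : Set A)) (y := fun e => j * e)
    (fun e => (hP e).trans (by rw [and_self])) fun e he => ⟨(k e he).1, by
      rw [← mul_assoc, h.2.1, mul_assoc, ← te_cen ((hP e).1 he).1 h.1, ← mul_assoc, h.2.1],
      (k e he).2.1, (k e he).2.2.2.1⟩
  have := trace_perm hv hy (Submodule.ext fun a => (hs' a).trans (hs a).symm) f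
    (fun e => ⟨σ e, (hσ e e.2).1⟩) τ (fun e => c e) d (fun e => (hσ e e.2).2) hd
  rw [← this, Finset.sum_filter, Finset.sum_filter, ← Finset.sum_coe_sort]
  exact Finset.sum_congr rfl fun e _ => by simp [Subtype.ext_iff]

end Pool.Agent.Lib.MP_1ae3da_al.CT
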