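import Pool.Agent.Lib.MP_1ae3da_al.S.Bru
import Pool.Agent.Lib.MP_1ae3da_al.S.Rank

/-! Blocks of `SL₂` with full support extend to `GL₂`. -/

namespace Pool.Agent.Lib.MP_1ae3da_al.CT

open Submodule Matrix

/-- a subgroup that contains the upper unipotents and is normalised by `SL₂` contains `SL₂` -/
theorem over_gen {K : Type} [Field K] (N : Subgroup (GL (Fin 2) K)) (hU : ∀ s, bx s ∈ N)
    (hc : ∀ n : GL (Fin 2) K, n.1.det = 1 → ∀ g ∈ N, n * g * n⁻¹ ∈ N) (g : GL (Fin 2) K)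
    (hg : g.1.det = 1) : g ∈ N := by
  let n : GL (Fin 2) K :=
    ⟨!![0, -1; 1, 0], !![0, 1; -1, 0], by simp [one_fin_two], by simp [one_fin_two]⟩
  have hn : n.1.det = 1 := by simp [n, det_fin_two]
  have v (c : K) : (n * bx (-c) * n⁻¹).1 = !![1, 0; c, 1] := by
    change !![0, -1; 1, 0] * !![1, -c; 0, 1] * !![0, 1; -1, 0] = _
    simp
  have big (g : GL (Fin 2) K) (hg : g.1.det = 1) (h : g.1 1 0 ≠ 0) : g ∈ N := by
    have d : g.1 0 0 * g.1 1 1 - g.1 0 1 * g.1 1 0 = 1 := by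
      rw [← det_fin_two]; exact hg
    have : g = bx ((g.1 0 0 - 1) / g.1 1 0) * (n * bx (-g.1 1 0) * n⁻¹) *
        bx ((g.1 1 1 - 1) / g.1 1 0) := by
      apply Units.ext
      rw [Units.val_mul, Units.val_mul, v, bx_val, bx_val]
      ext i j
      fin_cases i <;> fin_cases j <;> simp <;> field_simp
      · ring
      · linear_combination -d
      · ring
    rw [this]
    exact mul_mem (mul_mem (hU _) (hc n hn _ (hU _))) (hU _)
  by_cases h : g.1 1 0 = 0
  · have m := hc n hn _ (hU (-1))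
    refine (N.mul_mem_cancel_left m).1 (big _ ?_ ?_)
    · rw [Units.val_mul, det_mul, v, hg]
      simp [det_fin_two]
    · rw [Units.val_mul, v]
      simpa [mul_apply, Fin.sum_univ_two, h] using (bru_tri h).1
  · exact big g hg h

variable {F K : Type} [Field F] [Field K] [Fintype K] [CharZero F] [IsAlgClosed F]
  {lam : AddChar K F} {Y : Subgroup (GL (Fin 2) K)} {e x v : MonoidAlgebra F (GL (Fin 2) K)}

omit [Fintype K] in
theorem over_U (hY : ∀ g, g ∈ Y ↔ g.1.det = 1) (s : K) : bx s ∈ Y :=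
  (hY _).2 (by simp [bx_val, det_fin_two])

omit [IsAlgClosed F] in
/-- an element killed by all `E_k`, `k ≠ 0`, that commutes with `SL₂` is fixed by `SL₂` -/
theorem over_fix (hl : lam ≠ 1) (h : ∀ k, k ≠ 0 → bE lam k * v = 0)
    (hc : ∀ g : GL (Fin 2) K, g.1.det = 1 → gu F _ g * v = v * gu F _ g)
    (g : GL (Fin 2) K) (hg : g.1.det = 1) : gu F _ g * v = v := by
  have h0 : bE lam 0 * v = v := by
    conv_rhs => rw [← one_mul v, ← bE_sum hl, Finset.sum_mul,
      Finset.sum_eq_single 0 (fun k _ hk => h k hk) (fun q => (q (Finset.mem_univ _)).elim)]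
  let N : Subgroup (GL (Fin 2) K) :=
    { carrier := {g | gu F _ g * v = v}
      one_mem' := one_mul v
      mul_mem' := fun {a b} ha hb => by
        change gu F _ (a * b) * v = v
        rw [← gu_mul, mul_assoc, hb, ha]
      inv_mem' := fun {a} ha => by
        change gu F _ a⁻¹ * v = v
        conv_lhs => rw [← ha, ← mul_assoc, gu_mul, inv_mul_cancel, gu_one, one_mul] }
  refine over_gen N (fun s => ?_) (fun n hn a ha => ?_) g hg
  · change gu F _ (bx s) * v = v
    rw [← h0, ← mul_assoc, bx_bE, zero_mul, AddChar.map_zero_eq_one, one_smul]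
  · change gu F _ (n * a * n⁻¹) * v = v
    rw [← gu_mul, ← gu_mul, mul_assoc, hc n⁻¹ (by simp [hn]), ← mul_assoc,
      mul_assoc _ _ v, ha, hc n hn, mul_assoc, gu_mul, mul_inv_cancel, gu_one, mul_one]

/-- a block of an overgroup of `SL₂` that cuts a nonzero element fixed by `SL₂` has no support -/
theorem over_triv (hl : lam ≠ 1) {G : Subgroup (GL (Fin 2) K)}
    (hx : x ∈ Irr F (Hm F (gu F _) G)) (hv : v ∈ span F (Hm F (gu F _) G)) (h0 : v * x ≠ 0)
    (hf : ∀ g : GL (Fin 2) K, g.1.det = 1 → gu F _ g * v = v) :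
    (∀ g : GL (Fin 2) K, g.1.det = 1 → gu F _ g * x = x) ∧ ∀ k, k ≠ 0 → bE lam k * x = 0 := by
  obtain ⟨n, y, z, -, -, k⟩ := blk_full (nice_Hm0 (gu_tg (F := F)) G) hx hv h0
  have w (g : GL (Fin 2) K) (hg : g.1.det = 1)
      (a : MonoidAlgebra F (GL (Fin 2) K)) : gu F _ g * (a * v) = a * v := by
    have ha : a ∈ span F (Hm F (gu F (GL (Fin 2) K)) ⊤) := by rw [gu_span]; trivial
    induction ha using span_induction with
    | mem b hb =>
      obtain ⟨c, -, r, -, rfl⟩ := hb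
      rw [smul_mul_assoc, mul_smul_comm, ← mul_assoc, gu_mul,
        show g * r = r * (r⁻¹ * g * r) by group, ← gu_mul, mul_assoc,
        hf _ (by
          rw [Units.val_mul, Units.val_mul, det_mul, det_mul, hg, mul_one, ← det_mul,
            Units.inv_mul, det_one])]
    | zero => simp
    | add a b _ _ p q => rw [add_mul, mul_add, p, q]
    | smul c a _ p => rw [smul_mul_assoc, mul_smul_comm, p]
  have fx (g : GL (Fin 2) K) (hg : g.1.det = 1) : gu F _ g * x = x := by
    rw [← k, ← mul_assoc, Finset.mul_sum]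
    congr 1
    exact Finset.sum_congr rfl fun i _ => by rw [← mul_assoc, w g hg]
  refine ⟨fx, fun l hl0 => ?_⟩
  obtain ⟨s, hs⟩ := AddChar.ne_one_iff.1 hl
  have q : lam s • (bE lam l * x) = bE lam l * x := by
    have := bE_bx (lam := lam) (s / l) l
    rw [mul_div_cancel₀ _ hl0] at this
    rw [← smul_mul_assoc, ← this, mul_assoc,
      fx _ (by simp [bx_val, det_fin_two])]
  have : (lam s - 1) • (bE lam l * x) = 0 := by rw [sub_smul, q, one_smul, sub_self]
  exact (smul_eq_zero.1 this).resolve_left (sub_ne_zero.2 hs)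

/-- OVER -/
theorem over_y (hl : lam ≠ 1) (hY : ∀ g, g ∈ Y ↔ g.1.det = 1)
    (he : e ∈ Irr F (Hm F (gu F _) Y)) (hs : ∀ k, k ≠ 0 → bE lam k * e ≠ 0)
    (hx : x ∈ Irr F (Hm F (gu F _) ⊤)) (h0 : e * x ≠ 0) :
    e * x = x ∧ (∀ k, k ≠ 0 → bE lam k * x ≠ 0) ∧ ∀ b ∈ span F (Hm F (gu F _) ⊤),
      ∃ a ∈ span F (Hm F (gu F (GL (Fin 2) K)) Y), a * x = b * x := by
  have hL := nice_Hm0 (gu_tg (F := F)) Y
  have hT := nice_Hm0 (gu_tg (F := F) (X := GL (Fin 2) K)) ⊤
  have le : Hm F (gu F (GL (Fin 2) K)) Y ⊆ Hm F (gu F _) ⊤ :=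
    fun _ ⟨c, hc, g, _, q⟩ => ⟨c, hc, g, trivial, q⟩
  have all (a : MonoidAlgebra F (GL (Fin 2) K)) : a ∈ span F (Hm F (gu F (GL (Fin 2) K)) ⊤) := by
    rw [gu_span]; trivial
  have k (l : K) (h : l ≠ 0) := over_j hL hT le he hx h0 (bE_cc hl (fun _ => trivial) h)
    (bE_mem (over_U hY) l) (hs l h)
  have h1 : e * x = x := by
    by_contra hn
    have := over_triv hl hx (all (x - e * x))
      (by rw [sub_mul, mul_assoc, hx.2.1]; exact sub_ne_zero.2 (Ne.symm hn))
      (over_fix hl (fun l h => by rw [mul_sub, ← mul_assoc, (k l h).1, sub_self]) fun g hg => by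
        rw [mul_sub, sub_mul, ← mul_assoc, te_cen he (subset_span (aga_mem.2 ((hY g).2 hg))),
          mul_assoc, mul_assoc, te_cen hx (all _)])
    exact (k 1 one_ne_zero).2 (this.2 1 one_ne_zero)
  exact ⟨h1, fun l h => (k l h).2, over_span hL hT le he hx h1
    (bE_cc hl (fun _ => trivial) one_ne_zero) (bE_mem (over_U hY) 1) (hs 1 one_ne_zero)⟩

end Pool.Agent.Lib.MP_1ae3da_al.CT
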