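import Pool.Agent.Lib.MP_1ae3da_al.S.BlkA
import Pool.Agent.Lib.MP_1ae3da_al.S.Over
import Pool.Agent.Lib.MP_1ae3da_al.C.RCb

/-! The degrees of the blocks of `SL2` and of its Borel subgroup. -/

namespace Pool.Agent.Lib.MP_1ae3da_al.CT

open Submodule Matrix

section sq
variable {K : Type} [Field K] [Fintype K] {k l m : K}

theorem bk_nsq (hk : k ≠ 0) (hl : l ≠ 0) (hm : m ≠ 0) (h1 : ¬ IsSquare (k * l))
    (h2 : ¬ IsSquare (k * m)) : IsSquare (l * m) := by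
  classical
  rw [← quadraticChar_neg_one_iff_not_isSquare, map_mul] at h1 h2
  rw [← quadraticChar_one_iff_isSquare (mul_ne_zero hl hm), map_mul]
  rcases quadraticChar_dichotomy hk with h | h <;> rw [h] at h1 h2 <;> nlinarith

theorem bk_all : {l : K | l ≠ 0}.ncard + 1 = Fintype.card K := by
  rw [← Set.ncard_insert_of_notMem (a := 0) (by simp), ← Nat.card_eq_fintype_card,
    ← Set.ncard_univ]
  congr 1
  ext x
  simp [em]

theorem bk_half (h2 : (2 : K) ≠ 0) (hk : k ≠ 0) :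
    2 * {l : K | l ≠ 0 ∧ IsSquare (k * l)}.ncard + 1 = Fintype.card K := by
  obtain ⟨n, hn⟩ := FiniteField.exists_nonsquare (F := K) fun z =>
    h2 (by exact_mod_cast (ringChar.spec K 2).2 (z ▸ dvd_rfl))
  have n0 : n ≠ 0 := fun z => hn (z ▸ IsSquare.zero)
  have e : {l : K | l ≠ 0} = {l : K | l ≠ 0 ∧ IsSquare (k * l)} ∪
      (n * ·) '' {l : K | l ≠ 0 ∧ IsSquare (k * l)} := by
    ext l
    refine ⟨fun hl => (em (IsSquare (k * l))).imp (fun h => ⟨hl, h⟩) fun h =>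
      ⟨n⁻¹ * l, ⟨mul_ne_zero (inv_ne_zero n0) hl, ?_⟩, mul_inv_cancel_left₀ n0 l⟩, ?_⟩
    · rw [mul_left_comm]
      refine bk_nsq one_ne_zero (inv_ne_zero n0) (mul_ne_zero hk hl) ?_ (by rwa [one_mul])
      rwa [one_mul, isSquare_inv]
    · rintro (h | ⟨x, h, rfl⟩)
      · exact h.1
      · exact mul_ne_zero n0 h.1
  rw [← bk_all, e, Set.ncard_union_eq, Set.ncard_image_of_injective _ (mul_right_injective₀ n0),
    two_mul]
  rw [Set.disjoint_left]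
  rintro _ h ⟨x, h', rfl⟩
  refine hn ?_
  have := h.2.div h'.2
  rwa [mul_left_comm, mul_div_cancel_right₀ _ (mul_ne_zero hk h'.1)] at this

/-- a union of square classes -/
theorem bk_cls (h2 : (2 : K) ≠ 0) {P : K → Prop}
    (h : ∀ k l, k ≠ 0 → l ≠ 0 → IsSquare (k * l) → P k → P l) :
    (∀ k, k ≠ 0 → ¬ P k) ∨ (∀ k, k ≠ 0 → P k) ∨
      2 * {k | k ≠ 0 ∧ P k}.ncard + 1 = Fintype.card K := by
  by_contra c
  push Not at c
  obtain ⟨⟨k, hk, p⟩, ⟨m, hm, q⟩, c⟩ := c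
  refine c ?_
  rw [← bk_half h2 hk]
  congr 3
  ext l
  refine and_congr_right fun hl => ⟨fun r => ?_, fun r => h k l hk hl r p⟩
  by_contra n
  exact q (h l m hl hm (bk_nsq hk hl hm n fun s => q (h k m hk hm s p)) r)

theorem bk_all' {P : K → Prop} (h : ∀ k, k ≠ 0 → P k) :
    {k | k ≠ 0 ∧ P k}.ncard + 1 = Fintype.card K := by
  rw [← bk_all]
  congr 2
  ext k
  exact and_iff_left_of_imp (h k)

end sq

variable {F K : Type} [Field F] [Field K] [Fintype K] {lam : AddChar K F} {k l : K}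
  {G Y B : Subgroup (GL (Fin 2) K)} {e e' α β a v : MonoidAlgebra F (GL (Fin 2) K)} {p : ℕ}
  [CharZero F]

theorem bk_E0_of (h : ∀ s : K, gu F _ (bx s) * v = v) : bE lam 0 * v = v := by
  simp only [bE, smul_mul_assoc, Finset.sum_mul, h, zero_mul, neg_zero, AddChar.map_zero_eq_one,
    one_smul, Finset.sum_const, Finset.card_univ]
  rw [← Nat.cast_smul_eq_nsmul F, inv_smul_smul₀ bru_q]

variable [IsAlgClosed F]

theorem bk_e0 (hU : ∀ s, bx s ∈ G) : BLin lam G (e0 F G) :=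
  ⟨e0_irr, bk_E0_of fun s => (gu_e0 (hU s)).1⟩

theorem bk_e0_le (h : B ≤ Y) : e0 F B * e0 F Y = e0 F Y :=
  rca_one (F := F) (Q := B) ▸ rca_fix 1 fun q => by simpa using (gu_e0 (h q.2)).1

theorem bk_pq [Fact p.Prime] [CharP K p] {n : ℕ} (h : p ∣ n) :
    n + 1 ≠ Fintype.card K ∧ 2 * n + 1 ≠ Fintype.card K ∧ n ≠ Fintype.card K + 1 ∧
      2 * n ≠ Fintype.card K + 1 ∧ n ≠ 1 := by
  have hp : p.Prime := Fact.out
  have q : p ∣ Fintype.card K := (CharP.cast_eq_zero_iff K p _).1 (FiniteField.cast_card_eq_zero K)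
  have k {a b : ℕ} (ha : p ∣ a) (hb : p ∣ b) : a + 1 ≠ b := fun z =>
    hp.one_lt.ne' (Nat.dvd_one.1 ((Nat.dvd_add_right ha).1 (z ▸ hb)))
  exact ⟨k h q, k (h.mul_left 2) q, (k q h).symm, (k q (h.mul_left 2)).symm,
    (k (dvd_zero p) h).symm⟩

/-- all blocks of an upper triangular group have degree prime to `p` -/
theorem bk_irrP [Fact p.Prime] [CharP K p] (hl : lam ≠ 1) (h2 : (2 : K) ≠ 0)
    (hU : ∀ s, bx s ∈ G) (hG : ∀ g ∈ G, g.1 1 0 = 0) (hT : ∀ a : Kˣ, bd a a⁻¹ ∈ G)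
    (he : e ∈ Irr F (HX F G)) : e ∈ IrrP F p (HX F G) := by
  refine ⟨he, fun d => ?_⟩
  rw [dvd_Dg_iff (bk_nice G) he Fact.out, bk_dgB hl hU hG he] at d
  obtain ⟨d1, d2, -, -, d3⟩ := bk_pq (K := K) d
  rcases bk_E0_or hl hU hG he with z | z
  · have q : {k | bE lam k * e ≠ 0} = {k | k ≠ 0 ∧ bE lam k * e ≠ 0} :=
      Set.ext fun k => (and_iff_right_of_imp fun h (w : k = 0) => h (w ▸ z)).symm
    rw [q] at d1 d2
    rcases bk_cls h2 (P := fun k => bE lam k * e ≠ 0)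
      (fun k l a b c => bk_supp_sq he.1 hT a b c) with h | h | h
    · exact he.2.2.1 ((bk_fix hl fun k hk => not_not.1 (h k hk)).symm.trans z)
    · exact d1 (bk_all' h)
    · exact d2 h
  · refine d3 (Set.ncard_eq_one.2 ⟨0, Set.ext fun k => ⟨fun h => ?_, ?_⟩⟩)
    · by_contra n
      exact h (bk_kill hl z n)
    · rintro rfl
      exact z.trans_ne he.2.2.1

/-- the support is empty exactly for the trivial block -/
theorem bk_triv (hl : lam ≠ 1) (hY : ∀ g, g ∈ Y ↔ g.1.det = 1) (he : e ∈ Irr F (HX F Y)) :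
    (∀ k, k ≠ 0 → bE lam k * e = 0) ↔ e = e0 F Y := by
  refine ⟨fun h => ?_, fun h k hk => h ▸ bk_kill hl (bk_e0 (bk_xY hY)).2 hk⟩
  rw [← rca_one]
  exact rca_eq he 1 fun q => by
    simpa using over_fix hl h (fun g hg => (he.1.2 _ (aga_mem.2 ((hY g).2 hg))).symm) q.1
      ((hY _).1 q.2)

variable (hl : lam ≠ 1) (hY : ∀ g, g ∈ Y ↔ g.1.det = 1)
  (hB : ∀ g, g ∈ B ↔ g.1.det = 1 ∧ g.1 1 0 = 0)
include hl hY hB

/-- the degree of a block of `SL2` -/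
theorem bk_dgY (he : e ∈ Irr F (HX F Y)) : dg F (HX F Y) e =
    {k | k ≠ 0 ∧ bE lam k * e ≠ 0}.ncard + {α | BLin lam B α ∧ α * e ≠ 0}.ncard := by
  classical
  obtain ⟨s, hs, h1⟩ := (bk_nice (F := F) B).irr_sum
  have m : ∀ α, α ∈ s.filter (fun α => bE lam 0 * α = α) ↔ BLin lam B α := fun α => by
    rw [Finset.mem_filter, ← Finset.mem_coe, hs]; rfl
  have h0 : ∑ α ∈ s.filter (fun α => bE lam 0 * α = α), α = bE lam 0 := by
    rw [Finset.sum_filter]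
    conv_rhs => rw [← h1 _ (bE_mem (lam := lam) (bk_xB hB) 0)]
    refine Finset.sum_congr rfl fun α hα => ?_
    split_ifs with h
    · exact h.symm
    · exact ((bk_E0_or hl (bk_xB hB) (fun g k => ((hB g).1 k).2) (hs ▸ hα)).resolve_right h).symm
  rw [rank_dg (bk_nice Y) he ((Finset.univ.erase 0).disjSum (s.filter fun α => bE lam 0 * α = α))
    (Sum.elim (bE lam) id) ?_ ?_, Finset.card_filter, Finset.sum_disjSum]
  · congr 1 <;> refine (@Finset.card_filter _ _ (_) _).symm.trans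
      ((Set.ncard_coe_finset _).symm.trans (congrArg _ (Set.ext fun x => ?_)))
    · simp
    · simp [← m]
  · rintro (k | α) h
    · exact bE_cc hl (bk_xY hY) (by simpa using h)
    · exact ((m α).1 (Finset.inr_mem_disjSum.1 h)).cc hl hY hB
  · rw [Finset.sum_disjSum]
    simp only [Sum.elim_inl, Sum.elim_inr, id, h0]
    rw [Finset.sum_erase_add _ _ (Finset.mem_univ _), bE_sum hl, one_mul]

theorem BLin.both (h : BLin lam B α) (h' : BLin lam B β) (n : α ≠ β) :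
    (∃ e ∈ Irr F (HX F Y), α * e ≠ 0 ∧ β * e ≠ 0) ↔ α * gu F _ bn * β ≠ 0 := by
  rw [pair_ne (bk_nice Y) (h.cc hl hY hB).1 (h'.cc hl hY hB).1]
  refine ⟨fun ⟨a, ha, q⟩ z => q ?_, fun q => ⟨_, bk_mem (bk_nY hY), q⟩⟩
  obtain ⟨c, d, r⟩ := h.cor' hl hY hB h' ha
  rw [r, Irr_orth h.1 h'.1 n, z, smul_zero, smul_zero, add_zero]

/-- a linear block that is not its own partner -/
theorem BLin.gen (h : BLin lam B α) (z : α * gu F _ bn * α = 0) (he : e ∈ Irr F (HX F Y))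
    (h0 : α * e ≠ 0) : (∀ k, k ≠ 0 → bE lam k * e ≠ 0) ∧
      {β | BLin lam B β ∧ β * e ≠ 0}.ncard = 2 := by
  have c := h.cc hl hY hB
  have u {e'} (h1 : e' ∈ Irr F (HX F Y)) (h2 : α * e' ≠ 0) : e' = e :=
    (pair_line (bk_nice Y) c c c.1 h.1.2.2.1 (by rw [c.2.1, c.2.1]) fun a ha => by
      obtain ⟨c, d, q⟩ := h.cor' hl hY hB h ha
      exact ⟨c, by rw [q, z, smul_zero, add_zero, h.1.2.1]⟩).unique ⟨h1, h2, h2⟩ ⟨he, h0, h0⟩
  obtain ⟨β, ⟨b1, b2⟩, b3⟩ := h.partner hl hY hB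
  have n : α ≠ β := fun w => b2 (w ▸ z)
  refine ⟨fun k hk => ?_, Set.ncard_eq_two.2 ⟨α, β, n, Set.ext fun γ => ⟨fun g => ?_, ?_⟩⟩⟩
  · obtain ⟨e', ⟨h1, h2, h3⟩, -⟩ := h.one hl hY hB hk
    exact u h1 h2 ▸ h3
  · exact (eq_or_ne γ α).imp_right fun w =>
      b3 γ ⟨g.1, (h.both hl hY hB g.1 w.symm).1 ⟨e, he, h0, g.2⟩⟩
  · rintro (rfl | rfl)
    · exact ⟨h, h0⟩
    · obtain ⟨e', h1, h2, h3⟩ := (h.both hl hY hB b1 n).2 b2
      exact ⟨b1, u h1 h2 ▸ h3⟩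

/-- a linear block that is its own partner -/
theorem BLin.own (h : BLin lam B α) (z : α * gu F _ bn * α ≠ 0) (he : e ∈ Irr F (HX F Y))
    (h0 : α * e ≠ 0) : {β | BLin lam B β ∧ β * e ≠ 0}.ncard = 1 ∧
      ∃ e', e' ≠ e ∧ ∀ x, (x ∈ Irr F (HX F Y) ∧ α * x ≠ 0) ↔ x = e ∨ x = e' := by
  have c := h.cc hl hY hB
  refine ⟨Set.ncard_eq_one.2 ⟨α, Set.ext fun γ => ⟨fun g => ?_, ?_⟩⟩, ?_⟩
  · by_contra w
    exact w ((h.partner hl hY hB).unique
      ⟨g.1, (h.both hl hY hB g.1 (Ne.symm w)).1 ⟨e, he, h0, g.2⟩⟩ ⟨h, z⟩)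
  · rintro rfl
    exact ⟨h, h0⟩
  have k := pair_card (bk_nice Y) c c (y := ![α, α * gu F _ bn * α])
    (LinearIndependent.pair_iff.2 fun s t q => by
      obtain ⟨d, hd⟩ := h.nb hl hY hB h.1.1.1
      rw [h.right (bk_xB hB)] at hd
      have s0 := h.ind hB (c := s) (d := t * d) (by rw [mul_smul, ← hd, q])
      rw [s0, zero_smul, zero_add] at q
      exact ⟨s0, (smul_eq_zero.1 q).resolve_right z⟩) fun a => by
      rw [range_cons, range_cons, range_empty, Set.union_empty, Set.singleton_union, mem_span_pair]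
      refine ⟨?_, fun ⟨a1, a2⟩ => ?_⟩
      · rintro ⟨s, t, rfl⟩
        refine ⟨add_mem (smul_mem _ _ c.1) (smul_mem _ _ (gu_span_mul Y _
          (gu_span_mul Y _ c.1 _ (bk_mem (bk_nY hY))) _ c.1)), ?_⟩
        simp only [mul_add, add_mul, mul_smul_comm, smul_mul_assoc, ← mul_assoc, c.2.1]
        rw [mul_assoc _ α α, c.2.1]
      · obtain ⟨s, t, q⟩ := h.cor' hl hY hB h a1
        exact ⟨s, t, by rw [← a2, q, c.2.1]⟩
  obtain ⟨x, y, n, q⟩ := Set.ncard_eq_two.1 k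
  have r (w) : (w ∈ Irr F (HX F Y) ∧ α * w ≠ 0) ↔ w = x ∨ w = y := by
    simpa using Set.ext_iff.1 q w
  rcases (r e).1 ⟨he, h0⟩ with rfl | rfl
  · exact ⟨y, n.symm, r⟩
  · exact ⟨x, n, fun w => (r w).trans or_comm⟩

omit hl in
theorem bk_own : e0 F B * gu F _ bn * e0 F B ≠ 0 := fun z => (e0_irr (F := F) (Q := Y)).2.2.1 (by
  have k := bk_e0_le (F := F) (bk_BY hY hB)
  rw [← k, ← (gu_e0 (bk_nY hY)).1, ← k, ← mul_assoc, ← mul_assoc, z, zero_mul])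

/-- the Steinberg block has full support -/
theorem bk_st (he : e ∈ Irr F (HX F Y)) (hk : k ≠ 0) (h1 : bE lam k * e ≠ 0)
    (h0 : e0 F B * e ≠ 0) (l : K) (l0 : l ≠ 0) : bE lam l * e ≠ 0 := by
  have h := bk_e0 (lam := lam) (bk_xB hB)
  obtain ⟨-, e', -, r⟩ := h.own hl hY hB (bk_own hY hB) he h0
  have t := (bk_triv hl hY e0_irr).2 rfl
  obtain rfl := ((r _).1 ⟨e0_irr, (bk_e0_le (bk_BY hY hB)).trans_ne e0_irr.2.2.1⟩).resolve_left
    fun w => h1 (w ▸ t k hk)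
  obtain ⟨x, ⟨x1, x2, x3⟩, -⟩ := h.one hl hY hB l0
  exact ((r x).1 ⟨x1, x2⟩).resolve_right (fun w => x3 (w ▸ t l l0)) ▸ x3

/-- DEG -/
theorem bk_deg [Fact p.Prime] [CharP K p] (h2 : (2 : K) ≠ 0) (he : e ∈ Irr F (HX F Y)) :
    p ∣ Dg F (HX F Y) e ↔ (∃ k, k ≠ 0 ∧ bE lam k * e ≠ 0) ∧ e0 F B * e ≠ 0 := by
  rw [dvd_Dg_iff (bk_nice Y) he Fact.out]
  have D := bk_dgY hl hY hB he
  refine ⟨fun d => ?_, fun ⟨⟨k, hk, h1⟩, h0⟩ => ?_⟩
  swap
  · rw [D, ((bk_e0 (bk_xB hB)).own hl hY hB (bk_own hY hB) he h0).1,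
      bk_all' (bk_st hl hY hB he hk h1 h0)]
    exact (CharP.cast_eq_zero_iff K p _).1 (FiniteField.cast_card_eq_zero K)
  obtain ⟨d1, d2, d3, d4, d5⟩ := bk_pq (K := K) d
  have C := bk_cls h2 (P := fun k => bE lam k * e ≠ 0)
    fun k l a b c => bk_supp_sq he.1 (fun a => bk_BY hY hB (bk_dB hB a)) a b c
  have C0 (h : ∀ k, k ≠ 0 → ¬ bE lam k * e ≠ 0) : {k | k ≠ 0 ∧ bE lam k * e ≠ 0}.ncard = 0 := by
    rw [Set.eq_empty_of_forall_notMem (s := {k | k ≠ 0 ∧ bE lam k * e ≠ 0})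
      fun k q => h k q.1 q.2, Set.ncard_empty]
  rcases {α | BLin lam B α ∧ α * e ≠ 0}.eq_empty_or_nonempty with z | ⟨α, h, h0⟩
  · rw [z, Set.ncard_empty, add_zero] at D
    rcases C with c | c | c
    · exact absurd (D.trans (C0 c)) (Dg_sq (bk_nice Y) he).2.ne'
    · exact absurd (D ▸ bk_all' c) d1
    · exact absurd (D ▸ c) d2
  by_cases z : α * gu F _ bn * α = 0
  · obtain ⟨a1, a2⟩ := h.gen hl hY hB z he h0
    have := bk_all' a1
    omega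
  obtain ⟨a1, e', n, r⟩ := h.own hl hY hB z he h0
  rcases C with c | c | c
  · have := C0 c
    omega
  · obtain ⟨b1, b2⟩ := (r e').2 (.inr rfl)
    obtain rfl := (bk_triv hl hY b1).1 fun k hk => not_not.1 fun w =>
      n ((h.one hl hY hB hk).unique ⟨b1, b2, w⟩ ⟨he, h0, c k hk⟩)
    refine ⟨⟨1, one_ne_zero, c 1 one_ne_zero⟩, ?_⟩
    rwa [← not_not.1 (mt (Irr_orth h.1 e0_irr) fun w => b2 (by
      rw [← bk_e0_le (bk_BY hY hB), ← mul_assoc, w, zero_mul]))]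
  · omega

end Pool.Agent.Lib.MP_1ae3da_al.CT
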