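import Pool.Agent.Lib.MP_1ae3da_al.S.Del
import Pool.Agent.Lib.MP_1ae3da_al.S.BlkY

/-! The blocks of degree prime to `p`. -/

namespace Pool.Agent.Lib.MP_1ae3da_al.CT

open Submodule Matrix

variable {F K : Type} [Field F] [IsAlgClosed F] [CharZero F] [Field K] [Fintype K]
  {lam : AddChar K F}

theorem irrP_Y {p : ℕ} [Fact p.Prime] [CharP K p] (h2 : (2 : K) ≠ 0) (hl : lam ≠ 1) :
    IrrP F p (HX F (dY K)) = {e0 F (dY K)} ∪ XA lam ∪ XB lam := by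
  have hY : ∀ g, g ∈ dY K ↔ _ := fun _ => mem_dY
  have hB : ∀ g, g ∈ dB K ↔ _ := fun _ => mem_dB
  ext e
  constructor
  · rintro ⟨he, d⟩
    rw [bk_deg hl hY hB h2 he] at d
    by_cases a : ∃ k, k ≠ 0 ∧ bE lam k * e ≠ 0
    · by_cases b : ∃ l, l ≠ 0 ∧ bE lam l * e = 0
      · exact .inl (.inr ⟨he, a, b⟩)
      · exact .inr ⟨he, fun k hk z => b ⟨k, hk, z⟩, not_not.1 fun z => d ⟨a, z⟩⟩
    · exact .inl (.inl ((bk_triv hl hY he).1 fun k hk => not_not.1 fun z => a ⟨k, hk, z⟩))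
  · rintro ((rfl | ⟨he, -, l, l0, z⟩) | ⟨he, -, z⟩)
    · exact ⟨e0_irr, fun d => by
        obtain ⟨⟨k, hk, q⟩, -⟩ := (bk_deg hl hY hB h2 e0_irr).1 d
        exact q ((bk_triv hl hY e0_irr).2 rfl k hk)⟩
    · exact ⟨he, fun d => by
        obtain ⟨⟨k, hk, q⟩, r⟩ := (bk_deg hl hY hB h2 he).1 d
        exact bk_st hl hY hB he hk q r l l0 z⟩
    · exact ⟨he, fun d => ((bk_deg hl hY hB h2 he).1 d).2 z⟩

theorem irrP_B {p : ℕ} [Fact p.Prime] [CharP K p] (h2 : (2 : K) ≠ 0) (hl : lam ≠ 1) :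
    IrrP F p (HX F (dB K)) = Irr F (HX F (dB K)) :=
  Set.ext fun _ => ⟨fun h => h.1, bk_irrP hl h2 bx_dB (fun _ h => h.1) (bk_dB fun _ => mem_dB)⟩

/-- the three kinds of blocks of the Borel subgroup -/
theorem irr_B (hl : lam ≠ 1) :
    Irr F (HX F (dB K)) = {e0 F (dB K)} ∪ YA lam ∪ YB lam := by
  ext e
  refine ⟨fun he => ?_, ?_⟩
  · rcases bk_E0_or hl bx_dB (fun _ h => h.1) he with z | z
    · exact .inl (.inr ⟨he, z⟩)
    · exact (eq_or_ne e _).imp .inl fun n => ⟨⟨he, z⟩, n⟩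
  · rintro ((rfl | h) | h)
    · exact e0_irr
    · exact h.1
    · exact h.1.1

end Pool.Agent.Lib.MP_1ae3da_al.CT
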