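import Pool.Agent.Lib.MP_1ae3da_al.S.BlkA

/-! The blocks of half degree: one for each class of squares and each sign. -/

namespace Pool.Agent.Lib.MP_1ae3da_al.CT

open Submodule Matrix

variable {F K : Type} [Field F] [Field K] [Fintype K] {lam : AddChar K F} {k l : K}
  {G Y B : Subgroup (GL (Fin 2) K)} {e : MonoidAlgebra F (GL (Fin 2) K)} {s : F}

omit [Fintype K] in
theorem ty_comm (a : MonoidAlgebra F (GL (Fin 2) K)) : gu F _ (-1) * a = a * gu F _ (-1) := by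
  induction a using MonoidAlgebra.induction_linear with
  | zero => simp
  | add a b p q => rw [mul_add, add_mul, p, q]
  | single x c => rw [← aga_smul, mul_smul_comm, smul_mul_assoc, gu_mul, gu_mul]; simp

omit [Fintype K] in
/-- the central element `-1` acts on a block by a sign -/
theorem bk_sign (hG : -1 ∈ G) (he : e ∈ Irr F (HX F G)) :
    ∃ s : F, (s = 1 ∨ s = -1) ∧ gu F _ (-1) * e = s • e := by
  obtain ⟨c, hc⟩ := he.2.2.2 (gu F _ (-1)) ⟨bk_mem hG, fun a _ => ty_comm a⟩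
  refine ⟨c, mul_self_eq_one_iff.1 ?_, hc⟩
  have h : (c * c - 1) • e = 0 := by
    rw [sub_smul, ← smul_smul, ← hc, ← mul_smul_comm, ← hc, ← mul_assoc, gu_mul]
    simp [gu_one]
  exact sub_eq_zero.1 ((smul_eq_zero.1 h).resolve_right he.2.2.1)

omit [Fintype K] in
theorem sign_uniq {s s' : F} (h0 : e ≠ 0) (h : gu F _ (-1) * e = s • e)
    (h' : gu F _ (-1) * e = s' • e) : s = s' := smul_left_injective F h0 (h.symm.trans h')

omit [Fintype K] in
theorem ty_neg (h2 : (2 : K) ≠ 0) (r : GL (Fin 2) K) : -1 * r ≠ r := fun h => by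
  have h1 := congrArg (fun g : GL (Fin 2) K => g.1 0 0) (mul_eq_right.1 h)
  simp only [Units.val_neg, Units.val_one, Matrix.neg_apply, one_apply_eq] at h1
  exact h2 (by linear_combination -h1)

omit [Fintype K] in
theorem BRep.neg {r : GL (Fin 2) K} (h : BRep k l r) : BRep k l (-1 * r) := by
  rcases h with h | h
  · exact .inl ⟨by simp [h.1], by simp [h.2]⟩
  · exact .inr ⟨⟨by simp [h.1.1], by simp [h.1.2]⟩, by simp [h.2]⟩

omit [Fintype K] in
theorem ty_dia (hk : k ≠ 0) {r : GL (Fin 2) K} (hd : r.1.det = 1) :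
    (BDia r ∧ k * r.1 0 0 = k * r.1 1 1) ↔ r = 1 ∨ r = -1 := by
  constructor
  · rintro ⟨h, q⟩
    have q := mul_left_cancel₀ hk q
    rw [det_fin_two, h.1, zero_mul, sub_zero, ← q] at hd
    refine (mul_self_eq_one_iff.1 hd).imp (fun a => Units.ext ?_) fun a => Units.ext ?_ <;>
      ext i j <;> fin_cases i <;> fin_cases j <;> simp [h.1, h.2, ← q, a]
  · rintro (rfl | rfl) <;> simp [BDia]

theorem ty_two [CharZero F] {A : Type} {Q : Finset A} {c : A → F} (h : Q.card = 2)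
    (hc : ∀ e ∈ Q, c e = 1 ∨ c e = -1) (h0 : ∑ e ∈ Q, c e = 0) (hs : s = 1 ∨ s = -1) :
    ∃! e, e ∈ Q ∧ c e = s := by
  classical
  obtain ⟨a, b, hab, rfl⟩ := Finset.card_eq_two.1 h
  rw [Finset.sum_pair hab] at h0
  have key : ∀ a b : A, c a + c b = 0 → c a = s → ∀ x, (x = a ∨ x = b) ∧ c x = s → x = a := by
    rintro a b h0 ha x ⟨rfl | rfl, hx⟩
    · rfl
    · rw [ha, hx] at h0
      rcases hs with rfl | rfl <;> norm_num at h0
  simp only [Finset.mem_insert, Finset.mem_singleton]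
  by_cases ha : c a = s
  · exact ⟨a, ⟨.inl rfl, ha⟩, key a b h0 ha⟩
  · have hb : c b = s := by
      rw [eq_neg_of_add_eq_zero_right h0]
      rcases hc a (by simp) with q | q <;> rcases hs with rfl | rfl <;> simp_all
    exact ⟨b, ⟨.inr rfl, hb⟩, fun x hx => key b a (by rwa [add_comm]) hb x ⟨hx.1.symm, hx.2⟩⟩

variable [CharZero F] [IsAlgClosed F]

/-- number and total sign of the blocks that see `E k` and `E l` -/
theorem ty_cnt (hl : lam ≠ 1) (hU : ∀ s, bx s ∈ G) (hG : -1 ∈ G) (h2 : (2 : K) ≠ 0) (hk : k ≠ 0)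
    (hl0 : l ≠ 0) {P : Finset (MonoidAlgebra F (GL (Fin 2) K))}
    (hP : ∀ e, e ∈ P ↔ e ∈ Irr F (HX F G) ∧ bE lam k * e ≠ 0 ∧ bE lam l * e ≠ 0)
    {c : MonoidAlgebra F (GL (Fin 2) K) → F} (hc : ∀ e ∈ P, gu F _ (-1) * e = c e • e) :
    P.card = {r | r ∈ G ∧ BRep k l r}.ncard ∧ ∑ e ∈ P, c e = 0 := by
  classical
  let : Fintype {r // r ∈ G ∧ BRep k l r} := Fintype.ofFinite _
  constructor
  · have := pair_card (bk_nice G) (bE_cc hl hU hk) (bE_cc hl hU hl0) (bru_ind hl G k l)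
      (bru_span hl hU k l)
    rw [← Set.ncard_coe_finset, ← Nat.card_coe_set_eq {r | r ∈ G ∧ BRep k l r},
      show (P : Set (MonoidAlgebra F (GL (Fin 2) K))) =
        {e | e ∈ Irr F (HX F G) ∧ bE lam k * e ≠ 0 ∧ bE lam l * e ≠ 0} from Set.ext hP, this]
    exact Fintype.card_eq_nat_card
  · rw [pair_trace (bk_nice G) (bE_cc hl hU hk) (bE_cc hl hU hl0) P hP (bru_ind hl G k l)
      (bru_span hl hU k l) (gu F _ (-1)) c hc
      (fun r => ⟨-1 * r.1, G.mul_mem hG r.2.1, r.2.2.neg⟩) (fun _ => 1) fun r => by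
        rw [one_smul, ← gu_mul, ← mul_assoc, ← mul_assoc, ty_comm, mul_assoc (bE lam k)]]
    refine Finset.sum_eq_zero fun r hr => ?_
    simp only [Finset.mem_filter, Finset.mem_univ, true_and] at hr
    exact absurd (congrArg Subtype.val hr) (ty_neg h2 r.1)

/-- one block of the Borel subgroup for each class of squares and each sign -/
theorem tyb (hl : lam ≠ 1) (hB : ∀ g, g ∈ B ↔ g.1.det = 1 ∧ g.1 1 0 = 0) (h2 : (2 : K) ≠ 0)
    (hk : k ≠ 0) (hs : s = 1 ∨ s = -1) :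
    ∃! e, e ∈ Irr F (HX F B) ∧ bE lam k * e ≠ 0 ∧ gu F _ (-1) * e = s • e := by
  have hG : -1 ∈ B := by simp [hB, det_fin_two]
  choose! c hc using fun e (he : e ∈ Irr F (HX F B)) => bk_sign hG he
  obtain ⟨P, hP⟩ := pair_fin (bk_nice (F := F) B) (bE lam k) (bE lam k)
  obtain ⟨h1, h0⟩ := ty_cnt hl (bk_xB hB) hG h2 hk hk hP fun e he => (hc e ((hP e).1 he).1).2
  have h3 : {r | r ∈ B ∧ BRep k k r} = {1, -1} := Set.ext fun r =>
    ⟨fun h => (ty_dia hk ((hB r).1 h.1).1).1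
      (h.2.resolve_left fun q => q.ne.2 ((hB r).1 h.1).2), fun h => by
      have m : r ∈ B := by
        rcases h with rfl | rfl
        exacts [B.one_mem, hG]
      exact ⟨m, .inr ((ty_dia hk ((hB r).1 m).1).2 h)⟩⟩
  rw [h3, Set.ncard_pair (by simpa using (ty_neg h2 1).symm)] at h1
  refine (existsUnique_congr fun e => ?_).1
    (ty_two h1 (fun e he => (hc e ((hP e).1 he).1).1) h0 hs)
  rw [hP]
  exact ⟨fun h => ⟨h.1.1, h.1.2.1, h.2 ▸ (hc e h.1.1).2⟩,
    fun h => ⟨⟨h.1, h.2.1, h.2.1⟩, sign_uniq h.1.2.2.1 (hc e h.1).2 h.2.2⟩⟩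

/-- one block of half degree of `SL2` for each class of squares and each sign -/
theorem tya (hl : lam ≠ 1) (hY : ∀ g, g ∈ Y ↔ g.1.det = 1) (h2 : (2 : K) ≠ 0) (hk : k ≠ 0)
    (hs : s = 1 ∨ s = -1) : ∃! e, e ∈ Irr F (HX F Y) ∧ bE lam k * e ≠ 0 ∧
      (∀ l, l ≠ 0 → ¬ IsSquare (k * l) → bE lam l * e = 0) ∧ gu F _ (-1) * e = s • e := by
  classical
  have hG : -1 ∈ Y := by simp [hY, det_fin_two]
  have hc2 : ringChar K ≠ 2 := fun h => h2 (by
    have := ringChar.Nat.cast_ringChar (R := K)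
    rwa [h, Nat.cast_ofNat] at this)
  obtain ⟨ν, hν⟩ := FiniteField.exists_nonsquare hc2
  have ν0 : ν ≠ 0 := fun h => hν (h ▸ IsSquare.zero)
  have n0 : ¬ IsSquare (k * (ν / k)) := by rwa [mul_div_cancel₀ _ hk]
  have l0 : ν / k ≠ 0 := div_ne_zero ν0 hk
  generalize ν / k = l at n0 l0
  choose! c hc using fun e (he : e ∈ Irr F (HX F Y)) => bk_sign hG he
  obtain ⟨P, hP⟩ := pair_fin (bk_nice (F := F) Y) (bE lam k) (bE lam k)
  obtain ⟨Q, hQ⟩ := pair_fin (bk_nice (F := F) Y) (bE lam k) (bE lam l)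
  obtain ⟨p1, p0⟩ := ty_cnt hl (bk_xY hY) hG h2 hk hk hP fun e he => (hc e ((hP e).1 he).1).2
  obtain ⟨q1, q0⟩ := ty_cnt hl (bk_xY hY) hG h2 hk l0 hQ fun e he => (hc e ((hQ e).1 he).1).2
  have hQP : Q ⊆ P := fun e he =>
    (hP e).2 ⟨((hQ e).1 he).1, ((hQ e).1 he).2.1, ((hQ e).1 he).2.1⟩
  have e1 : {r | r ∈ Y ∧ BRep k l r} = {r | r ∈ Y ∧ BAnt r} := Set.ext fun r =>
    ⟨fun h => ⟨h.1, h.2.resolve_right fun q => n0 ⟨k * r.1 0 0, by
      have d := (hY r).1 h.1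
      rw [det_fin_two, q.1.1, zero_mul, sub_zero] at d
      linear_combination (-(k * l)) * d - k * r.1 0 0 * q.2⟩⟩, fun h => ⟨h.1, .inl h.2⟩⟩
  have e2 : {r | r ∈ Y ∧ BRep k k r} = {r | r ∈ Y ∧ BAnt r} ∪ {1, -1} := Set.ext fun r =>
    ⟨fun h => h.2.imp (fun q => ⟨h.1, q⟩) (ty_dia hk ((hY r).1 h.1)).1, fun h => by
      rcases h with h | h
      · exact ⟨h.1, .inl h.2⟩
      · have m : r ∈ Y := by
          rcases h with rfl | rfl
          exacts [Y.one_mem, hG]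
        exact ⟨m, .inr ((ty_dia hk ((hY r).1 m)).2 h)⟩⟩
  rw [e2, Set.ncard_union_eq (Set.disjoint_left.2 fun r h h' => by
    rcases h' with rfl | rfl <;> simpa using h.2.1), ← e1, ← q1,
    Set.ncard_pair (by simpa using (ty_neg h2 1).symm)] at p1
  have hm : ∀ e, e ∈ P \ Q ↔ e ∈ Irr F (HX F Y) ∧ bE lam k * e ≠ 0 ∧ bE lam l * e = 0 := fun e => by
    rw [Finset.mem_sdiff, hP, hQ]
    tauto
  refine (existsUnique_congr fun e => ?_).1 (ty_two (Q := P \ Q) (c := c)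
    (by rw [Finset.card_sdiff_of_subset hQP]; omega) (fun e he => (hc e ((hm e).1 he).1).1)
    (by rw [Finset.sum_sdiff_eq_sub hQP, p0, q0, sub_zero]) hs)
  rw [hm]
  refine ⟨fun h => ⟨h.1.1, h.1.2.1, fun l' h1 h3 => ?_, h.2 ▸ (hc e h.1.1).2⟩,
    fun h => ⟨⟨h.1, h.2.1, h.2.2.1 l l0 n0⟩, sign_uniq h.1.2.2.1 (hc e h.1).2 h.2.2.2⟩⟩
  by_contra q
  refine bk_supp_sq h.1.1.1 (fun a => by simp [hY, bd_val]) h1 l0 ?_ q h.1.2.2
  have a := quadraticChar_neg_one_iff_not_isSquare.2 h3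
  have b := quadraticChar_neg_one_iff_not_isSquare.2 n0
  have d : quadraticChar K (k * k) = 1 :=
    (quadraticChar_one_iff_isSquare (mul_ne_zero hk hk)).2 ⟨k, rfl⟩
  refine (quadraticChar_one_iff_isSquare (mul_ne_zero h1 l0)).1 ?_
  have f : quadraticChar K (k * k) * quadraticChar K (l' * l) =
      quadraticChar K (k * l') * quadraticChar K (k * l) := by
    rw [← map_mul, ← map_mul]
    congr 1
    ring
  rw [d, a, b, one_mul] at f
  rw [f]
  norm_num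

end Pool.Agent.Lib.MP_1ae3da_al.CT
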