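import Pool.Agent.Lib.MP_1ae3da_al.S.Deb
import Pool.Agent.Lib.MP_1ae3da_al.S.Tya
import Pool.Agent.Lib.MP_1ae3da_al.S.BlkY
import Pool.Agent.Lib.MP_1ae3da_al.S.Gen2

/-! Links for the trivial block and for the blocks of half degree. -/

namespace Pool.Agent.Lib.MP_1ae3da_al.CT

open Submodule Matrix

section gen
variable {F A : Type} [Field F] [Ring A] [Algebra F A] {Γ : Subgroup (RingAut A)}
  {L M X Y X' Y' : Set A}

theorem lk_union (h1 : LK F Γ L M X Y) (h2 : LK F Γ L M X' Y') (dX : Disjoint X X')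
    (dY : Disjoint Y Y') : LK F Γ L M (X ∪ X') (Y ∪ Y') := by
  classical
  obtain ⟨Ω, ⟨b, q⟩, k⟩ := h1
  obtain ⟨Ω', ⟨b', q'⟩, k'⟩ := h2
  have a1 x (h : x ∈ X) : X.piecewise Ω Ω' x = Ω x := Set.piecewise_eq_of_mem _ _ _ h
  have a2 x (h : x ∈ X') : X.piecewise Ω Ω' x = Ω' x :=
    Set.piecewise_eq_of_notMem _ _ _ (Set.disjoint_right.1 dX h)
  refine ⟨X.piecewise Ω Ω', ⟨(b.congr fun x h => (a1 x h).symm).union
    (b'.congr fun x h => (a2 x h).symm) ?_, ?_⟩, ?_⟩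
  · rintro x (h | h) y (h' | h') e
    · exact b.injOn h h' (by rwa [a1 x h, a1 y h'] at e)
    · rw [a1 x h, a2 y h'] at e
      exact (Set.disjoint_left.1 dY (b.mapsTo h) (e ▸ b'.mapsTo h')).elim
    · rw [a2 x h, a1 y h'] at e
      exact (Set.disjoint_left.1 dY (b.mapsTo h') (e ▸ b'.mapsTo h)).elim
    · exact b'.injOn h h' (by rwa [a2 x h, a2 y h'] at e)
  · rintro γ hγ x (h | h)
    · exact ⟨.inl (q γ hγ x h).1, by rw [a1 _ (q γ hγ x h).1, a1 x h, (q γ hγ x h).2]⟩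
    · exact ⟨.inr (q' γ hγ x h).1, by rw [a2 _ (q' γ hγ x h).1, a2 x h, (q' γ hγ x h).2]⟩
  · rintro x (h | h)
    · exact a1 x h ▸ k x h
    · exact a2 x h ▸ k' x h

theorem lk_rel2 (R : A → A → Prop) (iX : ∀ γ ∈ Γ, ∀ x ∈ X, γ x ∈ X)
    (iY : ∀ γ ∈ Γ, ∀ y ∈ Y, γ y ∈ Y)
    (hR : ∀ γ ∈ Γ, ∀ x ∈ X, ∀ y ∈ Y, R x y → R (γ x) (γ y))
    (h1 : ∀ x ∈ X, ∃ y ∈ Y, R x y) (h2 : ∀ y ∈ Y, ∃ x ∈ X, R x y)
    (u1 : ∀ x ∈ X, ∀ y ∈ Y, ∀ y' ∈ Y, R x y → R x y' → y = y')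
    (u2 : ∀ x ∈ X, ∀ x' ∈ X, ∀ y ∈ Y, R x y → R x' y → x = x')
    (hl : ∀ x ∈ X, ∀ y ∈ Y, R x y → ∃ U, Link F (Γ ⊓ Fx x ⊓ Fx y) L M x y U) :
    LK F Γ L M X Y :=
  lk_rel R iX iY hR h1 h2 u1 u2 fun x hx y hy r => by
    obtain ⟨U, h⟩ := hl x hx y hy r
    exact ⟨_, h.mono fun γ k => ⟨k, u1 x hx _ (iY γ k.1 y hy) y hy
      (mem_Fx.1 k.2 ▸ hR γ k.1 x hx y hy r) r⟩⟩

end gen

variable {F K : Type} [Field F] [Field K] {lam : AddChar K F} {GG : Subgroup (RingAut F)}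
  {γ : RingAut (MonoidAlgebra F (GL (Fin 2) K))} {x e e' : MonoidAlgebra F (GL (Fin 2) K)}
  {b : GL (Fin 2) K} {k l : K} {s : F}

theorem lk_cancel {y : MonoidAlgebra F (GL (Fin 2) K)} (h : x * gu F _ b = y * gu F _ b) :
    x = y := by
  rw [← mul_one x, ← mul_one y, ← gu_one, ← mul_inv_cancel b, ← gu_mul, ← mul_assoc, h, mul_assoc]

theorem del_inn_fix (h : DelD 1 1 1 b γ) (q : gu F _ b * x = x * gu F _ b) : γ x = x :=
  lk_cancel ((del_inn h x).symm.trans q)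

variable [Fintype K] [CharZero F] [IsAlgClosed F]

theorem e0_prim (Q : Subgroup (GL (Fin 2) K)) : Prim F (HX F Q) (e0 F Q) (e0 F Q) := by
  have i := e0_irr (F := F) (Q := Q)
  refine ⟨i.1.1, i.2.1, i.2.1, i.2.2.1, fun a ha => ?_⟩
  refine (mem_span_singleton.1 ?_).imp fun _ => Eq.symm
  induction ha using span_induction with
  | mem a m =>
    obtain ⟨c, -, g, hg, rfl⟩ := m
    rw [mul_smul_comm, (gu_e0 hg).2, smul_mul_assoc, i.2.1]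
    exact smul_mem _ _ (mem_span_singleton_self _)
  | zero => simp
  | add a b _ _ p q => rw [mul_add, add_mul]; exact add_mem p q
  | smul c a _ p => rw [mul_smul_comm, smul_mul_assoc]; exact smul_mem _ c p

theorem lk_triv : LK F (DelG K GG) (HX F (dY K)) (HX F (dB K)) {e0 F (dY K)} {e0 F (dB K)} := by
  refine lk_rel (fun _ _ => True) (fun γ h x hx => hx ▸ (del_e0 h).1)
    (fun γ h x hx => hx ▸ (del_e0 h).2) (fun _ _ _ _ _ _ _ => trivial)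
    (fun _ _ => ⟨_, rfl, trivial⟩) (fun _ _ => ⟨_, rfl, trivial⟩)
    (fun _ _ _ h _ h' _ _ => h.trans h'.symm) (fun _ h _ h' _ _ _ _ => h.trans h'.symm) ?_
  rintro _ rfl _ rfl -
  refine link_line (GG := GG) (bk_nice _) (bk_nice _) (Hm_mono dB_le_dY) e0_irr e0_irr (e0_prim _)
    (e0_prim _) (fun γ h => ⟨del_sg h.1, del_stb h.1 (by simp), del_stb h.1 (by simp), h.2,
      (del_e0 h.1).2, h.2, (del_e0 h.1).2⟩) ?_
  rintro a - - _ ⟨c, -, g, hg, rfl⟩ -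
  exact ⟨c, by rw [smul_mul_assoc, (gu_e0 (dB_le_dY hg)).1], by rw [smul_mul_assoc, (gu_e0 hg).1]⟩

omit [CharZero F] [IsAlgClosed F] in
theorem xa_half (he : e ∈ XA lam) (hk : k ≠ 0) (h : bE lam k * e ≠ 0) (l : K) (l0 : l ≠ 0)
    (n : ¬ IsSquare (k * l)) : bE lam l * e = 0 := by
  obtain ⟨h1, -, m, m0, hm⟩ := he
  have d (a : Kˣ) : bd a a⁻¹ ∈ dY K := dB_le_dY (bk_dB (fun _ => mem_dB) a)
  by_contra z
  exact bk_supp_sq h1.1 d l0 m0 (bk_nsq hk l0 m0 n fun q => bk_supp_sq h1.1 d hk m0 q h hm) z hm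

omit [IsAlgClosed F] in
theorem bE_inj (hl : lam ≠ 1) (h : bE lam k = bE lam l) : k = l := by
  by_contra n
  exact bE_ne hl l (by rw [← bE_idem hl l, ← bE_orth hl n, h])

theorem link_A (hl : Wh lam) (he : e ∈ Irr F (HX F (dY K))) (he' : e' ∈ Irr F (HX F (dB K)))
    (hk : k ≠ 0) (h1 : bE lam k * e ≠ 0) (h2 : bE lam k * e' ≠ 0)
    (s1 : gu F _ (-1) * e = s • e) (s2 : gu F _ (-1) * e' = s • e') :
    ∃ U, Link F (DelG K GG ⊓ Fx e ⊓ Fx e') (HX F (dY K)) (HX F (dB K)) e e' U := by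
  have hU s : bx s ∈ dY K := dB_le_dY (bx_dB s)
  obtain ⟨U, h⟩ := link_line (GG := GG) (Γ := DelG K GG ⊓ Fx e ⊓ Fx e' ⊓ Fx (bE lam k))
    (bk_nice _) (bk_nice _) (Hm_mono dB_le_dY) he he' ((bE_cc hl.ne hU hk).prim (bk_nice _) he h1)
    ((bE_cc hl.ne bx_dB hk).prim (bk_nice _) he' h2)
    (fun γ h => ⟨del_sg h.1.1.1, del_stb h.1.1.1 (by simp), del_stb h.1.1.1 (by simp), h.1.1.2,
      h.1.2, by rw [map_mul, mem_Fx.1 h.2, mem_Fx.1 h.1.1.2],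
      by rw [map_mul, mem_Fx.1 h.2, mem_Fx.1 h.1.2]⟩) (by
    rintro a ha la _ ⟨c, c0, g, hg, rfl⟩ q
    have r := tl_span la q (bE_mem (lam := lam) hU k)
    rw [mem_Fx.1 ha.2, smul_mul_assoc, mul_smul_comm, bE_conj (mem_dB.1 hg).2] at r
    have r' := bE_inj hl.ne (lk_cancel (smul_right_injective _ c0 r))
    obtain ⟨t, d, hd, rfl, d0, d1⟩ := bru_small (mem_dB.1 hg).2
    rw [← d0, ← d1, div_eq_iff (bru_tri hd.2).1] at r'
    have w (z : MonoidAlgebra F (GL (Fin 2) K)) : c • gu F _ (d * bx t) * (bE lam k * z) =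
        (c * lam (k * t)) • (gu F _ d * (bE lam k * z)) := by
      rw [smul_mul_assoc, ← gu_mul, mul_assoc, ← mul_assoc _ (bE lam k), bx_bE, smul_mul_assoc,
        mul_smul_comm, smul_smul]
    rcases (ty_dia hk (mem_dY.1 (((dY K).mul_mem_cancel_right (hU t)).1 (dB_le_dY hg)))).1
      ⟨hd, r'.symm⟩ with rfl | rfl
    · exact ⟨_, by rw [w, gu_one, one_mul], by rw [w, gu_one, one_mul]⟩
    · refine ⟨c * lam (k * t) * s, ?_, ?_⟩ <;>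
        rw [w, ← mul_assoc, ty_comm, mul_assoc (bE lam k)]
      · rw [s1, mul_smul_comm, smul_smul]
      · rw [s2, mul_smul_comm, smul_smul])
  refine Link.ext (GG := GG) (fun γ h => ⟨⟨⟨⟨del_sg h.1.1, del_stb h.1.1 (by simp)⟩,
    del_stb h.1.1 (by simp)⟩, h.1.2⟩, h.2⟩) inf_le_left (bk_nice _) (bk_nice _) (Hm_mono dB_le_dY)
    he he' (fun γ hγ => ?_) h
  obtain ⟨π, p0, hp⟩ := del_E hl hγ.1.1
  obtain ⟨r, hr⟩ := bk_B_sq (l := π k) hl.ne (fun _ => mem_dB) he' h2 (by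
    rwa [← hp, ← mem_Fx.1 hγ.2, Ne, del_ne])
  have r0 : r ≠ 0 := fun z => mul_ne_zero hk (fun q => hk (π.injective (q.trans p0.symm)))
    (by rw [hr, z, mul_zero])
  have m := bk_dB (fun _ => mem_dB) (Units.mk0 (k / r) (div_ne_zero hk r0))
  obtain ⟨δ, hδ⟩ := del_ex (F := F) 1 1 1 (bd (Units.mk0 (k / r) (div_ne_zero hk r0)) _⁻¹)
  have n : δ ∈ DelG K GG ⊓ Fx e ⊓ Fx e' := ⟨⟨hδ.mem m.1,
    del_inn_fix hδ (te_cen he (bk_mem (dB_le_dY m)))⟩, del_inn_fix hδ (te_cen he' (bk_mem m))⟩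
  refine ⟨δ, n, hδ.1, ⟨_, aga_mem.2 m, fun x _ => del_inn hδ x⟩,
    Subgroup.mul_mem _ (Subgroup.inv_mem _ n) hγ, ?_⟩
  change δ⁻¹ (γ _) = _
  rw [hp, show π k = (1 : RingAut K) (1 * k) * (k / r)⁻¹ / (k / r) by
    rw [one_mul, RingAut.one_apply]
    field_simp
    linear_combination hr]
  exact (congrArg _ (hδ.E hl m.1 (c := 1) (fun s => by rw [one_mul]; rfl) k).symm).trans (tl_ia _ _)

theorem lk_A (hl : Wh lam) (h2 : (2 : K) ≠ 0) :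
    LK F (DelG K GG) (HX F (dY K)) (HX F (dB K)) (XA lam) (YA lam) := by
  have hY : ∀ g, g ∈ dY K ↔ _ := fun _ => mem_dY
  have hB : ∀ g, g ∈ dB K ↔ _ := fun _ => mem_dB
  have n1 : -1 ∈ dB K := by simp [hB, det_fin_two]
  refine lk_rel2 (fun e e' => ∃ k, k ≠ 0 ∧ ∃ s : F, (s = 1 ∨ s = -1) ∧ bE lam k * e ≠ 0 ∧
    bE lam k * e' ≠ 0 ∧ gu F _ (-1) * e = s • e ∧ gu F _ (-1) * e' = s • e')
    (fun γ h => (del_XA hl h).1) (fun γ h => (del_XA hl h).2.2.1) ?_ ?_ ?_ ?_ ?_ ?_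
  · rintro γ h e - e' - ⟨k, hk, s, hs, a1, a2, a3, a4⟩
    obtain ⟨π, p0, hp⟩ := del_E hl h
    obtain ⟨σ, -, q⟩ := del_sg h
    have w : σ s = s := by rcases hs with rfl | rfl <;> simp
    exact ⟨π k, fun z => hk (π.injective (z.trans p0.symm)), s, hs, by rwa [← hp, Ne, del_ne],
      by rwa [← hp, Ne, del_ne], by rw [← del_neg h, ← map_mul, a3, q, w],
      by rw [← del_neg h, ← map_mul, a4, q, w]⟩
  · rintro e ⟨he, ⟨k, hk, a⟩, -⟩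
    obtain ⟨s, hs, q⟩ := bk_sign (dB_le_dY n1) he
    obtain ⟨e', ⟨b1, b2, b3⟩, -⟩ := tyb hl.ne hB h2 hk hs
    exact ⟨e', ⟨b1, (bk_E0_or hl.ne bx_dB (fun _ h => h.1) b1).resolve_right
      fun z => b2 (bk_kill hl.ne z hk)⟩, k, hk, s, hs, a, b2, q, b3⟩
  · rintro e' ⟨he, z⟩
    obtain ⟨k, hk, a⟩ : ∃ k, k ≠ 0 ∧ bE lam k * e' ≠ 0 := by
      by_contra n
      push Not at n
      exact he.2.2.1 ((bk_fix hl.ne n).symm.trans z)
    obtain ⟨s, hs, q⟩ := bk_sign n1 he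
    obtain ⟨e, ⟨b1, b2, b3, b4⟩, -⟩ := tya hl.ne hY h2 hk hs
    obtain ⟨n, hn⟩ := FiniteField.exists_nonsquare (F := K) fun z =>
      h2 (by exact_mod_cast (ringChar.spec K 2).2 (z ▸ dvd_rfl))
    have n0 : n / k ≠ 0 := div_ne_zero (fun z => hn (z ▸ IsSquare.zero)) hk
    exact ⟨e, ⟨b1, ⟨k, hk, b2⟩, n / k, n0, b3 _ n0 (by rwa [mul_div_cancel₀ _ hk])⟩,
      k, hk, s, hs, b2, a, b4, q⟩
  · rintro e he y hy z hz ⟨k, hk, s, hs, a1, a2, a3, a4⟩ ⟨l, l0, t, -, b1, b2, b3, b4⟩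
    obtain rfl := sign_uniq he.1.2.2.1 a3 b3
    refine (tyb hl.ne hB h2 hk hs).unique ⟨hy.1, a2, a4⟩ ⟨hz.1, bk_supp_sq hz.1.1 (bk_dB hB) l0 hk
      ?_ b2, b4⟩
    by_contra n
    exact b1 (xa_half he hk a1 l l0 (by rwa [mul_comm]))
  · rintro e he f hf y hy ⟨k, hk, s, hs, a1, a2, a3, a4⟩ ⟨l, l0, t, -, b1, b2, b3, b4⟩
    obtain rfl := sign_uniq hy.1.2.2.1 a4 b4
    have c := bk_supp_sq hf.1.1 (fun a => dB_le_dY (bk_dB hB a)) l0 hk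
      (bk_B_sq hl.ne hB hy.1 b2 a2) b1
    exact (tya hl.ne hY h2 hk hs).unique ⟨he.1, a1, xa_half he hk a1, a3⟩
      ⟨hf.1, c, xa_half hf hk c, b3⟩
  · rintro e he y hy ⟨k, hk, s, -, a1, a2, a3, a4⟩
    exact link_A hl he.1 hy.1 hk a1 a2 a3 a4

end Pool.Agent.Lib.MP_1ae3da_al.CT
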