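import Pool.Agent.Lib.MP_1ae3da_al.S.Lift
import Pool.Agent.Lib.MP_1ae3da_al.S.Mult

/-! From the group algebra of `SL2(K)` to the twisted group algebras of `PSL2(K)`. -/

namespace Pool.Agent.Lib.MP_1ae3da_al.CT

open Submodule
open scoped MatrixGroups

variable {F A Y S : Type} [Field F] [Ring A] [Algebra F A] [Group Y] [Group S] {u : S → A}
  {p : ℕ} {GG : Subgroup (RingAut F)}

theorem lift_syl [hp : Fact p.Prime] [CharZero F] [IsAlgClosed F] [Finite Y] (hu : TG F u)
    (f : Y →* S) (hf : Function.Surjective f) (hY : commutator Y = ⊤)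
    (hc : f.ker ≤ Subgroup.center Y) (h0 : ¬ p ∣ Nat.card f.ker)
    (hM : ∀ (X : Type) [Group X] [Finite X] (π : X →* S), commutator X = ⊤ →
      Function.Surjective π → π.ker ≤ Subgroup.center X →
      ∀ l : ℕ, l.Prime → l ≠ p → ∀ k, l ^ k ∣ Nat.card π.ker → l ^ k ∣ Nat.card f.ker)
    (T : Sylow p Y) (hl : ML F p GG (Hm F (gu F Y) ⊤)
      (Hm F (gu F Y) (Subgroup.normalizer (T : Set Y)))) (Q : Sylow p S) :
    ML F p GG (Hm F u ⊤) (Hm F u (Subgroup.normalizer (Q : Set S))) := by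
  have : Finite S := Finite.of_surjective f hf
  have hS : commutator S = ⊤ := by
    rw [← MonoidHom.range_eq_top.2 hf, MonoidHom.range_eq_map, ← hY, map_commutator_eq,
      MonoidHom.range_eq_top.2 hf, commutator_def]
  obtain ⟨X, _, _, π, hπ⟩ := exists_uce S hS
  obtain ⟨s, hs⟩ := MulAction.exists_smul_eq S (T.mapSurjective hf) Q
  let f' : Y →* S := (MulAut.conj s).toMonoidHom.comp f
  have hk : f'.ker = f.ker := by
    ext x
    simp [f', MonoidHom.mem_ker]
  have hT : (T : Subgroup Y).map f' = Q := by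
    rw [← hs, ← Subgroup.map_map]
    rfl
  have hN : (Subgroup.normalizer (Q : Set S)).comap f' = Subgroup.normalizer (T : Set Y) := by
    ext g
    rw [uce_norm f' (hk ▸ hc) T g, hT]; rfl
  refine lift_ml hp.out hπ hu f' ((MulAut.conj s).surjective.comp hf) hY (hk ▸ hc) (hk ▸ h0)
    (hk ▸ hM X π hπ.perf hπ.surj hπ.cent) _ (fun q => Q.not_dvd_index
      (q.trans (Subgroup.index_dvd_of_le Subgroup.le_normalizer))) (hN ▸ hl)

theorem psl_center (K : Type) [Field K] (h2 : (2 : K) ≠ 0) :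
    Nat.card (Subgroup.center SL(2, K)) = 2 := by
  rw [Nat.card_congr (Matrix.SpecialLinearGroup.center_equiv_rootsOfUnity' (0 : Fin 2)).toEquiv,
    Fintype.card_fin]
  exact (IsPrimitiveRoot.neg_one (ringChar K) fun e => h2 (by
    have := ringChar.Nat.cast_ringChar (R := K)
    rwa [e] at this)).card_rootsOfUnity

theorem psl_perf (K : Type) [Field K] [Finite K] (h4 : 4 ≤ Nat.card K) :
    commutator SL(2, K) = ⊤ := by
  classical
  have := Fintype.ofFinite K
  obtain ⟨a, -, ha⟩ := Finset.exists_mem_notMem_of_card_lt_card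
    (s := ({0, 1, -1} : Finset K)) (t := Finset.univ) (by
      rw [Finset.card_univ, ← Nat.card_eq_fintype_card]
      exact lt_of_le_of_lt Finset.card_le_three h4)
  simp only [Finset.mem_insert, Finset.mem_singleton, not_or] at ha
  exact Matrix.SL2.commutator_eq_top ha.1 fun e => (sq_eq_one_iff.1 e).elim ha.2.1 ha.2.2

theorem psl_of [hp : Fact p.Prime] [CharZero F] [IsAlgClosed F] (hp2 : p ≠ 2) (K : Type) [Field K]
    [Finite K] [CharP K p] (h4 : 4 ≤ Nat.card K)
    (T : Sylow p SL(2, K)) (hl : ML F p GG (Hm F (gu F SL(2, K)) ⊤)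
      (Hm F (gu F SL(2, K)) (Subgroup.normalizer (T : Set SL(2, K)))))
    (e : S ≃* Matrix.ProjectiveSpecialLinearGroup (Fin 2) K) (hu : TG F u) (Q : Sylow p S) :
    ML F p GG (Hm F u ⊤) (Hm F u (Subgroup.normalizer (Q : Set S))) := by
  have n2 : ¬ p ∣ 2 := fun q => hp2 ((Nat.prime_dvd_prime_iff_eq hp.out Nat.prime_two).1 q)
  have h2 : (2 : K) ≠ 0 := fun q => n2 ((CharP.cast_eq_zero_iff K p 2).1 q)
  let f : SL(2, K) →* S := e.symm.toMonoidHom.comp (QuotientGroup.mk' _)
  have hk : f.ker = Subgroup.center _ := by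
    ext x
    simp [f]
  have hf : Function.Surjective f := e.symm.surjective.comp (QuotientGroup.mk'_surjective _)
  refine lift_syl hu f hf (psl_perf K h4) hk.le (by rw [hk, psl_center K h2]; exact n2)
    (fun X _ _ π a b c l l1 l2 k q => ?_) T hl Q
  rw [hk, psl_center K h2]
  exact mult_sl2 p hp.out hp2 K a π b c f hf l l1 l2 k q

end Pool.Agent.Lib.MP_1ae3da_al.CT
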