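import Pool.Agent.Lib.MP_1ae3da_al.S.Gen2
import Pool.Agent.Lib.MP_1ae3da_al.S.Psl
import Pool.Agent.Lib.MP_1ae3da_al.S.Gp

/-! Pulling a linked bijection back along an injective multiplicative map. -/

namespace Pool.Agent.Lib.MP_1ae3da_al.CT

open Submodule
open scoped MatrixGroups

section abs
variable {F A B : Type} [Field F] [Ring A] [Algebra F A] [Ring B] [Algebra F B]
  {GG : Subgroup (RingAut F)} {Φ : B →ₗ[F] A} {Γ : Subgroup (RingAut B)}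
  {Δ : Subgroup (RingAut A)} {L M S : Set B} {e e' : B}

theorem pull_ln (hm : ∀ a b, Φ (a * b) = Φ a * Φ b) (hi : Function.Injective Φ) {a : RingAut B}
    {δ : RingAut A} (h : ∀ b, Φ (a b) = δ (Φ b)) {v : A} (hv : v ∈ Ln F (Φ '' S) (Φ e) δ) :
    ∃ w ∈ Ln F S e a, Φ w = v := by
  obtain ⟨w, hw, rfl⟩ := tp_span.1 hv.1
  exact ⟨w, ⟨hw, hi (by rw [hm, hv.2.1]), fun z => hv.2.2.1 (by rw [z, map_zero]), fun x hx =>
    hi (by rw [hm, hm, h, hv.2.2.2 _ ⟨x, hx, rfl⟩])⟩, rfl⟩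

theorem pull_lin (hi : Function.Injective Φ) {a : RingAut B} {δ : RingAut A} (hδ : δ ∈ SG GG A)
    (h : ∀ b, Φ (a b) = δ (Φ b)) (l : Lin F a) (he : e ≠ 0) : Lin F δ := by
  obtain ⟨σ, -, s⟩ := hδ
  have n : δ (Φ e) ≠ 0 := fun z => he (hi (δ.injective (by rw [z, map_zero, map_zero])))
  intro c x
  rw [s, smul_left_injective F n (show σ c • δ (Φ e) = c • δ (Φ e) by
    rw [← s, ← map_smul, ← h, l, map_smul, h])]

theorem pull_inv {a : RingAut B} {δ : RingAut A} (h : ∀ b, Φ (a b) = δ (Φ b)) (b : B) :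
    Φ (a⁻¹ b) = δ⁻¹ (Φ b) := δ.injective (by rw [← h, tl_ai, tl_ai])

theorem pull_link [IsAlgClosed F] (hm : ∀ a b, Φ (a * b) = Φ a * Φ b) (hi : Function.Injective Φ)
    (hL : Nice F (Φ '' L)) (hM : Nice F (Φ '' M)) (hML : M ⊆ L) (he : Φ e ∈ Irr F (Φ '' L))
    (he' : Φ e' ∈ Irr F (Φ '' M)) (hΔ : Δ ≤ SG GG A ⊓ Stb (Φ '' L) ⊓ Stb (Φ '' M))
    (hl : ∀ γ ∈ Γ, ∃ δ ∈ Δ, ∀ b, Φ (γ b) = δ (Φ b)) {V : RingAut A → A → A → Prop}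
    (hV : Link F Δ (Φ '' L) (Φ '' M) (Φ e) (Φ e') V) (hΓ : Γ ≤ SG GG B) :
    ∃ U, Link F Γ L M e e' U := by
  have e0 : e ≠ 0 := fun z => he.2.2.1 (by rw [z, map_zero])
  have ln {S : Set B} {g w : B} {a : RingAut B} {δ : RingAut A} (h : ∀ b, Φ (a b) = δ (Φ b))
      (k : Φ w ∈ Ln F (Φ '' S) (Φ g) δ) : w ∈ Ln F S g a := by
    obtain ⟨v, hv, q⟩ := pull_ln hm hi h k
    exact hi q ▸ hv
  refine ⟨fun a w w' => a ∈ Γ ∧ Lin F a ∧ ∃ δ, (∀ b, Φ (a b) = δ (Φ b)) ∧ V δ (Φ w) (Φ w'),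
    ?_, fun a ha l => ?_, ?_, ?_, ?_, fun a ha l m hm' k => ?_, ?_⟩
  · rintro a w w' ⟨ha, l, δ, h, v⟩
    exact ⟨ha, l, ln h (hV.int _ _ _ v).2.2.1, ln h (hV.int _ _ _ v).2.2.2⟩
  · obtain ⟨δ, d, h⟩ := hl a ha
    obtain ⟨v, v', k⟩ := hV.tot δ d (pull_lin hi (hΔ d).1.1 h l e0)
    obtain ⟨w, -, rfl⟩ := pull_ln hm hi h (hV.int _ _ _ k).2.2.1
    obtain ⟨w', -, rfl⟩ := pull_ln hm hi h (hV.int _ _ _ k).2.2.2
    exact ⟨w, w', ha, l, δ, h, k⟩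
  · rintro a w w' b v v' ⟨a1, a2, δ, a3, a4⟩ ⟨b1, b2, δ', b3, b4⟩
    refine ⟨mul_mem a1 b1, a2.mul b2, δ * δ', fun x => (a3 _).trans (congrArg δ (b3 x)), ?_⟩
    rw [hm, hm]
    exact hV.mul _ _ _ _ _ _ a4 b4
  · rintro a w w' c hc ⟨a1, a2, δ, a3, a4⟩
    refine ⟨a1, a2, δ, a3, ?_⟩
    rw [map_smul, map_smul]
    exact hV.smul _ _ _ c hc a4
  · rintro a w w₁ w₂ ⟨-, -, δ, a3, a4⟩ ⟨-, -, δ', b3, b4⟩
    obtain ⟨v, v', k, -, k2, k3, -⟩ := hV.inv hL hM (Set.image_mono hML) he he'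
      (fun γ h => ⟨(hΔ h).1.2, (hΔ h).2⟩) a4
    have q := hV.mul _ _ _ _ _ _ k b4
    obtain ⟨i1, i2, -⟩ := hV.int _ _ _ q
    have i3 := (hV.int _ _ _ b4).2.2.2
    have i4 := (hV.int _ _ _ a4).2.2.2
    rw [k2] at q
    have t := hV.fn _ _ _ _ q (hV.triv hL hM (Set.image_mono hML) he he' i1 i2 (by
      rintro _ ⟨x, -, rfl⟩
      change δ⁻¹ (δ' (Φ x)) = _
      rw [← b3, a3, tl_ia]))
    refine hi ?_
    rw [← i4.2.1, ← t, ← mul_assoc, k3, ← te_cen he' i3.1, i3.2.1]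
  · obtain ⟨δ, d, h⟩ := hl a ha
    refine ⟨ha, l, δ, h, ?_⟩
    rw [hm, hm]
    refine hV.loc δ d (pull_lin hi (hΔ d).1.1 h l e0) _ ⟨m, hm', rfl⟩ ?_
    rintro _ ⟨x, hx, rfl⟩
    rw [← hm, k x hx, hm, h]
  · rintro γ hγ a w w' ⟨a1, a2, δ, a3, a4⟩
    obtain ⟨η, d, h⟩ := hl γ hγ
    refine ⟨mul_mem (mul_mem hγ a1) (inv_mem hγ), tp_lin_conj (hΓ hγ) a2, η * δ * η⁻¹, fun x => ?_, ?_⟩
    · change Φ (γ (a (γ⁻¹ x))) = η (δ (η⁻¹ (Φ x)))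
      rw [h, a3, pull_inv h]
    · rw [h, h]
      exact hV.nat η d _ _ _ a4

/-- PULL -/
theorem lk_pull [IsAlgClosed F] {p : ℕ} (hm : ∀ a b, Φ (a * b) = Φ a * Φ b)
    (hi : Function.Injective Φ) (hL : Nice F (Φ '' L)) (hM : Nice F (Φ '' M)) (hML : M ⊆ L)
    (hΔ : Δ ≤ SG GG A ⊓ Stb (Φ '' L) ⊓ Stb (Φ '' M)) (hΓ : Γ ≤ SG GG B ⊓ Stb L ⊓ Stb M)
    (hl : ∀ γ ∈ Γ, ∃ δ ∈ Δ, ∀ b, Φ (γ b) = δ (Φ b))
    (h : LK F Δ (Φ '' L) (Φ '' M) (IrrP F p (Φ '' L)) (IrrP F p (Φ '' M))) :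
    LK F Γ L M (IrrP F p L) (IrrP F p M) := by
  obtain ⟨Ω, ⟨hb, hq⟩, hk⟩ := h
  have T : Tp Φ 1 := ⟨hm, fun b => by rw [one_mul, mul_one], fun b => by rw [mul_one],
    fun b z => by rw [mul_one]; exact hi (z.trans (map_zero Φ).symm)⟩
  have up {S : Set B} {x : B} (hx : x ∈ IrrP F p S) : Φ x ∈ IrrP F p (Φ '' S) :=
    T.irrP_map (fun b k => by rwa [mul_one]) hx (mul_one x)
  have dn {S : Set B} {x : A} (hx : x ∈ IrrP F p (Φ '' S)) : ∃ b ∈ IrrP F p S, Φ b = x :=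
    (T.irrP_lift (fun b k => by rwa [mul_one]) hx).imp fun _ k => ⟨k.1, k.2.2⟩
  refine lk_rel (fun x y => Ω (Φ x) = Φ y)
    (fun γ k x hx => (irrP_stb (hΓ k).1.1 (hΓ k).1.2).2 hx)
    (fun γ k x hx => (irrP_stb (hΓ k).1.1 (hΓ k).2).2 hx) (fun γ k x hx y _ r => ?_)
    (fun x hx => ?_) (fun y hy => ?_) (fun x _ y _ y' _ r r' => hi (r.symm.trans r'))
    (fun x hx x' hx' y _ r r' => hi (hb.injOn (up hx) (up hx') (r.trans r'.symm)))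
    fun x hx y hy r => ?_
  · obtain ⟨δ, d, q⟩ := hl γ k
    rw [q, q, (hq δ d _ (up hx)).2, r]
  · obtain ⟨y, hy, q⟩ := dn (hb.mapsTo (up hx))
    exact ⟨y, hy, q.symm⟩
  · obtain ⟨v, hv, q⟩ := hb.surjOn (up hy)
    obtain ⟨x, hx, rfl⟩ := dn hv
    exact ⟨x, hx, q⟩
  · obtain ⟨V, hV⟩ := hk _ (up hx)
    rw [r] at hV
    refine pull_link hm hi hL hM hML (up hx).1 (up hy).1 (inf_le_left.trans hΔ) (fun γ k => ?_) hV
      fun γ k => (hΓ k.1).1.1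
    obtain ⟨δ, d, q⟩ := hl γ k.1
    exact ⟨δ, ⟨d, (q x).symm.trans (congrArg Φ k.2)⟩, q⟩

end abs

section grp
variable {F X Y : Type} [Field F] [Group X] [Group Y]

theorem pull_phi (ι : X →* Y) (hι : Function.Injective ι) :
    ∃ Φ : MonoidAlgebra F X →ₗ[F] MonoidAlgebra F Y, (∀ a b, Φ (a * b) = Φ a * Φ b) ∧
      Function.Injective Φ ∧ ∀ x, Φ (gu F X x) = gu F Y (ι x) :=
  ⟨(MonoidAlgebra.mapDomainAlgHom F F ι).toLinearMap, map_mul (MonoidAlgebra.mapDomainAlgHom F F ι),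
    MonoidAlgebra.mapDomain_injective hι, fun x => by simp [gu]⟩

theorem pull_im {ι : X →* Y} {Φ : MonoidAlgebra F X →ₗ[F] MonoidAlgebra F Y}
    (hΦ : ∀ x, Φ (gu F X x) = gu F Y (ι x)) (H : Subgroup X) :
    Φ '' Hm F (gu F X) H = Hm F (gu F Y) (H.map ι) := by
  ext a
  constructor
  · rintro ⟨_, ⟨c, hc, x, hx, rfl⟩, rfl⟩
    exact ⟨c, hc, ι x, ⟨x, hx, rfl⟩, by rw [map_smul, hΦ]⟩
  · rintro ⟨c, hc, _, ⟨x, hx, rfl⟩, rfl⟩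
    exact ⟨_, ⟨c, hc, x, hx, rfl⟩, by rw [map_smul, hΦ]⟩

theorem pull_aut (hX : commutator X = ⊤) {σ : RingAut F} {γ : RingAut (MonoidAlgebra F X)}
    (s : SL F σ γ) (h : γ ∈ Stb (Hm F (gu F X) ⊤)) :
    ∃ α : MulAut X, ∀ x, γ (gu F X x) = gu F X (α x) := by
  obtain ⟨α, hα⟩ := lf_tg.aut s h
  choose c c0 hc using hα
  have m1 : c 1 • gu F X (α 1) = (1 : F) • gu F X 1 := by
    rw [← hc, one_smul]; exact map_one γ
  have m2 (x y : X) : c (x * y) • gu F X (α (x * y)) = (c x * c y) • gu F X (α x * α y) := by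
    rw [← hc, ← lf_mul, map_mul γ, hc, hc, smul_mul_smul_comm, lf_mul]
  let χ : X →* F :=
    { toFun := c
      map_one' := (lf_tg.eq_of (c0 1) m1).2
      map_mul' := fun x y => (lf_tg.eq_of (c0 _) (m2 x y)).2 }
  have c1 (x : X) : c x = 1 := congrArg Units.val
    (Abelianization.commutator_subset_ker χ.toHomUnits (hX ▸ Subgroup.mem_top x))
  exact ⟨α, fun x => by rw [hc, c1, one_smul]⟩

end grp

variable {F K : Type} [Field F] [Field K] [Finite K] {GG : Subgroup (RingAut F)} {p : ℕ}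

/-- the automorphism `g ↦ b τ(g) b⁻¹` -/
def pullA (τ : RingAut K) (b : GL (Fin 2) K) : MulAut (GL (Fin 2) K) :=
  (Units.mapEquiv (τ.mapMatrix (m := Fin 2)).toMulEquiv).trans (MulAut.conj b)

omit [Finite K] in
theorem pullA_apply (τ : RingAut K) (b g : GL (Fin 2) K) :
    pullA τ b g = b * Matrix.GeneralLinearGroup.map (τ : K →+* K) g * b⁻¹ := rfl

theorem sl_pull [CharZero F] [IsAlgClosed F] (h2 : (2 : K) ≠ 0) (h4 : 4 ≤ Nat.card K)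
    {Y B : Subgroup (GL (Fin 2) K)} (hY : ∀ g, g ∈ Y ↔ g.1.det = 1)
    (hB : ∀ g, g ∈ B ↔ g.1.det = 1 ∧ g.1 1 0 = 0)
    {Δ : Subgroup (RingAut (MonoidAlgebra F (GL (Fin 2) K)))}
    (hΔ : Δ ≤ SG GG _ ⊓ Stb (Hm F (gu F _) Y) ⊓ Stb (Hm F (gu F _) B))
    (hΔ' : ∀ σ ∈ GG, ∀ (τ : RingAut K) (b : GL (Fin 2) K), b.1 1 0 = 0 → ∀ δ, SL F σ δ →
      (∀ g, δ (gu F _ g) = gu F _ (b * Matrix.GeneralLinearGroup.map (τ : K →+* K) g * b⁻¹)) →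
      δ ∈ Δ)
    (h : LK F Δ (Hm F (gu F _) Y) (Hm F (gu F _) B) (IrrP F p (Hm F (gu F _) Y))
      (IrrP F p (Hm F (gu F _) B))) :
    ML F p GG (Hm F (gu F SL(2, K)) ⊤) (Hm F (gu F SL(2, K)) (gpB K)) := by
  obtain ⟨Φ, hm, hi, hΦ⟩ := pull_phi (F := F) (Matrix.SpecialLinearGroup.toGL (n := Fin 2) (R := K))
    Matrix.SpecialLinearGroup.toGL_injective
  have e1 : (⊤ : Subgroup SL(2, K)).map Matrix.SpecialLinearGroup.toGL = Y := by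
    ext g
    rw [hY]
    exact ⟨fun ⟨x, _, q⟩ => q ▸ x.2, fun q => ⟨⟨g.1, q⟩, trivial, Units.ext rfl⟩⟩
  have e2 : (gpB K).map Matrix.SpecialLinearGroup.toGL = B := by
    ext g
    rw [hB]
    exact ⟨fun ⟨x, k, q⟩ => q ▸ ⟨x.2, k⟩, fun q => ⟨⟨g.1, q.1⟩, q.2, Units.ext rfl⟩⟩
  have iL := pull_im hΦ ⊤
  have iM := pull_im hΦ (gpB K)
  rw [e1] at iL
  rw [e2] at iM
  have nL := nice_Hm0 (F := F) lf_tg Y
  have nM := nice_Hm0 (F := F) lf_tg B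
  rw [← iL] at h hΔ nL
  rw [← iM] at h hΔ nM
  refine lk_pull hm hi nL nM (Hm_mono le_top) hΔ le_rfl ?_ h
  rintro γ ⟨⟨⟨σ, hσ, s⟩, g1⟩, g2⟩
  obtain ⟨α, hα⟩ := pull_aut (psl_perf K h4) s g1
  have hb := (lf_tg.stb_iff s (fun x => ⟨1, one_ne_zero, by rw [hα, one_smul]⟩) _).1 g2
  obtain ⟨τ, b, b0, q⟩ := aut_gl h2 α fun g k => gp_memB.1 (hb.le (Subgroup.mem_map_of_mem _ k))
  obtain ⟨δ, d1, d2⟩ := lf_aut σ (pullA τ b)
  refine ⟨δ, hΔ' σ hσ τ b b0 δ d1 d2, fun x => ?_⟩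
  induction x using lf_ind with
  | h0 => rw [map_zero, map_zero, map_zero]
  | ha x y k k' => rw [map_add, map_add, map_add, map_add, k, k']
  | hs t x => rw [s, map_smul, map_smul, d1, hα, hΦ, hΦ, d2, pullA_apply, q]

/-- the leaf from the linked bijection inside the group algebra of `GL2(K)` -/
theorem psl_pull {A S : Type} [Ring A] [Algebra F A] [Group S] {u : S → A} [hp : Fact p.Prime]
    [CharZero F] [IsAlgClosed F] [CharP K p] (hp2 : p ≠ 2) (h4 : 4 ≤ Nat.card K)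
    (h : ML F p GG (Hm F (gu F SL(2, K)) ⊤) (Hm F (gu F SL(2, K)) (gpB K)))
    (e : S ≃* Matrix.ProjectiveSpecialLinearGroup (Fin 2) K) (hu : TG F u) (Q : Sylow p S) :
    ML F p GG (Hm F u ⊤) (Hm F u (Subgroup.normalizer (Q : Set S))) :=
  psl_of hp2 K h4 (gpSyl K p) (gp_normU (K := K) ▸ h) e hu Q

end Pool.Agent.Lib.MP_1ae3da_al.CT
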