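import Pool.Agent.Lib.MP_1ae3da_al.S.Del

/-! The action of the group of automorphisms on the idempotents and on the sets of blocks. -/

namespace Pool.Agent.Lib.MP_1ae3da_al.CT

open Submodule Matrix

section grp
variable {K : Type} [Field K]

theorem bd_comm (a : Kˣ) (g : GL (Fin 2) K) : bd a a * g = g * bd a a := by
  apply Units.ext
  ext i j
  fin_cases i <;> fin_cases j <;> simp [bd_val, mul_apply, Fin.sum_univ_two, mul_comm]

theorem bd_mul (a b c d : Kˣ) : bd a b * bd c d = bd (a * c) (b * d) :=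
  Units.ext (by simp [bd_val])

theorem bd_one : bd (1 : Kˣ) 1 = 1 := Units.ext (by simp [bd_val, one_fin_two])

theorem bd_neg : bd (-1 : Kˣ) (-1) = -1 := by
  apply Units.ext
  ext i j
  fin_cases i <;> fin_cases j <;> simp [bd_val]

theorem bd_map (τ : RingAut K) (a b : Kˣ) : GeneralLinearGroup.map (τ : K →+* K) (bd a b) =
    bd (Units.map (τ : K →* K) a) (Units.map (τ : K →* K) b) := by
  apply Units.ext
  ext i j
  fin_cases i <;> fin_cases j <;> simp [bd_val]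

theorem bx_map (τ : RingAut K) (s : K) :
    GeneralLinearGroup.map (τ : K →+* K) (bx s) = bx (τ s) := by
  apply Units.ext
  ext i j
  fin_cases i <;> fin_cases j <;> simp [bx_val]

theorem map_one_gl (g : GL (Fin 2) K) : GeneralLinearGroup.map ((1 : RingAut K) : K →+* K) g = g :=
  rfl

theorem del_mem {W : Subgroup (GL (Fin 2) K)} (hW : W = dY K ∨ W = dB K ∨ W = ⊤ ∨ W = dBt K)
    (τ : RingAut K) {b : GL (Fin 2) K} (hb : b ∈ dBt K) (g : GL (Fin 2) K) :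
    (MulAut.conj b * galM τ) g ∈ W ↔ g ∈ W := by
  have k1 : (MulAut.conj b * galM τ) g ∈ dBt K ↔ g ∈ dBt K := by
    rw [MulAut.mul_apply, MulAut.conj_apply, Subgroup.mul_mem_cancel_right _ (inv_mem hb),
      Subgroup.mul_mem_cancel_left _ hb]
    exact map_eq_zero_iff τ τ.injective
  have k2 : (MulAut.conj b * galM τ) g ∈ dY K ↔ g ∈ dY K := by
    rw [mem_dY', mem_dY']
    exact (del_det τ b g).symm ▸ map_eq_one_iff _ (Units.map_injective τ.injective)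
  rcases hW with rfl | rfl | rfl | rfl
  · exact k2
  · exact ⟨fun h => ⟨k1.1 h.1, (k2.1 ⟨trivial, h.2⟩).2⟩, fun h => ⟨k1.2 h.1, (k2.2 ⟨trivial, h.2⟩).2⟩⟩
  · exact Iff.rfl
  · exact k1

end grp

variable {F K : Type} [Field F] [Field K] {lam : AddChar K F} {GG : Subgroup (RingAut F)}
  {W W' : Subgroup (GL (Fin 2) K)} {γ h : RingAut (MonoidAlgebra F (GL (Fin 2) K))}
  {x y e : MonoidAlgebra F (GL (Fin 2) K)} {a : Kˣ} {ζ : Kˣ →* Fˣ} {σ : RingAut F}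
  {τ : RingAut K} {b : GL (Fin 2) K}

theorem del_top (x : MonoidAlgebra F (GL (Fin 2) K)) : x ∈ span F (HX F ⊤) := by
  rw [gu_span]; trivial

theorem bd_cen (a : Kˣ) (x : MonoidAlgebra F (GL (Fin 2) K)) :
    gu F _ (bd a a) * x = x * gu F _ (bd a a) :=
  span_comm' (by
    rintro _ ⟨c, -, g, -, rfl⟩
    rw [mul_smul_comm, smul_mul_assoc, gu_mul, gu_mul, bd_comm]) (del_top x)

theorem om_spec (k : ∃ c : F, gu F _ (bd a a) * x = c • x) : gu F _ (bd a a) * x = om x a • x :=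
  Classical.epsilon_spec k

theorem om_eq {c : F} (h0 : x ≠ 0) (k : gu F _ (bd a a) * x = c • x) : om x a = c :=
  smul_left_injective F h0 ((om_spec ⟨c, k⟩).symm.trans k)

theorem om_irr (hW : bd a a ∈ W) (hx : x ∈ Irr F (HX F W)) :
    gu F _ (bd a a) * x = om x a • x :=
  om_spec (hx.2.2.2 _ ⟨bk_mem hW, fun s _ => bd_cen a s⟩)

theorem om_of_mul (hW : bd a a ∈ W) (hW' : bd a a ∈ W') (hx : x ∈ Irr F (HX F W))
    (hy : y ∈ Irr F (HX F W')) {b : MonoidAlgebra F (GL (Fin 2) K)} (h0 : x * b * y ≠ 0) :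
    om x a = om y a :=
  smul_left_injective F h0 (show om x a • (x * b * y) = om y a • (x * b * y) by
    rw [← smul_mul_assoc, ← smul_mul_assoc, ← om_irr hW hx, ← mul_smul_comm, ← om_irr hW' hy,
      ← mul_assoc, ← bd_cen, mul_assoc _ x b])

theorem om_hom (hW : ∀ a, bd a a ∈ W) (hx : x ∈ Irr F (HX F W)) : ∃ f : Kˣ →* F, om x = f :=
  ⟨⟨⟨om x, om_eq hx.2.2.1 (by rw [bd_one, gu_one, one_mul, one_smul])⟩, fun a b =>
    om_eq hx.2.2.1 (by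
      rw [← bd_mul, ← gu_mul, mul_assoc, om_irr (hW b) hx, mul_smul_comm, om_irr (hW a) hx,
        smul_smul, mul_comm])⟩, rfl⟩

theorem del_ex (σ : RingAut F) (ζ : Kˣ →* Fˣ) (τ : RingAut K) (b : GL (Fin 2) K) :
    ∃ γ, DelD σ ζ τ b γ :=
  gal_aut σ (ζ.comp GeneralLinearGroup.det) (MulAut.conj b * galM τ)

theorem DelD.mem (k : DelD 1 ζ τ b γ) (hb : b ∈ dBt K) : γ ∈ DelG K GG :=
  ⟨1, one_mem _, ζ, τ, b, hb, k⟩

theorem del_sg (k : γ ∈ DelG K GG) : γ ∈ SG GG (MonoidAlgebra F (GL (Fin 2) K)) := by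
  obtain ⟨σ, h1, _, _, _, -, h2⟩ := k
  exact ⟨σ, h1, h2.1⟩

theorem del_stb (k : γ ∈ DelG K GG) (hW : W = dY K ∨ W = dB K ∨ W = ⊤ ∨ W = dBt K) :
    γ ∈ Stb (HX F W) := by
  obtain ⟨σ, -, ζ, τ, b, hb, h2⟩ := k
  exact gal_stb (δ := MulAut.conj b * galM τ) h2.1 h2.2 (del_mem hW τ hb)

theorem del_le : DelG K GG ≤ SG GG _ ⊓ Stb (HX F (dY K)) ⊓ Stb (HX F (dB K)) ⊓ Stb (HX F ⊤) ⊓
    Stb (HX F (dBt K)) := fun _ k =>
  ⟨⟨⟨⟨del_sg k, del_stb k (by simp)⟩, del_stb k (by simp)⟩, del_stb k (by simp)⟩,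
    del_stb k (by simp)⟩

theorem del_irr (k : γ ∈ DelG K GG) (hW : W = dY K ∨ W = dB K ∨ W = ⊤ ∨ W = dBt K)
    (hx : x ∈ Irr F (HX F W)) : γ x ∈ Irr F (HX F W) := (irr_stb (del_sg k) (del_stb k hW)).2 hx

theorem del_inn (k : DelD 1 1 1 b γ) (x : MonoidAlgebra F (GL (Fin 2) K)) :
    gu F _ b * x = γ x * gu F _ b :=
  gu_ext 1 ⊤ (AddMonoidHom.mulLeft _) ((AddMonoidHom.mulRight _).comp γ.toAddMonoidHom)
    (fun c z => mul_smul_comm c _ z)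
    (fun c z => (congrArg (· * _) (k.1 c z)).trans (smul_mul_assoc _ _ _)) (fun g _ => by
      change gu F _ _ * gu F _ _ = γ (gu F _ _) * gu F _ _
      rw [k.2, MonoidHom.one_apply, Units.val_one, one_smul, gu_mul, gu_mul, map_one_gl,
        inv_mul_cancel_right]) x (del_top x)

theorem DelD.det1 (k : DelD σ ζ τ b γ) {g : GL (Fin 2) K} (hg : g ∈ dY K) :
    γ (gu F _ g) = gu F _ (b * GeneralLinearGroup.map (τ : K →+* K) g * b⁻¹) := by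
  rw [k.2, mem_dY'.1 hg, map_one, Units.val_one, one_smul]

theorem del_tw (k : DelD 1 ζ 1 1 γ) (hx : x ∈ span F (HX F (dY K))) : γ x = x :=
  gal_uniq (γ' := 1) k.1 (fun _ _ => rfl) (fun g hg => by
    rw [k.det1 hg, one_mul, inv_one, mul_one]; rfl) hx

theorem DelD.om (k : DelD σ ζ τ b γ) (hW : bd a a ∈ W) (hx : x ∈ Irr F (HX F W)) :
    om (γ x) (Units.map (τ : K →* K) a) = (ζ (a * a) : F)⁻¹ * σ (om x a) := by
  refine om_eq (fun z => hx.2.2.1 (γ.injective (z.trans (map_zero γ).symm))) ?_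
  have q := congrArg γ (om_irr hW hx)
  rw [map_mul, k.1, k.2, bd_map, ← bd_comm, mul_inv_cancel_right, bd_det, smul_mul_assoc] at q
  rw [mul_smul, ← q, inv_smul_smul₀ (Units.ne_zero _)]

theorem del_om (k : γ ∈ DelG K GG) (hW : ∀ a, bd a a ∈ W) (hW' : ∀ a, bd a a ∈ W')
    (hx : x ∈ Irr F (HX F W)) (hy : y ∈ Irr F (HX F W')) (q : om x = om y) :
    om (γ x) = om (γ y) := by
  obtain ⟨σ, -, ζ, τ, b, -, k⟩ := k
  funext a
  rw [show a = Units.map (τ : K →* K) (Units.map (τ.symm : K →* K) a) from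
    Units.ext (τ.apply_symm_apply _).symm, k.om (hW _) hx, k.om (hW' _) hy, q]

theorem del_neg (k : γ ∈ DelG K GG) : γ (gu F _ (-1)) = gu F _ (-1) := by
  obtain ⟨σ, -, ζ, τ, b, -, k⟩ := k
  rw [k.det1 (mem_dY.2 (by simp [det_fin_two])), ← bd_neg, bd_map, ← bd_comm, mul_inv_cancel_right,
    show Units.map (τ : K →* K) (-1) = -1 from Units.ext (by simp)]

variable [Fintype K]

theorem DelD.E (hl : Wh lam) (k : DelD σ ζ τ b γ) (hb : b ∈ dBt K) {c : K}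
    (hc : ∀ s, σ (lam s) = lam (c * s)) (l : K) :
    γ (bE lam l) = bE lam (τ (c * l) * b.1 1 1 / b.1 0 0) := by
  have q : γ (bE lam l) = gu F _ b * bE lam (τ (c * l)) * gu F _ b⁻¹ := by
    rw [bE, bE, k.1, map_inv₀, map_natCast, map_sum, mul_smul_comm, smul_mul_assoc, Finset.mul_sum,
      Finset.sum_mul]
    refine congrArg _ (Fintype.sum_equiv τ.toEquiv _ _ fun s => ?_)
    rw [k.1, k.det1 (dB_le_dY (bx_dB s)), bx_map, hc, ← hl.aut τ, mul_smul_comm, smul_mul_assoc,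
      gu_mul, gu_mul, mul_neg, map_neg, ← mul_assoc c, map_mul τ (c * l)]
    rfl
  rw [q, bE_conj hb, mul_assoc, gu_mul, mul_inv_cancel, gu_one, mul_one]

theorem del_E (hl : Wh lam) (k : γ ∈ DelG K GG) :
    ∃ π : K ≃ K, π 0 = 0 ∧ ∀ k, γ (bE lam k) = bE lam (π k) := by
  obtain ⟨σ, -, ζ, τ, b, hb, k⟩ := k
  obtain ⟨c, c0, hc⟩ := hl.gal σ
  refine ⟨(Equiv.mulLeft₀ c c0).trans (τ.toEquiv.trans (Equiv.mulRight₀ (b.1 1 1 / b.1 0 0)
    (div_ne_zero (bru_tri hb).2 (bru_tri hb).1))), by simp, fun l => ?_⟩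
  rw [k.E hl hb hc, mul_div_assoc]
  rfl

theorem delH_E (hl : Wh lam) (k : h ∈ DelH F K) :
    h (bE lam 1) = bE lam 1 ∧ h (bE lam 0) = bE lam 0 := by
  obtain ⟨ζ, τ, k⟩ := k
  have q := k.E hl (one_mem _) (c := 1) fun s => by rw [one_mul]; rfl
  exact ⟨by simpa using q 1, by simpa using q 0⟩

theorem del_e0 (k : γ ∈ DelG K GG) :
    γ (e0 F (dY K)) = e0 F (dY K) ∧ γ (e0 F (dB K)) = e0 F (dB K) := by
  obtain ⟨σ, -, ζ, τ, b, hb, k⟩ := k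
  have q {Q : Subgroup (GL (Fin 2) K)} (h1 : Q ≤ dY K)
      (h2 : ∀ g, (MulAut.conj b * galM τ) g ∈ Q ↔ g ∈ Q) : γ (e0 F Q) = e0 F Q := by
    have := Fintype.ofFinite Q
    rw [e0, k.1, map_inv₀, map_natCast]
    congr 1
    rw [finsum_eq_sum_of_fintype, map_sum, ← finsum_eq_sum_of_fintype, ← finsum_eq_sum_of_fintype,
      ← rca_sum h2]
    exact finsum_congr fun g => k.det1 (h1 g.2)
  exact ⟨q le_rfl (del_mem (by simp) τ hb), q dB_le_dY (del_mem (by simp) τ hb)⟩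

omit [Fintype K] in
theorem del_ne (γ : RingAut (MonoidAlgebra F (GL (Fin 2) K))) : γ x * γ y = 0 ↔ x * y = 0 := by
  rw [← map_mul, map_eq_zero_iff γ γ.injective]

theorem del_XA (hl : Wh lam) (k : γ ∈ DelG K GG) :
    (∀ e ∈ XA lam, γ e ∈ XA lam) ∧ (∀ e ∈ XB lam, γ e ∈ XB lam) ∧
      (∀ e ∈ YA lam, γ e ∈ YA lam) ∧ ∀ e ∈ YB lam, γ e ∈ YB lam := by
  obtain ⟨π, p0, hp⟩ := del_E hl k
  have n {l : K} (h : l ≠ 0) : π l ≠ 0 := fun z => h (π.injective (z.trans p0.symm))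
  have z : γ (bE lam 0) = bE lam 0 := by rw [hp, p0]
  refine ⟨fun e ⟨h1, ⟨l, l0, h2⟩, m, m0, h3⟩ => ⟨del_irr k (by simp) h1, ⟨π l, n l0, ?_⟩, π m, n m0, ?_⟩,
    fun e ⟨h1, h2, h3⟩ => ⟨del_irr k (by simp) h1, fun l l0 => ?_, ?_⟩,
    fun e ⟨h1, h2⟩ => ⟨del_irr k (by simp) h1, ?_⟩,
    fun e ⟨⟨h1, h2⟩, h3⟩ => ⟨⟨del_irr k (by simp) h1, ?_⟩, fun q => h3 (γ.injective ?_)⟩⟩
  · rwa [← hp, Ne, del_ne]
  · rwa [← hp, del_ne]
  · obtain ⟨l, rfl⟩ := π.surjective l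
    rw [← hp, Ne, del_ne]
    exact h2 l fun q => l0 (by rw [q, p0])
  · rwa [← (del_e0 k).2, del_ne]
  · rwa [← z, del_ne]
  · rw [← z, ← map_mul, h2]
  · rw [q, (del_e0 k).2]

theorem del_X1 (hl : Wh lam) (k : γ ∈ DelG K GG) :
    (∀ e ∈ X1 lam, γ e ∈ X1 lam) ∧ (∀ e ∈ X1A lam, γ e ∈ X1A lam) ∧
      (∀ e ∈ X1S lam, γ e ∈ X1S lam) ∧ (∀ e ∈ X1P lam, γ e ∈ X1P lam) ∧
      (∀ e ∈ X2 lam, γ e ∈ X2 lam) ∧ (∀ e ∈ X2S lam, γ e ∈ X2S lam) ∧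
      (∀ e ∈ X2P lam, γ e ∈ X2P lam) ∧ ∀ e ∈ X3 lam, γ e ∈ X3 lam := by
  obtain ⟨π, p0, hp⟩ := del_E hl k
  have n : π 1 ≠ 0 := fun z => one_ne_zero (π.injective (z.trans p0.symm))
  have z : γ (bE lam 0) = bE lam 0 := by rw [hp, p0]
  have a1 : ∀ e ∈ X1 lam, γ e ∈ X1 lam := fun e h => ⟨del_irr k (by simp) h.1,
    bk_supp_all (del_irr k (by simp) h.1).1 (fun _ => trivial) n one_ne_zero (by
      rw [← hp, Ne, del_ne]; exact h.2)⟩
  have a2 : ∀ e ∈ X2 lam, γ e ∈ X2 lam := fun e h => ⟨del_irr k (by simp) h.1, by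
    rw [← z, ← map_mul, h.2]⟩
  refine ⟨a1, fun x ⟨h1, e, h2, h3⟩ => ⟨del_irr k (by simp) h1, γ e, (del_XA hl k).1 e h2, ?_⟩,
    fun x h => ⟨a1 x h.1, ?_⟩,
    fun x ⟨h1, e, h2, h3⟩ => ⟨del_irr k (by simp) h1, γ e, (del_XA hl k).2.1 e h2, ?_⟩, a2,
    fun x h => ⟨a2 x h.1, ?_⟩, fun x h => ⟨a2 x h.1, ?_⟩, fun e h => ⟨del_irr k (by simp) h.1,
    bk_supp_all (del_irr k (by simp) h.1).1 (fun _ => bd_dBt _ _) n one_ne_zero ?_⟩⟩
  · rwa [Ne, del_ne]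
  · rw [← (del_e0 k).2, Ne, del_ne]; exact h.2
  · rw [← map_mul, h3]
  · rw [← (del_e0 k).2, Ne, del_ne]; exact h.2
  · rw [← (del_e0 k).2, del_ne]; exact h.2
  · rw [← hp, Ne, del_ne]; exact h.2

theorem del_H [IsAlgClosed F] [CharZero F] {p : ℕ} [Fact p.Prime] [CharP K p] (j : NSV.Qbar →+* F)
    (hj : ∀ σ ∈ GG, ∃ s ∈ NSV.H p, ∀ x, σ (j x) = j (s x)) (k : γ ∈ DelG K GG) :
    ∃ h ∈ DelH F K, (∀ x ∈ Irr F (HX F ⊤), γ x = h x) ∧ ∀ y ∈ Irr F (HX F (dBt K)), γ y = h y := by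
  obtain ⟨σ, hσ, ζ, τ, b, hb, k⟩ := k
  obtain ⟨ζ', τ', h, h1, h2, h3⟩ := gal_delta j hj hσ (fun _ => mem_dBt) k.1 ζ τ hb k.2
  exact ⟨h, ⟨ζ', τ', h1, fun g => by rw [h2, one_mul, inv_one, mul_one]⟩, h3⟩

end Pool.Agent.Lib.MP_1ae3da_al.CT
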