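import Pool.Agent.Lib.MP_1ae3da_al.S.Ha
import Pool.Agent.Lib.MP_1ae3da_al.S.Tya
import Pool.Agent.Lib.MP_1ae3da_al.S.Deb

/-! The count of the blocks above the blocks of half degree. -/

namespace Pool.Agent.Lib.MP_1ae3da_al.CT

open Submodule Matrix

variable {F K : Type} [Field F] [IsAlgClosed F] [CharZero F] [Field K] [Fintype K]
  {lam : AddChar K F} {W W' : Subgroup (GL (Fin 2) K)}
  {h : RingAut (MonoidAlgebra F (GL (Fin 2) K))} {x y : MonoidAlgebra F (GL (Fin 2) K)}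

omit [IsAlgClosed F] [CharZero F] [Fintype K] in
theorem hb_om (hW : ∀ a, bd a a ∈ W) (hx : x ∈ Irr F (HX F W)) (h0 : y ≠ 0) (q : ScZ x y) :
    om x = om y := funext fun a => (om_eq h0 (q a _ (om_irr (hW a) hx))).symm

omit [IsAlgClosed F] [CharZero F] [Fintype K] in
theorem hb_sc (hW' : ∀ a, bd a a ∈ W') (h0 : x ≠ 0) (hy : y ∈ Irr F (HX F W'))
    (q : om x = om y) : ScZ x y := fun a c hc => by
  rw [om_irr (hW' a) hy, ← q, om_eq h0 hc]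

theorem nf_A (hl : Wh lam) (h2 : (2 : K) ≠ 0) (k : h ∈ DelH F K) (w : Kˣ → F) :
    Nf (X1A lam) h w = Nf (X3 lam) h w := by
  have hY : ∀ g : GL (Fin 2) K, g ∈ dY K ↔ g.1.det = 1 := fun _ => mem_dY
  have hB : ∀ g : GL (Fin 2) K, g ∈ dBt K ↔ g.1 1 0 = 0 := fun _ => mem_dBt
  have hT : ∀ a : Kˣ, bd a a ∈ (⊤ : Subgroup (GL (Fin 2) K)) := fun _ => trivial
  have hZ : ∀ a : Kˣ, bd a a ∈ dBt K := fun a => bd_dBt a a
  have T := fun (s : F) (hs : s = 1 ∨ s = -1) => tya (k := 1) hl.ne hY h2 one_ne_zero hs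
  have kG : h ∈ DelG K (⊥ : Subgroup (RingAut F)) := DelH_le k
  obtain ⟨-, i1, -, -, -, -, -, i3⟩ := del_X1 hl kG
  refine cnt_rel om (fun x y => om x = om y) h ?_ ?_ ?_ ?_ i1 i3 ?_ (fun _ _ _ _ q => q) w
  · rintro x ⟨hx, e, ⟨he, ⟨k, hk, h1⟩, m, hm, hm2⟩, h0⟩
    obtain ⟨e', he', -, -, a3⟩ := x1a_one hY he hk h1 hm hm2 hx h0
    have a4 : bE lam 1 * x ≠ 0 := fun z => a3 (by
      rw [mul_assoc, ← Cen_comm hx.1 (ha_top e'), ← mul_assoc, z, zero_mul])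
    obtain ⟨y, hy, b1, b2⟩ := x1_to_x3 hB a4 hx
    exact ⟨y, ⟨hy, b1⟩, hb_om hT hx hy.2.2.1 b2⟩
  · rintro y ⟨hy, -⟩
    obtain ⟨x, hx, ⟨e, he, a1, a2, a3⟩, q⟩ := x1a_ex hY T h2 hZ hy
    exact ⟨x, ⟨hx, e, ⟨he, ⟨1, one_ne_zero, a1⟩, a2⟩, a3⟩, hb_om hT hx hy.2.2.1 q⟩
  · rintro x - y ⟨hy, b⟩ y' ⟨hy', b'⟩ q q'
    exact x3_inj hl.ne hB hy hy' b b' (hb_sc hZ hy.2.2.1 hy' (q.symm.trans q'))
  · rintro x ⟨hx, e, ⟨he, ⟨k, hk, h1⟩, m, hm, hm2⟩, h0⟩ x'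
      ⟨hx', e', ⟨he', ⟨k', hk', h1'⟩, m', hm', hm2'⟩, h0'⟩ y - q q'
    exact x1a_inj hl.ne hY T he hk h1 hm hm2 hx h0 he' hk' h1' hm' hm2' hx' h0'
      (hb_sc hT hx.2.2.1 hx' (q.trans q'.symm))
  · exact fun x hx y hy q => del_om kG hT hZ hx.1 hy.1 q

end Pool.Agent.Lib.MP_1ae3da_al.CT
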