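import Pool.Agent.Lib.MP_1ae3da_al.S.St
import Pool.Agent.Lib.MP_1ae3da_al.S.Deb

/-! The count of the fixed blocks over the Steinberg block. -/

namespace Pool.Agent.Lib.MP_1ae3da_al.CT

variable {F K : Type} [Field F] [IsAlgClosed F] [CharZero F] [Field K] [Fintype K]
  {lam : AddChar K F} {h : RingAut (MonoidAlgebra F (GL (Fin 2) K))}

theorem nf_S (hl : Wh lam) (k : h ∈ DelH F K) (w : Kˣ → F) :
    Nf (X1S lam) h w = Nf (X2S lam) h w :=
  have q := del_X1 (GG := ⊥) hl (DelH_le k)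
  st_nf hl.ne q.2.2.1 q.2.2.2.2.2.1 w

end Pool.Agent.Lib.MP_1ae3da_al.CT
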