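import Pool.Agent.Lib.MP_1ae3da_al.S.Cnt
import Pool.Agent.Lib.MP_1ae3da_al.S.StN
import Pool.Agent.Lib.MP_1ae3da_al.S.Hb

/-! The equivariant bijection upstairs. -/

namespace Pool.Agent.Lib.MP_1ae3da_al.CT

open Submodule Matrix

variable {F K : Type} [Field F] [IsAlgClosed F] [CharZero F] [Field K] [Fintype K]
  {lam : AddChar K F} {GG : Subgroup (RingAut F)}
  {h : RingAut (MonoidAlgebra F (GL (Fin 2) K))} {x : MonoidAlgebra F (GL (Fin 2) K)}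

omit [IsAlgClosed F] [CharZero F] in
theorem the_gen (q : ∀ (h : RingAut (MonoidAlgebra F (GL (Fin 2) K))) ζ, DelD 1 ζ 1 1 h →
    h x = x → ζ = 1) : ∃ h ∈ DelH F K, h x = x ∧
      ∀ k ∈ DelH F K, k x = x → k ∈ Subgroup.zpowers h := by
  obtain ⟨g, hg⟩ := (delH_cyc q).exists_generator
  refine ⟨g, g.2.1, g.2.2, fun k a c => ?_⟩
  obtain ⟨n, hn⟩ := hg ⟨k, a, c⟩
  exact ⟨n, congrArg Subtype.val hn⟩

omit [IsAlgClosed F] [CharZero F] [Fintype K] in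
theorem Nf_union {X Y : Set (MonoidAlgebra F (GL (Fin 2) K))} (d : Disjoint X Y)
    (f : (X ∪ Y).Finite) (w : Kˣ → F) : Nf (X ∪ Y) h w = Nf X h w + Nf Y h w := by
  unfold Nf
  rw [← Set.ncard_union_eq (d.mono (fun _ k => k.1) fun _ k => k.1)
    (f.subset fun _ k => Or.inl k.1) (f.subset fun _ k => Or.inr k.1)]
  congr 1
  ext a
  simp only [Set.mem_ofPred_eq, Set.mem_union, or_and_right]

theorem the_f1 : (X1 lam).Finite := (rank_fin (bk_nice (F := F) ⊤)).subset fun _ k => k.1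

theorem the_f2 : (X2 lam).Finite := (rank_fin (bk_nice (F := F) (dBt K))).subset fun _ k => k.1

omit [IsAlgClosed F] [CharZero F] in
theorem x2_part : X2 lam = X2P lam ∪ X2S lam ∧ Disjoint (X2P lam) (X2S lam) :=
  ⟨Set.ext fun _ => ⟨fun k => (em _).imp (⟨k, ·⟩) (⟨k, ·⟩), fun k => k.elim (·.1) (·.1)⟩,
    Set.disjoint_left.2 fun _ a c => c.2 a.2⟩

theorem nf_P (hl : Wh lam) (h2 : (2 : K) ≠ 0) (k : h ∈ DelH F K) (w : Kˣ → F) :
    Nf (X1P lam) h w = Nf (X2P lam) h w := by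
  obtain ⟨e, d1, d2⟩ := x1_part (F := F) hl.ne
  have f1 := e ▸ the_f1 (lam := lam)
  have t := nf_tr hl k w
  rw [e, x2_part.1, Nf_union d2 f1, Nf_union d1 (f1.subset Set.subset_union_left),
    Nf_union x2_part.2 ((x2_part (lam := lam)).1 ▸ the_f2), nf_A hl h2 k, nf_S hl k] at t
  omega

theorem theta {p : ℕ} [Fact p.Prime] [CharP K p] (h2 : (2 : K) ≠ 0) (hl : Wh lam)
    (j : NSV.Qbar →+* F) (hj : ∀ σ ∈ GG, ∃ s ∈ NSV.H p, ∀ x, σ (j x) = j (s x)) :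
    ∃ Θ, EqB (DelG K GG) (X1P lam) (X2P lam) Θ ∧ ∀ x ∈ X1P lam, om (Θ x) = om x := by
  obtain ⟨Θ, ⟨b, e⟩, o⟩ := gset (DelH F K) om (X := X1P lam) (Y := X2P lam)
    ((rank_fin (bk_nice (F := F) ⊤)).subset fun _ k => k.1) (the_f2.subset fun _ k => k.1)
    (fun _ k => (del_X1 (GG := GG) hl (DelH_le k)).2.2.2.1)
    (fun _ k => (del_X1 (GG := GG) hl (DelH_le k)).2.2.2.2.2.2.1)
    (fun _ k _ hx _ hy => del_om (GG := GG) (DelH_le k) (fun _ => Subgroup.mem_top _)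
      (fun a => bd_dBt a a) hx.1 hy.1.1)
    (fun _ hx => the_gen fun _ _ k => hx.elim (x1p_free hl.ne · k) (x2_free hl.ne ·.1 k))
    fun _ k => nf_P hl h2 k
  refine ⟨Θ, ⟨b, fun γ k x hx => ⟨(del_X1 hl k).2.2.2.1 x hx, ?_⟩⟩, o⟩
  obtain ⟨g, hg, a, c⟩ := del_H j hj k
  rw [a x hx.1, c _ (b.mapsTo hx).1.1]
  exact (e g hg x hx).2

end Pool.Agent.Lib.MP_1ae3da_al.CT
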