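import Pool.Agent.Lib.MP_1ae3da_al.S.LkB
import Pool.Agent.Lib.MP_1ae3da_al.S.LkA
import Pool.Agent.Lib.MP_1ae3da_al.S.IrrY
import Pool.Agent.Lib.MP_1ae3da_al.S.Pull
import Pool.Agent.Lib.MP_1ae3da_al.S.Theta

/-! The linked McKay bijection for `PSL2(K)` in the defining characteristic. -/

namespace Pool.Agent.Lib.MP_1ae3da_al.CT

open Submodule Matrix

section
variable {F K : Type} [Field F] [IsAlgClosed F] [CharZero F] [Field K] [Fintype K]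
  {lam : AddChar K F} {GG : Subgroup (RingAut F)}

theorem top_dY (hl : lam ≠ 1) : Disjoint {e0 F (dY K)} (XA lam) ∧
    Disjoint ({e0 F (dY K)} ∪ XA lam) (XB lam) := by
  have t := (bk_triv hl (fun _ => mem_dY) (e0_irr (F := F) (Q := dY K))).2 rfl
  refine ⟨Set.disjoint_left.2 ?_, Set.disjoint_left.2 ?_⟩
  · rintro _ rfl ⟨-, ⟨k, hk, h⟩, -⟩
    exact h (t k hk)
  · rintro e (rfl | ⟨-, -, l, l0, h⟩) ⟨-, q, -⟩
    · exact q 1 one_ne_zero (t 1 one_ne_zero)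
    · exact q l l0 h

theorem top_dB : Disjoint {e0 F (dB K)} (YA lam) ∧ Disjoint ({e0 F (dB K)} ∪ YA lam) (YB lam) := by
  refine ⟨Set.disjoint_left.2 ?_, Set.disjoint_left.2 ?_⟩
  · rintro _ rfl ⟨h, z⟩
    exact h.2.2.1 ((bk_e0 (lam := lam) bx_dB).2.symm.trans z)
  · rintro e (rfl | ⟨h, z⟩) ⟨q, n⟩
    · exact n rfl
    · exact h.2.2.1 (q.2.symm.trans z)

theorem top_lk {p : ℕ} [Fact p.Prime] [CharP K p] (h2 : (2 : K) ≠ 0) (j : NSV.Qbar →+* F)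
    (hj : ∀ σ ∈ GG, ∃ s ∈ NSV.H p, ∀ x, σ (j x) = j (s x)) :
    LK F (DelG K GG) (HX F (dY K)) (HX F (dB K)) (IrrP F p (HX F (dY K)))
      (IrrP F p (HX F (dB K))) := by
  obtain ⟨lam, hl⟩ := exists_Wh (F := F) (K := K) (p := p)
  obtain ⟨Θ, hΘ, ho⟩ := theta h2 hl j hj
  rw [irrP_Y h2 hl.ne, irrP_B h2 hl.ne, irr_B hl.ne]
  exact lk_union (lk_union lk_triv (lk_A hl h2) (top_dY hl.ne).1 top_dB.1) (lk_B hl h2 hΘ ho)
    (top_dY hl.ne).2 top_dB.2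

end

variable {p : ℕ} {F k A : Type} [Field F] [Field k] [Ring A] [Algebra F A] {O R : Subring F}
  {r : F → k} {GG : Subgroup (RingAut F)}

theorem psl_ml (h : PM p O R r GG) (hp2 : p ≠ 2) (j : NSV.Qbar →+* F)
    (hj : ∀ σ ∈ GG, ∃ s ∈ NSV.H p, ∀ x, σ (j x) = j (s x)) (K : Type) [Field K] [Finite K]
    [CharP K p] (h4 : 4 ≤ Nat.card K) (S : Type) [Group S] [Finite S]
    (e : S ≃* Matrix.ProjectiveSpecialLinearGroup (Fin 2) K) {u : S → A} (hu : TG F u)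
    (Q : Sylow p S) : ML F p GG (Hm F u ⊤) (Hm F u (Subgroup.normalizer (Q : Set S))) := by
  have hp : Fact p.Prime := ⟨h.prime⟩
  have := h.charF
  have := h.algF
  have := Fintype.ofFinite K
  have h2 : (2 : K) ≠ 0 := fun q => hp2 ((Nat.prime_dvd_prime_iff_eq hp.out Nat.prime_two).1
    ((CharP.cast_eq_zero_iff K p 2).1 q))
  refine psl_pull hp2 h4 (sl_pull h2 h4 (fun _ => mem_dY) (fun _ => mem_dB)
    (del_le.trans (inf_le_left.trans inf_le_left)) ?_ (top_lk h2 j hj)) e hu Q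
  exact fun σ hσ τ b b0 δ s q => ⟨σ, hσ, 1, τ, b, b0, s, fun g => by
    rw [q, MonoidHom.one_apply, Units.val_one, one_smul]⟩

end Pool.Agent.Lib.MP_1ae3da_al.CT
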