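import Pool.Agent.Lib.MP_1ae3da_al.S.A6
import Pool.Agent.Lib.MP_1ae3da_al.S.A7
import Pool.Agent.Lib.MP_1ae3da_al.S.Top

/-! The linked McKay bijection for the alternating groups on six and seven letters, `p = 3`. -/

namespace Pool.Agent.Lib.MP_1ae3da_al.CT

open Submodule Pool.Agent.Lib.McK

variable {p : ℕ} {F k A : Type} [Field F] [Field k] [Ring A] [Algebra F A] {O R : Subring F}
  {r : F → k} {GG : Subgroup (RingAut F)}

theorem a6_char : CharP K9 3 :=
  charP_of_injective_algebraMap (algebraMap (ZMod 3) K9).injective 3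

theorem a6_iso : Nonempty (alternatingGroup (Fin 6) ≃*
    Matrix.ProjectiveSpecialLinearGroup (Fin 2) K9) :=
  ⟨((QuotientGroup.quotientMulEquivOfEq a6f_ker.symm).trans
    (QuotientGroup.quotientKerEquivOfSurjective a6f a6f_surj)).symm⟩

theorem a67_ml (h : PM p O R r GG) (hp3 : p = 3) (j : NSV.Qbar →+* F)
    (hj : ∀ σ ∈ GG, ∃ s ∈ NSV.H p, ∀ x, σ (j x) = j (s x)) (n : ℕ) (hn : n = 6 ∨ n = 7)
    (S : Type) [Group S] [Finite S] (e : S ≃* alternatingGroup (Fin n)) {u : S → A}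
    (hu : TG F u) (Q : Sylow p S) :
    ML F p GG (Hm F u ⊤) (Hm F u (Subgroup.normalizer (Q : Set S))) := by
  rcases hn with rfl | rfl
  · subst hp3
    obtain ⟨e'⟩ := a6_iso
    have := a6_char
    exact psl_ml h (by decide) j hj K9 (by rw [a6_card_K9]; decide) S (e.trans e') hu Q
  · exact a7_ml h hp3 j hj S e hu Q

end Pool.Agent.Lib.MP_1ae3da_al.CT
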