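import Mathlib

/-! The alternating group on six letters is the quotient of `SL(2, 9)` by its centre. -/

namespace Pool.Agent.Lib.MP_1ae3da_al.CT

open Matrix Equiv
open scoped MatrixGroups

theorem a6_card_SL (K : Type) [Field K] [Finite K] :
    Nat.card SL(2, K) * (Nat.card K - 1) =
      (Nat.card K ^ 2 - 1) * (Nat.card K ^ 2 - Nat.card K) := by
  classical
  have := Fintype.ofFinite K
  have h1 := Matrix.card_GL_field (𝔽 := K) 2
  rw [Fin.prod_univ_two] at h1
  have h2 := Subgroup.card_mul_index (GeneralLinearGroup.det : GL (Fin 2) K →* Kˣ).ker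
  rw [Subgroup.index_ker, MonoidHom.range_eq_top.2 GeneralLinearGroup.det_surjective,
    Subgroup.card_top, Nat.card_units] at h2
  have h3 : (SpecialLinearGroup.toGL : SL(2, K) →* GL (Fin 2) K).range =
      (GeneralLinearGroup.det : GL (Fin 2) K →* Kˣ).ker := by
    ext g
    constructor
    · rintro ⟨x, rfl⟩
      exact Units.ext (by simp)
    · intro hg
      exact ⟨⟨g.1, by simpa using congrArg Units.val (MonoidHom.mem_ker.1 hg)⟩, Units.ext rfl⟩
  have h4 : Nat.card SL(2, K) =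
      Nat.card (GeneralLinearGroup.det : GL (Fin 2) K →* Kˣ).ker := by
    rw [← h3]
    exact Nat.card_congr (MonoidHom.ofInjective SpecialLinearGroup.toGL_injective).toEquiv
  rw [h4, h2, h1, Nat.card_eq_fintype_card]
  simp

/-- the field with nine elements. -/
abbrev K9 := QuadraticAlgebra (ZMod 3) (-1) 0

instance a6_fact : Fact (∀ r : ZMod 3, r ^ 2 ≠ -1 + 0 * r) := ⟨by decide⟩

instance a6_fin : Fintype K9 := Fintype.ofEquiv _ (QuadraticAlgebra.equivProd (-1) 0).symm

theorem a6_card_K9 : Nat.card K9 = 9 := by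
  rw [Nat.card_congr (QuadraticAlgebra.equivProd (-1 : ZMod 3) 0)]; simp

/-- the supports of the three-cycles attached to the vectors. -/
def a6tab : List ℕ :=
  [0, 14, 14, 14, 49, 49, 14, 49, 49, 7, 13, 11, 22, 28, 26, 38, 44, 42, 7, 11, 13, 38, 42, 44,
    22, 26, 28, 7, 38, 22, 13, 44, 28, 11, 42, 26, 56, 37, 19, 21, 50, 41, 35, 25, 52, 56, 35,
    21, 37, 25, 50, 19, 52, 41, 7, 22, 38, 11, 26, 42, 13, 28, 44, 56, 21, 35, 19, 41, 52, 37,
    50, 25, 56, 19, 37, 35, 52, 25, 21, 41, 50]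

/-- the table as a function. -/
def a6c (x y : K9) (j : Fin 6) : Bool :=
  (a6tab.getD (27 * x.re.val + 9 * x.im.val + 3 * y.re.val + y.im.val) 0).testBit j.val

/-- the three-cycle `a ↦ b ↦ c ↦ a`. -/
def a6t (a b c : Fin 6) : Perm (Fin 6) := swap a c * swap a b

theorem a6_x1 : ∀ (x y : K9) (j : Fin 6), a6c (x + y) y (a6t 0 1 2 j) = a6c x y j := by
  decide +kernel

theorem a6_xi : ∀ (x y : K9) (j : Fin 6),
    a6c (x + ⟨0, 1⟩ * y) y (a6t 3 4 5 j) = a6c x y j := by
  decide +kernel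

theorem a6_y1 : ∀ (x y : K9) (j : Fin 6), a6c x (x + y) (a6t 1 2 3 j) = a6c x y j := by
  decide +kernel

theorem a6_yi : ∀ (x y : K9) (j : Fin 6),
    a6c x (⟨0, 1⟩ * x + y) (a6t 0 5 4 j) = a6c x y j := by
  decide +kernel

theorem a6_sep : ∀ j k : Fin 6, (∀ x y : K9, a6c x y j = a6c x y k) → j = k := by
  decide +kernel

theorem a6_neg : ∀ (x y : K9) (j : Fin 6), a6c (-x) (-y) j = a6c x y j := by
  decide +kernel

theorem a6_e1 : ∀ x y : K9, (∀ j, a6c x y j = a6c 1 0 j) → y = 0 := by decide +kernel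

theorem a6_e2 : ∀ x y : K9, (∀ j, a6c x y j = a6c 0 1 j) → x = 0 := by decide +kernel

theorem a6_e3 : ∀ x y : K9, (∀ j, a6c x y j = a6c 1 1 j) → x = y := by decide +kernel

theorem a6_dec : ∀ c : K9, ∃ a b : Fin 3, c = (a : ℕ) * 1 + (b : ℕ) * ⟨0, 1⟩ := by
  decide +kernel

theorem a6_sq : ∀ r : K9, r ^ 2 = 1 → r = 1 ∨ r = -1 := by decide +kernel

/-- the graph of the homomorphism. -/
def a6R (g : SL(2, K9)) (s : Perm (Fin 6)) : Prop :=
  Perm.sign s = 1 ∧ ∀ (x y : K9) (j : Fin 6),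
    a6c (g 0 0 * x + g 0 1 * y) (g 1 0 * x + g 1 1 * y) (s j) = a6c x y j

theorem a6R_one : a6R 1 1 := ⟨by simp, fun x y j => by simp⟩

theorem a6R_mul {g h : SL(2, K9)} {s t : Perm (Fin 6)} (a : a6R g s) (b : a6R h t) :
    a6R (g * h) (s * t) := by
  refine ⟨by rw [map_mul, a.1, b.1, one_mul], fun x y j => ?_⟩
  rw [← b.2 x y j, ← a.2 _ _ (t j)]
  have e : ∀ i k, (g * h) i k = g i 0 * h 0 k + g i 1 * h 1 k := fun i k => by
    simp [Matrix.mul_apply, Fin.sum_univ_two]
  simp only [e, Perm.mul_apply]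
  congr 1 <;> ring

theorem a6R_uniq {g : SL(2, K9)} {s t : Perm (Fin 6)} (a : a6R g s) (b : a6R g t) : s = t := by
  have h : ∀ j, t⁻¹ (s j) = j := fun j => a6_sep _ _ fun x y => by
    rw [← a.2 x y j, ← b.2 x y (t⁻¹ (s j))]; simp
  ext1 j
  rw [← Perm.inv_eq_iff_eq.1 (h j)]

theorem a6t_sign (a b c : Fin 6) (h1 : a ≠ c) (h2 : a ≠ b) : Perm.sign (a6t a b c) = 1 := by
  simp [a6t, Perm.sign_swap h1, Perm.sign_swap h2]

theorem a6R_tr (i j : Fin 2) (h : i ≠ j) (u : K9)
    (hu : ∃ s, a6R (SpecialLinearGroup.transvection h u) s) (n : ℕ) :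
    ∃ s, a6R (SpecialLinearGroup.transvection h (n * u)) s := by
  induction n with
  | zero => exact ⟨1, by simpa using a6R_one⟩
  | succ n ih =>
    obtain ⟨s, hs⟩ := ih
    obtain ⟨t, ht⟩ := hu
    refine ⟨s * t, ?_⟩
    have := a6R_mul hs ht
    rwa [← SpecialLinearGroup.transvection_add, ← add_one_mul, ← Nat.cast_succ] at this

theorem a6R_tot (g : SL(2, K9)) : ∃ s, a6R g s := by
  refine SL2.transvection_induction (fun g => ∃ s, a6R g s) (fun i j h c => ?_)
    (fun A B ⟨s, hs⟩ ⟨t, ht⟩ => ⟨s * t, a6R_mul hs ht⟩) g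
  obtain ⟨a, b, rfl⟩ := a6_dec c
  have key : (∃ s, a6R (SpecialLinearGroup.transvection h 1) s) ∧
      ∃ s, a6R (SpecialLinearGroup.transvection h ⟨0, 1⟩) s := by
    fin_cases i <;> fin_cases j
    · exact absurd rfl h
    · refine ⟨⟨a6t 0 1 2, a6t_sign _ _ _ (by decide) (by decide), fun x y j => ?_⟩,
        ⟨a6t 3 4 5, a6t_sign _ _ _ (by decide) (by decide), fun x y j => ?_⟩⟩
      · simpa [SpecialLinearGroup.transvection_coe] using a6_x1 x y j
      · simpa [SpecialLinearGroup.transvection_coe] using a6_xi x y j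
    · refine ⟨⟨a6t 1 2 3, a6t_sign _ _ _ (by decide) (by decide), fun x y j => ?_⟩,
        ⟨a6t 0 5 4, a6t_sign _ _ _ (by decide) (by decide), fun x y j => ?_⟩⟩
      · simpa [SpecialLinearGroup.transvection_coe] using a6_y1 x y j
      · simpa [SpecialLinearGroup.transvection_coe] using a6_yi x y j
    · exact absurd rfl h
  obtain ⟨s, hs⟩ := a6R_tr i j h _ key.1 a
  obtain ⟨t, ht⟩ := a6R_tr i j h _ key.2 b
  rw [SpecialLinearGroup.transvection_add]
  exact ⟨s * t, a6R_mul hs ht⟩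

/-- the homomorphism. -/
noncomputable def a6f : SL(2, K9) →* alternatingGroup (Fin 6) :=
  MonoidHom.mk' (fun g => ⟨(a6R_tot g).choose, (a6R_tot g).choose_spec.1⟩) fun g h =>
    Subtype.ext (a6R_uniq (a6R_tot (g * h)).choose_spec
      (a6R_mul (a6R_tot g).choose_spec (a6R_tot h).choose_spec))

theorem a6f_ker : a6f.ker = Subgroup.center SL(2, K9) := by
  ext g
  have hg : a6R g (a6f g).1 := (a6R_tot g).choose_spec
  rw [MonoidHom.mem_ker, Matrix.SpecialLinearGroup.mem_center_iff]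
  constructor
  · intro h
    rw [h] at hg
    have h1 : g 1 0 = 0 := a6_e1 (g 0 0) _ fun j => by simpa using hg.2 1 0 j
    have h2 : g 0 1 = 0 := a6_e2 _ (g 1 1) fun j => by simpa using hg.2 0 1 j
    have h3 : g 0 0 = g 1 1 := a6_e3 _ _ fun j => by simpa [h1, h2] using hg.2 1 1 j
    have h4 := g.2
    rw [Matrix.det_fin_two] at h4
    refine ⟨g 0 0, ?_, ?_⟩
    · have h5 : g.1 0 0 * g.1 1 1 = 1 := by
        rw [show g.1 0 1 = 0 from h2] at h4; simpa using h4
      rw [Fintype.card_fin, sq]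
      nth_rewrite 2 [h3]
      exact h5
    · ext1 i j
      fin_cases i <;> fin_cases j <;> simp [h1, h2, h3]
  · rintro ⟨r, hr, hs⟩
    rw [Fintype.card_fin] at hr
    refine Subtype.ext (a6R_uniq hg ⟨by simp, fun x y j => ?_⟩)
    have e : ∀ i j, g i j = Matrix.scalar (Fin 2) r i j := fun i j => by rw [hs]
    simp only [e]
    rcases a6_sq r hr with rfl | rfl
    · simp
    · simpa using a6_neg x y j

theorem a6f_surj : Function.Surjective a6f := by
  have h1 := a6_card_SL K9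
  rw [a6_card_K9] at h1
  have h2 : Nat.card SL(2, K9) = 720 := by omega
  have h3 : Nat.card (Subgroup.center SL(2, K9)) ≤ 2 := by
    have : ((Subgroup.center SL(2, K9) : Subgroup _) : Set SL(2, K9)) ⊆ {1, -1} := by
      intro g hg
      obtain ⟨r, hr, hs⟩ := Matrix.SpecialLinearGroup.mem_center_iff.1 hg
      rw [Fintype.card_fin] at hr
      rcases a6_sq r hr with rfl | rfl
      · exact Or.inl (Subtype.ext (by rw [← hs]; simp))
      · exact Or.inr (Subtype.ext (by rw [← hs, map_neg, map_one]; simp))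
    exact (Set.ncard_le_ncard this (Set.toFinite _)).trans (Set.ncard_insert_le _ _ |>.trans (by simp))
  have h4 := Subgroup.card_mul_index a6f.ker
  rw [Subgroup.index_ker, a6f_ker, h2] at h4
  have h5 : Nat.card (alternatingGroup (Fin 6)) = 360 := by
    have := two_mul_nat_card_alternatingGroup (α := Fin 6)
    rw [Nat.card_perm] at this
    rw [show Nat.card (Fin 6) = 6 by simp, show Nat.factorial 6 = 720 from rfl] at this
    omega
  rw [← MonoidHom.range_eq_top]
  refine Subgroup.eq_top_of_le_card _ ?_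
  rw [h5]
  nlinarith

theorem a6_psl (K : Type) [Field K] (hK : Nat.card K = 9) :
    ∃ f : SL(2, K) →* alternatingGroup (Fin 6),
      Function.Surjective f ∧ f.ker = Subgroup.center SL(2, K) := by
  have : Finite K := Nat.finite_of_card_ne_zero (by omega)
  have := Fintype.ofFinite K
  have e : K ≃+* K9 := FiniteField.ringEquivOfCardEq
    (by rw [← Nat.card_eq_fintype_card, ← Nat.card_eq_fintype_card, hK, a6_card_K9])
  let φ : SL(2, K) →* SL(2, K9) := Matrix.SpecialLinearGroup.map (e : K →+* K9)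
  have hφ : ∀ g i j, φ g i j = e (g i j) := fun g i j => rfl
  refine ⟨a6f.comp φ, a6f_surj.comp fun g => ?_, ?_⟩
  · exact ⟨Matrix.SpecialLinearGroup.map (e.symm : K9 →+* K) g, by
      ext1 i j; rw [hφ]; exact e.apply_symm_apply _⟩
  · ext g
    rw [MonoidHom.mem_ker, MonoidHom.comp_apply, ← MonoidHom.mem_ker, a6f_ker,
      Matrix.SpecialLinearGroup.mem_center_iff, Matrix.SpecialLinearGroup.mem_center_iff]
    constructor
    · rintro ⟨r, hr, hs⟩
      refine ⟨e.symm r, by rw [← map_pow, hr, map_one], ?_⟩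
      ext1 i j
      apply e.injective
      rw [show e (g.1 i j) = (φ g).1 i j from rfl, ← hs]
      by_cases h : i = j <;> simp [h]
    · rintro ⟨r, hr, hs⟩
      refine ⟨e r, by rw [← map_pow, hr, map_one], ?_⟩
      ext1 i j
      rw [show (φ g).1 i j = e (g.1 i j) from rfl, ← hs]
      by_cases h : i = j <;> simp [h]

end Pool.Agent.Lib.MP_1ae3da_al.CT
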