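import Mathlib

/-! Automorphisms of `SL(2, K)` that keep the upper triangular subgroup. -/

namespace Pool.Agent.Lib.MP_1ae3da_al.CT

open Matrix
open scoped MatrixGroups

variable {K : Type} [Field K]

/-- the upper unipotent matrix. -/
def autX (s : K) : SL(2, K) := ⟨!![1, s; 0, 1], by simp [Matrix.det_fin_two_of]⟩

/-- the lower unipotent matrix. -/
def autY (s : K) : SL(2, K) := ⟨!![1, 0; s, 1], by simp [Matrix.det_fin_two_of]⟩

theorem autX_val (s : K) : (autX s).1 = !![1, s; 0, 1] := rfl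

theorem autY_val (s : K) : (autY s).1 = !![1, 0; s, 1] := rfl

theorem aut_mul (g h : SL(2, K)) : (g * h).1 = g.1 * h.1 := rfl

theorem autX_add (s t : K) : autX (s + t) = autX s * autX t := by
  apply Subtype.ext
  rw [aut_mul]
  simp [autX_val, add_comm]

theorem autX_zero : autX (0 : K) = 1 := by
  apply Subtype.ext
  simp [autX, Matrix.one_fin_two]

theorem autX_pow (s : K) (n : ℕ) : autX s ^ n = autX (n * s) := by
  induction n with
  | zero => simp [autX_zero]
  | succ n ih => rw [pow_succ, ih, ← autX_add]; congr 1; push_cast; ring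

theorem autX_inj {s t : K} (h : autX s = autX t) : s = t := by
  simpa [autX] using congrArg (fun g : SL(2, K) => g.1 0 1) h

theorem aut_ind (P : SL(2, K) → Prop) (hx : ∀ s, P (autX s)) (hy : ∀ s, P (autY s))
    (hm : ∀ a b, P a → P b → P (a * b)) (g : SL(2, K)) : P g := by
  refine SL2.transvection_induction P (fun i j h c => ?_) hm g
  fin_cases i <;> fin_cases j
  · exact absurd rfl h
  · convert hx c using 1
    apply Subtype.ext
    ext i j
    fin_cases i <;> fin_cases j <;>
      simp [autX, Matrix.SpecialLinearGroup.transvection_coe]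
  · convert hy c using 1
    apply Subtype.ext
    ext i j
    fin_cases i <;> fin_cases j <;>
      simp [autY, Matrix.SpecialLinearGroup.transvection_coe]
  · exact absurd rfl h

theorem aut_det (g : SL(2, K)) : g.1 0 0 * g.1 1 1 - g.1 0 1 * g.1 1 0 = 1 := by
  rw [← Matrix.det_fin_two]; exact g.2

theorem aut_pow00 (g : SL(2, K)) (h : g.1 1 0 = 0) (n : ℕ) :
    (g ^ n).1 1 0 = 0 ∧ (g ^ n).1 0 0 = g.1 0 0 ^ n := by
  induction n with
  | zero => simp
  | succ n ih =>
    rw [pow_succ, pow_succ, Matrix.SpecialLinearGroup.coe_mul]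
    simp only [Matrix.mul_apply, Fin.sum_univ_two, ih.1, ih.2, h]
    constructor <;> ring

/-- the upper triangular elements killed by `p` are unipotent. -/
theorem aut_unip {p : ℕ} [Fact p.Prime] [CharP K p] (g : SL(2, K)) (h : g.1 1 0 = 0)
    (hp : g ^ p = 1) : g = autX (g.1 0 1) := by
  have h1 := (aut_pow00 g h p).2
  rw [hp] at h1
  have h2 : g.1 0 0 = 1 := by
    have h3 : (g.1 0 0 - 1) ^ p = 0 := by
      rw [sub_pow_char, ← h1]; simp
    exact sub_eq_zero.1 (pow_eq_zero_iff (Fact.out : p.Prime).ne_zero |>.1 h3)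
  have h4 := aut_det g
  rw [h, h2] at h4
  apply Subtype.ext
  ext i j
  fin_cases i <;> fin_cases j
  · simpa [autX] using h2
  · simp [autX]
  · simpa [autX] using h
  · simpa [autX] using h4

theorem aut_conjX (g : SL(2, K)) (h : g.1 1 0 = 0) (s : K) :
    g * autX s = autX (g.1 0 0 ^ 2 * s) * g := by
  have h4 := aut_det g
  rw [h] at h4
  apply Subtype.ext
  rw [aut_mul, aut_mul]
  ext i j
  fin_cases i <;> fin_cases j <;>
    simp [autX_val, Matrix.mul_apply, Fin.sum_univ_two, h]
  linear_combination (-(g.1 0 0 * s)) * h4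

theorem aut_conjW (g : SL(2, K)) (c : K) :
    (g * autX c * g⁻¹).1 = !![1 - c * g.1 0 0 * g.1 1 0, c * g.1 0 0 ^ 2;
      -(c * g.1 1 0 ^ 2), 1 + c * g.1 0 0 * g.1 1 0] := by
  have h4 := aut_det g
  rw [Matrix.SpecialLinearGroup.coe_mul, Matrix.SpecialLinearGroup.coe_mul,
    Matrix.SpecialLinearGroup.coe_inv, Matrix.adjugate_fin_two]
  ext i j
  fin_cases i <;> fin_cases j <;>
    simp [autX, Matrix.mul_apply, Fin.sum_univ_two]
  · linear_combination h4
  · ring
  · ring
  · linear_combination h4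

theorem aut_W (c : K) :
    autY (-c) = (autX 1 * autY (-1) * autX 1) * autX c * (autX 1 * autY (-1) * autX 1)⁻¹ := by
  apply Subtype.ext
  rw [aut_conjW, aut_mul, aut_mul]
  simp [autX_val, autY_val]

/-- AUT, matrix form. -/
theorem aut_mat [Finite K] (h2 : (2 : K) ≠ 0) (α : MulAut SL(2, K))
    (hB : ∀ g : SL(2, K), g.1 1 0 = 0 → (α g).1 1 0 = 0) :
    ∃ (τ : RingAut K) (r m : K), r ≠ 0 ∧ ∀ g : SL(2, K),
      (α g).1 * !![r, m; 0, 1] = !![r, m; 0, 1] * g.1.map τ := by
  obtain ⟨p, hp⟩ := CharP.exists K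
  have : Fact p.Prime := ⟨CharP.char_is_prime K p⟩
  set a : K → K := fun s => (α (autX s)).1 0 1 with ha
  have hX : ∀ s, α (autX s) = autX (a s) := fun s =>
    aut_unip (p := p) _ (hB _ (by simp [autX])) (by
      rw [← map_pow, autX_pow, CharP.cast_eq_zero, zero_mul, autX_zero, map_one])
  have hadd : ∀ s t, a (s + t) = a s + a t := fun s t =>
    autX_inj (by rw [← hX, autX_add, map_mul, hX, hX, autX_add])
  have hinj : Function.Injective a := fun s t h =>
    autX_inj (α.injective (by rw [hX, hX, h]))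
  have h0 : a 0 = 0 := autX_inj (by rw [← hX, autX_zero, map_one])
  have h1 : a 1 ≠ 0 := fun h => one_ne_zero (hinj (h.trans h0.symm))
  have hneg : ∀ s, a (-s) = -a s := fun s =>
    eq_neg_of_add_eq_zero_left (by rw [← hadd, neg_add_cancel, h0])
  have hsq : ∀ r s, a (r ^ 2 * s) * a 1 = a (r ^ 2) * a s := fun r s => by
    by_cases hr : r = 0
    · simp [hr, h0]
    · let t : SL(2, K) := ⟨!![r, 0; 0, r⁻¹], by simp [Matrix.det_fin_two_of, hr]⟩
      have ht : t.1 1 0 = 0 := by simp [t]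
      have key : ∀ s, a (r ^ 2 * s) = (α t).1 0 0 ^ 2 * a s := fun s => by
        have e := congrArg α (aut_conjX t ht s)
        rw [map_mul, map_mul, hX, hX, aut_conjX _ (hB t ht)] at e
        have e2 := autX_inj (mul_right_cancel e)
        rw [e2]; simp [t]
      have k1 := key 1
      rw [mul_one] at k1
      rw [key, k1]; ring
  have hmul : ∀ y s, a (y * s) * a 1 = a y * a s := fun y s => by
    have e : y = ((y + 1) / 2) ^ 2 + -((y - 1) / 2) ^ 2 := by field_simp; ring
    have e1 : a (y * s) = a (((y + 1) / 2) ^ 2 * s) - a (((y - 1) / 2) ^ 2 * s) := by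
      rw [sub_eq_add_neg, ← hneg, ← hadd]; congr 1; linear_combination s * e
    have e2 : a y = a (((y + 1) / 2) ^ 2) - a (((y - 1) / 2) ^ 2) := by
      rw [sub_eq_add_neg, ← hneg, ← hadd, ← e]
    rw [e1, sub_mul, hsq, hsq, e2]; ring
  let τ0 : K →+* K :=
    { toFun := fun s => a s / a 1
      map_one' := div_self h1
      map_mul' := fun y s => by field_simp; exact hmul y s
      map_zero' := by simp [h0]
      map_add' := fun s t => by rw [hadd, add_div] }
  let τ : RingAut K := RingEquiv.ofBijective τ0 (Finite.injective_iff_bijective.1 τ0.injective)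
  have hτ : ∀ s, a s = a 1 * τ s := fun s => by
    change a s = a 1 * (a s / a 1); field_simp
  set G := α (autX 1 * autY (-1) * autX 1) with hG
  have hY : ∀ c, (α (autY (-c))).1 = !![1 - a c * G.1 0 0 * G.1 1 0, a c * G.1 0 0 ^ 2;
      -(a c * G.1 1 0 ^ 2), 1 + a c * G.1 0 0 * G.1 1 0] := fun c => by
    rw [← aut_conjW, aut_W, map_mul, map_mul α _ (autX c), map_inv, hX]
  have hW : G.1 1 0 = -(a 1 * G.1 1 0 ^ 2) := by
    have e : G.1 = (autX (a 1)).1 * (α (autY (-1))).1 * (autX (a 1)).1 := by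
      rw [hG, map_mul, map_mul, hX]; rfl
    rw [hY] at e
    have := congrFun (congrFun e 1) 0
    simpa [autX, Matrix.mul_apply, Fin.sum_univ_two] using this
  have hne : G.1 1 0 ≠ 0 := fun h => by
    have e : α (autY (-1)) = autX (a 1 * G.1 0 0 ^ 2) := by
      apply Subtype.ext
      rw [hY, h]; simp [autX_val]
    have e2 : autY (-1 : K) * autX 1 = autX 1 * autY (-1) := α.injective (by
      rw [map_mul, map_mul, e, hX, ← autX_add, ← autX_add, add_comm])
    have e3 := congrArg (fun g : SL(2, K) => g.1 0 0) e2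
    simp only [aut_mul] at e3
    simp [autX_val, autY_val] at e3
  have hg : a 1 * G.1 1 0 = -1 := by
    apply mul_right_cancel₀ hne
    linear_combination hW
  refine ⟨τ, a 1, -(a 1 * G.1 0 0), h1, aut_ind _ (fun s => ?_) (fun s => ?_) fun g h e1 e2 => ?_⟩
  · rw [hX, hτ s]
    ext i j
    fin_cases i <;> fin_cases j <;> simp [autX, Matrix.mul_apply, Fin.sum_univ_two]
    ring
  · have e := hY (-s)
    rw [neg_neg, hneg, hτ s] at e
    rw [e]
    ext i j
    fin_cases i <;> fin_cases j <;> simp [autY, Matrix.mul_apply, Fin.sum_univ_two]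
    · linear_combination (a 1 * τ s * G.1 0 0) * hg
    · linear_combination (-(a 1 * τ s * G.1 0 0 ^ 2)) * hg
    · linear_combination (τ s * (a 1 * G.1 1 0 - 1)) * hg
    · linear_combination (-(a 1 * τ s * G.1 0 0 * G.1 1 0)) * hg
  · rw [map_mul, Matrix.SpecialLinearGroup.coe_mul, Matrix.SpecialLinearGroup.coe_mul,
      mul_assoc, e2, ← mul_assoc, e1, mul_assoc, Matrix.map_mul]

/-- AUT: `α` is conjugation by an upper triangular matrix after a field automorphism. -/
theorem aut_gl [Finite K] (h2 : (2 : K) ≠ 0) (α : MulAut SL(2, K))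
    (hB : ∀ g : SL(2, K), g.1 1 0 = 0 → (α g).1 1 0 = 0) :
    ∃ (τ : RingAut K) (b : GL (Fin 2) K), b.1 1 0 = 0 ∧ ∀ g : SL(2, K),
      Matrix.SpecialLinearGroup.toGL (α g) = b * Matrix.GeneralLinearGroup.map (τ : K →+* K)
        (Matrix.SpecialLinearGroup.toGL g) * b⁻¹ := by
  obtain ⟨τ, r, m, hr, h⟩ := aut_mat h2 α hB
  refine ⟨τ, Matrix.GeneralLinearGroup.mkOfDetNeZero !![r, m; 0, 1]
    (by simpa [Matrix.det_fin_two_of] using hr), by simp, fun g => ?_⟩
  rw [eq_mul_inv_iff_mul_eq]
  exact Units.ext (h g)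

/-- AUT0, matrix form. -/
theorem aut_zero_mat (τ : RingAut K) (b : Matrix (Fin 2) (Fin 2) K) (hb : b ≠ 0)
    (h : ∀ g : SL(2, K), g.1 * b = b * g.1.map τ) :
    τ = 1 ∧ ∃ c : K, c ≠ 0 ∧ b = Matrix.scalar (Fin 2) c := by
  have e1 := h (autX 1)
  have e2 := h (autY 1)
  have a1 := congrFun (congrFun e1 0) 0
  have a2 := congrFun (congrFun e1 0) 1
  have a3 := congrFun (congrFun e2 0) 0
  simp [autX_val, autY_val, Matrix.mul_apply, Fin.sum_univ_two] at a1 a2 a3
  have a4 : b 1 1 = b 0 0 := by linear_combination a2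
  have hs : b = Matrix.scalar (Fin 2) (b 0 0) := by
    ext i j
    fin_cases i <;> fin_cases j <;> simp [a1, a3, a4]
  have h0 : b 0 0 ≠ 0 := fun h0 => hb (by rw [hs, h0, map_zero])
  refine ⟨RingEquiv.ext fun s => ?_, b 0 0, h0, hs⟩
  have a5 := congrFun (congrFun (h (autX s)) 0) 1
  simp [autX_val, Matrix.mul_apply, Fin.sum_univ_two, a3, a4] at a5
  exact mul_left_cancel₀ h0 (by rw [← a5, mul_comm]; rfl)

/-- AUT0. -/
theorem aut_zero (τ : RingAut K) (b : GL (Fin 2) K)
    (h : ∀ g : SL(2, K), b * Matrix.GeneralLinearGroup.map (τ : K →+* K)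
      (Matrix.SpecialLinearGroup.toGL g) * b⁻¹ = Matrix.SpecialLinearGroup.toGL g) :
    τ = 1 ∧ ∃ c : K, c ≠ 0 ∧ b.1 = Matrix.scalar (Fin 2) c :=
  aut_zero_mat τ b.1 b.ne_zero fun g => by
    have := h g
    rw [mul_inv_eq_iff_eq_mul] at this
    exact (congrArg Units.val this).symm

end Pool.Agent.Lib.MP_1ae3da_al.CT
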