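import Pool.Agent.Lib.MP_1ae3da_al.S.Bru
import Pool.Agent.Lib.MP_1ae3da_al.S.Rank
import Pool.Agent.Lib.MP_1ae3da_al.C.RCa
import Pool.Agent.Lib.MP_1ae3da_al.C.TClA

/-! Supports, the blocks of the Borel subgroup, corners of the linear blocks. -/

namespace Pool.Agent.Lib.MP_1ae3da_al.CT

open Submodule Matrix

section grp
variable {K : Type} [Field K]

/-- the Weyl element -/
def bn : GL (Fin 2) K :=
  ⟨!![0, 1; -1, 0], !![0, -1; 1, 0], by simp [one_fin_two], by simp [one_fin_two]⟩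

theorem bn_val : (bn : GL (Fin 2) K).1 = !![0, 1; -1, 0] := rfl

theorem bn_inv : (bn⁻¹ : GL (Fin 2) K).1 = !![0, -1; 1, 0] := rfl

/-- a diagonal matrix -/
def bd (a b : Kˣ) : GL (Fin 2) K :=
  ⟨!![a, 0; 0, b], !![a.inv, 0; 0, b.inv], by simp [one_fin_two], by simp [one_fin_two]⟩

theorem bd_val (a b : Kˣ) : (bd a b).1 = !![(a : K), 0; 0, b] := rfl

theorem BDia.mul_n {t : GL (Fin 2) K} (h : BDia t) : BAnt (t * bn) := by
  constructor <;> simp [bn_val, mul_apply, Fin.sum_univ_two, h.1, h.2]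

theorem BAnt.mul_n {t : GL (Fin 2) K} (h : BAnt t) : BDia (t * bn⁻¹) := by
  constructor <;> simp only [Units.val_mul, bn_inv] <;>
    simp [mul_apply, Fin.sum_univ_two, h.1, h.2]

theorem BDia.n_mul {t : GL (Fin 2) K} (h : BDia t) : BAnt (bn * t) := by
  constructor <;> simp [bn_val, mul_apply, Fin.sum_univ_two, h.1, h.2]

variable {Y B : Subgroup (GL (Fin 2) K)}

theorem bk_xY (hY : ∀ g, g ∈ Y ↔ g.1.det = 1) (s : K) : bx s ∈ Y := by simp [hY, bx_val]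

theorem bk_xB (hB : ∀ g, g ∈ B ↔ g.1.det = 1 ∧ g.1 1 0 = 0) (s : K) : bx s ∈ B := by
  simp [hB, bx_val]

theorem bk_nY (hY : ∀ g, g ∈ Y ↔ g.1.det = 1) : bn ∈ Y := by simp [hY, bn_val]

theorem bk_dB (hB : ∀ g, g ∈ B ↔ g.1.det = 1 ∧ g.1 1 0 = 0) (a : Kˣ) : bd a a⁻¹ ∈ B := by
  simp [hB, bd_val]

theorem bk_BY (hY : ∀ g, g ∈ Y ↔ g.1.det = 1) (hB : ∀ g, g ∈ B ↔ g.1.det = 1 ∧ g.1 1 0 = 0) :
    B ≤ Y := fun g h => (hY g).2 ((hB g).1 h).1

end grp

variable {F K : Type} [Field F] [Field K] [Fintype K] {lam : AddChar K F} {k l : K}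
  {G Y B : Subgroup (GL (Fin 2) K)} {e e' α β a b : MonoidAlgebra F (GL (Fin 2) K)}
  {g : GL (Fin 2) K}

omit [Fintype K] in
theorem bk_mem (hg : g ∈ G) : gu F _ g ∈ span F (HX F G) := subset_span (aga_mem.2 hg)

omit [Fintype K] in
theorem bk_cancel (g : GL (Fin 2) K) (h : gu F _ g * a = 0) : a = 0 := by
  rw [← one_mul a, ← gu_one, ← inv_mul_cancel g, ← gu_mul, mul_assoc, h, mul_zero]

/-- the support is stable under the upper triangular elements -/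
theorem bk_supp (he : e ∈ Cen F (HX F G)) (hg : g ∈ G) (h : g.1 1 0 = 0)
    (h0 : bE lam k * e ≠ 0) : bE lam (k * g.1 1 1 / g.1 0 0) * e ≠ 0 := fun z => h0 <|
  bk_cancel g (by
    rw [← mul_assoc, bE_conj h, mul_assoc, ← he.2 _ (aga_mem.2 hg), ← mul_assoc, z, zero_mul])

theorem bk_supp_sq (he : e ∈ Cen F (HX F G)) (hG : ∀ a : Kˣ, bd a a⁻¹ ∈ G) (hk : k ≠ 0)
    (hl : l ≠ 0) (h : IsSquare (k * l)) (h0 : bE lam k * e ≠ 0) : bE lam l * e ≠ 0 := by
  obtain ⟨r, hr⟩ := h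
  have r0 : r ≠ 0 := fun z => mul_ne_zero hk hl (by rw [hr, z, mul_zero])
  have q := bk_supp he (hG (Units.mk0 (k / r) (div_ne_zero hk r0))) rfl h0
  convert q using 3
  simp only [bd_val, Units.val_inv_eq_inv_val, Units.val_mk0, of_apply, cons_val', cons_val_one,
    cons_val_fin_one, cons_val_zero]
  field_simp
  linear_combination hr

theorem bk_supp_all (he : e ∈ Cen F (HX F G)) (hG : ∀ a : Kˣ, bd 1 a ∈ G) (hk : k ≠ 0)
    (hl : l ≠ 0) (h0 : bE lam k * e ≠ 0) : bE lam l * e ≠ 0 := by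
  have q := bk_supp he (hG (Units.mk0 (l / k) (div_ne_zero hl hk))) rfl h0
  convert q using 3
  simp [bd_val]
  field_simp

theorem bk_E0 (h : g.1 1 0 = 0) : gu F _ g * bE lam 0 = bE lam 0 * gu F _ g := by
  simpa using bE_conj (lam := lam) h 0

theorem bk_E0_cen (hU : ∀ s, bx s ∈ G) (hG : ∀ g ∈ G, g.1 1 0 = 0) :
    bE lam 0 ∈ Cen F (HX F G) := ⟨bE_mem hU 0, by
  rintro _ ⟨c, -, g, hg, rfl⟩
  rw [mul_smul_comm, smul_mul_assoc, bk_E0 (hG g hg)]⟩

variable [CharZero F] [IsAlgClosed F]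

theorem bk_nice (G : Subgroup (GL (Fin 2) K)) : Nice F (HX F G) := nice_Hm0 gu_tg G

theorem bk_ex (G : Subgroup (GL (Fin 2) K)) (h : a ≠ 0) : ∃ e ∈ Irr F (HX F G), a * e ≠ 0 :=
  (bk_nice G).exists_irr ⟨1, aga_mem.2 G.one_mem, mul_one a, mul_one 1⟩ h

omit [IsAlgClosed F] in
theorem bk_E0_or (hl : lam ≠ 1) (hU : ∀ s, bx s ∈ G) (hG : ∀ g ∈ G, g.1 1 0 = 0)
    (he : e ∈ Irr F (HX F G)) : bE lam 0 * e = 0 ∨ bE lam 0 * e = e :=
  Irr_idem he (bk_E0_cen hU hG) (bE_idem hl 0)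

omit [IsAlgClosed F] in
theorem bk_kill (hl : lam ≠ 1) (h : bE lam 0 * e = e) (hk : k ≠ 0) : bE lam k * e = 0 := by
  rw [← h, ← mul_assoc, bE_orth hl hk, zero_mul]

omit [IsAlgClosed F] in
theorem bk_fix (hl : lam ≠ 1) (h : ∀ k, k ≠ 0 → bE lam k * e = 0) : bE lam 0 * e = e := by
  conv_rhs => rw [← one_mul e, ← bE_sum hl, Finset.sum_mul]
  rw [Finset.sum_eq_single 0 (fun k _ hk => h k hk) (by simp)]

/-- the degree of a block of an upper triangular group -/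
theorem bk_dgB (hl : lam ≠ 1) (hU : ∀ s, bx s ∈ G) (hG : ∀ g ∈ G, g.1 1 0 = 0)
    (he : e ∈ Irr F (HX F G)) : dg F (HX F G) e = {k | bE lam k * e ≠ 0}.ncard := by
  classical
  rw [rank_dg (bk_nice G) he Finset.univ (bE lam) (fun k _ => by
    by_cases h : k = 0
    · rw [h]; exact bE_cc0 hl hU hG
    · exact bE_cc hl hU h) (by rw [bE_sum hl, one_mul]), ← Set.ncard_coe_finset]
  congr 1
  ext
  simp

/-- a block of `B` does not see two different square classes -/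
theorem bk_B_sq (hl : lam ≠ 1) (hB : ∀ g, g ∈ B ↔ g.1.det = 1 ∧ g.1 1 0 = 0)
    (he : e ∈ Irr F (HX F B)) (h1 : bE lam k * e ≠ 0) (h2 : bE lam l * e ≠ 0) :
    IsSquare (k * l) := by
  have hU := bk_xB hB
  obtain ⟨a, ha, q⟩ := (pair_ne (bk_nice B) (bE_mem hU k) (bE_mem hU l)).1 ⟨e, he, h1, h2⟩
  by_contra n
  refine q ((span_eq_bot.2 ?_).le (bru_corner hl hU k l ha))
  rintro _ ⟨⟨r, hr, h | h⟩, rfl⟩
  · exact absurd ((hB r).1 hr).2 h.ne.2
  · refine absurd ⟨k * r.1 0 0, ?_⟩ n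
    have d := ((hB r).1 hr).1
    rw [det_fin_two, h.1.1, zero_mul, sub_zero] at d
    linear_combination (-(k * l)) * d - k * r.1 0 0 * h.2

/-- `α` is a block of `B` with the unipotent group in its kernel -/
def BLin (lam : AddChar K F) (B : Subgroup (GL (Fin 2) K)) (α : MonoidAlgebra F (GL (Fin 2) K)) :
    Prop := α ∈ Irr F (HX F B) ∧ bE lam 0 * α = α

omit [CharZero F] [IsAlgClosed F] in
theorem BLin.right (hU : ∀ s, bx s ∈ G) (h : BLin lam G α) : α * bE lam 0 = α :=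
  (te_cen h.1 (bE_mem hU 0)).symm.trans h.2

theorem BLin.scal (hl : lam ≠ 1) (hU : ∀ s, bx s ∈ G) (hG : ∀ g ∈ G, g.1 1 0 = 0)
    (h : BLin lam G α) (ha : a ∈ span F (HX F G)) : ∃ c : F, a * α = c • α ∧ α * a = c • α := by
  have p := (bE_cc0 hl hU hG).prim (bk_nice G) h.1 (by rw [h.2]; exact h.1.2.2.1)
  rw [h.2] at p
  obtain ⟨c, hc⟩ := p.2.2.2.2 a ha
  rw [mul_assoc, te_cen h.1 ha, ← mul_assoc, h.1.2.1] at hc
  exact ⟨c, (te_cen h.1 ha).trans hc, hc⟩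

variable (hl : lam ≠ 1) (hY : ∀ g, g ∈ Y ↔ g.1.det = 1)
  (hB : ∀ g, g ∈ B ↔ g.1.det = 1 ∧ g.1 1 0 = 0)
include hl hY hB

theorem BLin.ant (h : BLin lam B α) (hg : g ∈ Y) (hr : BAnt g) :
    ∃ c : F, α * gu F _ g = c • (α * gu F _ bn) := by
  obtain ⟨c, -, hc⟩ := h.scal hl (bk_xB hB) (fun g k => ((hB g).1 k).2) (bk_mem (g := g * bn⁻¹)
    ((hB _).2 ⟨(hY _).1 (Y.mul_mem hg (Y.inv_mem (bk_nY hY))), hr.mul_n.2⟩))
  exact ⟨c, by rw [← smul_mul_assoc, ← hc, mul_assoc, gu_mul, inv_mul_cancel_right]⟩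

/-- the corner between a linear block and `E k` -/
theorem BLin.cor (h : BLin lam B α) (k : K) (ha : a ∈ span F (HX F Y)) : ∃ c d : F,
    α * a * bE lam k = c • (α * bE lam k) + d • (α * gu F _ bn * bE lam k) := by
  have hU := bk_xB hB
  suffices m : α * (bE lam 0 * a * bE lam k) ∈
      span F {α * bE lam k, α * gu F _ bn * bE lam k} by
    obtain ⟨c, d, q⟩ := mem_span_pair.1 m
    exact ⟨c, d, by rw [q, ← mul_assoc, ← mul_assoc, h.right hU]⟩
  refine span_induction (p := fun x _ => α * x ∈ _) ?_ (by simp)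
    (fun _ _ _ _ p q => by rw [mul_add]; exact add_mem p q)
    (fun c _ _ p => by rw [mul_smul_comm]; exact smul_mem _ c p)
    (bru_corner hl (bk_xY hY) 0 k ha)
  rintro _ ⟨⟨r, hr, q | q⟩, rfl⟩ <;> beta_reduce <;> rw [← mul_assoc, ← mul_assoc, h.right hU]
  · obtain ⟨c, hc⟩ := h.ant hl hY hB hr q
    rw [hc, smul_mul_assoc]
    exact smul_mem _ _ (subset_span (by simp))
  · obtain ⟨c, -, hc⟩ := h.scal hl hU (fun g k => ((hB g).1 k).2)
      (bk_mem ((hB r).2 ⟨(hY r).1 hr, q.1.2⟩))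
    rw [hc, smul_mul_assoc]
    exact smul_mem _ _ (subset_span (by simp))

omit [IsAlgClosed F] in
theorem BLin.ne (h : BLin lam B α) (k : K) : α * gu F _ bn * bE lam k ≠ 0 := fun z => by
  have hU := bk_xB hB
  have m := (bru_span hl hU 0 0 α).2 ⟨h.1.1.1, by rw [h.2, h.right hU]⟩
  rw [← Finsupp.range_linearCombination] at m
  obtain ⟨c, hc⟩ := m
  have d : ∀ r : {r // r ∈ B ∧ BRep (0 : K) 0 r}, BDia r.1 := fun r =>
    (r.2.2.resolve_left fun h => h.ne.2 ((hB _).1 r.2.1).2).1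
  have i := (bru_ind hl Y 0 k).comp (fun r : {r // r ∈ B ∧ BRep (0 : K) 0 r} =>
    ⟨r.1 * bn, Y.mul_mem (bk_BY hY hB r.2.1) (bk_nY hY), .inl (d r).mul_n⟩)
    fun r r' q => Subtype.ext (mul_right_cancel (congrArg Subtype.val q))
  refine h.1.2.2.1 ?_
  rw [← hc, linearIndependent_iff.1 i c ?_, map_zero]
  rw [← z, ← hc, mul_assoc, ← LinearMap.mulRight_apply F, Finsupp.apply_linearCombination]
  congr 2
  funext r
  simp only [Function.comp, LinearMap.mulRight_apply]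
  rw [(bE_dia hl (d r).2 (by simp)).1, ← gu_mul]
  simp only [mul_assoc]

omit [IsAlgClosed F] hl hY in
theorem BLin.ind (h : BLin lam B α) {c d : F} (z : c • α + d • (α * gu F _ bn * bE lam 0) = 0) :
    c = 0 := by
  obtain ⟨π, hπ⟩ := tcl_coset (gu_tg (F := F)) B B fun l hl x => B.mul_mem_cancel_left hl
  have p := (hπ α h.1.1.1 1).1 B.one_mem
  rw [gu_one, mul_one] at p
  have q : π (α * gu F _ bn * bE lam 0) = 0 := by
    rw [bE, mul_smul_comm, Finset.mul_sum, map_smul, map_sum, Finset.sum_eq_zero, smul_zero]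
    intro s _
    rw [mul_smul_comm, map_smul, mul_assoc, gu_mul, (hπ α h.1.1.1 _).2, smul_zero]
    intro m
    simpa [bn_val, bx_val] using ((hB _).1 m).2
  have := congrArg π z
  rw [map_add, map_smul, map_smul, p, q, smul_zero, add_zero, map_zero] at this
  exact (smul_eq_zero.1 this).resolve_right h.1.2.2.1

theorem BLin.nb (h : BLin lam B α) (hb : b ∈ span F (HX F B)) :
    ∃ d : F, α * gu F _ bn * (b * bE lam 0) = d • (α * gu F _ bn * bE lam 0) := by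
  refine (mem_span_singleton.1 ?_).imp fun _ => Eq.symm
  induction hb using span_induction with
  | mem x m =>
    obtain ⟨c, -, g, hg, rfl⟩ := m
    obtain ⟨s, t, ht, rfl, -⟩ := bru_small ((hB g).1 hg).2
    obtain ⟨d, hd⟩ := h.ant hl hY hB (Y.mul_mem (bk_nY hY)
      ((Y.mul_mem_cancel_right (bk_xY hY s)).1 (bk_BY hY hB hg))) ht.n_mul
    rw [smul_mul_assoc, mul_smul_comm, ← gu_mul, mul_assoc (gu F _ t), bx_bE, mul_smul_comm,
      mul_smul_comm, ← mul_assoc, mul_assoc α _ (gu F _ t), gu_mul, hd, smul_mul_assoc]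
    exact smul_mem _ _ (smul_mem _ _ (smul_mem _ _ (mem_span_singleton_self _)))
  | zero => simp
  | add x y _ _ p q => rw [add_mul, mul_add]; exact add_mem p q
  | smul c x _ p => rw [smul_mul_assoc, mul_smul_comm]; exact smul_mem _ c p

/-- the partner of a linear block -/
theorem BLin.partner (h : BLin lam B α) : ∃! β, BLin lam B β ∧ α * gu F _ bn * β ≠ 0 := by
  have hU := bk_xB hB
  obtain ⟨β, hβ, q⟩ := bk_ex B (h.ne hl hY hB 0)
  have p := (bk_E0_or hl hU (fun g k => ((hB g).1 k).2) hβ).resolve_left fun z => q (by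
    rw [mul_assoc, z, mul_zero])
  rw [mul_assoc, p] at q
  refine ⟨β, ⟨⟨hβ, p⟩, q⟩, fun β' ⟨h1, h2⟩ => ?_⟩
  obtain ⟨d, hd⟩ := h.nb hl hY hB h1.1.1.1
  rw [h1.right hU] at hd
  by_contra n
  have := congrArg (· * β) hd
  simp only [mul_assoc, Irr_orth h1.1 hβ n, mul_zero, smul_mul_assoc, p] at this
  rw [← mul_assoc] at this
  exact h2 (by rw [hd, (smul_eq_zero.1 this.symm).resolve_right q, zero_smul])

theorem BLin.cor' (h : BLin lam B α) (h' : BLin lam B β) (ha : a ∈ span F (HX F Y)) :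
    ∃ c d : F, α * a * β = c • (α * β) + d • (α * gu F _ bn * β) := by
  obtain ⟨c, d, q⟩ := h.cor hl hY hB 0 ha
  refine ⟨c, d, ?_⟩
  rw [← h'.2, ← mul_assoc, q]
  simp only [add_mul, smul_mul_assoc, mul_assoc]

theorem BLin.cc (h : BLin lam B α) : CC F (HX F Y) α :=
  cc_two (w := α * gu F _ bn * α) (span_Hm_mono (bk_BY hY hB) h.1.1.1) h.1.2.1
    (by rw [← mul_assoc, ← mul_assoc, h.1.2.1, mul_assoc _ α α, h.1.2.1]) fun a ha => by
    simpa only [h.1.2.1] using h.cor' hl hY hB h ha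

/-- exactly one block of `Y` sees a linear block and `E k` -/
theorem BLin.one (h : BLin lam B α) (hk : k ≠ 0) :
    ∃! e, e ∈ Irr F (HX F Y) ∧ α * e ≠ 0 ∧ bE lam k * e ≠ 0 := by
  refine pair_line (bk_nice Y) (h.cc hl hY hB) (bE_cc hl (bk_xY hY) hk)
    (gu_span_mul Y _ (gu_span_mul Y _ (span_Hm_mono (bk_BY hY hB) h.1.1.1) _ (bk_mem (bk_nY hY))) _
      (bE_mem (bk_xY hY) k)) (h.ne hl hY hB k) ?_ fun a ha => ?_
  · rw [← mul_assoc, ← mul_assoc, h.1.2.1, mul_assoc _ (bE lam k), bE_idem hl]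
  · obtain ⟨c, d, q⟩ := h.cor hl hY hB k ha
    refine ⟨d, ?_⟩
    rw [q, ← h.right (bk_xB hB), mul_assoc α (bE lam 0) (bE lam k), bE_orth hl hk.symm, mul_zero,
      smul_zero, zero_add]

end Pool.Agent.Lib.MP_1ae3da_al.CT
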