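import Pool.Agent.Lib.MP_1ae3da_al.C.AGa
import Pool.Agent.Lib.MP_1ae3da_al.S.Gen2

/-! The idempotents of the unipotent group and the Bruhat basis in the group algebra of `GL2`. -/

namespace Pool.Agent.Lib.MP_1ae3da_al.CT

open Submodule Matrix

section grp

variable {K : Type} [Field K]

/-- the upper unipotent matrix -/
def bx (s : K) : GL (Fin 2) K :=
  ⟨!![1, s; 0, 1], !![1, -s; 0, 1], by simp [one_fin_two], by simp [one_fin_two]⟩

theorem bx_val (s : K) : (bx s).1 = !![1, s; 0, 1] := rfl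

theorem bx_add (s t : K) : bx (s + t) = bx s * bx t :=
  Units.ext (by simp [bx_val, add_comm])

theorem bx_zero : bx (0 : K) = 1 := Units.ext (by simp [bx_val, one_fin_two])

theorem bx_neg (s : K) : bx (-s) = (bx s)⁻¹ :=
  eq_inv_of_mul_eq_one_left (by rw [← bx_add, neg_add_cancel, bx_zero])

/-- diagonal -/
def BDia (r : GL (Fin 2) K) : Prop := r.1 0 1 = 0 ∧ r.1 1 0 = 0

/-- antidiagonal -/
def BAnt (r : GL (Fin 2) K) : Prop := r.1 0 0 = 0 ∧ r.1 1 1 = 0

/-- the representatives of the double cosets that carry the characters `k`, `l` -/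
def BRep (k l : K) (r : GL (Fin 2) K) : Prop := BAnt r ∨ (BDia r ∧ k * r.1 0 0 = l * r.1 1 1)

theorem bru_det (g : GL (Fin 2) K) : g.1 0 0 * g.1 1 1 - g.1 0 1 * g.1 1 0 ≠ 0 := by
  rw [← det_fin_two]; exact g.det_ne_zero

theorem bru_tri {g : GL (Fin 2) K} (h : g.1 1 0 = 0) : g.1 0 0 ≠ 0 ∧ g.1 1 1 ≠ 0 := by
  have := bru_det g
  rw [h, mul_zero, sub_zero] at this
  exact mul_ne_zero_iff.1 this

theorem BAnt.ne {g : GL (Fin 2) K} (h : BAnt g) : g.1 0 1 ≠ 0 ∧ g.1 1 0 ≠ 0 := by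
  have := bru_det g
  rw [h.1, zero_mul, zero_sub, neg_ne_zero] at this
  exact mul_ne_zero_iff.1 this

theorem bru_conj {g : GL (Fin 2) K} (h : g.1 1 0 = 0) (s : K) :
    g * bx s = bx (g.1 0 0 * s / g.1 1 1) * g := by
  have h1 := (bru_tri h).2
  apply Units.ext
  ext i j
  fin_cases i <;> fin_cases j <;> simp [bx_val, mul_apply, Fin.sum_univ_two, h]
  field_simp
  ring

/-- the small cell -/
theorem bru_small {g : GL (Fin 2) K} (h : g.1 1 0 = 0) : ∃ s t, BDia t ∧ g = t * bx s ∧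
    t.1 0 0 = g.1 0 0 ∧ t.1 1 1 = g.1 1 1 := by
  have h1 := (bru_tri h).1
  refine ⟨g.1 0 1 / g.1 0 0, g * bx (-(g.1 0 1 / g.1 0 0)), ⟨?_, ?_⟩,
    by rw [bx_neg, inv_mul_cancel_right], ?_, ?_⟩ <;>
    simp [bx_val, mul_apply, Fin.sum_univ_two, h]
  field_simp
  ring

/-- the big cell -/
theorem bru_big {g : GL (Fin 2) K} (h : g.1 1 0 ≠ 0) : ∃ s s' n, BAnt n ∧ g = bx s * n * bx s' := by
  refine ⟨g.1 0 0 / g.1 1 0, g.1 1 1 / g.1 1 0,
    bx (-(g.1 0 0 / g.1 1 0)) * g * bx (-(g.1 1 1 / g.1 1 0)), ⟨?_, ?_⟩,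
    by rw [bx_neg, bx_neg]; group⟩ <;> simp [bx_val, mul_apply, Fin.sum_univ_two, vecMul,
      dotProduct] <;> field_simp <;> ring

theorem bru_uniq_ant {r r' : GL (Fin 2) K} {s s' : K} (h : BAnt r) (h' : BAnt r' ∨ BDia r')
    (e : bx s * r * bx s' = r') : s = 0 ∧ s' = 0 := by
  have a := congrArg (fun g : GL (Fin 2) K => g.1 1 0) e
  have b := congrArg (fun g : GL (Fin 2) K => g.1 0 0) e
  have c := congrArg (fun g : GL (Fin 2) K => g.1 1 1) e
  simp [bx_val, mul_apply, Fin.sum_univ_two, h.1, h.2, vecMul, dotProduct] at a b c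
  rcases h' with h' | h'
  · rw [h'.1] at b
    rw [h'.2] at c
    exact ⟨(mul_eq_zero.1 b).resolve_right h.ne.2, (mul_eq_zero.1 c).resolve_left h.ne.2⟩
  · exact absurd (a.trans h'.2) h.ne.2

theorem bru_uniq_dia {r r' : GL (Fin 2) K} {s : K} (h : BDia r) (h' : BAnt r' ∨ BDia r')
    (e : bx s * r = r') : s = 0 := by
  have a := congrArg (fun g : GL (Fin 2) K => g.1 0 1) e
  have c := congrArg (fun g : GL (Fin 2) K => g.1 1 1) e
  simp [bx_val, mul_apply, Fin.sum_univ_two, h.1] at a c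
  rcases h' with h' | h'
  · exact absurd (c.trans h'.2) (bru_tri h.2).2
  · rw [h'.1] at a
    exact (mul_eq_zero.1 a).resolve_right (bru_tri h.2).2

/-- the anti-automorphism that exchanges the diagonal entries -/
def bθ (g : GL (Fin 2) K) : GL (Fin 2) K :=
  GeneralLinearGroup.mkOfDetNeZero !![g.1 1 1, g.1 0 1; g.1 1 0, g.1 0 0]
    (by rw [det_fin_two_of, mul_comm]; exact bru_det g)

theorem bθ_val (g : GL (Fin 2) K) : (bθ g).1 = !![g.1 1 1, g.1 0 1; g.1 1 0, g.1 0 0] := rfl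

theorem bθ_mul (g h : GL (Fin 2) K) : bθ (g * h) = bθ h * bθ g := by
  apply Units.ext
  ext i j
  fin_cases i <;> fin_cases j <;> simp [bθ_val, mul_apply, Fin.sum_univ_two] <;> ring

theorem bθ_fix {g : GL (Fin 2) K} (h : g.1 0 0 = g.1 1 1) : bθ g = g := by
  apply Units.ext
  ext i j
  fin_cases i <;> fin_cases j <;> simp [bθ_val, h]

theorem BDia.comm {g h : GL (Fin 2) K} (hg : BDia g) (hh : BDia h) : g * h = h * g := by
  apply Units.ext
  ext i j
  fin_cases i <;> fin_cases j <;>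
    simp [mul_apply, Fin.sum_univ_two, hg.1, hg.2, hh.1, hh.2, mul_comm]

end grp

variable {F K : Type} [Field F] [Field K] [Fintype K] {lam : AddChar K F} {k l : K}

/-- the idempotent of the character `s ↦ lam (k s)` of the unipotent group -/
noncomputable def bE (lam : AddChar K F) (k : K) : MonoidAlgebra F (GL (Fin 2) K) :=
  (Fintype.card K : F)⁻¹ • ∑ s : K, lam (-(k * s)) • gu F _ (bx s)

theorem bx_bE (s k : K) : gu F _ (bx s) * bE lam k = lam (k * s) • bE lam k := by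
  rw [bE, mul_smul_comm, smul_comm (lam (k * s)), Finset.mul_sum, Finset.smul_sum (r := lam _)]
  refine congrArg _ (Fintype.sum_equiv (Equiv.addLeft s) _ _ fun t => ?_)
  rw [mul_smul_comm, gu_mul, ← bx_add, smul_smul, ← AddChar.map_add_eq_mul, Equiv.coe_addLeft]
  congr 2
  ring

theorem bE_bx (s k : K) : bE lam k * gu F _ (bx s) = lam (k * s) • bE lam k := by
  rw [← bx_bE, bE, mul_smul_comm, smul_mul_assoc, Finset.mul_sum, Finset.sum_mul]
  congr 1
  refine Finset.sum_congr rfl fun t _ => ?_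
  rw [mul_smul_comm, smul_mul_assoc, gu_mul, gu_mul, ← bx_add, ← bx_add, add_comm]

theorem bE_mem {G : Subgroup (GL (Fin 2) K)} (hU : ∀ s, bx s ∈ G) (k : K) :
    bE lam k ∈ span F (Hm F (gu F (GL (Fin 2) K)) G) :=
  smul_mem _ _ (sum_mem fun s _ => smul_mem _ _ (subset_span (aga_mem.2 (hU s))))

/-- upper triangular matrices permute the idempotents -/
theorem bE_conj {g : GL (Fin 2) K} (h : g.1 1 0 = 0) (k : K) :
    gu F _ g * bE lam k = bE lam (k * g.1 1 1 / g.1 0 0) * gu F _ g := by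
  obtain ⟨h0, h1⟩ := bru_tri h
  rw [bE, bE, mul_smul_comm, smul_mul_assoc, Finset.mul_sum, Finset.sum_mul]
  congr 1
  refine Fintype.sum_equiv (Equiv.mulLeft₀ (g.1 0 0 / g.1 1 1) (div_ne_zero h0 h1)) _ _ fun t => ?_
  simp only [Equiv.mulLeft₀_apply]
  rw [mul_smul_comm, smul_mul_assoc, gu_mul, gu_mul, bru_conj h, div_mul_eq_mul_div (g.1 0 0)]
  congr 3
  field_simp

variable [CharZero F]

theorem bru_q : (Fintype.card K : F) ≠ 0 := Nat.cast_ne_zero.2 Fintype.card_ne_zero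

open Classical in
theorem bE_mul (hl : lam ≠ 1) (k l : K) :
    bE lam k * bE lam l = if k = l then bE lam k else 0 := by
  have h1 : bE lam k * bE lam l =
      ((Fintype.card K : F)⁻¹ * ∑ s : K, lam (s * (l - k))) • bE lam l := by
    rw [bE, smul_mul_assoc, Finset.sum_mul, mul_smul, Finset.sum_smul]
    congr 1
    refine Finset.sum_congr rfl fun t _ => ?_
    rw [smul_mul_assoc, bx_bE, smul_smul, ← AddChar.map_add_eq_mul]
    congr 2
    ring
  rw [h1, AddChar.sum_mulShift _ (AddChar.IsPrimitive.of_ne_one hl)]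
  by_cases e : k = l
  · rw [if_pos e, if_pos (by rw [e, sub_self]), inv_mul_cancel₀ bru_q, one_smul, e]
  · rw [if_neg e, if_neg fun h => e (sub_eq_zero.1 h).symm]
    simp

theorem bE_idem (hl : lam ≠ 1) (k : K) : bE lam k * bE lam k = bE lam k := by
  rw [bE_mul hl, if_pos rfl]

theorem bE_orth (hl : lam ≠ 1) (h : k ≠ l) : bE lam k * bE lam l = 0 := by
  rw [bE_mul hl, if_neg h]

theorem bE_sum (hl : lam ≠ 1) : ∑ k : K, bE lam k = 1 := by
  classical
  simp only [bE]
  rw [← Finset.smul_sum, Finset.sum_comm]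
  have h1 : ∀ s : K, ∑ k : K, lam (-(k * s)) • gu F _ (bx s) =
      if s = 0 then (Fintype.card K : F) • gu F _ (bx s) else 0 := fun s => by
    rw [← Finset.sum_smul]
    simp only [← mul_neg]
    rw [AddChar.sum_mulShift _ (AddChar.IsPrimitive.of_ne_one hl)]
    by_cases e : s = 0 <;> simp [e]
  simp only [h1, Finset.sum_ite_eq', Finset.mem_univ, if_true]
  rw [smul_smul, inv_mul_cancel₀ bru_q, one_smul, bx_zero, gu_one]

theorem bE_dia (hl : lam ≠ 1) {r : GL (Fin 2) K} (h : r.1 1 0 = 0)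
    (e : k * r.1 0 0 = l * r.1 1 1) :
    bE lam k * gu F _ r * bE lam l = bE lam k * gu F _ r ∧ bE lam k * gu F _ r = gu F _ r * bE lam l := by
  have h1 : l * r.1 1 1 / r.1 0 0 = k := by rw [← e, mul_div_cancel_right₀ _ (bru_tri h).1]
  rw [mul_assoc, bE_conj h, h1, ← mul_assoc, bE_idem hl]
  exact ⟨rfl, rfl⟩

theorem bE_dia0 (hl : lam ≠ 1) {r : GL (Fin 2) K} (h : r.1 1 0 = 0)
    (e : k * r.1 0 0 ≠ l * r.1 1 1) : bE lam k * gu F _ r * bE lam l = 0 := by
  rw [mul_assoc, bE_conj h, ← mul_assoc, bE_orth hl, zero_mul]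
  intro h1
  exact e (by rw [h1, div_mul_cancel₀ _ (bru_tri h).1])

/-- the Bruhat basis spans -/
theorem bru_span (hl : lam ≠ 1) {G : Subgroup (GL (Fin 2) K)} (hU : ∀ s, bx s ∈ G) (k l : K)
    (a : MonoidAlgebra F (GL (Fin 2) K)) :
    a ∈ span F (Set.range fun r : {r // r ∈ G ∧ BRep k l r} => bE lam k * gu F _ r.1 * bE lam l) ↔
      a ∈ span F (Hm F (gu F (GL (Fin 2) K)) G) ∧ bE lam k * a * bE lam l = a := by
  constructor
  · intro ha
    induction ha using span_induction with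
    | mem a m =>
      obtain ⟨r, rfl⟩ := m
      refine ⟨gu_span_mul G _ (gu_span_mul G _ (bE_mem hU k) _ (subset_span (aga_mem.2 r.2.1))) _
        (bE_mem hU l), ?_⟩
      simp only [← mul_assoc, bE_idem hl]
      rw [mul_assoc _ _ (bE lam l), bE_idem hl]
    | zero => simp
    | add a b _ _ p q => exact ⟨add_mem p.1 q.1, by rw [mul_add, add_mul, p.2, q.2]⟩
    | smul c a _ p => exact ⟨smul_mem _ _ p.1, by rw [mul_smul_comm, smul_mul_assoc, p.2]⟩
  · rintro ⟨ha, e⟩
    rw [← e]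
    clear e
    induction ha using span_induction with
    | mem a m =>
      obtain ⟨c, -, g, hg, rfl⟩ := m
      rw [mul_smul_comm, smul_mul_assoc]
      refine smul_mem _ _ ?_
      by_cases h : g.1 1 0 = 0
      · obtain ⟨s, t, ht, rfl, -, -⟩ := bru_small h
        have m : t ∈ G := (G.mul_mem_cancel_right (hU s)).1 hg
        rw [← gu_mul, ← mul_assoc, mul_assoc _ _ (bE lam l), bx_bE, mul_smul_comm]
        refine smul_mem _ _ ?_
        by_cases e : k * t.1 0 0 = l * t.1 1 1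
        · exact subset_span ⟨⟨t, m, Or.inr ⟨ht, e⟩⟩, rfl⟩
        · rw [bE_dia0 hl ht.2 e]
          exact zero_mem _
      · obtain ⟨s, s', n, hn, rfl⟩ := bru_big h
        have m : n ∈ G :=
          (G.mul_mem_cancel_left (hU s)).1 ((G.mul_mem_cancel_right (hU s')).1 hg)
        rw [← gu_mul, ← gu_mul, ← mul_assoc, ← mul_assoc, mul_assoc _ _ (bE lam l), bx_bE, bE_bx,
          mul_smul_comm, smul_mul_assoc, smul_mul_assoc]
        exact smul_mem _ _ (smul_mem _ _ (subset_span ⟨⟨n, m, Or.inl hn⟩, rfl⟩))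
    | zero => simp
    | add a b _ _ p q => rw [mul_add, add_mul]; exact add_mem p q
    | smul c a _ p => rw [mul_smul_comm, smul_mul_assoc]; exact smul_mem _ _ p

/-- coefficients of the members of the Bruhat basis -/
theorem bru_coeff (hl : lam ≠ 1) {r : GL (Fin 2) K} (h : BRep k l r) : ∃ c : F, c ≠ 0 ∧
    (bE lam k * gu F _ r * bE lam l).coeff r = c ∧
    ∀ r', BAnt r' ∨ BDia r' → r' ≠ r → (bE lam k * gu F _ r * bE lam l).coeff r' = 0 := by
  classical
  rcases h with h | h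
  · have e : bE lam k * gu F _ r * bE lam l = ((Fintype.card K : F)⁻¹ * (Fintype.card K : F)⁻¹) •
        ∑ p : K × K, (lam (-(k * p.1)) * lam (-(l * p.2))) • gu F _ (bx p.1 * r * bx p.2) := by
      rw [bE, bE, smul_mul_assoc, smul_mul_smul_comm, Finset.sum_mul, Finset.sum_mul_sum,
        Fintype.sum_prod_type]
      simp only [smul_mul_assoc, mul_smul_comm, gu_mul, smul_smul]
      simp only [mul_comm]
    have k1 : ∀ r', BAnt r' ∨ BDia r' → (bE lam k * gu F _ r * bE lam l).coeff r' =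
        (Fintype.card K : F)⁻¹ * (Fintype.card K : F)⁻¹ * if r = r' then 1 else 0 := by
      intro r' h'
      rw [e]
      simp only [MonoidAlgebra.coeff_smul, MonoidAlgebra.coeff_sum, gu, MonoidAlgebra.coeff_single,
        Finsupp.smul_apply, Finsupp.finsetSum_apply, Finsupp.single_apply, smul_eq_mul]
      rw [Finset.sum_eq_single (0, 0) (fun p _ hp => by
        rw [if_neg fun e => hp (Prod.ext_iff.2 (bru_uniq_ant h h' e)), mul_zero]) (by simp)]
      simp [bx_zero]
    exact ⟨_, mul_ne_zero (inv_ne_zero bru_q) (inv_ne_zero bru_q),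
      by rw [k1 r (Or.inl h), if_pos rfl, mul_one],
      fun r' h' n => by rw [k1 r' h', if_neg n.symm, mul_zero]⟩
  · have k1 : ∀ r', BAnt r' ∨ BDia r' → (bE lam k * gu F _ r * bE lam l).coeff r' =
        (Fintype.card K : F)⁻¹ * if r = r' then 1 else 0 := by
      intro r' h'
      rw [(bE_dia hl h.1.2 h.2).1, bE, smul_mul_assoc, Finset.sum_mul]
      simp only [smul_mul_assoc, gu_mul]
      simp only [MonoidAlgebra.coeff_smul, MonoidAlgebra.coeff_sum, gu, MonoidAlgebra.coeff_single,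
        Finsupp.smul_apply, Finsupp.finsetSum_apply, Finsupp.single_apply, smul_eq_mul]
      rw [Finset.sum_eq_single 0 (fun p _ hp => by
        rw [if_neg fun e => hp (bru_uniq_dia h.1 h' e), mul_zero]) (by simp)]
      simp [bx_zero]
    exact ⟨_, inv_ne_zero bru_q, by rw [k1 r (Or.inr h.1), if_pos rfl, mul_one],
      fun r' h' n => by rw [k1 r' h', if_neg n.symm, mul_zero]⟩

theorem bru_ne (hl : lam ≠ 1) {r : GL (Fin 2) K} (h : BRep k l r) :
    bE lam k * gu F _ r * bE lam l ≠ 0 := fun e => by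
  obtain ⟨c, h0, h1, -⟩ := bru_coeff hl h
  exact h0 (by rw [← h1, e]; rfl)

theorem bE_ne (hl : lam ≠ 1) (k : K) : bE lam k ≠ 0 := fun e =>
  bru_ne hl (k := k) (l := k) (r := 1) (Or.inr ⟨⟨by simp, by simp⟩, by simp⟩) (by rw [e, mul_zero])

/-- the Bruhat basis is independent -/
theorem bru_ind (hl : lam ≠ 1) (G : Subgroup (GL (Fin 2) K)) (k l : K) : LinearIndependent F
    fun r : {r // r ∈ G ∧ BRep k l r} => bE lam k * gu F _ r.1 * bE lam l := by
  refine linearIndependent_iff'.2 fun s g hg i hi => ?_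
  obtain ⟨c, h0, h1, -⟩ := bru_coeff hl i.2.2
  have q := congrArg (fun a : MonoidAlgebra F (GL (Fin 2) K) => a.coeff i.1) hg
  simp only [MonoidAlgebra.coeff_smul, MonoidAlgebra.coeff_sum, Finsupp.smul_apply,
    Finsupp.finsetSum_apply, smul_eq_mul, MonoidAlgebra.coeff_zero, Finsupp.zero_apply] at q
  rw [Finset.sum_eq_single i (fun j _ hj => by
    rw [(bru_coeff hl j.2.2).choose_spec.2.2 i.1 (i.2.2.imp_right And.left)
      fun e => hj (Subtype.ext e.symm), mul_zero]) (fun h => absurd hi h), h1] at q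
  exact (mul_eq_zero.1 q).resolve_right h0

omit [Fintype K] [CharZero F] in
theorem bru_anti : ∃ Θ : MonoidAlgebra F (GL (Fin 2) K) →ₗ[F] MonoidAlgebra F (GL (Fin 2) K),
    (∀ g, Θ (gu F _ g) = gu F _ (bθ g)) ∧ ∀ a b, Θ (a * b) = Θ b * Θ a := by
  obtain ⟨Θ, h⟩ : ∃ Θ : MonoidAlgebra F (GL (Fin 2) K) →ₗ[F] MonoidAlgebra F (GL (Fin 2) K),
      ∀ g, Θ (gu F _ g) = gu F _ (bθ g) :=
    ⟨(MonoidAlgebra.basis (GL (Fin 2) K) F).constr F fun g => gu F _ (bθ g), fun g => by
      rw [← Module.Basis.constr_basis (MonoidAlgebra.basis (GL (Fin 2) K) F) F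
        (fun g => gu F _ (bθ g)) g, MonoidAlgebra.basis_apply]
      rfl⟩
  refine ⟨Θ, h, fun a b => ?_⟩
  induction a using MonoidAlgebra.induction_linear with
  | zero => simp
  | add a a' p q => rw [add_mul, map_add, map_add, p, q, mul_add]
  | single x c =>
    induction b using MonoidAlgebra.induction_linear with
    | zero => simp
    | add b b' p q => rw [mul_add, map_add, map_add, p, q, add_mul]
    | single y d =>
      rw [← aga_smul, ← aga_smul, smul_mul_smul_comm, map_smul, map_smul, map_smul, gu_mul, h, h, h,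
        smul_mul_smul_comm, gu_mul, bθ_mul, mul_comm d]

theorem bru_corner (hl : lam ≠ 1) {G : Subgroup (GL (Fin 2) K)} (hU : ∀ s, bx s ∈ G) (k l : K)
    {a : MonoidAlgebra F (GL (Fin 2) K)} (ha : a ∈ span F (Hm F (gu F (GL (Fin 2) K)) G)) : bE lam k * a * bE lam l ∈
      span F (Set.range fun r : {r // r ∈ G ∧ BRep k l r} => bE lam k * gu F _ r.1 * bE lam l) :=
  (bru_span hl hU k l _).2 ⟨gu_span_mul G _ (gu_span_mul G _ (bE_mem hU k) _ ha) _ (bE_mem hU l), by
    simp only [← mul_assoc, bE_idem hl]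
    rw [mul_assoc _ _ (bE lam l), bE_idem hl]⟩

/-- the Gelfand-Graev corner is commutative -/
theorem bE_cc (hl : lam ≠ 1) {G : Subgroup (GL (Fin 2) K)} (hU : ∀ s, bx s ∈ G) (hk : k ≠ 0) :
    CC F (Hm F (gu F (GL (Fin 2) K)) G) (bE lam k) := by
  obtain ⟨Θ, h1, h2⟩ := bru_anti (F := F) (K := K)
  have hE : Θ (bE lam k) = bE lam k := by
    simp only [bE, map_smul, map_sum, h1, fun s : K => bθ_fix (g := bx s) rfl]
  have fix : ∀ a ∈ span F (Hm F (gu F (GL (Fin 2) K)) G), Θ (bE lam k * a * bE lam k) = bE lam k * a * bE lam k := by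
    intro a ha
    refine span_induction (p := fun x _ => Θ x = x) ?_ (map_zero _)
      (fun _ _ _ _ p q => by rw [map_add, p, q]) (fun _ _ _ p => by rw [map_smul, p])
      (bru_corner hl hU k k ha)
    rintro _ ⟨r, rfl⟩
    beta_reduce
    rw [h2, h2, hE, h1, bθ_fix, mul_assoc]
    rcases r.2.2 with h | h
    · rw [h.1, h.2]
    · exact mul_left_cancel₀ hk h.2
  refine ⟨bE_mem hU k, bE_idem hl k, fun a ha b hb => ?_⟩
  have e : ∀ a b, bE lam k * a * bE lam k * b * bE lam k =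
      bE lam k * a * bE lam k * (bE lam k * b * bE lam k) := fun a b => by
    simp only [← mul_assoc]
    rw [mul_assoc _ (bE lam k) (bE lam k), bE_idem hl]
  have := fix _ (gu_span_mul G _ (gu_span_mul G _ ha _ (bE_mem (lam := lam) hU k)) _ hb)
  rw [← mul_assoc, ← mul_assoc] at this
  rw [← this, e, h2, fix a ha, fix b hb, ← e]

/-- in the Borel subgroup the corner of the trivial character is commutative too -/
theorem bE_cc0 (hl : lam ≠ 1) {G : Subgroup (GL (Fin 2) K)} (hU : ∀ s, bx s ∈ G)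
    (hB : ∀ g ∈ G, g.1 1 0 = 0) : CC F (Hm F (gu F (GL (Fin 2) K)) G) (bE lam 0) := by
  refine ⟨bE_mem hU 0, bE_idem hl 0, fun a ha b hb => ?_⟩
  have e : ∀ a b, bE lam 0 * a * bE lam 0 * b * bE lam 0 =
      bE lam 0 * a * bE lam 0 * (bE lam 0 * b * bE lam 0) := fun a b => by
    simp only [← mul_assoc]
    rw [mul_assoc _ (bE lam 0) (bE lam 0), bE_idem hl]
  rw [e, e]
  refine Commute.eq (span_induction₂ (p := fun x y _ _ => Commute x y) ?_
    (fun _ _ => Commute.zero_left _) (fun _ _ => Commute.zero_right _)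
    (fun _ _ _ _ _ _ => Commute.add_left) (fun _ _ _ _ _ _ => Commute.add_right)
    (fun c _ _ _ _ p => p.smul_left c) (fun c _ _ _ _ p => p.smul_right c)
    (bru_corner hl hU 0 0 ha) (bru_corner hl hU 0 0 hb))
  rintro _ _ ⟨r, rfl⟩ ⟨t, rfl⟩
  have d : ∀ r : {r // r ∈ G ∧ BRep (0 : K) 0 r}, BDia r.1 := fun r =>
    (r.2.2.resolve_left fun h => h.ne.2 (hB _ r.2.1)).1
  have c : ∀ r : {r // r ∈ G ∧ BRep (0 : K) 0 r}, Commute (bE lam 0) (gu F _ r.1) := fun r =>
    (bE_dia hl (d r).2 (by simp)).2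
  have c' : Commute (gu F _ r.1) (gu F _ t.1) := by
    rw [Commute, SemiconjBy, gu_mul, gu_mul, (d r).comm (d t)]
  exact ((((Commute.refl _).mul_right (c t)).mul_right (Commute.refl _)).mul_left
    (((c r).symm.mul_right c').mul_right (c r).symm)).mul_left
    (((Commute.refl _).mul_right (c t)).mul_right (Commute.refl _))

end Pool.Agent.Lib.MP_1ae3da_al.CT
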