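import Mathlib

/-! Powers of invertible two by two matrices over a finite field and the Frobenius map. -/

namespace Pool.Agent.Lib.MP_1ae3da_al.CT

open Matrix

variable {K : Type} [Field K]

/-- scalar matrices -/
def CnjSc (A : Matrix (Fin 2) (Fin 2) K) : Prop := A 0 1 = 0 ∧ A 1 0 = 0 ∧ A 0 0 = A 1 1

theorem cnj_conj {g h P : GL (Fin 2) K} (e : g.1 * P.1 = P.1 * h.1) : P⁻¹ * g * P = h := by
  have : g * P = P * h := Units.ext e
  rw [mul_assoc, this, inv_mul_cancel_left]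

/-- a matrix that is not scalar is conjugate to its companion matrix -/
theorem cnj_comp (g c : GL (Fin 2) K) (hg : ¬ CnjSc g.1)
    (hc : c.1 = !![0, -g.1.det; 1, g.1.trace]) : IsConj g c := by
  have key : ∀ P : Matrix (Fin 2) (Fin 2) K, P.det ≠ 0 → g.1 * P = P * c.1 → IsConj g c :=
    fun P hP e => isConj_iff.2 ⟨(GeneralLinearGroup.mkOfDetNeZero P hP)⁻¹, by
      rw [inv_inv]; exact cnj_conj e⟩
  rw [hc, det_fin_two, trace_fin_two] at key
  by_cases h10 : g.1 1 0 = 0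
  · by_cases h01 : g.1 0 1 = 0
    · have hd : g.1 0 0 ≠ g.1 1 1 := fun h => hg ⟨h01, h10, h⟩
      refine key !![1, g.1 0 0; 1, g.1 1 1] (by
        rw [det_fin_two_of, one_mul, mul_one]; exact sub_ne_zero.2 hd.symm) ?_
      ext i j
      fin_cases i <;> fin_cases j <;> simp [mul_apply, Fin.sum_univ_two, h10, h01] <;> ring
    · refine key !![0, g.1 0 1; 1, g.1 1 1] (by rw [det_fin_two_of]; simpa using h01) ?_
      ext i j
      fin_cases i <;> fin_cases j <;> simp [mul_apply, Fin.sum_univ_two] <;> ring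
  · refine key !![1, g.1 0 0; 0, g.1 1 0] (by rw [det_fin_two_of]; simpa using h10) ?_
    ext i j
    fin_cases i <;> fin_cases j <;> simp [mul_apply, Fin.sum_univ_two] <;> ring

/-- same trace, same determinant, not scalar -/
theorem cnj_of_tr (g h : GL (Fin 2) K) (hg : ¬ CnjSc g.1) (hh : ¬ CnjSc h.1)
    (ht : g.1.trace = h.1.trace) (hd : g.1.det = h.1.det) : IsConj g h := by
  have h0 : (!![0, -g.1.det; 1, g.1.trace] : Matrix (Fin 2) (Fin 2) K).det ≠ 0 := by
    rw [det_fin_two_of]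
    simpa using g.det_ne_zero
  exact (cnj_comp g (GeneralLinearGroup.mkOfDetNeZero _ h0) hg rfl).trans
    (cnj_comp h _ hh (by rw [← ht, ← hd]; rfl)).symm

/-- upper triangular matrices with the same diagonal -/
theorem cnj_of_diag (g h : GL (Fin 2) K) (hg : g.1 1 0 = 0) (hh : h.1 1 0 = 0)
    (h0 : g.1 0 0 = h.1 0 0) (h1 : g.1 1 1 = h.1 1 1) (hs : CnjSc g.1 ↔ CnjSc h.1) :
    ∃ b : GL (Fin 2) K, b.1 1 0 = 0 ∧ b * g * b⁻¹ = h := by
  have key : ∀ P : Matrix (Fin 2) (Fin 2) K, P.det ≠ 0 → P 1 0 = 0 → P * g.1 = h.1 * P →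
      ∃ b : GL (Fin 2) K, b.1 1 0 = 0 ∧ b * g * b⁻¹ = h := fun P hP h2 e =>
    ⟨GeneralLinearGroup.mkOfDetNeZero P hP, h2, by
      rw [mul_inv_eq_iff_eq_mul]; exact Units.ext e⟩
  by_cases hd : h.1 0 0 = h.1 1 1
  · by_cases hb : g.1 0 1 = 0
    · have hb' := (hs.1 ⟨hb, hg, by rw [h0, h1, hd]⟩).1
      refine key 1 (by simp) (by simp) ?_
      ext i j
      fin_cases i <;> fin_cases j <;> simp [hg, hh, h0, h1, hb, hb']
    · have hb' : h.1 0 1 ≠ 0 := fun e => hb (hs.2 ⟨e, hh, hd⟩).1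
      refine key !![h.1 0 1, 0; 0, g.1 0 1] (by
        rw [det_fin_two_of, mul_zero, sub_zero]; exact mul_ne_zero hb' hb) (by simp) ?_
      ext i j
      fin_cases i <;> fin_cases j <;> simp [mul_apply, Fin.sum_univ_two, hg, hh, h0, h1] <;> ring
  · have hd' := sub_ne_zero.2 hd
    refine key !![1, (g.1 0 1 - h.1 0 1) / (h.1 0 0 - h.1 1 1); 0, 1] (by simp) (by simp) ?_
    ext i j
    fin_cases i <;> fin_cases j <;> simp [mul_apply, Fin.sum_univ_two, hg, hh, h0, h1]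
    field_simp
    ring

theorem cnj_tri_pow (A : Matrix (Fin 2) (Fin 2) K) (h : A 1 0 = 0) (n : ℕ) :
    (A ^ n) 1 0 = 0 ∧ (A ^ n) 0 0 = A 0 0 ^ n ∧ (A ^ n) 1 1 = A 1 1 ^ n := by
  induction n with
  | zero => simp
  | succ n ih =>
    obtain ⟨h1, h2, h3⟩ := ih
    simp [pow_succ, mul_apply, Fin.sum_univ_two, h, h1, h2, h3]

theorem CnjSc.pow {A : Matrix (Fin 2) (Fin 2) K} (h : CnjSc A) (n : ℕ) : CnjSc (A ^ n) := by
  obtain ⟨h1, h2, h3⟩ := cnj_tri_pow A h.2.1 n
  refine ⟨?_, h1, by rw [h2, h3, h.2.2]⟩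
  clear h1 h2 h3
  induction n with
  | zero => simp
  | succ n ih => simp [pow_succ, mul_apply, Fin.sum_univ_two, h.1, ih]

theorem cnj_sc_map (τ : K →+* K) (A : Matrix (Fin 2) (Fin 2) K) : CnjSc (A.map τ) ↔ CnjSc A := by
  simp only [CnjSc, map_apply, map_eq_zero, τ.injective.eq_iff]

theorem cnj_sc_pow [Finite K] (g : GL (Fin 2) K) {m : ℕ}
    (hm : m.Coprime (Nat.card (GL (Fin 2) K))) : CnjSc (g ^ m).1 ↔ CnjSc g.1 := by
  refine ⟨fun h => ?_, fun h => by rw [Units.val_pow_eq_pow_val]; exact h.pow m⟩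
  obtain ⟨k, hk⟩ := exists_pow_eq_self_of_coprime (hm.coprime_dvd_right (orderOf_dvd_natCard g))
  rw [← hk, Units.val_pow_eq_pow_val]
  exact h.pow k

/-- traces of powers -/
theorem cnj_tr_pow {L : Type} [Field L] (A : Matrix (Fin 2) (Fin 2) L) {x y : L}
    (h1 : x + y = A.trace) (h2 : x * y = A.det) (n : ℕ) : (A ^ n).trace = x ^ n + y ^ n := by
  have hA : A * A = A.trace • A - A.det • (1 : Matrix (Fin 2) (Fin 2) L) := by
    rw [det_fin_two, trace_fin_two]
    ext i j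
    fin_cases i <;> fin_cases j <;> simp [mul_apply, Fin.sum_univ_two] <;> ring
  induction n using Nat.twoStepInduction with
  | zero => simp [one_add_one_eq_two]
  | one => simp [h1]
  | more n ih1 ih2 =>
    rw [pow_add, sq, hA, mul_sub, mul_smul_comm, mul_smul_comm, mul_one, ← pow_succ, trace_sub,
      trace_smul, trace_smul, ih1, ih2, ← h1, ← h2, smul_eq_mul, smul_eq_mul]
    ring

theorem cnj_pow_mod {M : Type} [Monoid M] {x : M} {n a b : ℕ} (h : x ^ n = 1) (e : a ≡ b [MOD n]) :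
    x ^ a = x ^ b :=
  by rw [pow_eq_pow_mod a h, pow_eq_pow_mod b h, e]

variable [Finite K] {p e m : ℕ} [Fact p.Prime] [CharP K p]

omit [CharP K p] [Fact p.Prime] in
theorem cnj_unit (hm : m ≡ p ^ e [MOD Nat.card K ^ 2 - 1]) {x : K} (hx : x ≠ 0) :
    x ^ m = x ^ p ^ e := by
  have := Fintype.ofFinite K
  refine cnj_pow_mod ?_ hm
  have h1 : Nat.card K ^ 2 - 1 = (Nat.card K - 1) * (Nat.card K + 1) := by
    rw [mul_comm, ← Nat.sq_sub_sq, one_pow]
  rw [h1, pow_mul, Nat.card_eq_fintype_card, FiniteField.pow_card_sub_one_eq_one x hx, one_pow]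

theorem cnj_root (p : ℕ) [Fact p.Prime] [CharP K p] {L : Type} [Field L] [Algebra K L]
    {x y : L} {t d : K} (h1 : x + y = algebraMap K L t) (h2 : x * y = algebraMap K L d) (hd : d ≠ 0) :
    x ^ (Nat.card K ^ 2 - 1) = 1 := by
  have := Fintype.ofFinite K
  have hL : CharP L p := charP_of_injective_algebraMap (algebraMap K L).injective p
  obtain ⟨n, -, hn⟩ := FiniteField.card K p
  have hq : Nat.card K = p ^ (n : ℕ) := by rw [Nat.card_eq_fintype_card, hn]
  have hK : ∀ a : K, algebraMap K L a ^ Nat.card K = algebraMap K L a := fun a => by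
    rw [← map_pow, Nat.card_eq_fintype_card, FiniteField.pow_card]
  have a1 : x ^ Nat.card K + y ^ Nat.card K = x + y := by
    rw [h1, ← hK, ← h1, hq, add_pow_char_pow]
  have a2 : x ^ Nat.card K * y ^ Nat.card K = x * y := by rw [← mul_pow, h2, hK]
  have hx : x ≠ 0 := left_ne_zero_of_mul (h2 ▸ (map_ne_zero _).2 hd)
  have a3 : (x ^ Nat.card K - x) * (x ^ Nat.card K - y) = 0 := by
    linear_combination x ^ Nat.card K * a1 - a2
  have a4 : x ^ Nat.card K ^ 2 = x := by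
    rw [sq, pow_mul]
    rcases mul_eq_zero.1 a3 with h | h
    · rw [sub_eq_zero.1 h, sub_eq_zero.1 h]
    · rw [sub_eq_zero.1 h]
      linear_combination a1 - h
  apply mul_right_cancel₀ hx
  rw [← pow_succ, Nat.sub_add_cancel (Nat.one_le_pow _ _ Nat.card_pos), a4, one_mul]

theorem cnj_tr (hm : m ≡ p ^ e [MOD Nat.card K ^ 2 - 1]) (A : Matrix (Fin 2) (Fin 2) K)
    (hA : A.det ≠ 0) : (A ^ m).trace = A.trace ^ p ^ e := by
  let L := AlgebraicClosure K
  let f := algebraMap K L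
  have hL : CharP L p := charP_of_injective_algebraMap f.injective p
  obtain ⟨x, hx⟩ : ∃ x : L, x * x - f A.trace * x + f A.det = 0 := by
    obtain ⟨x, hx⟩ := IsAlgClosed.exists_root
      (Polynomial.C 1 * Polynomial.X ^ 2 + Polynomial.C (-f A.trace) * Polynomial.X +
        Polynomial.C (f A.det)) (by rw [Polynomial.degree_quadratic one_ne_zero]; decide)
    refine ⟨x, ?_⟩
    simp only [Polynomial.IsRoot.def, Polynomial.eval_add, Polynomial.eval_mul, Polynomial.eval_C,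
      Polynomial.eval_pow, Polynomial.eval_X] at hx
    linear_combination hx
  have h1 : x + (f A.trace - x) = f A.trace := by ring
  have h2 : x * (f A.trace - x) = f A.det := by linear_combination -hx
  have h3 := cnj_tr_pow (f.mapMatrix A) (x := x) (y := f A.trace - x)
    (by rw [h1, trace_fin_two, trace_fin_two, map_add]; rfl) (by rw [h2, RingHom.map_det]) m
  rw [cnj_pow_mod (cnj_root p h1 h2 hA) hm, cnj_pow_mod (cnj_root p
    ((add_comm _ _).trans h1) ((mul_comm _ _).trans h2) hA) hm, ← add_pow_char_pow, h1,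
    ← map_pow f.mapMatrix, ← map_pow] at h3
  apply f.injective
  rw [← h3, trace_fin_two, trace_fin_two, map_add]
  rfl

omit [CharP K p] [Fact p.Prime] in
/-- CONJ in the Borel subgroup -/
theorem cnj_b (hm : m ≡ p ^ e [MOD Nat.card K ^ 2 - 1])
    (hc : m.Coprime (Nat.card (GL (Fin 2) K))) (τ : K →+* K) (hτ : ∀ x, τ x = x ^ p ^ e)
    (g : GL (Fin 2) K) (hg : g.1 1 0 = 0) :
    ∃ b : GL (Fin 2) K, b.1 1 0 = 0 ∧ b * g ^ m * b⁻¹ = GeneralLinearGroup.map τ g := by
  obtain ⟨h1, h2, h3⟩ := cnj_tri_pow g.1 hg m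
  have hd := g.det_ne_zero
  rw [det_fin_two, hg, mul_zero, sub_zero] at hd
  refine cnj_of_diag _ _ (by rw [Units.val_pow_eq_pow_val, h1]) ?_ ?_ ?_
    ((cnj_sc_pow g hc).trans (cnj_sc_map τ g.1).symm)
  · change τ (g.1 1 0) = 0
    rw [hg, map_zero]
  · change _ = τ (g.1 0 0)
    rw [Units.val_pow_eq_pow_val, h2, hτ, cnj_unit hm (left_ne_zero_of_mul hd)]
  · change _ = τ (g.1 1 1)
    rw [Units.val_pow_eq_pow_val, h3, hτ, cnj_unit hm (right_ne_zero_of_mul hd)]

/-- CONJ in the general linear group -/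
theorem cnj_gl (hm : m ≡ p ^ e [MOD Nat.card K ^ 2 - 1])
    (hc : m.Coprime (Nat.card (GL (Fin 2) K))) (τ : K →+* K) (hτ : ∀ x, τ x = x ^ p ^ e)
    (g : GL (Fin 2) K) : IsConj (g ^ m) (GeneralLinearGroup.map τ g) := by
  by_cases hs : CnjSc g.1
  · obtain ⟨b, -, hb⟩ := cnj_b hm hc τ hτ g hs.2.1
    exact isConj_iff.2 ⟨b, hb⟩
  · refine cnj_of_tr _ _ (fun h => hs ((cnj_sc_pow g hc).1 h))
      (fun h => hs ((cnj_sc_map τ g.1).1 h)) ?_ ?_
    · rw [Units.val_pow_eq_pow_val, cnj_tr hm _ g.det_ne_zero, ← hτ, trace_fin_two, trace_fin_two,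
        map_add]
      rfl
    · rw [Units.val_pow_eq_pow_val, det_pow, cnj_unit hm g.det_ne_zero, ← hτ, RingHom.map_det]
      rfl

end Pool.Agent.Lib.MP_1ae3da_al.CT
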