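import Pool.Agent.Lib.MP_1ae3da_al.S.Deb
import Pool.Agent.Lib.MP_1ae3da_al.S.Over

/-! The trace identity for the blocks of `GL2` and of its Borel subgroup; freeness of twists. -/

namespace Pool.Agent.Lib.MP_1ae3da_al.CT

open Submodule Matrix

/-- from sums of characters to multiplicities -/
theorem cnt_ded {M F α : Type} [Monoid M] [Field F] [CharZero F] (w : α → M → F)
    (s t t' : Finset α) (hw : ∀ x, x ∈ s ∨ x ∈ t ∨ x ∈ t' → ∃ f : M →* F, w x = f)
    (h : ∀ z, ∑ x ∈ s, w x z = ∑ x ∈ t, w x z + ∑ x ∈ t', w x z) (ω : M → F) :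
    {x | x ∈ s ∧ w x = ω}.ncard =
      {x | x ∈ t ∧ w x = ω}.ncard + {x | x ∈ t' ∧ w x = ω}.ncard := by
  classical
  simp only [← Finset.coe_filter, Set.ncard_coe_finset]
  have m (u : Finset α) (q : ∀ x ∈ u, x ∈ s ∨ x ∈ t ∨ x ∈ t') :
      ∑ x ∈ u, Finsupp.single (w x) (1 : F) ∈
        Finsupp.supported F F (Set.range fun f : M →* F => (f : M → F)) :=
    sum_mem fun x hx => Finsupp.single_mem_supported F 1 ((hw x (q x hx)).imp fun _ => Eq.symm)
  have e := linearIndepOn_iffₛ.1 (linearIndependent_monoidHom M F).linearIndepOn_id _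
    (m s fun _ => Or.inl) _ (add_mem (m t fun _ q => Or.inr (Or.inl q))
      (m t' fun _ q => Or.inr (Or.inr q))) (funext fun z => by simpa [map_sum] using h z)
  have k := congrArg (fun f : (M → F) →₀ F => f ω) e
  simp only [Finsupp.add_apply, Finsupp.finsetSum_apply, Finsupp.single_apply,
    Finset.sum_boole] at k
  exact_mod_cast k

/-- the automorphisms of a finite field form a cyclic group -/
theorem cnt_aut (K : Type) [Field K] [Finite K] : IsCyclic (RingAut K) := by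
  have := Fintype.ofFinite K
  obtain ⟨p, hp⟩ := CharP.exists K
  have : Fact p.Prime := ⟨CharP.char_is_prime K p⟩
  let _ := ZMod.algebra K p
  exact isCyclic_of_surjective (MonoidHom.mk' (fun a : K ≃ₐ[ZMod p] K => (a.toRingEquiv : RingAut K))
    fun _ _ => rfl) fun τ => ⟨AlgEquiv.ofRingEquiv (f := τ) fun c => RingHom.congr_fun
      (Subsingleton.elim ((τ : K →+* K).comp (algebraMap (ZMod p) K)) _) c, rfl⟩

variable {F K : Type} [Field F] [IsAlgClosed F] [CharZero F] [Field K] [Fintype K]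
  {lam : AddChar K F} {G : Subgroup (GL (Fin 2) K)}
  {h : RingAut (MonoidAlgebra F (GL (Fin 2) K))} {x y : MonoidAlgebra F (GL (Fin 2) K)}
  {ζ : Kˣ →* Fˣ} {τ : RingAut K}

theorem exists_Wh {p : ℕ} [Fact p.Prime] [CharP K p] : ∃ lam : AddChar K F, Wh lam := by
  have hp : p.Prime := Fact.out
  have : NeZero p := ⟨hp.ne_zero⟩
  obtain ⟨ξ, hξ⟩ := HasEnoughRootsOfUnity.exists_primitiveRoot F p
  let _ := ZMod.algebra K p
  let ψ := AddChar.zmodChar p hξ.pow_eq_one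
  have pr : ψ.IsPrimitive := AddChar.zmodChar_primitive_of_primitive_root p hξ
  refine ⟨ψ.compAddMonoidHom (Algebra.trace (ZMod p) K).toAddMonoidHom, ?_, fun τ s => ?_,
    fun σ => ?_⟩
  · obtain ⟨a, ha⟩ := Algebra.trace_surjective (ZMod p) K 1
    refine AddChar.ne_one_iff.2 ⟨a, fun q => ?_⟩
    change ψ (Algebra.trace (ZMod p) K a) = 1 at q
    rw [ha] at q
    exact one_ne_zero ((pr.zmod_char_eq_one_iff p 1).1 q)
  · exact congrArg ψ (Algebra.trace_eq_of_algEquiv (AlgEquiv.ofRingEquiv (f := τ) fun c =>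
      RingHom.congr_fun (Subsingleton.elim ((τ : K →+* K).comp (algebraMap (ZMod p) K)) _) c) s)
  · obtain ⟨m, h1, h2⟩ := exists_exponent σ p hp.pos
    refine ⟨m, fun q => hp.one_lt.ne' (h1.symm.eq_one_of_dvd ((CharP.cast_eq_zero_iff K p m).1 q)),
      fun s => ?_⟩
    change σ (ψ (Algebra.trace (ZMod p) K s)) = ψ (Algebra.trace (ZMod p) K (m * s))
    rw [← nsmul_eq_mul, map_nsmul, AddChar.map_nsmul_eq_pow, h2]
    rw [← AddChar.map_nsmul_eq_pow, nsmul_eq_mul, CharP.cast_eq_zero, zero_mul,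
      AddChar.map_zero_eq_one]

/-- the trace of `u z * h` on the corner of `bE lam l` -/
theorem cnt_tr (hl : lam ≠ 1) (hU : ∀ s, bx s ∈ G) (hZ : ∀ z, bd z z ∈ G) (k : DelD 1 ζ τ 1 h)
    (hG : ∀ g, GeneralLinearGroup.map (τ : K →+* K) g ∈ G ↔ g ∈ G) {l : K} (hτ : τ l = l)
    (hE : h (bE lam l) = bE lam l) (hc : CC F (HX F G) (bE lam l))
    {Q : Finset (MonoidAlgebra F (GL (Fin 2) K))}
    (hQ : ∀ e, e ∈ Q ↔ (e ∈ Irr F (HX F G) ∧ bE lam l * e ≠ 0) ∧ h e = e) (z : Kˣ)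
    {R : Finset (GL (Fin 2) K)} (hR : ∀ r, r ∈ R ↔ (r ∈ G ∧ BRep l l r) ∧
      bd z z * GeneralLinearGroup.map (τ : K →+* K) r = r) :
    ∑ e ∈ Q, om e z = ∑ r ∈ R, (ζ (GeneralLinearGroup.det r) : F) := by
  obtain ⟨P, hP⟩ := pair_fin (bk_nice (F := F) G) (bE lam l) (bE lam l)
  simp only [and_self] at hP
  have := Fintype.ofFinite {r // r ∈ G ∧ BRep l l r}
  have hh : Lin F h := k.1
  have k2 (g : GL (Fin 2) K) : h (gu F _ g) = (ζ (GeneralLinearGroup.det g) : F) •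
      gu F _ (GeneralLinearGroup.map (τ : K →+* K) g) := by simpa using k.2 g
  have hs : h ∈ Stb (HX F G) := gal_stb (δ := galM τ) k.1 k2 hG
  have m (r : GL (Fin 2) K) (i j : Fin 2) :
      (bd z z * GeneralLinearGroup.map (τ : K →+* K) r).1 i j = z * τ (r.1 i j) := by
    fin_cases i <;> simp [bd_val, mul_apply, Fin.sum_univ_two]
  have m' (s : K) : l * (z * τ s) = z * τ (l * s) := by rw [map_mul, hτ, mul_left_comm]
  let hL : MonoidAlgebra F (GL (Fin 2) K) →ₗ[F] MonoidAlgebra F (GL (Fin 2) K) :=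
    ⟨⟨fun a => gu F _ (bd z z) * h a, fun a b => by rw [map_add, mul_add]⟩, fun c a =>
      (congrArg _ (hh c a)).trans (mul_smul_comm ..)⟩
  have q := corner_trace (bk_nice G) hc P hP (bru_ind hl G l l) (bru_span hl hU l l) hL h
    (fun e => om (h e) z) (fun e he => by
      have i := (irr_stb (GG := ⊤) hh.mem_SG hs).2 ((hP e).1 he).1
      refine ⟨(hP _).2 ⟨i, by
        rw [← hE, ← map_mul]; exact h.map_ne_zero_iff.2 ((hP e).1 he).2⟩, ?_⟩
      change gu F _ (bd z z) * h _ = _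
      rw [map_mul, hE, ← mul_assoc, bd_cen, mul_assoc, om_irr (hZ z) i, mul_smul_comm])
    (fun r => ⟨bd z z * GeneralLinearGroup.map (τ : K →+* K) r.1, mul_mem (hZ z) ((hG _).2 r.2.1),
      r.2.2.imp (fun p => ⟨by rw [m, p.1, map_zero, mul_zero], by rw [m, p.2, map_zero, mul_zero]⟩)
      fun p => ⟨⟨by rw [m, p.1.1, map_zero, mul_zero], by rw [m, p.1.2, map_zero, mul_zero]⟩, by
        rw [m, m, m', m', p.2]⟩⟩)
    (fun r => (ζ (GeneralLinearGroup.det r.1) : F)) (fun r => by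
      change gu F _ (bd z z) * h _ = _
      rw [map_mul, map_mul, hE, k2, mul_smul_comm, smul_mul_assoc, mul_smul_comm, ← mul_assoc,
        ← mul_assoc, bd_cen z (bE lam l), mul_assoc (bE lam l), gu_mul])
  refine (Finset.sum_congr (by ext e; simp only [hQ, Finset.mem_filter, hP]) fun e he => ?_).trans
    (q.trans (Finset.sum_bij (fun r _ => r.1) (fun r hr => ?_) (fun _ _ _ _ => Subtype.ext)
      (fun r hr => ?_) fun _ _ => rfl))
  · simp only [Finset.mem_filter] at he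
    rw [he.2]
  · simp only [Finset.mem_filter] at hr
    exact (hR _).2 ⟨r.2, congrArg Subtype.val hr.2⟩
  · exact ⟨⟨r, ((hR r).1 hr).1⟩, by
      simp only [Finset.mem_filter]
      exact ⟨Finset.mem_univ _, Subtype.ext ((hR r).1 hr).2⟩, rfl⟩

theorem nf_tr (hl : Wh lam) (k : h ∈ DelH F K) (w : Kˣ → F) :
    Nf (X1 lam) h w = Nf (X3 lam) h w + Nf (X2 lam) h w := by
  have fin (G : Subgroup (GL (Fin 2) K)) (l : K) : ∃ P : Finset (MonoidAlgebra F (GL (Fin 2) K)),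
      ∀ e, e ∈ P ↔ (e ∈ Irr F (HX F G) ∧ bE lam l * e ≠ 0) ∧ h e = e :=
    ⟨((rank_fin (bk_nice G)).subset (t := {e | (e ∈ Irr F (HX F G) ∧
      bE lam l * e ≠ 0) ∧ h e = e}) fun _ q => q.1.1).toFinset, fun _ => Set.Finite.mem_toFinset _⟩
  choose P hP using fin
  obtain ⟨E1, E0⟩ := delH_E hl k
  obtain ⟨ζ, τ, k⟩ := k
  have hU (s : K) : bx s ∈ dBt K := dB_le_dBt (bx_dB s)
  have hZ (z : Kˣ) : bd z z ∈ dBt K := bd_dBt z z
  have hG (g : GL (Fin 2) K) : GeneralLinearGroup.map (τ : K →+* K) g ∈ dBt K ↔ g ∈ dBt K :=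
    map_eq_zero_iff τ τ.injective
  have e2 : X2 lam = {e | e ∈ Irr F (HX F (dBt K)) ∧ bE lam 0 * e ≠ 0} :=
    Set.ext fun e => and_congr_right fun he => ⟨fun q => q.symm ▸ he.2.2.1,
      (bk_E0_or hl.ne hU (fun _ => id) he).resolve_left⟩
  simp only [Nf, e2, X1, X3, Set.mem_ofPred_eq, ← and_assoc, ← hP]
  refine cnt_ded om _ _ _ (fun x hx => ?_) (fun z => ?_) w
  · rcases hx with q | q | q
    exacts [om_hom (W := ⊤) (fun _ => trivial) ((hP _ _ x).1 q).1.1,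
      om_hom hZ ((hP _ _ x).1 q).1.1, om_hom hZ ((hP _ _ x).1 q).1.1]
  have fin (G : Subgroup (GL (Fin 2) K)) (l : K) : ∃ R : Finset (GL (Fin 2) K), ∀ r, r ∈ R ↔
      (r ∈ G ∧ BRep l l r) ∧ bd z z * GeneralLinearGroup.map (τ : K →+* K) r = r :=
    ⟨(Set.toFinite {r | (r ∈ G ∧ BRep l l r) ∧
      bd z z * GeneralLinearGroup.map (τ : K →+* K) r = r}).toFinset, fun _ =>
      Set.Finite.mem_toFinset _⟩
  choose R hR using fin
  classical
  rw [cnt_tr (G := ⊤) hl.ne (fun _ => trivial) (fun _ => trivial) k (fun _ => Iff.rfl) (map_one τ)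
      E1 (bE_cc (G := ⊤) hl.ne (fun _ => trivial) one_ne_zero) (hP ⊤ 1) z (hR ⊤ 1),
    cnt_tr hl.ne hU hZ k hG (map_one τ) E1 (bE_cc hl.ne hU one_ne_zero) (hP _ 1) z (hR _ 1),
    cnt_tr hl.ne hU hZ k hG (map_zero τ) E0 (bE_cc0 hl.ne hU fun _ => id) (hP _ 0) z (hR _ 0),
    ← Finset.sum_filter_add_sum_filter_not _ (fun r => r ∈ dBt K)]
  refine congrArg₂ _ (Finset.sum_congr (Finset.ext fun r => ?_) fun _ _ => rfl) ?_
  · simp only [Finset.mem_filter, hR, Subgroup.mem_top]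
    tauto
  have n1 : GeneralLinearGroup.det (bn : GL (Fin 2) K) = 1 := Units.ext (by simp [bn_val])
  have n2 : GeneralLinearGroup.map (τ : K →+* K) bn = bn := by
    apply Units.ext
    ext i j
    fin_cases i <;> fin_cases j <;> simp [bn_val]
  have n3 (r : GL (Fin 2) K) (i : Fin 2) :
      (r * bn).1 i 0 = -r.1 i 1 ∧ (r * bn).1 i 1 = r.1 i 0 := by
    simp [bn_val, mul_apply, Fin.sum_univ_two]
  refine Finset.sum_equiv (Equiv.mulRight bn) (fun r => ?_) fun r _ => by simp [n1]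
  simp only [Finset.mem_filter, hR, true_and, Equiv.coe_mulRight, map_mul, n2, ← mul_assoc,
    mul_left_inj, Subgroup.mem_top, mem_dBt, BRep, BAnt, BDia, n3, neg_eq_zero, zero_mul, and_true]
  have := bru_det r
  constructor
  · rintro ⟨⟨p | p, q⟩, t⟩
    · exact ⟨⟨p.2, Or.inr ⟨p.1, p.2⟩⟩, q⟩
    · exact absurd p.1.2 t
  · rintro ⟨⟨p, t | t⟩, q⟩
    · simp [p, t.1] at this
    · exact ⟨⟨Or.inl ⟨t.1, t.2⟩, q⟩, fun s => by simp [p, s] at this⟩

omit [CharZero F] [Fintype K] in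
theorem cnt_free (k : DelD 1 ζ 1 1 h) (q : h x = x) (h0 : x ≠ 0)
    (hs : ∀ d : Kˣ, ∃ a ∈ span F (HX F (dY K)), a * x = gu F _ (bd d 1) * x) : ζ = 1 := by
  refine MonoidHom.ext fun d => Units.ext ?_
  obtain ⟨a, ha, e⟩ := hs d
  have e' := congrArg h e
  rw [map_mul, map_mul, q, del_tw k ha, k.2, e, bd_det, mul_one, one_mul, inv_one, mul_one,
    smul_mul_assoc] at e'
  exact smul_left_injective F (fun z => h0 (bk_cancel (bd d 1) z))
    (e'.symm.trans (one_smul F _).symm)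

theorem x1p_free (hl : lam ≠ 1) (hx : x ∈ X1P lam) (k : DelD 1 ζ 1 1 h) (q : h x = x) : ζ = 1 := by
  obtain ⟨hx, e, he, h1⟩ := hx
  exact cnt_free k q hx.2.2.1 fun d =>
    (over_y hl (fun _ => mem_dY) he.1 he.2.1 hx (h1.symm ▸ hx.2.2.1)).2.2 _ (bk_mem trivial)

theorem x2_free (hl : lam ≠ 1) (hy : y ∈ X2 lam) (k : DelD 1 ζ 1 1 h) (q : h y = y) : ζ = 1 :=
  cnt_free k q hy.1.2.2.1 fun d => by
    obtain ⟨c, hc, -⟩ := BLin.scal hl (fun s => dB_le_dBt (bx_dB s)) (fun _ => id) hy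
      (bk_mem (bd_dBt d 1))
    exact ⟨c • gu F _ 1, smul_mem _ _ (bk_mem (one_mem _)), by
      rw [hc, gu_one, smul_mul_assoc, one_mul]⟩

omit [IsAlgClosed F] [CharZero F] in
theorem delH_cyc (q : ∀ (h : RingAut (MonoidAlgebra F (GL (Fin 2) K))) ζ, DelD 1 ζ 1 1 h →
    h x = x → ζ = 1) : IsCyclic (DelH F K ⊓ Fx x : Subgroup (RingAut _)) := by
  have := cnt_aut K
  have un {h : RingAut (MonoidAlgebra F (GL (Fin 2) K))} {σ σ' ζ ζ' τ τ'} {b : K →+* K}
      (a : DelD σ ζ τ 1 h) (b : DelD σ' ζ' τ' (1 * GeneralLinearGroup.map b 1) h) : τ = τ' := by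
    refine RingEquiv.ext fun s => ?_
    have e := (gu_inj (Units.ne_zero _) ((a.2 (bx s)).symm.trans (b.2 (bx s)))).1
    simpa [bx_val] using congrArg (fun g : GL (Fin 2) K => g.1 0 1) e
  choose z t hz using fun g : (DelH F K ⊓ Fx x : Subgroup (RingAut _)) => g.2.1
  refine isCyclic_of_injective (MonoidHom.mk' t fun a b => un (hz (a * b)) ((hz a).mul (hz b)))
    ((injective_iff_map_eq_one _).2 fun g e => Subtype.ext (RingEquiv.ext fun a => ?_))
  have k := hz g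
  rw [show t g = 1 from e] at k
  rw [q _ _ k g.2.2] at k
  exact gal_uniq (H := ⊤) k.1 DelD.one.1 (fun r _ => (k.2 r).trans (DelD.one.2 r).symm)
    (gu_span (F := F) (X := GL (Fin 2) K) ▸ mem_top)

end Pool.Agent.Lib.MP_1ae3da_al.CT
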