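import Pool.Agent.Lib.MP_1ae3da_al.C.TE
import Pool.Agent.Lib.MP_1ae3da_al.C.TC
import Pool.Agent.Lib.MP_1ae3da_al.C.AGa
import Pool.Agent.Lib.MP_1ae3da_al.Rep
import Pool.Agent.Lib.MP_1ae3da_al.GS
import Pool.Agent.Lib.MP_1ae3da_al.S.Cnj

/-! Galois action and twists on the blocks of a group algebra. -/

namespace Pool.Agent.Lib.MP_1ae3da_al.CT

open Submodule

theorem gal_H {p n : ℕ} (n0 : 0 < n) (hn : n.Coprime p) {s : NSV.Qbar ≃ₐ[ℚ] NSV.Qbar}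
    (hs : s ∈ NSV.H p) : ∃ e : ℕ, ∀ ξ : NSV.Qbar, ξ ^ n = 1 → s ξ = ξ ^ p ^ e := by
  induction hs using Subgroup.closure_induction with
  | mem s hs => exact hs.imp fun e h ξ => h n ξ hn
  | one => exact ⟨0, fun ξ _ => by simp⟩
  | mul s t _ _ hs ht =>
    obtain ⟨a, ha⟩ := hs
    obtain ⟨b, hb⟩ := ht
    exact ⟨a + b, fun ξ h => by
      rw [AlgEquiv.mul_apply, hb ξ h, map_pow, ha ξ h, ← pow_mul, pow_add]⟩
  | inv s _ hs =>
    obtain ⟨a, ha⟩ := hs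
    obtain ⟨f, hf⟩ := Nat.exists_eq_succ_of_ne_zero (Nat.totient_pos.2 n0).ne'
    refine ⟨a * f, fun ξ h => s.injective ?_⟩
    have k := (Nat.ModEq.pow_totient hn.symm).pow a
    rw [one_pow, ← pow_mul, hf] at k
    rw [show s (s⁻¹ ξ) = ξ from s.apply_symm_apply ξ, map_pow, ha ξ h, ← pow_mul, ← pow_add,
      show a + a * f = f.succ * a by rw [Nat.succ_mul]; ring, pow_eq_pow_of_modEq k h, pow_one]

variable {F A : Type} [Field F] [Ring A] [Algebra F A] {GG : Subgroup (RingAut F)}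
  {σ : RingAut F}

/-- the exponent of `σ` on the `N`-th roots of unity is a power of `p` modulo `n`. -/
theorem gal_exp [CharZero F] [IsAlgClosed F] {p n N : ℕ} (j : NSV.Qbar →+* F)
    (hj : ∀ σ ∈ GG, ∃ s ∈ NSV.H p, ∀ x, σ (j x) = j (s x)) (hσ : σ ∈ GG) (N0 : 0 < N)
    (hN : n ∣ N) (hn : n.Coprime p) : ∃ m e : ℕ, m.Coprime N ∧ m ≡ p ^ e [MOD n] ∧
      ∀ ξ : F, ξ ^ N = 1 → σ ξ = ξ ^ m := by
  obtain ⟨m, h1, h2⟩ := exists_exponent σ N N0
  obtain ⟨s, hs, h3⟩ := hj σ hσ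
  have n0 := Nat.pos_of_dvd_of_pos hN N0
  obtain ⟨e, h4⟩ := gal_H n0 hn hs
  have : NeZero n := ⟨n0.ne'⟩
  obtain ⟨ω, hω⟩ := HasEnoughRootsOfUnity.exists_primitiveRoot NSV.Qbar n
  refine ⟨m, e, h1, ?_, h2⟩
  obtain ⟨c, rfl⟩ := hN
  have k := h3 ω
  rw [h2 _ (by rw [← map_pow, pow_mul, hω.pow_eq_one, one_pow, map_one]), h4 ω hω.pow_eq_one,
    ← map_pow] at k
  rw [hω.eq_orderOf]
  exact (hω.isOfFinOrder n0.ne').pow_eq_pow_iff_modEq.1 (j.injective k)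

variable [CharZero F] [IsAlgClosed F]

/-- a block is determined by its character. -/
theorem gal_ext {S : Set A} {e f : A} (hS : Nice F S) (he : e ∈ Irr F S) (hf : f ∈ Irr F S)
    (h : ∀ x ∈ S, Chv F S e x = Chv F S f x) : e = f := by
  by_contra c
  obtain ⟨l, hl⟩ := Chv_lin (F := F) S e
  obtain ⟨l', hl'⟩ := Chv_lin (F := F) S f
  have k : l e = l' e := LinearMap.eqOn_span (fun x hx => by rw [hl, hl', h x hx]) he.1.1
  obtain ⟨n, ρ, m⟩ := exists_MM hS he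
  obtain ⟨n', ρ', m'⟩ := exists_MM hS hf
  rw [hl, hl', Chv_eq hS he m he.1.1, Chv_eq hS hf m' he.1.1, m.one, ← td_cut hf.1.1 m' he.1.1,
    Irr_orth he hf c] at k
  simp [m.pos.ne'] at k

variable {X : Type} [Group X] [Finite X] {H : Subgroup X} {e x y : MonoidAlgebra F X}
  {γ h : RingAut (MonoidAlgebra F X)}

omit [CharZero F] [IsAlgClosed F] [Finite X] in
theorem gal_mem {g : X} (hg : g ∈ H) : gu F X g ∈ span F (Hm F (gu F X) H) :=
  subset_span (aga_mem.2 hg)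

theorem gal_cl (he : e ∈ Irr F (Hm F (gu F X) H)) {b : X} (hb : b ∈ H)
    (hx : x ∈ span F (Hm F (gu F X) H)) : Chv F (Hm F (gu F X) H) e (gu F X b * x * gu F X b⁻¹) =
      Chv F (Hm F (gu F X) H) e x := by
  have hS := nice_Hm0 (gu_tg (F := F) (X := X)) H
  obtain ⟨n, ρ, m⟩ := exists_MM hS he
  have p := gal_mem (F := F) hb
  have q := gal_mem (F := F) (H.inv_mem hb)
  rw [Chv_eq hS he m hx, Chv_eq hS he m (hS.span_mul (hS.span_mul p hx) q),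
    m.mul _ (hS.span_mul p hx) _ q, Matrix.trace_mul_comm, ← m.mul _ q _ (hS.span_mul p hx),
    ← mul_assoc, gu_mul, inv_mul_cancel, gu_one, one_mul]

theorem gal_chv (he : e ∈ Irr F (Hm F (gu F X) H)) {m : ℕ}
    (hm : ∀ ξ : F, ξ ^ Nat.card X = 1 → σ ξ = ξ ^ m) {g : X} (hg : g ∈ H) :
    σ (Chv F (Hm F (gu F X) H) e (gu F X g)) = Chv F (Hm F (gu F X) H) e (gu F X (g ^ m)) := by
  have hS := nice_Hm0 (gu_tg (F := F) (X := X)) H
  obtain ⟨n, ρ, r⟩ := exists_MM hS he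
  have k : ∀ a, ρ (gu F X (g ^ a)) = ρ (gu F X g) ^ a := fun a => by
    induction a with
    | zero => rw [pow_zero, pow_zero, ← td_cut he.1.1 r (gal_mem H.one_mem), gu_one, one_mul, r.one]
    | succ a ih =>
      rw [pow_succ, pow_succ, ← gu_mul, r.mul _ (gal_mem (H.pow_mem hg a)) _ (gal_mem hg), ih]
  have q := sigma_trace (Matrix.toLinAlgEquiv' (ρ (gu F X g))) _ Nat.card_pos (by
    rw [← map_pow, ← k, pow_card_eq_one', ← pow_zero g, k, pow_zero, map_one]) σ m hm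
  rw [← map_pow] at q
  rw [Chv_eq hS he r (gal_mem hg), Chv_eq hS he r (gal_mem (H.pow_mem hg m)), k]
  simpa only [show ∀ a : Matrix (Fin n) (Fin n) F, LinearMap.trace F _ (Matrix.toLinAlgEquiv' a) =
    a.trace from Matrix.trace_toLin'_eq] using q

/-- GAL: `γ` is semilinear, `h` is linear. -/
theorem gal_irr (hγ : SL F σ γ) (hh : Lin F h) (s1 : γ ∈ Stb (Hm F (gu F X) H))
    (s2 : h ∈ Stb (Hm F (gu F X) H)) {m : ℕ} (hm : ∀ ξ : F, ξ ^ Nat.card X = 1 → σ ξ = ξ ^ m)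
    (hc : ∀ g ∈ H, ∃ a ∈ H, ∃ b ∈ H,
      γ (gu F X g) = gu F X b * h (gu F X (a * g ^ m * a⁻¹)) * gu F X b⁻¹)
    (hx : x ∈ Irr F (Hm F (gu F X) H)) : γ x = h x := by
  have hS := nice_Hm0 (gu_tg (F := F) (X := X)) H
  have t1 : γ ∈ SG ⊤ (MonoidAlgebra F X) := ⟨σ, trivial, hγ⟩
  have t2 : h ∈ SG ⊤ (MonoidAlgebra F X) := hh.mem_SG
  have i2 := (irr_stb t2 s2).2 hx
  refine gal_ext hS ((irr_stb t1 s1).2 hx) i2 fun z hz => ?_
  obtain ⟨z, rfl⟩ := γ.surjective z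
  obtain ⟨c, -, g, hg, rfl⟩ := (s1 z).1 hz
  obtain ⟨a, ha, b, hb, k⟩ := hc g hg
  have m1 := H.mul_mem (H.mul_mem ha (H.pow_mem hg m)) (H.inv_mem ha)
  have k1 := Chv_nat hS hx hγ (gal_mem hg)
  have k2 := Chv_nat hS hx (lin_iff.1 hh) (gal_mem m1)
  rw [mem_Stb_iff.1 s1, gal_chv hx hm hg] at k1
  rw [mem_Stb_iff.1 s2, ← gu_mul, ← gu_mul, gal_cl hx ha (gal_mem (H.pow_mem hg m)), gu_mul,
    gu_mul] at k2
  rw [hγ, chv_smul, chv_smul, k1, k, gal_cl i2 hb ((span_stb t2 s2).2 (gal_mem m1)), k2]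
  rfl

omit [CharZero F] [IsAlgClosed F] [Finite X] in
/-- twists. -/
theorem gal_tw (χ : X →* Fˣ) : ∃ γ : RingAut (MonoidAlgebra F X), Lin F γ ∧
    ∀ g, γ (gu F X g) = (χ g : F) • gu F X g := by
  let T : (X →* Fˣ) → (MonoidAlgebra F X →ₐ[F] MonoidAlgebra F X) := fun χ =>
    MonoidAlgebra.lift F _ X ⟨⟨fun g => (χ g : F) • gu F X g, by simp [gu_one]⟩, fun a b => by
      simp only [map_mul, Units.val_mul, smul_mul_smul_comm, gu_mul]⟩
  have k : ∀ χ g, T χ (gu F X g) = (χ g : F) • gu F X g := fun χ g => by simp [T, gu]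
  have i : ∀ χ χ' : X →* Fˣ, (∀ g, χ' g * χ g = 1) → (T χ).comp (T χ') = AlgHom.id F _ :=
    fun χ χ' q => MonoidAlgebra.algHom_ext (fun g => by
      change T χ (T χ' (gu F X g)) = gu F X g
      rw [k, map_smul, k, smul_smul, ← Units.val_mul, q]
      simp) (Subsingleton.elim _ _)
  let E := AlgEquiv.ofAlgHom (T χ) (T χ⁻¹) (i _ _ (by simp)) (i _ _ (by simp))
  exact ⟨E.toRingEquiv, fun c a => map_smul E c a, k χ⟩

omit [CharZero F] [IsAlgClosed F] [Finite X] in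
theorem gal_aut (σ : RingAut F) (χ : X →* Fˣ) (δ : MulAut X) :
    ∃ γ : RingAut (MonoidAlgebra F X), SL F σ γ ∧
      ∀ g, γ (gu F X g) = (χ g : F) • gu F X (δ g) := by
  obtain ⟨a, a1, a2⟩ := gal_tw (F := F) (χ.comp δ.symm.toMonoidHom)
  obtain ⟨b, b1, b2⟩ := ga_aut σ δ
  refine ⟨a * b, fun c z => ?_, fun g => ?_⟩
  · change a (b _) = _ • a (b _)
    rw [b1, a1]
  · change a (b _) = _
    rw [b2, a2]
    simp

omit [CharZero F] [IsAlgClosed F] [Finite X] in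
theorem gal_uniq {γ' : RingAut (MonoidAlgebra F X)} (hγ : SL F σ γ) (hγ' : SL F σ γ')
    (k : ∀ g ∈ H, γ (gu F X g) = γ' (gu F X g)) (hx : x ∈ span F (Hm F (gu F X) H)) :
    γ x = γ' x := gu_ext σ H γ.toAddMonoidHom γ'.toAddMonoidHom hγ hγ' k x hx

omit [CharZero F] [IsAlgClosed F] [Finite X] in
theorem gal_stb (hγ : SL F σ γ) {c : X → Fˣ} {δ : MulAut X}
    (k : ∀ g, γ (gu F X g) = (c g : F) • gu F X (δ g)) (hδ : ∀ g, δ g ∈ H ↔ g ∈ H) :
    γ ∈ Stb (Hm F (gu F X) H) := fun a => by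
  constructor
  · rintro ⟨d, hd, y, hy, e⟩
    obtain ⟨g, rfl⟩ := δ.surjective y
    refine ⟨σ.symm (d / c g), by simpa using hd, g, (hδ g).1 hy, γ.injective ?_⟩
    rw [hγ, k, e, σ.apply_symm_apply, smul_smul, div_mul_cancel₀ _ (c g).ne_zero]
  · rintro ⟨d, hd, g, hg, rfl⟩
    exact ⟨σ d * c g, by simpa using hd, δ g, (hδ g).2 hg, by rw [hγ, k, smul_smul]⟩

omit [Finite X] in
/-- GALL: two blocks of `H` over one block of `H ⊓ ker d` differ by a twist. -/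
theorem gall {C : Type} [CommGroup C] [Finite C] (d : X →* C)
    (he : e ∈ Irr F (Hm F (gu F X) (H ⊓ d.ker))) (hx : x ∈ Irr F (Hm F (gu F X) H))
    (hy : y ∈ Irr F (Hm F (gu F X) H)) (x0 : x * e ≠ 0) (y0 : y * e ≠ 0) :
    ∃ (ζ : C →* Fˣ) (γ : RingAut (MonoidAlgebra F X)), Lin F γ ∧
      (∀ g, γ (gu F X g) = (ζ (d g) : F) • gu F X g) ∧ γ x = y := by
  classical
  have : NeZero (Monoid.exponent C) := ⟨Monoid.exponent_ne_zero_of_finite⟩
  have := Fintype.ofFinite (C →* Fˣ)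
  choose T T1 T2 using fun ζ : C →* Fˣ => gal_tw (F := F) (ζ.comp d)
  have T3 (ζ) : T ζ ∈ Stb (Hm F (gu F X) H) :=
    gal_stb (δ := 1) (lin_iff.1 (T1 ζ)) (T2 ζ) fun _ => Iff.rfl
  have T4 (ζ) : T ζ x ∈ Irr F (Hm F (gu F X) H) :=
    (irr_stb (GG := ⊤) (T1 ζ).mem_SG (T3 ζ)).2 hx
  have k : ∀ a ∈ span F (Hm F (gu F X) H), ∑ ζ, T ζ a ∈ span F (Hm F (gu F X) (H ⊓ d.ker)) := by
    intro a ha
    induction ha using span_induction with
    | mem a m =>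
      obtain ⟨c, -, g, hg, rfl⟩ := m
      simp only [T1 _ c, T2, ← Finset.smul_sum, ← Finset.sum_smul]
      by_cases q : d g = 1
      · exact smul_mem _ _ (smul_mem _ _ (gal_mem ⟨hg, q⟩))
      · obtain ⟨φ, hφ⟩ := CommGroup.exists_apply_ne_one_of_hasEnoughRootsOfUnity C F q
        have z := sum_hom_units_eq_zero ((Units.coeHom F).comp (MonoidHom.eval (d g)) :
          (C →* Fˣ) →* F) fun w => hφ (Units.ext (DFunLike.congr_fun w φ))
        rw [show ∑ ζ : C →* Fˣ, ((ζ.comp d g : Fˣ) : F) = 0 from z, zero_smul, smul_zero]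
        exact zero_mem _
    | zero => simp
    | add a b _ _ p q => simpa only [map_add, Finset.sum_add_distrib] using add_mem p q
    | smul c a _ p => simpa only [T1 _ c, ← Finset.smul_sum] using smul_mem _ c p
  obtain ⟨c, hc⟩ := he.2.2.2 (∑ ζ, T ζ x) ⟨k x hx.1.1, fun s hs => by
    rw [Finset.sum_mul, Finset.mul_sum]
    exact Finset.sum_congr rfl fun ζ _ => (T4 ζ).1.2 s (Hm_mono inf_le_left hs)⟩
  have c0 : c ≠ 0 := by
    rintro rfl
    have q := congrArg (x * ·) hc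
    have r : ∀ ζ, x * T ζ x = (if T ζ x = x then (1 : F) else 0) • x := fun ζ => by
      split_ifs with w
      · rw [w, hx.2.1, one_smul]
      · rw [Irr_orth hx (T4 ζ) (Ne.symm w), zero_smul]
    simp only [← mul_assoc, Finset.mul_sum, r, ← Finset.sum_smul, Finset.sum_boole, zero_smul,
      mul_zero, smul_mul_assoc] at q
    refine smul_ne_zero (Nat.cast_ne_zero.2 (Finset.card_ne_zero.2 ⟨1, ?_⟩)) x0 q
    rw [Finset.mem_filter]
    exact ⟨Finset.mem_univ _, gal_uniq (γ' := 1) (lin_iff.1 (T1 1)) (fun _ _ => rfl)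
      (fun g _ => by rw [T2]; simp) hx.1.1⟩
  by_contra n
  push Not at n
  refine smul_ne_zero c0 y0 ?_
  rw [← mul_smul_comm, ← hc, ← mul_assoc, Finset.mul_sum, Finset.sum_eq_zero, zero_mul]
  exact fun ζ _ => Irr_orth hy (T4 ζ) (n ζ _ (T1 ζ) (T2 ζ)).symm

open Matrix in
/-- GAL for `GL 2` and for its upper triangular subgroup. -/
theorem gal_gl {p : ℕ} [Fact p.Prime] (j : NSV.Qbar →+* F)
    (hj : ∀ σ ∈ GG, ∃ s ∈ NSV.H p, ∀ x, σ (j x) = j (s x)) (hσ : σ ∈ GG) (K : Type) [Field K]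
    [Finite K] [CharP K p] : ∃ φ : RingAut K, ∀ (H : Subgroup (GL (Fin 2) K)),
      (H = ⊤ ∨ ∀ g, g ∈ H ↔ g.1 1 0 = 0) → ∀ γ h : RingAut (MonoidAlgebra F (GL (Fin 2) K)),
      SL F σ γ → Lin F h → γ ∈ Stb (Hm F (gu F _) H) → h ∈ Stb (Hm F (gu F _) H) → ∀ b ∈ H,
      (∀ g ∈ H, γ (gu F _ g) =
        gu F _ b * h (gu F _ (GeneralLinearGroup.map (φ : K →+* K) g)) * gu F _ b⁻¹) →
      ∀ x ∈ Irr F (Hm F (gu F _) H), γ x = h x := by
  have := Fintype.ofFinite K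
  obtain ⟨n, hp, hn⟩ := FiniteField.card K p
  obtain ⟨m, e, h1, h2, h3⟩ := gal_exp (n := Nat.card K ^ 2 - 1)
    (N := Nat.card (GL (Fin 2) K)) j hj hσ Nat.card_pos (by
      rw [card_GL_field, Fin.prod_univ_two, Nat.card_eq_fintype_card]
      exact dvd_mul_right _ _) (by
      rw [Nat.card_eq_fintype_card, hn, ← pow_mul]
      exact ((Nat.coprime_self_sub_left (Nat.one_le_pow _ _ hp.pos)).2
        (Nat.coprime_one_left _)).coprime_dvd_right (dvd_pow_self _ (by simp)))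
  refine ⟨iterateFrobeniusEquiv K p e, fun H hH γ h hγ hh s1 s2 b hb k x hx =>
    gal_irr hγ hh s1 s2 h3 (fun g hg => ?_) hx⟩
  obtain ⟨a, ha, q⟩ : ∃ a ∈ H, a * g ^ m * a⁻¹ =
      GeneralLinearGroup.map (iterateFrobeniusEquiv K p e : K →+* K) g := by
    rcases hH with rfl | hH
    · exact (isConj_iff.1 (cnj_gl h2 h1 _ (fun _ => rfl) g)).imp fun _ w => ⟨trivial, w⟩
    · exact (cnj_b h2 h1 _ (fun _ => rfl) g ((hH g).1 hg)).imp fun a w => ⟨(hH a).2 w.1, w.2⟩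
  exact ⟨a, ha, b, hb, by rw [q, k g hg]⟩

open Matrix in
/-- a field automorphism acts on `GL 2`. -/
def galM {K : Type} [Field K] (τ : RingAut K) : MulAut (GL (Fin 2) K) :=
  MonoidHom.toMulEquiv (GeneralLinearGroup.map (τ : K →+* K))
    (GeneralLinearGroup.map (τ.symm : K →+* K)) (by ext; simp) (by ext; simp)

open Matrix in
/-- every member of `Δ` acts on the blocks of `GL 2` and of `B` as a linear member with `b = 1`. -/
theorem gal_delta {p : ℕ} [Fact p.Prime] (j : NSV.Qbar →+* F)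
    (hj : ∀ σ ∈ GG, ∃ s ∈ NSV.H p, ∀ x, σ (j x) = j (s x)) (hσ : σ ∈ GG) {K : Type} [Field K]
    [Finite K] [CharP K p] {B : Subgroup (GL (Fin 2) K)} (hB : ∀ g, g ∈ B ↔ g.1 1 0 = 0)
    {γ : RingAut (MonoidAlgebra F (GL (Fin 2) K))} (hγ : SL F σ γ) (ζ : Kˣ →* Fˣ) (τ : RingAut K)
    {b : GL (Fin 2) K} (hb : b ∈ B) (k : ∀ g, γ (gu F _ g) = (ζ (GeneralLinearGroup.det g) : F) •
      gu F _ (b * GeneralLinearGroup.map (τ : K →+* K) g * b⁻¹)) :
    ∃ (ζ' : Kˣ →* Fˣ) (τ' : RingAut K) (h : RingAut (MonoidAlgebra F (GL (Fin 2) K))),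
      Lin F h ∧ (∀ g, h (gu F _ g) = (ζ' (GeneralLinearGroup.det g) : F) •
        gu F _ (GeneralLinearGroup.map (τ' : K →+* K) g)) ∧
      (∀ x ∈ Irr F (Hm F (gu F _) ⊤), γ x = h x) ∧ ∀ x ∈ Irr F (Hm F (gu F _) B), γ x = h x := by
  obtain ⟨φ, hφ⟩ := gal_gl j hj hσ K
  let ζ' := ζ.comp (Units.map (φ.symm : K →* K))
  obtain ⟨h, h1, h2⟩ := gal_aut 1 (ζ'.comp GeneralLinearGroup.det) (galM (τ * φ⁻¹))
  have m (t : RingAut K) (g) : galM t g ∈ B ↔ g ∈ B := by simp [hB, galM]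
  have k' : ∀ g, γ (gu F _ g) = _ • gu F _ ((MulAut.conj b * galM τ) g) := k
  have q (g) : γ (gu F _ g) =
      gu F _ b * h (gu F _ (GeneralLinearGroup.map (φ : K →+* K) g)) * gu F _ b⁻¹ := by
    have q1 : Units.map (φ.symm : K →* K) (GeneralLinearGroup.det
        (GeneralLinearGroup.map (φ : K →+* K) g)) = GeneralLinearGroup.det g := by
      rw [GeneralLinearGroup.map_det]
      exact Units.ext (φ.symm_apply_apply _)
    have q2 : galM (τ * φ⁻¹) (GeneralLinearGroup.map (φ : K →+* K) g) =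
        GeneralLinearGroup.map (τ : K →+* K) g := by
      ext a c
      exact congrArg τ (φ.symm_apply_apply _)
    rw [k, h2, mul_smul_comm, smul_mul_assoc, gu_mul, gu_mul, q2, ← q1]
    rfl
  exact ⟨ζ', τ * φ⁻¹, h, h1, h2,
    hφ ⊤ (.inl rfl) γ h hγ h1 (gal_stb hγ k' fun _ => Iff.rfl) (gal_stb h1 h2 fun _ => Iff.rfl) b
      trivial fun g _ => q g,
    hφ B (.inr hB) γ h hγ h1 (gal_stb hγ k' fun g => by
      rw [← m τ g, MulAut.mul_apply, MulAut.conj_apply, B.mul_mem_cancel_right (B.inv_mem hb),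
        B.mul_mem_cancel_left hb]) (gal_stb h1 h2 (m _)) b hb fun g _ => q g⟩

end Pool.Agent.Lib.MP_1ae3da_al.CT
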