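import Pool.Agent.Lib.MP_1ae3da_al.S.BlkA
import Pool.Agent.Lib.MP_1ae3da_al.S.Gal

/-! The subgroups of `GL2(K)` and the group of automorphisms of its group algebra. -/

namespace Pool.Agent.Lib.MP_1ae3da_al.CT

open Submodule Matrix

section grp
variable (K : Type) [Field K]

/-- upper triangular matrices -/
def dBt : Subgroup (GL (Fin 2) K) where
  carrier := {g | g.1 1 0 = 0}
  one_mem' := by simp
  mul_mem' := fun {a b} ha hb => by
    simp only [Set.mem_ofPred_eq] at ha hb ⊢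
    simp [mul_apply, Fin.sum_univ_two, ha, hb]
  inv_mem' := fun {a} ha => by
    simp only [Set.mem_ofPred_eq] at ha ⊢
    simp [inv_def, adjugate_fin_two, ha]

/-- diagonal matrices -/
def dT : Subgroup (GL (Fin 2) K) where
  carrier := {g | BDia g}
  one_mem' := by simp [BDia]
  mul_mem' := fun {a b} ha hb => by
    simp [BDia, mul_apply, Fin.sum_univ_two, ha.1, ha.2, hb.1, hb.2]
  inv_mem' := fun {a} ha => by simp [BDia, inv_def, adjugate_fin_two, ha.1, ha.2]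

/-- determinant one -/
def dY : Subgroup (GL (Fin 2) K) := ⊤ ⊓ (GeneralLinearGroup.det : GL (Fin 2) K →* Kˣ).ker

/-- upper triangular of determinant one -/
def dB : Subgroup (GL (Fin 2) K) := dBt K ⊓ (GeneralLinearGroup.det : GL (Fin 2) K →* Kˣ).ker

variable {K}

theorem mem_dBt {g : GL (Fin 2) K} : g ∈ dBt K ↔ g.1 1 0 = 0 := Iff.rfl

theorem mem_dT {g : GL (Fin 2) K} : g ∈ dT K ↔ BDia g := Iff.rfl

theorem mem_dY' {g : GL (Fin 2) K} : g ∈ dY K ↔ GeneralLinearGroup.det g = 1 :=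
  ⟨fun h => h.2, fun h => ⟨trivial, h⟩⟩

theorem mem_dY {g : GL (Fin 2) K} : g ∈ dY K ↔ g.1.det = 1 :=
  mem_dY'.trans ⟨fun h => congrArg Units.val h, fun h => Units.ext h⟩

theorem mem_dB {g : GL (Fin 2) K} : g ∈ dB K ↔ g.1.det = 1 ∧ g.1 1 0 = 0 :=
  ⟨fun h => ⟨mem_dY.1 ⟨trivial, h.2⟩, h.1⟩, fun h => ⟨h.2, (mem_dY.2 h.1).2⟩⟩

theorem dB_le_dY : dB K ≤ dY K := fun _ h => ⟨trivial, h.2⟩

theorem dB_le_dBt : dB K ≤ dBt K := inf_le_left

theorem bx_dB (s : K) : bx s ∈ dB K := mem_dB.2 ⟨by simp [bx_val], by simp [bx_val]⟩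

theorem bd_dia (a b : Kˣ) : BDia (bd a b) := ⟨rfl, rfl⟩

theorem bd_dBt (a b : Kˣ) : bd a b ∈ dBt K := rfl

theorem bd_det (a b : Kˣ) : GeneralLinearGroup.det (bd a b) = a * b :=
  Units.ext (by simp [bd_val])

theorem galM_det (τ : RingAut K) (g : GL (Fin 2) K) :
    GeneralLinearGroup.det (GeneralLinearGroup.map (τ : K →+* K) g) =
      Units.map (τ : K →* K) (GeneralLinearGroup.det g) :=
  Units.ext ((τ : K →+* K).map_det g.1).symm

theorem del_det (τ : RingAut K) (b g : GL (Fin 2) K) :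
    GeneralLinearGroup.det (b * GeneralLinearGroup.map (τ : K →+* K) g * b⁻¹) =
      Units.map (τ : K →* K) (GeneralLinearGroup.det g) := by
  rw [map_mul, map_mul, map_inv, mul_inv_cancel_comm, galM_det]

end grp

variable {F K : Type} [Field F] [Field K]

/-- the data of an element of `DelG` -/
def DelD (σ : RingAut F) (ζ : Kˣ →* Fˣ) (τ : RingAut K) (b : GL (Fin 2) K)
    (γ : RingAut (MonoidAlgebra F (GL (Fin 2) K))) : Prop :=
  SL F σ γ ∧ ∀ g, γ (gu F _ g) = (ζ (GeneralLinearGroup.det g) : F) •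
    gu F _ (b * GeneralLinearGroup.map (τ : K →+* K) g * b⁻¹)

variable {σ σ' : RingAut F} {ζ ζ' : Kˣ →* Fˣ} {τ τ' : RingAut K} {b b' : GL (Fin 2) K}
  {γ γ' : RingAut (MonoidAlgebra F (GL (Fin 2) K))}

theorem DelD.one : DelD 1 1 1 (1 : GL (Fin 2) K) (1 : RingAut (MonoidAlgebra F _)) :=
  ⟨fun _ _ => rfl, fun g => by
    rw [one_mul, inv_one, mul_one, MonoidHom.one_apply, Units.val_one, one_smul]; rfl⟩

theorem DelD.mul (h : DelD σ ζ τ b γ) (h' : DelD σ' ζ' τ' b' γ') :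
    DelD (σ * σ') ((Units.map (σ : F →* F)).comp ζ' * ζ.comp (Units.map (τ' : K →* K))) (τ * τ')
      (b * GeneralLinearGroup.map (τ : K →+* K) b') (γ * γ') := by
  refine ⟨h.1.mul h'.1, fun g => ?_⟩
  change γ (γ' _) = _
  rw [h'.2, h.1, h.2, smul_smul, del_det, map_mul (GeneralLinearGroup.map _),
    map_mul (GeneralLinearGroup.map _), map_inv (GeneralLinearGroup.map _), _root_.mul_inv_rev]
  simp only [mul_assoc]
  rfl

theorem DelD.inv (h : DelD σ ζ τ b γ) :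
    DelD σ⁻¹ ((Units.map (σ⁻¹ : RingAut F).toMonoidHom).comp
      (ζ.comp (Units.map (τ⁻¹ : RingAut K).toMonoidHom)))⁻¹ τ⁻¹
      (GeneralLinearGroup.map ((τ⁻¹ : RingAut K) : K →+* K) b⁻¹) γ⁻¹ := by
  refine ⟨h.1.inv, fun g => γ.injective ?_⟩
  have k (x : GL (Fin 2) K) : GeneralLinearGroup.map (τ : K →+* K)
      (GeneralLinearGroup.map ((τ⁻¹ : RingAut K) : K →+* K) x) = x := by
    ext i j
    exact τ.apply_symm_apply _
  rw [tc_ai, h.1, h.2, smul_smul, del_det, map_mul (GeneralLinearGroup.map (τ : K →+* K)),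
    map_mul (GeneralLinearGroup.map (τ : K →+* K)),
    map_inv (GeneralLinearGroup.map (τ : K →+* K)), k, k]
  have e : σ (((Units.map (σ⁻¹ : RingAut F).toMonoidHom).comp
      (ζ.comp (Units.map (τ⁻¹ : RingAut K).toMonoidHom)))⁻¹ (GeneralLinearGroup.det g) : Fˣ) *
      (ζ (Units.map ((τ⁻¹ : RingAut K) : K →* K) (GeneralLinearGroup.det g)) : F) = 1 := by
    rw [MonoidHom.inv_apply, Units.val_inv_eq_inv_val, map_inv₀]
    exact (congrArg (·⁻¹ * _) (σ.apply_symm_apply _)).trans (inv_mul_cancel₀ (Units.ne_zero _))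
  rw [e, one_smul]
  congr 1
  group

variable (K) in
/-- the group of automorphisms -/
def DelG (GG : Subgroup (RingAut F)) : Subgroup (RingAut (MonoidAlgebra F (GL (Fin 2) K))) where
  carrier := {γ | ∃ σ ∈ GG, ∃ ζ τ, ∃ b ∈ dBt K, DelD σ ζ τ b γ}
  one_mem' := ⟨1, one_mem _, 1, 1, 1, one_mem _, DelD.one⟩
  mul_mem' := fun ⟨_, a1, _, τ, _, a2, a3⟩ ⟨_, b1, _, _, _, b2, b3⟩ =>
    ⟨_, mul_mem a1 b1, _, _, _, mul_mem a2 (show τ _ = 0 by rw [mem_dBt.1 b2, map_zero]), a3.mul b3⟩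
  inv_mem' := fun ⟨_, a1, _, τ, _, a2, a3⟩ => ⟨_, inv_mem a1, _, _, _,
    (show τ⁻¹ _ = 0 by rw [mem_dBt.1 (inv_mem a2), map_zero]), a3.inv⟩

variable (F K) in
/-- the linear ones without inner part -/
def DelH : Subgroup (RingAut (MonoidAlgebra F (GL (Fin 2) K))) where
  carrier := {γ | ∃ ζ τ, DelD 1 ζ τ 1 γ}
  one_mem' := ⟨1, 1, DelD.one⟩
  mul_mem' := fun ⟨_, _, a⟩ ⟨_, _, b⟩ => ⟨_, _, by simpa only [mul_one, map_one] using a.mul b⟩
  inv_mem' := fun ⟨_, _, a⟩ => ⟨_, _, by simpa only [inv_one, map_one] using a.inv⟩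

variable {GG : Subgroup (RingAut F)}

theorem DelH_le : DelH F K ≤ DelG K GG := fun _ ⟨ζ, τ, h⟩ => ⟨1, one_mem _, ζ, τ, 1, one_mem _, h⟩

/-- a non-trivial additive character, fixed by the field automorphisms -/
structure Wh (lam : AddChar K F) : Prop where
  ne : lam ≠ 1
  aut : ∀ (τ : RingAut K) s, lam (τ s) = lam s
  gal : ∀ σ : RingAut F, ∃ c : K, c ≠ 0 ∧ ∀ s, σ (lam s) = lam (c * s)

/-- the eigenvalue of the scalar matrix `a` on `x` -/
noncomputable def om (x : MonoidAlgebra F (GL (Fin 2) K)) (a : Kˣ) : F :=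
  Classical.epsilon fun c => gu F _ (bd a a) * x = c • x

/-- the number of points of `X` fixed by `h` with central character `w` -/
noncomputable def Nf (X : Set (MonoidAlgebra F (GL (Fin 2) K)))
    (h : RingAut (MonoidAlgebra F (GL (Fin 2) K))) (w : Kˣ → F) : ℕ :=
  {x | x ∈ X ∧ h x = x ∧ om x = w}.ncard

section sets
variable [Fintype K] (lam : AddChar K F)

/-- blocks of `SL(2)` of half degree -/
def XA : Set (MonoidAlgebra F (GL (Fin 2) K)) :=
  {e | e ∈ Irr F (HX F (dY K)) ∧ (∃ k, k ≠ 0 ∧ bE lam k * e ≠ 0) ∧ ∃ l, l ≠ 0 ∧ bE lam l * e = 0}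

/-- blocks of `SL(2)` of degree `q ± 1` -/
def XB : Set (MonoidAlgebra F (GL (Fin 2) K)) :=
  {e | e ∈ Irr F (HX F (dY K)) ∧ (∀ k, k ≠ 0 → bE lam k * e ≠ 0) ∧ e0 F (dB K) * e = 0}

/-- non-linear blocks of the Borel subgroup -/
def YA : Set (MonoidAlgebra F (GL (Fin 2) K)) :=
  {e | e ∈ Irr F (HX F (dB K)) ∧ bE lam 0 * e = 0}

/-- non-trivial linear blocks of the Borel subgroup -/
def YB : Set (MonoidAlgebra F (GL (Fin 2) K)) := {e | BLin lam (dB K) e ∧ e ≠ e0 F (dB K)}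

/-- non-linear blocks of `GL(2)` -/
def X1 : Set (MonoidAlgebra F (GL (Fin 2) K)) := {x | x ∈ Irr F (HX F ⊤) ∧ bE lam 1 * x ≠ 0}

/-- those above a block of half degree -/
def X1A : Set (MonoidAlgebra F (GL (Fin 2) K)) :=
  {x | x ∈ Irr F (HX F ⊤) ∧ ∃ e ∈ XA lam, e * x ≠ 0}

/-- those above the Steinberg block -/
def X1S : Set (MonoidAlgebra F (GL (Fin 2) K)) := {x | x ∈ X1 lam ∧ e0 F (dB K) * x ≠ 0}

/-- those above a block of degree `q ± 1` -/
def X1P : Set (MonoidAlgebra F (GL (Fin 2) K)) :=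
  {x | x ∈ Irr F (HX F ⊤) ∧ ∃ e ∈ XB lam, e * x = x}

/-- linear blocks of the upper triangular group -/
def X2 : Set (MonoidAlgebra F (GL (Fin 2) K)) := {y | BLin lam (dBt K) y}

/-- those trivial on determinant one -/
def X2S : Set (MonoidAlgebra F (GL (Fin 2) K)) := {y | y ∈ X2 lam ∧ e0 F (dB K) * y ≠ 0}

/-- the other ones -/
def X2P : Set (MonoidAlgebra F (GL (Fin 2) K)) := {y | y ∈ X2 lam ∧ e0 F (dB K) * y = 0}

/-- non-linear blocks of the upper triangular group -/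
def X3 : Set (MonoidAlgebra F (GL (Fin 2) K)) :=
  {y | y ∈ Irr F (HX F (dBt K)) ∧ bE lam 1 * y ≠ 0}

end sets

end Pool.Agent.Lib.MP_1ae3da_al.CT
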