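import Pool.Agent.Lib.MP_1ae3da_al.C.Defs

/-! Two general lemmas: equal traces on two bases, and finite sets with a group action that have
the same numbers of fixed points. -/

namespace Pool.Agent.Lib.MP_1ae3da_al.CT

open Submodule

section trace
variable {F A I J : Type} [Field F] [AddCommGroup A] [Module F A] [Fintype I] [Fintype J]

theorem g1_tr {y : I → A} (hy : LinearIndependent F y) {V : Submodule F A}
    (hV : span F (Set.range y) = V) (f : A →ₗ[F] A) (hf : ∀ v ∈ V, f v ∈ V) (a : I → I → F)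
    (ha : ∀ i, f (y i) = ∑ k, a k i • y k) :
    LinearMap.trace F V (f.restrict hf) = ∑ i, a i i := by
  classical
  subst hV
  rw [LinearMap.trace_eq_matrix_trace F (Module.Basis.span hy), Matrix.trace]
  refine Finset.sum_congr rfl fun i _ => ?_
  rw [Matrix.diag_apply, LinearMap.toMatrix_apply]
  have : f.restrict hf (Module.Basis.span hy i) = ∑ k, a k i • Module.Basis.span hy k := by
    apply Subtype.ext
    simp [LinearMap.restrict_apply, Module.Basis.span_apply, ha]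
  rw [this, Module.Basis.repr_sum_self]

/-- TRACE -/
theorem trace_eq {y : I → A} {z : J → A} (hy : LinearIndependent F y)
    (hz : LinearIndependent F z) (h : span F (Set.range y) = span F (Set.range z))
    (f : A →ₗ[F] A) (a : I → I → F) (b : J → J → F) (ha : ∀ i, f (y i) = ∑ k, a k i • y k)
    (hb : ∀ j, f (z j) = ∑ k, b k j • z k) : ∑ i, a i i = ∑ j, b j j := by
  have hf : ∀ v ∈ span F (Set.range y), f v ∈ span F (Set.range y) := by
    intro v hv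
    refine (span_le (p := (span F (Set.range y)).comap f)).2 ?_ hv
    rintro _ ⟨i, rfl⟩
    change f (y i) ∈ span F (Set.range y)
    rw [ha]
    exact sum_mem fun k _ => smul_mem _ _ (subset_span ⟨k, rfl⟩)
  rw [← g1_tr hy rfl f hf a ha, ← g1_tr hz h.symm f hf b hb]

open Classical in
/-- TRACE for monomial maps. -/
theorem trace_perm {y : I → A} {z : J → A} (hy : LinearIndependent F y)
    (hz : LinearIndependent F z) (h : span F (Set.range y) = span F (Set.range z))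
    (f : A →ₗ[F] A) (σ : I → I) (τ : J → J) (c : I → F) (d : J → F)
    (ha : ∀ i, f (y i) = c i • y (σ i)) (hb : ∀ j, f (z j) = d j • z (τ j)) :
    ∑ i with σ i = i, c i = ∑ j with τ j = j, d j := by
  have := trace_eq hy hz h f (fun k i => if σ i = k then c i else 0)
    (fun k j => if τ j = k then d j else 0) (fun i => by simp [ha, ite_smul])
    (fun j => by simp [hb, ite_smul])
  rwa [← Finset.sum_filter, ← Finset.sum_filter] at this

end trace

section gset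
variable {H α W : Type} [Group H] [MulAction H α]

/-- the hypotheses of GSET -/
structure GS (H : Type) {α W : Type} [Group H] [MulAction H α] (w : α → W) (X Y : Set α) :
    Prop where
  fX : X.Finite
  fY : Y.Finite
  iX : ∀ g : H, ∀ x ∈ X, g • x ∈ X
  iY : ∀ g : H, ∀ y ∈ Y, g • y ∈ Y
  lab : ∀ g : H, ∀ x ∈ X, ∀ y ∈ Y, w x = w y → w (g • x) = w (g • y)
  cyc : ∀ x ∈ X ∪ Y, ∃ h : H, h • x = x ∧
    ∀ y ∈ X ∪ Y, h • y = y → ∀ k : H, k • x = x → k • y = y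
  cnt : ∀ (h : H) (ω : W), {x ∈ X | h • x = x ∧ w x = ω}.ncard =
    {y ∈ Y | h • y = y ∧ w y = ω}.ncard

variable {w : α → W} {X Y : Set α}

theorem GS.symm (h : GS H w X Y) : GS H w Y X :=
  ⟨h.fY, h.fX, h.iY, h.iX, fun g y hy x hx e => (h.lab g x hx y hy e.symm).symm,
    by rw [Set.union_comm]; exact h.cyc, fun k ω => (h.cnt k ω).symm⟩

theorem GS.partner (h : GS H w X Y) {x : α} (hx : x ∈ X)
    (hm : ∀ y ∈ X ∪ Y, MulAction.stabilizer H x ≤ MulAction.stabilizer H y →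
      MulAction.stabilizer H y ≤ MulAction.stabilizer H x) :
    ∃ y ∈ Y, w x = w y ∧ ∀ k : H, k • x = x ↔ k • y = y := by
  obtain ⟨k, hk, hk'⟩ := h.cyc x (Or.inl hx)
  have h1 : {y ∈ Y | k • y = y ∧ w y = w x}.Nonempty := by
    apply Set.nonempty_of_ncard_ne_zero
    rw [← h.cnt k (w x)]
    exact Set.ncard_ne_zero_of_mem (a := x) ⟨hx, hk, rfl⟩ (h.fX.subset fun _ q => q.1)
  obtain ⟨y, hy, hky, e⟩ := h1
  have le : MulAction.stabilizer H x ≤ MulAction.stabilizer H y :=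
    fun g hg => hk' y (Or.inr hy) hky g hg
  exact ⟨y, hy, e.symm, fun g => ⟨fun q => le q, fun q => hm y (Or.inr hy) le q⟩⟩

theorem GS.pair (h : GS H w X Y) (hne : (X ∪ Y).Nonempty) :
    ∃ x ∈ X, ∃ y ∈ Y, w x = w y ∧ ∀ k : H, k • x = x ↔ k • y = y := by
  obtain ⟨x, hx⟩ := (h.fX.union h.fY).exists_maximalFor (MulAction.stabilizer H) _ hne
  rcases hx.1 with q | q
  · obtain ⟨y, hy, e⟩ := h.partner q fun y hy l => hx.2 hy l
    exact ⟨x, q, y, hy, e⟩
  · obtain ⟨y, hy, e, e'⟩ := h.symm.partner q fun y hy l => hx.2 (hy.symm) l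
    exact ⟨y, hy, x, q, e.symm, fun k => (e' k).symm⟩

theorem g1_orb {x y : α} (hs : ∀ k : H, k • x = x ↔ k • y = y) :
    ∃ Ω : α → α, ∀ g : H, Ω (g • x) = g • y := by
  classical
  refine ⟨fun a => if q : ∃ g : H, g • x = a then q.choose • y else a, fun g => ?_⟩
  have q : ∃ g' : H, g' • x = g • x := ⟨g, rfl⟩
  simp only [dif_pos q]
  have := (hs (g⁻¹ * q.choose)).1 (by rw [mul_smul, q.choose_spec, inv_smul_smul])
  rwa [mul_smul, inv_smul_eq_iff] at this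

theorem g1_fix {x y : α} (hs : ∀ k : H, k • x = x ↔ k • y = y) (k g g' : H) :
    k • g • x = g' • x ↔ k • g • y = g' • y := by
  have := hs (g'⁻¹ * (k * g))
  rwa [mul_smul, mul_smul, inv_smul_eq_iff, mul_smul, mul_smul, inv_smul_eq_iff] at this

theorem GS.rest (h : GS H w X Y) {x y : α} (hx : x ∈ X) (hy : y ∈ Y) (e : w x = w y)
    (hs : ∀ k : H, k • x = x ↔ k • y = y) :
    GS H w (X \ MulAction.orbit H x) (Y \ MulAction.orbit H y) := by
  have sub : X \ MulAction.orbit H x ∪ Y \ MulAction.orbit H y ⊆ X ∪ Y :=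
    Set.union_subset_union Set.sdiff_subset Set.sdiff_subset
  have inv (a b : α) (g : H) (q : b ∉ MulAction.orbit H a) : g • b ∉ MulAction.orbit H a :=
    fun ⟨k, hk⟩ => q ⟨g⁻¹ * k, by
      change (g⁻¹ * k) • a = b
      rw [mul_smul, show k • a = g • b from hk, inv_smul_smul]⟩
  refine ⟨h.fX.sdiff, h.fY.sdiff, fun g a ha => ⟨h.iX g a ha.1, inv _ _ g ha.2⟩,
    fun g a ha => ⟨h.iY g a ha.1, inv _ _ g ha.2⟩, fun g a ha b hb => h.lab g a ha.1 b hb.1,
    fun a ha => ?_, fun k ω => ?_⟩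
  · obtain ⟨k, hk, hk'⟩ := h.cyc a (sub ha)
    exact ⟨k, hk, fun b hb => hk' b (sub hb)⟩
  obtain ⟨Ω, hΩ⟩ := g1_orb hs
  have split (Z : Set α) (fZ : Z.Finite) (z : α) (hz : MulAction.orbit H z ⊆ Z) :
      {a ∈ Z \ MulAction.orbit H z | k • a = a ∧ w a = ω}.ncard +
        {a ∈ MulAction.orbit H z | k • a = a ∧ w a = ω}.ncard =
          {a ∈ Z | k • a = a ∧ w a = ω}.ncard := by
    rw [← Set.ncard_union_eq (Set.disjoint_left.2 fun a p q => p.1.2 q.1)
      (fZ.subset fun _ q => q.1.1) (fZ.subset fun _ q => hz q.1)]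
    congr 1
    ext a
    constructor
    · rintro (q | q)
      · exact ⟨q.1.1, q.2⟩
      · exact ⟨hz q.1, q.2⟩
    · intro q
      by_cases o : a ∈ MulAction.orbit H z
      · exact Or.inr ⟨o, q.2⟩
      · exact Or.inl ⟨⟨q.1, o⟩, q.2⟩
  have s1 := split X h.fX x (by rintro _ ⟨g, rfl⟩; exact h.iX g x hx)
  have s2 := split Y h.fY y (by rintro _ ⟨g, rfl⟩; exact h.iY g y hy)
  have s3 : {a ∈ MulAction.orbit H x | k • a = a ∧ w a = ω}.ncard =
      {a ∈ MulAction.orbit H y | k • a = a ∧ w a = ω}.ncard := by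
    refine Set.ncard_congr (fun a _ => Ω a) ?_ ?_ ?_
    · rintro _ ⟨⟨g, rfl⟩, p, q⟩
      change Ω (g • x) ∈ _
      rw [hΩ]
      exact ⟨⟨g, rfl⟩, (g1_fix hs k g g).1 p, (h.lab g x hx y hy e).symm.trans q⟩
    · rintro _ _ ⟨⟨g, rfl⟩, -⟩ ⟨⟨g', rfl⟩, -⟩ q
      change Ω (g • x) = Ω (g' • x) at q
      rw [hΩ, hΩ] at q
      have := (g1_fix hs 1 g g').2 (by rwa [one_smul])
      rwa [one_smul] at this
    · rintro _ ⟨⟨g, rfl⟩, p, q⟩
      exact ⟨g • x, ⟨⟨g, rfl⟩, (g1_fix hs k g g).2 p, (h.lab g x hx y hy e).trans q⟩, hΩ g⟩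
  have := h.cnt k ω
  omega

/-- GSET -/
theorem GS.bij (h : GS H w X Y) : ∃ Ω : α → α, Set.BijOn Ω X Y ∧
    (∀ g : H, ∀ x ∈ X, Ω (g • x) = g • Ω x) ∧ ∀ x ∈ X, w (Ω x) = w x := by
  classical
  induction hn : X.ncard using Nat.strong_induction_on generalizing X Y with
  | _ n ih =>
  by_cases hne : (X ∪ Y).Nonempty
  swap
  · rw [Set.not_nonempty_iff_eq_empty, Set.union_empty_iff] at hne
    obtain ⟨rfl, rfl⟩ := hne
    exact ⟨id, Set.bijOn_empty _, by simp, by simp⟩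
  obtain ⟨x, hx, y, hy, e, hs⟩ := h.pair hne
  have hr := h.rest hx hy e hs
  have lt : (X \ MulAction.orbit H x).ncard < n := by
    rw [← hn]
    exact Set.ncard_lt_ncard ⟨Set.sdiff_subset, fun q => (q hx).2 (MulAction.mem_orbit_self x)⟩ h.fX
  obtain ⟨Θ, b, eq, lb⟩ := ih _ lt hr rfl
  obtain ⟨Ω, hΩ⟩ := g1_orb hs
  let Φ : α → α := fun a => if a ∈ MulAction.orbit H x then Ω a else Θ a
  have p1 (g : H) : Φ (g • x) = g • y := by
    simp only [Φ, if_pos (MulAction.mem_orbit x g), hΩ]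
  have p2 {a : α} (o : a ∉ MulAction.orbit H x) : Φ a = Θ a := if_neg o
  refine ⟨Φ, ⟨fun a ha => ?_, fun a ha a' ha' q => ?_, fun c hc => ?_⟩, fun g a ha => ?_,
    fun a ha => ?_⟩
  · by_cases o : a ∈ MulAction.orbit H x
    · obtain ⟨g, rfl⟩ := o
      exact (p1 g).symm ▸ h.iY g y hy
    · rw [p2 o]
      exact (b.mapsTo ⟨ha, o⟩).1
  · by_cases o : a ∈ MulAction.orbit H x <;> by_cases o' : a' ∈ MulAction.orbit H x
    · obtain ⟨g, rfl⟩ := o
      obtain ⟨g', rfl⟩ := o'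
      change Φ (g • x) = Φ (g' • x) at q
      rw [p1, p1] at q
      have := (g1_fix hs 1 g g').2 (by rwa [one_smul])
      rwa [one_smul] at this
    · obtain ⟨g, rfl⟩ := o
      change Φ (g • x) = Φ a' at q
      rw [p1, p2 o'] at q
      exact absurd ⟨g, q⟩ (b.mapsTo ⟨ha', o'⟩).2
    · obtain ⟨g, rfl⟩ := o'
      change Φ a = Φ (g • x) at q
      rw [p1, p2 o] at q
      exact absurd ⟨g, q.symm⟩ (b.mapsTo ⟨ha, o⟩).2
    · rw [p2 o, p2 o'] at q
      exact b.injOn ⟨ha, o⟩ ⟨ha', o'⟩ q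
  · by_cases o : c ∈ MulAction.orbit H y
    · obtain ⟨g, rfl⟩ := o
      exact ⟨g • x, h.iX g x hx, p1 g⟩
    · obtain ⟨a, ha, rfl⟩ := b.surjOn ⟨hc, o⟩
      exact ⟨a, ha.1, p2 ha.2⟩
  · by_cases o : a ∈ MulAction.orbit H x
    · obtain ⟨k, rfl⟩ := o
      change Φ (g • k • x) = g • Φ (k • x)
      rw [← mul_smul, p1, p1, mul_smul]
    · rw [p2 o, p2 (hr.iX g a ⟨ha, o⟩).2, eq g a ⟨ha, o⟩]
  · by_cases o : a ∈ MulAction.orbit H x
    · obtain ⟨k, rfl⟩ := o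
      change w (Φ (k • x)) = w (k • x)
      rw [p1, h.lab k x hx y hy e]
    · rw [p2 o, lb a ⟨ha, o⟩]

end gset

/-- GSET for groups of ring automorphisms. -/
theorem gset {A W : Type} [Ring A] (H : Subgroup (RingAut A)) (w : A → W) {X Y : Set A}
    (fX : X.Finite) (fY : Y.Finite) (iX : ∀ g ∈ H, ∀ x ∈ X, g x ∈ X)
    (iY : ∀ g ∈ H, ∀ y ∈ Y, g y ∈ Y)
    (lab : ∀ g ∈ H, ∀ x ∈ X, ∀ y ∈ Y, w x = w y → w (g x) = w (g y))
    (cyc : ∀ x ∈ X ∪ Y, ∃ h ∈ H, h x = x ∧ ∀ k ∈ H, k x = x → k ∈ Subgroup.zpowers h)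
    (cnt : ∀ h ∈ H, ∀ ω : W, {x ∈ X | h x = x ∧ w x = ω}.ncard =
      {y ∈ Y | h y = y ∧ w y = ω}.ncard) :
    ∃ Ω, EqB H X Y Ω ∧ ∀ x ∈ X, w (Ω x) = w x := by
  have h : GS H w X Y := by
    refine ⟨fX, fY, fun g => iX g.1 g.2, fun g => iY g.1 g.2, fun g => lab g.1 g.2,
      fun x hx => ?_, fun g => cnt g.1 g.2⟩
    obtain ⟨h, hH, hx', hk⟩ := cyc x hx
    refine ⟨⟨h, hH⟩, hx', fun y _ hy k q => ?_⟩
    exact (Subgroup.zpowers_le (H := Fx y)).2 hy (hk k.1 k.2 q)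
  obtain ⟨Ω, b, e, l⟩ := h.bij
  exact ⟨Ω, ⟨b, fun g hg x hx => ⟨iX g hg x hx, e ⟨g, hg⟩ x hx⟩⟩, l⟩

end Pool.Agent.Lib.MP_1ae3da_al.CT
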