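import Pool.Agent.Lib.MP_1ae3da_al.S.BlkA
import Pool.Agent.Lib.MP_1ae3da_al.S.Gal
import Pool.Agent.Lib.MP_1ae3da_al.C.ALf2

/-! The blocks of `GL(2, K)` over a block of half degree, and the non-linear blocks of the upper
triangular group, are given by their central character. -/

namespace Pool.Agent.Lib.MP_1ae3da_al.CT

open Submodule Matrix

/-- a one-one relation kept by `h` matches the fixed points -/
theorem cnt_rel {α W : Type} (cc : α → W) {X Y : Set α} (R : α → α → Prop) (h : α → α)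
    (h1 : ∀ x ∈ X, ∃ y ∈ Y, R x y) (h2 : ∀ y ∈ Y, ∃ x ∈ X, R x y)
    (u1 : ∀ x ∈ X, ∀ y ∈ Y, ∀ y' ∈ Y, R x y → R x y' → y = y')
    (u2 : ∀ x ∈ X, ∀ x' ∈ X, ∀ y ∈ Y, R x y → R x' y → x = x')
    (iX : ∀ x ∈ X, h x ∈ X) (iY : ∀ y ∈ Y, h y ∈ Y)
    (iR : ∀ x ∈ X, ∀ y ∈ Y, R x y → R (h x) (h y)) (hc : ∀ x ∈ X, ∀ y ∈ Y, R x y → cc x = cc y)
    (w : W) :
    {x ∈ X | h x = x ∧ cc x = w}.ncard = {y ∈ Y | h y = y ∧ cc y = w}.ncard := by
  choose! f f1 f2 using h1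
  refine Set.ncard_congr (fun x _ => f x) ?_ ?_ ?_
  · rintro x ⟨hx, e, c⟩
    have := iR x hx _ (f1 x hx) (f2 x hx)
    rw [e] at this
    exact ⟨f1 x hx, u1 x hx _ (iY _ (f1 x hx)) _ (f1 x hx) this (f2 x hx),
      (hc x hx _ (f1 x hx) (f2 x hx)).symm.trans c⟩
  · intro x x' hx hx' e
    exact u2 x hx.1 x' hx'.1 _ (f1 x hx.1) (f2 x hx.1) (e ▸ f2 x' hx'.1)
  · rintro y ⟨hy, e, c⟩
    obtain ⟨x, hx, r⟩ := h2 y hy
    have := iR x hx y hy r
    rw [e] at this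
    exact ⟨x, ⟨hx, u2 _ (iX x hx) x hx y hy this r, (hc x hx y hy r).trans c⟩,
      u1 x hx _ (f1 x hx) y hy (f2 x hx) r⟩

section grp
variable {K : Type} [Field K]

theorem ha_z (a : Kˣ) (g : GL (Fin 2) K) : bd a a * g = g * bd a a := by
  ext i j
  fin_cases i <;> fin_cases j <;> simp [bd_val, mul_apply, Fin.sum_univ_two, mul_comm]

theorem ha_mul (a b c d : Kˣ) : bd a b * bd c d = bd (a * c) (b * d) :=
  Units.ext (by simp [bd_val])

theorem ha_one : bd (1 : Kˣ) 1 = 1 := Units.ext (by simp [bd_val, one_fin_two])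

theorem ha_neg : bd (-1 : Kˣ) (-1) = -1 := by
  ext i j
  fin_cases i <;> fin_cases j <;> simp [bd_val]

theorem ha_det (a b : Kˣ) : GeneralLinearGroup.det (bd a b) = a * b :=
  Units.ext (by simp [bd_val])

theorem ha_sc {r : GL (Fin 2) K} (h : BDia r) (e : r.1 0 0 = r.1 1 1) : ∃ a, r = bd a a := by
  refine ⟨Units.mk0 _ (bru_tri h.2).1, ?_⟩
  ext i j
  fin_cases i <;> fin_cases j <;> simp [bd_val, h.1, h.2, e]

theorem ha_sq [Finite K] {a b : K} (ha : ¬ IsSquare a) (hb : ¬ IsSquare b) : IsSquare (a * b) := by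
  classical
  have := Fintype.ofFinite K
  have a0 : a ≠ 0 := fun h => ha (h ▸ IsSquare.zero)
  have b0 : b ≠ 0 := fun h => hb (h ▸ IsSquare.zero)
  rw [← quadraticChar_one_iff_isSquare (mul_ne_zero a0 b0), map_mul,
    quadraticChar_neg_one_iff_not_isSquare.2 ha, quadraticChar_neg_one_iff_not_isSquare.2 hb]
  norm_num

/-- two characters that agree at `-1` differ by the square of a character -/
theorem char_sqrt {F : Type} [Field F] [IsAlgClosed F] [Finite K] (h2 : (2 : K) ≠ 0)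
    (f f' : Kˣ →* F) (h : f (-1) = f' (-1)) : ∃ ζ : Kˣ →* Fˣ, ∀ a, f a = ζ (a * a) * f' a := by
  obtain ⟨g, hg⟩ := IsCyclic.exists_generator (α := Kˣ)
  have ne : ∀ (φ : Kˣ →* F) a, φ a ≠ 0 := fun φ a => ((Group.isUnit a).map φ).ne_zero
  have n1 : (-1 : Kˣ) ≠ 1 := fun e => h2 (by
    have := congrArg Units.val e
    simp only [Units.val_neg, Units.val_one] at this
    linear_combination -this)
  have o2 : orderOf (-1 : Kˣ) = 2 := orderOf_eq_prime (by simp) n1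
  obtain ⟨n, hn⟩ : 2 ∣ orderOf g := by
    rw [← o2, orderOf_eq_card_of_forall_mem_zpowers hg]; exact orderOf_dvd_natCard _
  have pos := orderOf_pos g
  have gn : g ^ n = -1 := by
    have e : (g ^ n) ^ 2 = 1 := by rw [← pow_mul, mul_comm, ← hn, pow_orderOf_eq_one]
    refine ((Units.inv_eq_self_iff _).1 (inv_eq_of_mul_eq_one_left (by rwa [← sq]))).resolve_left ?_
    exact pow_ne_one_of_lt_orderOf (by omega) (by omega)
  obtain ⟨r, hr⟩ := IsAlgClosed.exists_pow_nat_eq (f g / f' g) two_pos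
  have r0 : r ≠ 0 := fun e => div_ne_zero (ne f g) (ne f' g) (by rw [← hr, e]; simp)
  have ro : orderOf (Units.mk0 r r0) ∣ orderOf g := by
    refine orderOf_dvd_of_pow_eq_one (Units.ext ?_)
    rw [Units.val_pow_eq_pow_val, Units.val_mk0, hn, pow_mul, hr, div_pow, ← map_pow, ← map_pow, gn,
      h, div_self (ne _ _), Units.val_one]
  refine ⟨monoidHomOfForallMemZpowers hg ro, fun a => ?_⟩
  obtain ⟨i, rfl⟩ := (Submonoid.mem_powers_iff a g).1 (mem_powers_iff_mem_zpowers.2 (hg a))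
  rw [map_mul, map_pow, map_pow, map_pow, monoidHomOfForallMemZpowers_apply_gen, ← mul_pow,
    Units.val_pow_eq_pow_val, ← mul_pow, Units.val_mul, Units.val_mk0, ← sq, hr,
    div_mul_cancel₀ _ (ne f' g)]

end grp

variable {F K : Type} [Field F] [Field K] {G G' Y B : Subgroup (GL (Fin 2) K)}
  {e e' x x' y y' j b : MonoidAlgebra F (GL (Fin 2) K)}

/-- `y` has the central character of `x` -/
def ScZ (x y : MonoidAlgebra F (GL (Fin 2) K)) : Prop :=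
  ∀ (a : Kˣ) (c : F), gu F _ (bd a a) * x = c • x → gu F _ (bd a a) * y = c • y

theorem ha_top (x : MonoidAlgebra F (GL (Fin 2) K)) : x ∈ span F (HX F (⊤ : Subgroup _)) := by
  rw [gu_span]; trivial

theorem ha_cen {a : Kˣ} (h : bd a a ∈ G) : gu F _ (bd a a) ∈ Cen F (HX F G) := ⟨bk_mem h, by
  rintro _ ⟨c, -, g, -, rfl⟩
  rw [mul_smul_comm, smul_mul_assoc, gu_mul, gu_mul, ha_z]⟩

theorem ha_comm (a : Kˣ) (x : MonoidAlgebra F (GL (Fin 2) K)) :
    gu F _ (bd a a) * x = x * gu F _ (bd a a) := Cen_comm (ha_cen (Subgroup.mem_top _)) (ha_top x)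

theorem ha_eig {a : Kˣ} (h : bd a a ∈ G) (hx : x ∈ Irr F (HX F G)) :
    ∃ c : F, gu F _ (bd a a) * x = c • x := hx.2.2.2 _ (ha_cen h)

theorem ha_of_mul {a : Kˣ} (h : bd a a ∈ G) (hy : y ∈ Irr F (HX F G)) (h0 : x * b * y ≠ 0) {c : F}
    (hc : gu F _ (bd a a) * x = c • x) : gu F _ (bd a a) * y = c • y := by
  obtain ⟨d, hd⟩ := ha_eig h hy
  have e : c • (x * b * y) = d • (x * b * y) := by
    rw [← smul_mul_assoc, ← smul_mul_assoc, ← hc, ← mul_smul_comm, ← hd, ← mul_assoc, ← ha_comm,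
      mul_assoc _ x]
  rw [hd, smul_left_injective F h0 e]

theorem ScZ.symm (hZ : ∀ a, bd a a ∈ G) (hx : x ∈ Irr F (HX F G)) (h0 : y ≠ 0) (h : ScZ x y) :
    ScZ y x := fun a c hc => by
  obtain ⟨d, hd⟩ := ha_eig (hZ a) hx
  rw [hd, smul_left_injective F h0 ((h a d hd).symm.trans hc)]

theorem ScZ.trans (h : ScZ x y) (h' : ScZ y y') : ScZ x y' := fun a c hc => h' a c (h a c hc)

theorem ha_hom (hZ : ∀ a, bd a a ∈ G) (hx : x ∈ Irr F (HX F G)) :
    ∃ f : Kˣ →* F, ∀ a, gu F _ (bd a a) * x = f a • x := by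
  choose f hf using fun a => ha_eig (hZ a) hx
  refine ⟨⟨⟨f, ?_⟩, fun a b => ?_⟩, hf⟩ <;> apply smul_left_injective F hx.2.2.1
  · simp only [← hf, ha_one, gu_one, one_mul, one_smul]
  · simp only [← hf, ← ha_mul, ← gu_mul, mul_assoc]
    rw [hf b, mul_smul_comm, hf a, smul_smul, mul_comm]

theorem ha_inj (hx : x ∈ Irr F (HX F G)) (hx' : x' ∈ Irr F (HX F G)) (h1 : j * x ≠ 0)
    (h2 : j * x' ≠ 0) (hZ : ∀ a, bd a a ∈ G)
    (h3 : j * x ∈ span F (Set.range fun a => j * gu F _ (bd a a))) (h : ScZ x x') : x = x' := by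
  have key : ∀ v ∈ span F (Set.range fun a => j * gu F _ (bd a a)),
      ∃ c : F, v * x = c • (j * x) ∧ v * x' = c • (j * x') := by
    intro v hv
    induction hv using span_induction with
    | mem v hv =>
      obtain ⟨a, rfl⟩ := hv
      obtain ⟨c, hc⟩ := ha_eig (hZ a) hx
      exact ⟨c, by rw [mul_assoc, hc, mul_smul_comm], by rw [mul_assoc, h a c hc, mul_smul_comm]⟩
    | zero => exact ⟨0, by simp, by simp⟩
    | add v w _ _ hv hw =>
      obtain ⟨c, c1, c2⟩ := hv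
      obtain ⟨d, d1, d2⟩ := hw
      exact ⟨c + d, by rw [add_mul, c1, d1, add_smul], by rw [add_mul, c2, d2, add_smul]⟩
    | smul a v _ hv =>
      obtain ⟨c, c1, c2⟩ := hv
      exact ⟨a * c, by rw [smul_mul_assoc, c1, mul_smul], by rw [smul_mul_assoc, c2, mul_smul]⟩
  obtain ⟨c, c1, c2⟩ := key _ h3
  rw [mul_assoc, hx.2.1] at c1
  have c3 : c = 1 := smul_left_injective F h1 (c1.symm.trans (one_smul _ _).symm)
  by_contra n
  rw [mul_assoc, Irr_orth hx hx' n, mul_zero, c3, one_smul] at c2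
  exact h2 c2.symm

variable [Fintype K] [CharZero F] [IsAlgClosed F] {lam : AddChar K F} {k m : K}

omit [IsAlgClosed F] in
/-- non-linear blocks of the upper triangular group -/
theorem x3_inj (hl : lam ≠ 1) (hB : ∀ g, g ∈ B ↔ g.1 1 0 = 0) (hy : y ∈ Irr F (HX F B))
    (hy' : y' ∈ Irr F (HX F B)) (h1 : bE lam 1 * y ≠ 0) (h2 : bE lam 1 * y' ≠ 0) (h : ScZ y y') :
    y = y' := by
  have hU : ∀ s, bx s ∈ B := fun s => (hB _).2 rfl
  refine ha_inj hy hy' h1 h2 (fun a => (hB _).2 rfl) ?_ h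
  have e : bE lam 1 * y * bE lam 1 = bE lam 1 * y := by
    rw [mul_assoc, Cen_comm hy.1 (bE_mem hU 1), ← mul_assoc, bE_idem hl]
  refine span_le.2 ?_ (e ▸ bru_corner hl hU 1 1 hy.1.1)
  rintro _ ⟨⟨r, hr, q | q⟩, rfl⟩
  · exact absurd ((hB r).1 hr) q.ne.2
  · obtain ⟨a, rfl⟩ := ha_sc q.1 (by simpa using q.2)
    exact subset_span ⟨a, (bE_dia hl q.1.2 q.2).1.symm⟩

omit [CharZero F] [IsAlgClosed F] in
theorem ha_half (hY : ∀ g, g ∈ Y ↔ g.1.det = 1) (he : e ∈ Irr F (HX F Y)) (hk : k ≠ 0)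
    (h1 : bE lam k * e ≠ 0) (hm : m ≠ 0) (h2 : bE lam m * e = 0) (l : K) (hl : l ≠ 0)
    (n : ¬ IsSquare (k * l)) : bE lam l * e = 0 := by
  by_contra z
  have hd : ∀ a : Kˣ, bd a a⁻¹ ∈ Y := fun a => by simp [hY, bd_val]
  refine bk_supp_sq he.1 hd hl hm ?_ z h2
  obtain ⟨r, hr⟩ := ha_sq n fun s => bk_supp_sq he.1 hd hk hm s h1 h2
  exact ⟨r / k, by field_simp; linear_combination hr⟩

omit [Fintype K] [CharZero F] [IsAlgClosed F] in
theorem ha_conj (hY : ∀ g, g ∈ Y ↔ g.1.det = 1) (he : e ∈ Irr F (HX F Y)) (d : GL (Fin 2) K) :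
    ∃ e' ∈ Irr F (HX F Y), gu F _ d * e = e' * gu F _ d := by
  have : Y.Normal := ⟨fun n hn g => by
    rw [hY] at hn ⊢
    rw [Units.val_mul, Units.val_mul, det_mul, det_mul, hn, mul_one, ← det_mul, ← Units.val_mul,
      mul_inv_cancel, Units.val_one, det_one]⟩
  obtain ⟨a, ha⟩ := (gu_tg (F := F)).exists_isAd d
  exact ⟨a e, (irr_stb (GG := ⊥) ha.1.mem_SG (ha.stb_normal gu_tg Y)).2 he, ha.2.2 e (ha_top e)⟩

omit [CharZero F] [IsAlgClosed F] in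
theorem ha_move {d : GL (Fin 2) K} (hd : d.1 1 0 = 0) (h : gu F _ d * e = e' * gu F _ d) (k : K) :
    bE lam (k * d.1 1 1 / d.1 0 0) * e' = 0 ↔ bE lam k * e = 0 := by
  have q : bE lam (k * d.1 1 1 / d.1 0 0) * e' * gu F _ d = gu F _ d * (bE lam k * e) := by
    rw [mul_assoc, ← h, ← mul_assoc, ← bE_conj hd, mul_assoc]
  refine ⟨fun z => bk_cancel d (by rw [← q, z, zero_mul]), fun z => ?_⟩
  rw [← mul_one (_ * e'), ← gu_one, ← mul_inv_cancel d, ← gu_mul, ← mul_assoc, q, z, mul_zero,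
    zero_mul]

/-- a block over one of half degree lies over one with `1` in its support -/
theorem x1a_one (hY : ∀ g, g ∈ Y ↔ g.1.det = 1) (he : e ∈ Irr F (HX F Y))
    (hk : k ≠ 0) (h1 : bE lam k * e ≠ 0) (hm : m ≠ 0) (h2 : bE lam m * e = 0)
    (hx : x ∈ Irr F (HX F ⊤)) (h0 : e * x ≠ 0) : ∃ e' ∈ Irr F (HX F Y), bE lam 1 * e' ≠ 0 ∧
      (∀ l, l ≠ 0 → ¬ IsSquare (1 * l) → bE lam l * e' = 0) ∧ bE lam 1 * e' * x ≠ 0 := by
  obtain ⟨e', he', q⟩ := ha_conj hY he (bd (Units.mk0 k hk) 1)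
  have mv := fun l => ha_move (lam := lam) (d := bd (Units.mk0 k hk) 1) rfl q l
  simp only [bd_val, Units.val_mk0, Units.val_one, of_apply, cons_val', cons_val_one,
    cons_val_fin_one, cons_val_zero, mul_one] at mv
  have a1 : bE lam 1 * e' ≠ 0 := fun z => h1 ((mv k).1 (by rwa [div_self hk]))
  have cx : ∀ b, b * x = x * b := fun b => (Cen_comm hx.1 (ha_top b)).symm
  refine ⟨e', he', a1, ha_half hY he' one_ne_zero a1 (div_ne_zero hm hk) ((mv m).2 h2),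
    blk_inj (bk_nice Y) he' (bE_mem (bk_xY hY) 1) a1 (fun b _ => cx b) fun z => h0 ?_⟩
  refine bk_cancel (bd (Units.mk0 k hk) 1) ?_
  rw [← mul_assoc, q, mul_assoc, cx, ← mul_assoc, z, zero_mul]

theorem ha_line (hl : lam ≠ 1) (hY : ∀ g, g ∈ Y ↔ g.1.det = 1) (he : e ∈ Irr F (HX F Y))
    (h1 : bE lam 1 * e ≠ 0) (h2 : ∀ l, l ≠ 0 → ¬ IsSquare (1 * l) → bE lam l * e = 0)
    (v : MonoidAlgebra F (GL (Fin 2) K)) : bE lam 1 * e * v * (bE lam 1 * e) ∈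
      span F (Set.range fun a => bE lam 1 * e * gu F _ (bd a a)) := by
  have hE := bE_mem (lam := lam) (bk_xY hY) 1
  have hp := (bE_cc hl (bk_xY hY) one_ne_zero).prim (bk_nice Y) he h1
  induction v using lf_ind with
  | h0 => simp
  | ha v w hv hw => rw [mul_add, add_mul]; exact add_mem hv hw
  | hs c g =>
  rw [mul_smul_comm, smul_mul_assoc]
  refine smul_mem _ _ ?_
  obtain ⟨a, ha⟩ : ∃ a, a = GeneralLinearGroup.det g := ⟨_, rfl⟩
  have mem : ∀ d : GL (Fin 2) K, GeneralLinearGroup.det d = a → g * d⁻¹ ∈ Y := fun d hd => by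
    rw [hY, ← GeneralLinearGroup.val_det_apply, map_mul, map_inv, hd, ← ha, mul_inv_cancel,
      Units.val_one]
  by_cases sq : IsSquare (a : K)
  · obtain ⟨r, hr⟩ := sq
    have r0 : r ≠ 0 := fun z => a.ne_zero (by rw [hr, z, mul_zero])
    have m := mem (bd (Units.mk0 r r0) (Units.mk0 r r0)) (by rw [ha_det]; exact Units.ext hr.symm)
    obtain ⟨c, hc⟩ := hp.2.2.2.2 _ (bk_mem m)
    rw [← inv_mul_cancel_right g (bd (Units.mk0 r r0) (Units.mk0 r r0)), ← gu_mul,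
      ← mul_assoc (bE lam 1 * e), mul_assoc _ (gu F _ (bd _ _)), ha_comm,
      ← mul_assoc _ (bE lam 1 * e), hc, smul_mul_assoc]
    exact smul_mem _ _ (subset_span ⟨_, rfl⟩)
  · obtain ⟨e', he', q⟩ := ha_conj hY he (bd a 1)
    have ne : e ≠ e' := by
      rintro rfl
      refine h1 ((ha_move (lam := lam) (d := bd a 1) rfl q 1).1 (h2 _ (by simp [bd_val]) ?_))
      simpa [bd_val] using sq
    have m := mem (bd a 1) (by rw [ha_det, mul_one])
    have z : e * gu F _ g * e = 0 := by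
      rw [← inv_mul_cancel_right g (bd a 1), ← gu_mul, mul_assoc, mul_assoc, q, ← mul_assoc,
        ← mul_assoc, mul_assoc e, ← Cen_comm he'.1 (bk_mem m), ← mul_assoc, Irr_orth he he' ne,
        zero_mul, zero_mul]
    rw [← Cen_comm he.1 hE, ← mul_assoc, Cen_comm he.1 hE, mul_assoc (bE lam 1), mul_assoc (bE lam 1),
      z, mul_zero, zero_mul]
    exact zero_mem _

variable (hl : lam ≠ 1) (hY : ∀ g, g ∈ Y ↔ g.1.det = 1) (hB : ∀ g, g ∈ B ↔ g.1 1 0 = 0)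
  (T : ∀ s : F, s = 1 ∨ s = -1 → ∃! e, e ∈ Irr F (HX F Y) ∧ bE lam 1 * e ≠ 0 ∧
    (∀ l, l ≠ 0 → ¬ IsSquare (1 * l) → bE lam l * e = 0) ∧ gu F _ (-1) * e = s • e)

omit [Fintype K] [CharZero F] [IsAlgClosed F] in
theorem ha_sign (h0 : x ≠ 0) {s : F} (h : gu F _ (-1) * x = s • x) : s = 1 ∨ s = -1 := by
  refine mul_self_eq_one_iff.1 (smul_left_injective F h0 ?_)
  change (s * s) • x = (1 : F) • x
  rw [mul_smul, ← h, ← mul_smul_comm, ← h, ← mul_assoc, gu_mul, neg_mul_neg, one_mul, gu_one,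
    one_mul, one_smul]

include hl hY T in
theorem x1a_inj (he : e ∈ Irr F (HX F Y)) (hk : k ≠ 0) (h1 : bE lam k * e ≠ 0) (hm : m ≠ 0)
    (h2 : bE lam m * e = 0) (hx : x ∈ Irr F (HX F ⊤)) (h0 : e * x ≠ 0) {k' m' : K}
    (he' : e' ∈ Irr F (HX F Y)) (hk' : k' ≠ 0) (h1' : bE lam k' * e' ≠ 0) (hm' : m' ≠ 0)
    (h2' : bE lam m' * e' = 0) (hx' : x' ∈ Irr F (HX F ⊤)) (h0' : e' * x' ≠ 0) (h : ScZ x x') :
    x = x' := by
  obtain ⟨f, hf, a1, a2, a3⟩ := x1a_one hY he hk h1 hm h2 hx h0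
  obtain ⟨f', hf', b1, b2, b3⟩ := x1a_one hY he' hk' h1' hm' h2' hx' h0'
  have cx : ∀ b, b * x = x * b := fun b => (Cen_comm hx.1 (ha_top b)).symm
  have n1 : bd (-1 : Kˣ) (-1) ∈ Y := by simp [hY, bd_val]
  obtain ⟨s, hs⟩ := ha_eig (Subgroup.mem_top (bd (-1 : Kˣ) (-1))) hx
  have s1 := ha_of_mul (b := bE lam 1) n1 hf (by rwa [mul_assoc, ← cx]) hs
  have s2 := ha_of_mul (b := bE lam 1) n1 hf'
    (by rwa [mul_assoc, Cen_comm hx'.1 (ha_top _)]) (h _ _ hs)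
  rw [ha_neg] at s1 s2
  obtain rfl := (T s (ha_sign hf.2.2.1 s1)).unique ⟨hf, a1, a2, s1⟩ ⟨hf', b1, b2, s2⟩
  refine ha_inj hx hx' a3 b3 (fun _ => trivial) ?_ h
  have hp := (bE_cc hl (bk_xY hY) one_ne_zero).prim (bk_nice Y) hf a1
  have := ha_line hl hY hf a1 a2 x
  rwa [mul_assoc, ← cx, ← mul_assoc, hp.2.2.1] at this

include hB in
theorem x1_to_x3 (h : bE lam 1 * x ≠ 0) (hx : x ∈ Irr F (HX F ⊤)) :
    ∃ y ∈ Irr F (HX F B), bE lam 1 * y ≠ 0 ∧ ScZ x y := by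
  obtain ⟨y, hy, h0⟩ := bk_ex B h
  rw [← Cen_comm hx.1 (ha_top _)] at h0
  exact ⟨y, hy, fun z => h0 (by rw [mul_assoc, z, mul_zero]),
    fun a c hc => ha_of_mul ((hB _).2 rfl) hy h0 hc⟩

include hY T in
/-- every central character occurs -/
theorem x1a_ex (h2 : (2 : K) ≠ 0) (hZ : ∀ a, bd a a ∈ G) (hy : y ∈ Irr F (HX F G)) :
    ∃ x ∈ Irr F (HX F ⊤), (∃ e ∈ Irr F (HX F Y), bE lam 1 * e ≠ 0 ∧
      (∃ m, m ≠ 0 ∧ bE lam m * e = 0) ∧ e * x ≠ 0) ∧ ScZ x y := by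
  obtain ⟨f, hf⟩ := ha_hom hZ hy
  have s0 := hf (-1)
  rw [ha_neg] at s0
  obtain ⟨e, ⟨he, a1, a2, a3⟩, -⟩ := T _ (ha_sign hy.2.2.1 s0)
  obtain ⟨x, hx, h0⟩ := bk_ex ⊤ he.2.2.1
  obtain ⟨f', hf'⟩ := ha_hom (fun _ => Subgroup.mem_top _) hx
  have s1 := ha_of_mul (b := 1) (Subgroup.mem_top (bd (-1 : Kˣ) (-1))) hx (by rwa [mul_one])
    (ha_neg (K := K) ▸ a3)
  obtain ⟨ζ, hζ⟩ := char_sqrt h2 f' f (smul_left_injective F hx.2.2.1 ((hf' _).symm.trans s1))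
  obtain ⟨γ, l, hγ⟩ := gal_tw (F := F) (ζ.comp (GeneralLinearGroup.det (n := Fin 2) (R := K)))
  have st : γ ∈ Stb (HX F (⊤ : Subgroup (GL (Fin 2) K))) :=
    gal_stb (lin_iff.1 l) (δ := 1) hγ fun _ => Iff.rfl
  have fx : γ e = e := gal_uniq (γ' := 1) (lin_iff.1 l) (fun _ _ => rfl) (fun g hg => by
    rw [hγ, MonoidHom.comp_apply, show GeneralLinearGroup.det g = 1 from Units.ext ((hY g).1 hg),
      map_one, Units.val_one, one_smul]; rfl) he.1.1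
  have hx' := (irr_stb (GG := ⊥) l.mem_SG st).2 hx
  obtain ⟨ν, hν⟩ := FiniteField.exists_nonsquare (F := K) fun c => h2 (by
    have := ringChar.Nat.cast_ringChar (R := K)
    rwa [c, Nat.cast_ofNat] at this)
  refine ⟨γ x, hx', ⟨e, he, a1, ⟨ν, fun z => hν (z ▸ IsSquare.zero),
    a2 ν (fun z => hν (z ▸ IsSquare.zero)) (by rwa [one_mul])⟩, ?_⟩, fun a c hc => ?_⟩
  · rw [← fx, ← map_mul]; exact (map_ne_zero_iff γ γ.injective).2 h0
  · have q := congrArg γ (hf' a)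
    rw [map_mul, hγ, l, hζ, MonoidHom.comp_apply, ha_det, smul_mul_assoc, hc, smul_smul] at q
    rw [hf, mul_left_cancel₀ (Units.ne_zero _) (smul_left_injective F hx'.2.2.1 q)]

end Pool.Agent.Lib.MP_1ae3da_al.CT
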