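import Pool.Agent.Lib.MP_1ae3da_al.S.Deb

/-! The link upstairs between a block of `GL2` and a linear block of the triangular group. -/

namespace Pool.Agent.Lib.MP_1ae3da_al.CT

open Submodule Matrix

variable {F K : Type} [Field F] [Field K]

theorem lku_cancel {a a' : MonoidAlgebra F (GL (Fin 2) K)} (g : GL (Fin 2) K)
    (h : a * gu F _ g = a' * gu F _ g) : a = a' := by
  have := congrArg (· * gu F _ g⁻¹) h
  simpa only [mul_assoc, gu_mul, mul_inv_cancel, gu_one, mul_one] using this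

theorem lku_map (g : GL (Fin 2) K) :
    GeneralLinearGroup.map ((1 : RingAut K) : K →+* K) g = g := by
  ext i j
  rfl

theorem lku_scal (h2 : (2 : K) ≠ 0) {b t : GL (Fin 2) K} (hb : b.1 1 0 = 0)
    (h : b.1 1 1 = b.1 0 0) (ht : BDia t) (e : b * bd (-1) 1 = t * b) : ∃ u, b = bd u u := by
  have h0 := (bru_tri hb).1
  have e0 := congrArg (fun g : GL (Fin 2) K => g.1 0 0) e
  have e1 := congrArg (fun g : GL (Fin 2) K => g.1 0 1) e
  simp [bd_val, mul_apply, Fin.sum_univ_two, ht.1] at e0 e1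
  have t0 : t.1 0 0 = -1 := mul_right_cancel₀ h0 (by linear_combination -e0)
  have b0 : b.1 0 1 = 0 := mul_left_cancel₀ h2 (by rw [t0] at e1; linear_combination e1)
  refine ⟨Units.mk0 _ h0, Units.ext ?_⟩
  ext i j
  fin_cases i <;> fin_cases j <;> simp [bd_val, hb, h, b0]

variable [IsAlgClosed F] [CharZero F] [Fintype K] {lam : AddChar K F} {GG : Subgroup (RingAut F)}
  {x y : MonoidAlgebra F (GL (Fin 2) K)}

omit [IsAlgClosed F] in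
theorem lku_inj (hl : lam ≠ 1) {k l : K} (h : bE lam k = bE lam l) : k = l := by
  by_contra n
  have := bE_orth hl n
  rw [h, bE_idem hl] at this
  exact bE_ne hl l this

omit [IsAlgClosed F] [CharZero F] in
/-- every member of the group is inner times one that keeps the torus and `E 1` -/
theorem lku_red (hl : Wh lam) {γ : RingAut (MonoidAlgebra F (GL (Fin 2) K))}
    (k : γ ∈ DelG K GG) : ∃ s, ∃ b ∈ dBt K, DelD 1 1 1 b s ∧
      s⁻¹ * γ ∈ Stb (HX F (dT K)) ∧ s⁻¹ * γ ∈ Fx (bE lam 1) := by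
  obtain ⟨π, p0, hπ⟩ := del_E hl k
  obtain ⟨σ, -, ζ, τ, b, hb, hd⟩ := k
  obtain ⟨b0, b1⟩ := bru_tri (mem_dBt.1 hb)
  have p1 : π 1 ≠ 0 := fun h => one_ne_zero (π.injective (h.trans p0.symm))
  let c : Kˣ := Units.mk0 (π 1 * b.1 0 0 / b.1 1 1) (div_ne_zero (mul_ne_zero p1 b0) b1)
  obtain ⟨s, hs⟩ := del_ex (F := F) 1 1 1 (b * bd 1 c)
  have hm : b * bd 1 c ∈ dBt K := mul_mem hb (bd_dBt 1 c)
  refine ⟨s, _, hm, hs, gal_stb (σ := 1⁻¹ * σ) (hs.1.inv.mul hd.1)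
    (c := fun g => ζ (GeneralLinearGroup.det g)) (δ := MulAut.conj (bd 1 c)⁻¹ * galM τ)
    (fun g => s.injective ?_) fun g => ?_, s.injective ?_⟩
  · change s (s.symm (γ _)) = _
    rw [s.apply_symm_apply, hd.2, hs.1, hs.2, lku_map, MonoidHom.one_apply, Units.val_one, one_smul]
    congr 2
    change _ = _ * ((bd 1 c)⁻¹ * GeneralLinearGroup.map (τ : K →+* K) g * (bd 1 c)⁻¹⁻¹) * _
    group
  · change (bd 1 c)⁻¹ * GeneralLinearGroup.map (τ : K →+* K) g * (bd 1 c)⁻¹⁻¹ ∈ dT K ↔ _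
    have m : (bd 1 c)⁻¹ ∈ dT K := inv_mem (bd_dia 1 c)
    rw [(dT K).mul_mem_cancel_right (inv_mem m), (dT K).mul_mem_cancel_left m]
    exact and_congr (map_eq_zero_iff τ τ.injective) (map_eq_zero_iff τ τ.injective)
  · change s (s.symm (γ _)) = _
    rw [s.apply_symm_apply, hπ]
    refine lku_cancel (b * bd 1 c) ?_
    rw [← del_inn hs, bE_conj (mem_dBt.1 hm)]
    congr 2
    simp [bd_val, mul_apply, Fin.sum_univ_two, c, mem_dBt.1 hb]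
    field_simp

theorem link_up (hl : Wh lam) (h2 : (2 : K) ≠ 0) (hx : x ∈ X1 lam) (hy : y ∈ X2 lam)
    (ho : om y = om x) :
    ∃ U, Link F (DelG K GG ⊓ Fx x ⊓ Fx y) (HX F ⊤) (HX F (dBt K)) x y U := by
  have hU : ∀ s : K, bx s ∈ dBt K := fun s => dB_le_dBt (bx_dB s)
  have hML : HX F (dBt K) ⊆ HX F ⊤ := fun _ ⟨c, h0, g, _, e⟩ => ⟨c, h0, g, trivial, e⟩
  have pj := (bE_cc hl.ne (G := ⊤) (fun _ => trivial) one_ne_zero).prim (bk_nice ⊤) hx.1 hx.2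
  have pj' := (bE_cc0 hl.ne hU fun _ h => h).prim (bk_nice _) hy.1 (by
    rw [hy.2]; exact hy.1.2.2.1)
  rw [hy.2] at pj'
  obtain ⟨U, hU'⟩ := link_line (GG := GG)
    (Γ := DelG K GG ⊓ Fx x ⊓ Fx y ⊓ Stb (HX F (dT K)) ⊓ Fx (bE lam 1)) (bk_nice ⊤) (bk_nice _) hML
    hx.1 hy.1 pj pj' (fun γ ⟨⟨⟨⟨k, k1⟩, k2⟩, _⟩, k4⟩ => ⟨(del_le k).1.1.1.1, (del_le k).1.2,
      (del_le k).2, k1, k2, by rw [map_mul, show γ _ = _ from k4, show γ x = x from k1], k2⟩) (by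
    rintro a ⟨⟨-, k3⟩, k4⟩ ha _ ⟨c, c0, b, hb, rfl⟩ hm
    have e1 := tl_span ha hm (bE_mem (lam := lam) (G := ⊤) (fun _ => trivial) 1)
    rw [show a _ = _ from k4, smul_mul_assoc, mul_smul_comm, bE_conj (mem_dBt.1 hb)] at e1
    have e2 := lku_inj hl.ne (lku_cancel b (smul_right_injective _ c0 e1))
    rw [one_mul, div_eq_one_iff_eq (bru_tri (mem_dBt.1 hb)).1] at e2
    obtain ⟨d, -, t, ht, e3⟩ := (k3 _).2 (aga_mem.2 (mem_dT.2 (bd_dia (-1) 1)))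
    have e4 := hm _ (aga_mem.2 (Subgroup.mem_top (bd (-1) 1)))
    rw [e3, smul_mul_assoc, gu_mul, smul_mul_smul_comm, gu_mul] at e4
    obtain ⟨u, rfl⟩ := lku_scal h2 hb e2 ht (gu_inj c0 e4).1
    refine ⟨c * om x u, ?_, ?_⟩
    · rw [smul_mul_assoc, ← mul_assoc, bd_cen, mul_assoc, om_irr (Subgroup.mem_top _) hx.1,
        mul_smul_comm, smul_smul]
    · rw [smul_mul_assoc, om_irr hb hy.1, ho, smul_smul])
  refine Link.ext (GG := GG) (fun γ ⟨⟨k, k1⟩, k2⟩ =>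
    ⟨⟨⟨⟨(del_le k).1.1.1.1, (del_le k).1.2⟩, (del_le k).2⟩, k1⟩, k2⟩)
    (inf_le_left.trans inf_le_left) (bk_nice ⊤) (bk_nice _) hML hx.1 hy.1 (fun γ hγ => ?_) hU'
  obtain ⟨s, b, hb, hs, s1, s2⟩ := lku_red hl hγ.1.1
  have sG : s ∈ DelG K GG := ⟨1, one_mem _, 1, 1, b, hb, hs⟩
  have sL : Lin F s := hs.1
  obtain ⟨f1, f2⟩ := inner_fix (bk_nice ⊤) (bk_nice _) hML sL (del_le sG).1.2 (aga_mem.2 hb)
    fun z _ => del_inn hs z
  have sΓ : s ∈ DelG K GG ⊓ Fx x ⊓ Fx y := ⟨⟨sG, f1 x hx.1.1⟩, f2 y hy.1.1⟩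
  exact ⟨s, sΓ, sL, ⟨_, aga_mem.2 hb, fun z _ => del_inn hs z⟩,
    ⟨Subgroup.mul_mem _ (Subgroup.inv_mem _ sΓ) hγ, s1⟩, s2⟩

end Pool.Agent.Lib.MP_1ae3da_al.CT
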