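import Pool.Agent.Lib.MP_1ae3da_al.S.LkA
import Pool.Agent.Lib.MP_1ae3da_al.S.LkU
import Pool.Agent.Lib.MP_1ae3da_al.S.Cnt
import Pool.Agent.Lib.MP_1ae3da_al.S.Over
import Pool.Agent.Lib.MP_1ae3da_al.S.Aut

/-! Links for the blocks of degree `q ± 1`. -/

namespace Pool.Agent.Lib.MP_1ae3da_al.CT

open Submodule Matrix

variable {F K : Type} [Field F] [Field K] [Fintype K] [CharZero F] [IsAlgClosed F]
  {lam : AddChar K F} {GG : Subgroup (RingAut F)} {x y e e' : MonoidAlgebra F (GL (Fin 2) K)}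

theorem lkb_tw {H : Subgroup (GL (Fin 2) K)}
    (he : e ∈ Irr F (HX F (H ⊓ (GeneralLinearGroup.det : GL (Fin 2) K →* Kˣ).ker)))
    (hx : x ∈ Irr F (HX F H)) (hy : y ∈ Irr F (HX F H)) (h1 : e * x = x) (h2 : e * y = y) :
    ∃ ζ s, DelD 1 ζ 1 1 s ∧ s x = y := by
  have m : e ∈ span F (HX F H) := span_Hm_mono inf_le_left he.1.1
  have x0 : x * e ≠ 0 := by rw [← te_cen hx m, h1]; exact hx.2.2.1
  have y0 : y * e ≠ 0 := by rw [← te_cen hy m, h2]; exact hy.2.2.1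
  obtain ⟨ζ, s, a, b, c⟩ := gall (GeneralLinearGroup.det : GL (Fin 2) K →* Kˣ) he hx hy x0 y0
  exact ⟨ζ, s, ⟨a, fun g => by rw [map_one_gl, one_mul, inv_one, mul_one]; exact b g⟩, c⟩

theorem lkb_loc (hl : lam ≠ 1) (hx : x ∈ X1P lam) {a : RingAut (MonoidAlgebra F (GL (Fin 2) K))}
    (ha : a ∈ DelG K GG) (la : Lin F a) (hf : a x = x) {g : GL (Fin 2) K}
    (q : ∀ w ∈ dY K, gu F _ g * gu F _ w = a (gu F _ w) * gu F _ g) (w : GL (Fin 2) K) :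
    gu F _ g * gu F _ w = a (gu F _ w) * gu F _ g := by
  obtain ⟨σ, -, ζ, τ, b, -, k⟩ := ha
  obtain ⟨rfl, c, c0, hc⟩ := aut_zero τ (g⁻¹ * b) fun w => by
    have m : SpecialLinearGroup.toGL w ∈ dY K := mem_dY.2 w.2
    have r := q _ m
    rw [k.det1 m, gu_mul, gu_mul] at r
    have r' := (gu_inj one_ne_zero (congrArg ((1 : F) • ·) r)).1
    refine Eq.trans ?_ (eq_inv_mul_iff_mul_eq.2 r').symm
    simp only [_root_.mul_inv_rev, inv_inv, mul_assoc]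
  have hb : b = g * bd (Units.mk0 c c0) (Units.mk0 c c0) := by
    rw [← inv_mul_eq_iff_eq_mul]
    refine Units.ext (hc.trans ?_)
    ext i j
    fin_cases i <;> fin_cases j <;> simp [bd_val]
  have k2 (w) : a (gu F _ w) = (ζ (GeneralLinearGroup.det w) : F) • gu F _ (g * w * g⁻¹) := by
    rw [k.2, map_one_gl, hb, mul_assoc g, bd_comm, _root_.mul_inv_rev]
    simp only [mul_assoc, mul_inv_cancel_left]
  obtain ⟨δ, hδ⟩ := del_ex (F := F) 1 1 1 g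
  obtain rfl : ζ = 1 := x1p_free (h := δ⁻¹ * a) hl hx
    ⟨lin_iff.1 ((lin_iff.2 hδ.1).inv.mul la), fun w => δ.injective (by
      change δ (δ⁻¹ (a _)) = _
      rw [tl_ai, k2, hδ.1, hδ.2, one_mul, inv_one, mul_one, MonoidHom.one_apply, Units.val_one,
        one_smul]
      rfl)⟩ (δ.injective (by
      change δ (δ⁻¹ (a _)) = _
      rw [tl_ai, hf, del_inn_fix hδ (te_cen hx.1 (del_top _))]))
  rw [k2, MonoidHom.one_apply, Units.val_one, one_smul, gu_mul, gu_mul, inv_mul_cancel_right]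

theorem link_B (hl : Wh lam) (h2 : (2 : K) ≠ 0) (he : e ∈ XB lam) (he' : e' ∈ YB lam)
    (hx : x ∈ X1P lam) (hy : y ∈ X2P lam) (h3 : e * x = x) (h4 : e' * y = y) (ho : om y = om x)
    (hf : ∀ γ ∈ DelG K GG, γ x = x → γ y = y) :
    ∃ U, Link F (DelG K GG ⊓ Fx e ⊓ Fx e') (HX F (dY K)) (HX F (dB K)) e e' U := by
  have o := over_y hl.ne (fun _ => mem_dY) he.1 he.2.1 hx.1 (h3.symm ▸ hx.1.2.2.1)
  obtain ⟨U, h⟩ := link_up (GG := GG) hl h2 ⟨hx.1, o.2.1 1 one_ne_zero⟩ hy.1 ho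
  obtain ⟨V, k⟩ := link_res (GG := GG)
    (h.mono (Γ' := DelG K GG ⊓ Fx e ⊓ Fx e' ⊓ Fx x) fun γ q => ⟨⟨q.1.1.1, q.2⟩, hf γ q.1.1.1 q.2⟩)
    (bk_nice (dY K)) (bk_nice (dB K)) (bk_nice _) (bk_nice _) (Hm_mono dB_le_dY) (Hm_mono le_top)
    (Hm_mono dB_le_dBt) he.1 he'.1.1 hx.1 hy.1.1 h3 h4
    (fun b _ => (o.2.2 b (del_top b)).imp fun _ q => ⟨q.1, q.2.symm⟩)
    (fun b hb => by
      obtain ⟨c, hc, -⟩ := BLin.scal hl.ne (fun s => dB_le_dBt (bx_dB s)) (fun _ => id) hy.1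
        (subset_span hb)
      exact ⟨c • gu F _ 1, smul_mem _ _ (bk_mem (one_mem _)), by
        rw [hc, smul_mul_assoc, gu_one, one_mul]⟩)
    (fun γ q => ⟨del_sg q.1.1.1, del_stb q.1.1.1 (by simp), del_stb q.1.1.1 (by simp),
      del_stb q.1.1.1 (by simp), del_stb q.1.1.1 (by simp), q.1.1.2, q.1.2, q.2,
      hf γ q.1.1.1 q.2⟩) (by
      rintro a ha la _ ⟨c, c0, g, -, rfl⟩ q _ ⟨d, -, w, -, rfl⟩
      rw [la, smul_mul_smul_comm, smul_mul_smul_comm, mul_comm c,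
        lkb_loc hl.ne hx ha.1.1.1 la ha.2 (fun v hv => smul_right_injective _ c0 ?_) w]
      have r := q _ (aga_mem.2 hv)
      rwa [smul_mul_assoc, mul_smul_comm] at r)
  refine Link.ext (GG := GG) (fun γ h => ⟨⟨⟨⟨del_sg h.1.1, del_stb h.1.1 (by simp)⟩,
    del_stb h.1.1 (by simp)⟩, h.1.2⟩, h.2⟩) inf_le_left (bk_nice _) (bk_nice _) (Hm_mono dB_le_dY)
    he.1 he'.1.1 (fun γ hγ => ?_) k
  obtain ⟨ζ, s, s1, s2⟩ := lkb_tw he.1 hx.1 (del_irr hγ.1.1 (by simp) hx.1) h3 (by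
    rw [← mem_Fx.1 hγ.1.2, ← map_mul, h3])
  have n : s ∈ DelG K GG ⊓ Fx e ⊓ Fx e' := ⟨⟨s1.mem (one_mem _), del_tw s1 he.1.1.1⟩,
    del_tw s1 (span_Hm_mono dB_le_dY he'.1.1.1.1)⟩
  refine ⟨s, n, s1.1, ⟨_, aga_mem.2 (one_mem _), fun z hz => ?_⟩,
    Subgroup.mul_mem _ (Subgroup.inv_mem _ n) hγ, ?_⟩
  · rw [del_tw s1 (subset_span hz), gu_one, one_mul, mul_one]
  · exact (congrArg _ s2.symm).trans (tl_ia s x)

theorem lkb_under (hl : lam ≠ 1) (hy : y ∈ X2 lam) (he : e ∈ Irr F (HX F (dB K)))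
    (h : e * y ≠ 0 ∨ y * e ≠ 0) : e * y = y := by
  obtain ⟨c, hc, hc'⟩ := BLin.scal hl (fun s => dB_le_dBt (bx_dB s)) (fun _ => id) hy
    (span_Hm_mono dB_le_dBt he.1.1)
  have c0 : c ≠ 0 := fun z => by simp [hc, hc', z] at h
  refine smul_right_injective _ c0 ?_
  change c • (e * y) = c • y
  rw [← mul_smul_comm, ← hc, ← mul_assoc, he.2.1]

omit [Fintype K] [CharZero F] [IsAlgClosed F] in
theorem lkb_eq {S : Set (MonoidAlgebra F (GL (Fin 2) K))} (he : e ∈ Irr F S) (he' : e' ∈ Irr F S)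
    (h0 : x ≠ 0) (h : e * x = x) (h' : e' * x = x) : e = e' := by
  by_contra n
  exact h0 (by rw [← h, ← h', ← mul_assoc, Irr_orth he he' n, zero_mul])

theorem lk_B (hl : Wh lam) (h2 : (2 : K) ≠ 0)
    {Θ : MonoidAlgebra F (GL (Fin 2) K) → MonoidAlgebra F (GL (Fin 2) K)}
    (hΘ : EqB (DelG K GG) (X1P lam) (X2P lam) Θ) (ho : ∀ x ∈ X1P lam, om (Θ x) = om x) :
    LK F (DelG K GG) (HX F (dY K)) (HX F (dB K)) (XB lam) (YB lam) := by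
  refine lk_rel2 (fun e e' => ∃ x ∈ X1P lam, e * x = x ∧ e' * Θ x = Θ x)
    (fun γ h => (del_XA hl h).2.1) (fun γ h => (del_XA hl h).2.2.2) ?_ ?_ ?_ ?_ ?_ ?_
  · rintro γ h e - e' - ⟨x, hx, a1, a2⟩
    exact ⟨γ x, (hΘ.2 γ h x hx).1, by rw [← map_mul, a1],
      by rw [(hΘ.2 γ h x hx).2, ← map_mul, a2]⟩
  · intro e he
    obtain ⟨x, hx, q⟩ := bk_ex ⊤ he.1.2.2.1
    have o := (over_y hl.ne (fun _ => mem_dY) he.1 he.2.1 hx q).1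
    have m : x ∈ X1P lam := ⟨hx, e, he, o⟩
    have hy := hΘ.1.mapsTo m
    obtain ⟨e', a, b⟩ := bk_ex (dB K) hy.1.1.2.2.1
    have c := lkb_under hl.ne hy.1 a (.inr b)
    refine ⟨e', ⟨⟨a, (bk_E0_or hl.ne bx_dB (fun _ h => h.1) a).resolve_left fun z => ?_⟩,
      fun z => ?_⟩, x, m, o, c⟩
    · exact hy.1.1.2.2.1 (by rw [← hy.1.2, ← c, ← mul_assoc, z, zero_mul])
    · exact hy.1.1.2.2.1 (by rw [← c, z, hy.2])
  · intro e' he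
    obtain ⟨y, hy, q⟩ := bk_ex (dBt K) he.1.1.2.2.1
    have m : y ∈ X2 lam := ⟨hy, (bk_E0_or hl.ne (fun s => dB_le_dBt (bx_dB s)) (fun _ => id)
      hy).resolve_left fun z => q (by rw [← he.1.right bx_dB, mul_assoc, z, mul_zero])⟩
    have c := lkb_under hl.ne m he.1.1 (.inl q)
    obtain ⟨x, hx, rfl⟩ := hΘ.1.surjOn ⟨m, by
      rw [← c, ← mul_assoc, Irr_orth e0_irr he.1.1 he.2.symm, zero_mul]⟩
    obtain ⟨e, a, b⟩ := hx.2
    exact ⟨e, a, x, hx, b, c⟩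
  · rintro e he y hy z hz ⟨x, hx, a1, a2⟩ ⟨x', hx', b1, b2⟩
    obtain ⟨ζ, s, s1, rfl⟩ := lkb_tw he.1 hx.1 hx'.1 a1 b1
    refine lkb_eq hy.1.1 hz.1.1 (hΘ.1.mapsTo hx).1.1.2.2.1 a2 (s.injective ?_)
    rw [(hΘ.2 s (s1.mem (one_mem _)) x hx).2] at b2
    rwa [map_mul, del_tw s1 (span_Hm_mono dB_le_dY hz.1.1.1.1)]
  · rintro e he f hf y hy ⟨x, hx, a1, a2⟩ ⟨x', hx', b1, b2⟩
    obtain ⟨ζ, s, s1, s2⟩ := lkb_tw hy.1.1 (hΘ.1.mapsTo hx).1.1 (hΘ.1.mapsTo hx').1.1 a2 b2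
    have q := hΘ.2 s (s1.mem (one_mem _)) x hx
    obtain rfl := hΘ.1.injOn q.1 hx' (q.2.trans s2)
    refine lkb_eq he.1 hf.1 hx.1.2.2.1 a1 (s.injective ?_)
    rwa [map_mul, del_tw s1 hf.1.1.1]
  · rintro e he y hy ⟨x, hx, a1, a2⟩
    exact link_B hl h2 he hy hx (hΘ.1.mapsTo hx) a1 a2 (ho x hx)
      fun γ h q => by rw [← (hΘ.2 γ h x hx).2, q]

end Pool.Agent.Lib.MP_1ae3da_al.CT
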