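import Pool.Agent.Lib.MP_1ae3da_al.S.BlkY
import Pool.Agent.Lib.MP_1ae3da_al.S.Del
import Pool.Agent.Lib.MP_1ae3da_al.S.Over

/-! The three kinds of non-linear blocks of `GL₂`; the blocks over the Steinberg block. -/

namespace Pool.Agent.Lib.MP_1ae3da_al.CT

open Submodule Matrix

/-- counting fixed points along a one-one relation -/
theorem st_cnt {T : Type} {X X' : Set T} {R : T → T → Prop}
    (h1 : ∀ x ∈ X, ∃! y, y ∈ X' ∧ R x y) (h2 : ∀ y ∈ X', ∃! x, x ∈ X ∧ R x y) {h : T → T}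
    (hX : ∀ x ∈ X, h x ∈ X) (hX' : ∀ y ∈ X', h y ∈ X')
    (hR : ∀ x ∈ X, ∀ y ∈ X', R x y → R (h x) (h y)) {P P' : T → Prop}
    (hP : ∀ x ∈ X, ∀ y ∈ X', R x y → (P x ↔ P' y)) :
    {x | x ∈ X ∧ h x = x ∧ P x}.ncard = {y | y ∈ X' ∧ h y = y ∧ P' y}.ncard := by
  choose! Θ hΘ using fun x hx => (h1 x hx).exists
  refine Set.ncard_congr (fun x _ => Θ x) (fun x ⟨a, b, c⟩ => ⟨(hΘ x a).1, ?_, ?_⟩)
    (fun x x' ⟨a, _⟩ ⟨a', _⟩ q => ?_) fun y ⟨a, b, c⟩ => ?_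
  · exact (h1 x a).unique ⟨hX' _ (hΘ x a).1, by
      simpa only [b] using hR x a _ (hΘ x a).1 (hΘ x a).2⟩ (hΘ x a)
  · exact (hP x a _ (hΘ x a).1 (hΘ x a).2).1 c
  · exact (h2 _ (hΘ x a).1).unique ⟨a, (hΘ x a).2⟩ ⟨a', q ▸ (hΘ x' a').2⟩
  · obtain ⟨x, m, r⟩ := (h2 y a).exists
    exact ⟨x, ⟨m, (h2 y a).unique ⟨hX x m, by simpa only [b] using hR x m y a r⟩ ⟨m, r⟩,
      (hP x m y a r).2 c⟩, (h1 x m).unique (hΘ x m) ⟨a, r⟩⟩

variable {F K : Type} [Field F] [Field K] [Fintype K] {lam : AddChar K F} {k l : K}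
  {G Y B D : Subgroup (GL (Fin 2) K)} {e e' x y y' z a : MonoidAlgebra F (GL (Fin 2) K)}
  {g : GL (Fin 2) K}

omit [Fintype K] in
theorem st_all (a : MonoidAlgebra F (GL (Fin 2) K)) : a ∈ span F (HX F ⊤) := by
  rw [gu_span]; trivial

omit [Fintype K] in
/-- blocks that meet have the same eigenvalues -/
theorem st_eig (hx : x ∈ Irr F (HX F ⊤)) (h : x * y ≠ 0) {c d : F} (h1 : z * x = c • x)
    (h2 : z * y = d • y) : c = d := by
  refine smul_left_injective F h ?_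
  beta_reduce
  rw [← smul_mul_assoc, ← h1, te_cen hx (st_all z), mul_assoc, h2, mul_smul_comm]

variable [CharZero F] [IsAlgClosed F]

section lin
variable (hl : lam ≠ 1) (hD : ∀ g, g ∈ D ↔ g.1 1 0 = 0)
include hD

omit [Fintype K] [CharZero F] [IsAlgClosed F] in
theorem st_xD (s : K) : bx s ∈ D := by simp [hD, bx_val]

include hl

theorem st_ant (h : BLin lam D y) (hr : BAnt g) :
    ∃ c : F, y * gu F _ g = c • (y * gu F _ bn) := by
  obtain ⟨c, -, hc⟩ := h.scal hl (st_xD hD) (fun g k => (hD g).1 k) (bk_mem (g := g * bn⁻¹)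
    ((hD _).2 hr.mul_n.2))
  exact ⟨c, by rw [← smul_mul_assoc, ← hc, mul_assoc, gu_mul, inv_mul_cancel_right]⟩

theorem st_cor (h : BLin lam D y) (k : K) (a : MonoidAlgebra F (GL (Fin 2) K)) : ∃ c d : F,
    y * a * bE lam k = c • (y * bE lam k) + d • (y * gu F _ bn * bE lam k) := by
  have hU := st_xD hD
  suffices m : y * (bE lam 0 * a * bE lam k) ∈
      span F {y * bE lam k, y * gu F _ bn * bE lam k} by
    obtain ⟨c, d, q⟩ := mem_span_pair.1 m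
    exact ⟨c, d, by rw [q, ← mul_assoc, ← mul_assoc, h.right hU]⟩
  refine span_induction (p := fun x _ => y * x ∈ _) ?_ (by simp)
    (fun _ _ _ _ p q => by rw [mul_add]; exact add_mem p q)
    (fun c _ _ p => by rw [mul_smul_comm]; exact smul_mem _ c p)
    (bru_corner hl (G := ⊤) (fun _ => trivial) 0 k (st_all a))
  rintro _ ⟨⟨r, hr, q | q⟩, rfl⟩ <;> beta_reduce <;> rw [← mul_assoc, ← mul_assoc, h.right hU]
  · obtain ⟨c, hc⟩ := st_ant hl hD h q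
    rw [hc, smul_mul_assoc]
    exact smul_mem _ _ (subset_span (by simp))
  · obtain ⟨c, -, hc⟩ := h.scal hl hU (fun g k => (hD g).1 k) (bk_mem ((hD r).2 q.1.2))
    rw [hc, smul_mul_assoc]
    exact smul_mem _ _ (subset_span (by simp))

omit [IsAlgClosed F] in
theorem st_ne (h : BLin lam D y) (k : K) : y * gu F _ bn * bE lam k ≠ 0 := fun z => by
  have hU := st_xD hD
  have m := (bru_span hl hU 0 0 y).2 ⟨h.1.1.1, by rw [h.2, h.right hU]⟩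
  rw [← Finsupp.range_linearCombination] at m
  obtain ⟨c, hc⟩ := m
  have d : ∀ r : {r // r ∈ D ∧ BRep (0 : K) 0 r}, BDia r.1 := fun r =>
    (r.2.2.resolve_left fun h => h.ne.2 ((hD _).1 r.2.1)).1
  have i := (bru_ind hl ⊤ 0 k).comp (fun r : {r // r ∈ D ∧ BRep (0 : K) 0 r} =>
    ⟨r.1 * bn, trivial, .inl (d r).mul_n⟩)
    fun r r' q => Subtype.ext (mul_right_cancel (congrArg Subtype.val q))
  refine h.1.2.2.1 ?_
  rw [← hc, linearIndependent_iff.1 i c ?_, map_zero]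
  rw [← z, ← hc, mul_assoc, ← LinearMap.mulRight_apply F, Finsupp.apply_linearCombination]
  congr 2
  funext r
  simp only [Function.comp, LinearMap.mulRight_apply]
  rw [(bE_dia hl (d r).2 (by simp)).1, ← gu_mul]
  simp only [mul_assoc]

theorem st_cor' (h : BLin lam D y) (h' : bE lam 0 * z = z) (a : MonoidAlgebra F (GL (Fin 2) K)) :
    ∃ c d : F, y * a * z = c • (y * z) + d • (y * gu F _ bn * z) := by
  obtain ⟨c, d, q⟩ := st_cor hl hD h 0 a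
  refine ⟨c, d, ?_⟩
  rw [← h', ← mul_assoc, q]
  simp only [add_mul, smul_mul_assoc, mul_assoc]

theorem st_cc (h : BLin lam D y) : CC F (HX F ⊤) y :=
  cc_two (w := y * gu F _ bn * y) (st_all _) h.1.2.1
    (by rw [← mul_assoc, ← mul_assoc, h.1.2.1, mul_assoc _ y y, h.1.2.1]) fun a _ => by
    simpa only [h.1.2.1] using st_cor' hl hD h h.2 a

/-- exactly one block of `GL₂` sees a linear block of the Borel subgroup and `E k` -/
theorem st_one (h : BLin lam D y) (hk : k ≠ 0) :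
    ∃! x, x ∈ Irr F (HX F ⊤) ∧ y * x ≠ 0 ∧ bE lam k * x ≠ 0 := by
  refine pair_line (bk_nice ⊤) (st_cc hl hD h) (bE_cc hl (fun _ => trivial) hk) (st_all _)
    (st_ne hl hD h k) ?_ fun a _ => ?_
  · rw [← mul_assoc, ← mul_assoc, h.1.2.1, mul_assoc _ (bE lam k), bE_idem hl]
  · obtain ⟨c, d, q⟩ := st_cor hl hD h k a
    refine ⟨d, ?_⟩
    rw [q, ← h.right (st_xD hD), mul_assoc y (bE lam 0) (bE lam k), bE_orth hl hk.symm, mul_zero,
      smul_zero, zero_add]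

variable (hB : ∀ g, g ∈ B ↔ g.1.det = 1 ∧ g.1 1 0 = 0)
include hB

omit hl in
theorem st_cen : e0 F B ∈ Cen F (HX F D) := by
  refine ⟨span_Hm_mono (fun g h => (hD g).2 ((hB g).1 h).2) e0_irr.1.1, fun s hs =>
    e0_cen.2 s (Hm_mono (fun g hg => ?_) hs)⟩
  have k : ∀ g ∈ D, ∀ n ∈ B, g * n * g⁻¹ ∈ B := fun g hg n hn => (hB _).2
    ⟨by rw [Units.val_mul, Units.val_mul, det_mul, det_mul, ((hB n).1 hn).1, mul_one, ← det_mul,
      Units.mul_inv, det_one],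
    (hD _).1 (mul_mem (mul_mem hg ((hD n).2 ((hB n).1 hn).2)) (inv_mem hg))⟩
  exact Subgroup.mem_normalizer_iff.2 fun n => ⟨k g hg n, fun h => by
    simpa [mul_assoc] using k _ (inv_mem hg) _ h⟩

omit hl in
/-- a block of the Borel subgroup that is trivial on determinant one -/
theorem st_lin (hy : y ∈ Irr F (HX F D)) (h : e0 F B * y ≠ 0) :
    e0 F B * y = y ∧ BLin lam D y ∧ ∀ g ∈ B, gu F _ g * y = y ∧ y * gu F _ g = y := by
  have q := (Irr_idem hy (st_cen hD hB) e0_irr.2.1).resolve_left h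
  refine ⟨q, ⟨hy, by rw [← q, ← mul_assoc, (bk_e0 (bk_xB hB)).2]⟩, fun g hg => ?_⟩
  have p : gu F _ g * y = y := by rw [← q, ← mul_assoc, (gu_e0 hg).1]
  exact ⟨p, by rw [← te_cen hy (bk_mem ((hD g).2 ((hB g).1 hg).2)), p]⟩

/-- two such blocks are not met by the same block of `GL₂` -/
theorem st_uniq (hx : x ∈ Irr F (HX F ⊤)) (hy : y ∈ Irr F (HX F D)) (h : e0 F B * y ≠ 0)
    (hy' : y' ∈ Irr F (HX F D)) (h' : e0 F B * y' ≠ 0) (h1 : y * x ≠ 0) (h2 : y' * x ≠ 0) :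
    y = y' := by
  obtain ⟨-, p1, p2⟩ := st_lin (lam := lam) hD hB hy h
  obtain ⟨-, q1, q2⟩ := st_lin (lam := lam) hD hB hy' h'
  by_contra n
  obtain ⟨a, -, ha⟩ := (pair_ne (bk_nice ⊤) (st_all y) (st_all y')).1 ⟨x, hx, h1, h2⟩
  obtain ⟨c, d, q⟩ := st_cor' hl hD p1 q1.2 a
  have k : ∀ b ∈ span F (HX F D), y * gu F _ bn * (b * y') = y * b * gu F _ bn * y' := by
    intro b hb
    induction hb using span_induction with
    | mem b m =>
      obtain ⟨c, -, g, hg, rfl⟩ := m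
      obtain ⟨s, t, ht, rfl, -⟩ := bru_small ((hD g).1 hg)
      have m : t⁻¹ * (bn * t * bn⁻¹) ∈ B := (hB _).2 ⟨by
        rw [Units.val_mul, Units.val_mul, Units.val_mul, det_mul, det_mul, det_mul,
          mul_right_comm, ← det_mul, Units.mul_inv, det_one, one_mul, ← det_mul, Units.inv_mul,
          det_one], (hD _).1 (mul_mem (inv_mem ((hD t).2 ht.2)) ((hD _).2 ht.n_mul.mul_n.2))⟩
      have c1 := te_cen hy (bk_mem ((hD t).2 ht.2))
      have r : y * gu F _ bn * gu F _ t = gu F _ t * y * gu F _ bn := by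
        conv_rhs => rw [← (p2 _ m).2, ← mul_assoc, c1]
        simp only [mul_assoc, gu_mul, inv_mul_cancel, mul_one, mul_inv_cancel_left]
      rw [smul_mul_assoc, mul_smul_comm, mul_smul_comm, smul_mul_assoc, smul_mul_assoc, ← gu_mul,
        mul_assoc (gu F _ t), (q2 _ (bk_xB hB s)).1, ← mul_assoc, r, ← mul_assoc y, ← c1,
        mul_assoc _ y (gu F _ (bx s)), (p2 _ (bk_xB hB s)).2]
    | zero => simp
    | add a b _ _ p q => rw [add_mul, mul_add, p, q, mul_add, add_mul, add_mul]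
    | smul c a _ p => simp only [smul_mul_assoc, mul_smul_comm, p]
  have := k y' hy'.1.1
  rw [hy'.2.1, Irr_orth hy hy' n, zero_mul, zero_mul] at this
  exact ha (by rw [q, this, Irr_orth hy hy' n, smul_zero, smul_zero, add_zero])

/-- from the Borel subgroup to `GL₂` -/
theorem st_up (hy : y ∈ Irr F (HX F D)) (h : e0 F B * y ≠ 0) :
    ∃! x, (x ∈ Irr F (HX F ⊤) ∧ bE lam 1 * x ≠ 0 ∧ e0 F B * x ≠ 0) ∧ x * y ≠ 0 := by
  obtain ⟨p0, p1, -⟩ := st_lin (lam := lam) hD hB hy h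
  obtain ⟨x, ⟨a, b, c⟩, u⟩ := st_one hl hD p1 one_ne_zero
  refine ⟨x, ⟨⟨a, c, fun z => b ?_⟩, by rwa [← te_cen a (st_all y)]⟩, fun x' ⟨⟨a', b', _⟩, d'⟩ =>
    u x' ⟨a', by rwa [te_cen a' (st_all y)], b'⟩⟩
  rw [← p0, te_cen hy (st_cen hD hB).1, mul_assoc, z, mul_zero]

/-- from `GL₂` to the Borel subgroup -/
theorem st_down (hx : x ∈ Irr F (HX F ⊤)) (h : e0 F B * x ≠ 0) :
    ∃! y, (y ∈ Irr F (HX F D) ∧ e0 F B * y ≠ 0) ∧ x * y ≠ 0 := by
  obtain ⟨y, hy, q⟩ := bk_ex D h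
  have a : e0 F B * y ≠ 0 := fun z => q (by
    rw [te_cen hx (st_all _), mul_assoc, z, mul_zero])
  have b : x * y ≠ 0 := fun z => q (by rw [mul_assoc, z, mul_zero])
  exact ⟨y, ⟨⟨hy, a⟩, b⟩, fun y' ⟨⟨hy', a'⟩, b'⟩ => st_uniq hl hD hB hx hy' a' hy a
    (by rwa [te_cen hx (st_all _)]) (by rwa [te_cen hx (st_all _)])⟩

end lin

section part
variable (hl : lam ≠ 1) (hY : ∀ g, g ∈ Y ↔ g.1.det = 1)
  (hB : ∀ g, g ∈ B ↔ g.1.det = 1 ∧ g.1 1 0 = 0)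
include hl hY

/-- a block under a non-linear block has a support -/
theorem st_supp (hx : x ∈ Irr F (HX F ⊤)) (h1 : bE lam 1 * x ≠ 0) (he : e ∈ Irr F (HX F Y))
    (h : e * x ≠ 0) : ∃ k, k ≠ 0 ∧ bE lam k * e ≠ 0 := by
  by_contra n
  push Not at n
  exact h1 ((over_triv hl hx (st_all e) h (over_fix hl n fun g hg =>
    te_cen he (bk_mem ((hY g).2 hg)))).2 1 one_ne_zero)

omit hl in
/-- a block over a block with a support is not linear -/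
theorem st_sup1 (hx : x ∈ Irr F (HX F ⊤)) (he : e ∈ Irr F (HX F Y)) (h : e * x ≠ 0) (hk : k ≠ 0)
    (h1 : bE lam k * e ≠ 0) : bE lam 1 * x ≠ 0 := by
  refine bk_supp_all hx.1 (fun _ => trivial) hk one_ne_zero fun z => ?_
  refine blk_inj (bk_nice Y) he (bE_mem (bk_xY hY) k) h1 (fun b _ => te_cen hx (st_all b)) h ?_
  rw [te_cen he (bE_mem (bk_xY hY) k), mul_assoc, z, mul_zero]

include hB

/-- the three kinds cover -/
theorem st_tri (hx : x ∈ Irr F (HX F ⊤)) (h1 : bE lam 1 * x ≠ 0) :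
    (∃ e ∈ Irr F (HX F Y), (∀ k, k ≠ 0 → bE lam k * e ≠ 0) ∧ e0 F B * e = 0 ∧ e * x = x) ∨
    (∃ e ∈ Irr F (HX F Y), (∃ k, k ≠ 0 ∧ bE lam k * e ≠ 0) ∧ (∃ l, l ≠ 0 ∧ bE lam l * e = 0) ∧
      e * x ≠ 0) ∨ e0 F B * x ≠ 0 := by
  obtain ⟨e, he, q⟩ := bk_ex Y hx.2.2.1
  rw [← te_cen hx (st_all e)] at q
  by_cases a : ∀ k, k ≠ 0 → bE lam k * e ≠ 0
  · have b := (over_y hl hY he a hx q).1
    by_cases c : e0 F B * e = 0
    · exact .inl ⟨e, he, a, c, b⟩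
    · refine .inr (.inr ?_)
      have := blk_inj (bk_nice Y) he (span_Hm_mono (bk_BY hY hB) e0_irr.1.1) c
        (fun b _ => te_cen hx (st_all b)) q
      rwa [mul_assoc, b] at this
  · push Not at a
    exact .inr (.inl ⟨e, he, st_supp hl hY hx h1 he q, a, q⟩)

/-- over the Steinberg block every block below has full support -/
theorem st_AS (hx : x ∈ Irr F (HX F ⊤)) (h1 : bE lam 1 * x ≠ 0) (h2 : e0 F B * x ≠ 0)
    (he : e ∈ Irr F (HX F Y)) (h : e * x ≠ 0) :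
    (∀ k, k ≠ 0 → bE lam k * e ≠ 0) ∧ e0 F B * e ≠ 0 ∧ e * x = x := by
  obtain ⟨f, hf, q⟩ := bk_ex Y h2
  have a : e0 F B * f ≠ 0 := fun z => q (by rw [te_cen hx (st_all _), mul_assoc, z, mul_zero])
  have b : f * x ≠ 0 := fun z => q (by rw [mul_assoc, ← te_cen hx (st_all _), z, mul_zero])
  obtain ⟨k, hk, c⟩ := st_supp hl hY hx h1 hf b
  have d := bk_st hl hY hB hf hk c a
  have r := (over_y hl hY hf d hx b).1
  obtain rfl : e = f := by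
    by_contra n
    exact h (by rw [← r, ← mul_assoc, Irr_orth he hf n, zero_mul])
  exact ⟨d, a, r⟩

end part

theorem x1_part (hl : lam ≠ 1) : X1 lam = X1P lam ∪ X1A lam ∪ X1S lam ∧
    Disjoint (X1P lam) (X1A lam) ∧ Disjoint (X1P lam ∪ X1A lam) (X1S lam) := by
  have hY := fun g => mem_dY (K := K) (g := g)
  have hB := fun g => mem_dB (K := K) (g := g)
  refine ⟨Set.ext fun x => ⟨fun ⟨hx, h1⟩ => ?_, ?_⟩, Set.disjoint_left.2 ?_,
    Set.disjoint_left.2 ?_⟩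
  · rcases st_tri hl hY hB hx h1 with ⟨e, a, b, c, d⟩ | ⟨e, a, b, c, d⟩ | h
    exacts [.inl (.inl ⟨hx, e, ⟨a, b, c⟩, d⟩), .inl (.inr ⟨hx, e, ⟨a, b, c⟩, d⟩),
      .inr ⟨⟨hx, h1⟩, h⟩]
  · rintro ((⟨hx, e, ⟨a, b, -⟩, d⟩ | ⟨hx, e, ⟨a, ⟨k, hk, b⟩, -⟩, d⟩) | h)
    exacts [⟨hx, st_sup1 hY hx a (d.symm ▸ hx.2.2.1) one_ne_zero (b 1 one_ne_zero)⟩,
      ⟨hx, st_sup1 hY hx a d hk b⟩, h.1]
  · rintro x ⟨-, e, ⟨a, b, -⟩, d⟩ ⟨-, f, ⟨a', -, l, h0, c⟩, d'⟩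
    obtain rfl : f = e := by
      by_contra n
      exact d' (by rw [← d, ← mul_assoc, Irr_orth a' a n, zero_mul])
    exact b l h0 c
  · rintro x (⟨-, e, ⟨-, -, c⟩, d⟩ | ⟨-, e, ⟨a, -, l, h0, c⟩, d⟩) ⟨⟨hx, h1⟩, h2⟩
    · exact h2 (by rw [← d, ← mul_assoc, c, zero_mul])
    · exact (st_AS hl hY hB hx h1 h2 a d).1 l h0 c

theorem st_S1 (hl : lam ≠ 1) (hx : x ∈ X1S lam) : ∃! y, y ∈ X2S lam ∧ x * y ≠ 0 := by
  obtain ⟨y, ⟨⟨a, b⟩, c⟩, u⟩ := st_down hl (fun _ => mem_dBt) (fun _ => mem_dB) hx.1.1 hx.2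
  exact ⟨y, ⟨⟨(st_lin (fun _ => mem_dBt) (fun _ => mem_dB) a b).2.1, b⟩, c⟩,
    fun z ⟨⟨a', b'⟩, c'⟩ => u z ⟨⟨a'.1, b'⟩, c'⟩⟩

theorem st_S2 (hl : lam ≠ 1) (hy : y ∈ X2S lam) : ∃! x, x ∈ X1S lam ∧ x * y ≠ 0 := by
  obtain ⟨x, ⟨⟨a, b, c⟩, d⟩, u⟩ := st_up hl (fun _ => mem_dBt) (fun _ => mem_dB) hy.1.1 hy.2
  exact ⟨x, ⟨⟨⟨a, b⟩, c⟩, d⟩, fun z ⟨⟨⟨a', b'⟩, c'⟩, d'⟩ => u z ⟨⟨a', b', c'⟩, d'⟩⟩

omit [Fintype K] [CharZero F] [IsAlgClosed F] in
/-- blocks that meet have the same central character -/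
theorem st_om (hx : x ∈ Irr F (HX F ⊤)) (hy : y ∈ Irr F (HX F (dBt K))) (h : x * y ≠ 0) :
    om x = om y := by
  funext a
  have c (W : Subgroup (GL (Fin 2) K)) (m : bd a a ∈ W) : gu F _ (bd a a) ∈ Cen F (HX F W) := by
    refine ⟨bk_mem m, ?_⟩
    rintro _ ⟨c, -, g, -, rfl⟩
    rw [mul_smul_comm, smul_mul_assoc, gu_mul, gu_mul]
    congr 2
    apply Units.ext
    ext i j
    fin_cases i <;> fin_cases j <;> simp [bd_val, mul_apply, Fin.sum_univ_two, mul_comm]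
  exact st_eig hx h (Classical.epsilon_spec (hx.2.2.2 _ (c ⊤ trivial)))
    (Classical.epsilon_spec (hy.2.2.2 _ (c _ (bd_dBt a a))))

theorem st_nf (hl : lam ≠ 1) {h : RingAut (MonoidAlgebra F (GL (Fin 2) K))}
    (h1 : ∀ x ∈ X1S lam, h x ∈ X1S lam) (h2 : ∀ x ∈ X2S lam, h x ∈ X2S lam) (w : Kˣ → F) :
    Nf (X1S lam) h w = Nf (X2S lam) h w :=
  st_cnt (R := fun x y => x * y ≠ 0) (fun _ => st_S1 hl) (fun _ => st_S2 hl) h1 h2
    (fun x _ y _ q => by rwa [← map_mul, h.map_ne_zero_iff])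
    fun x hx y hy q => by rw [st_om hx.1.1 hy.1.1 q]

end Pool.Agent.Lib.MP_1ae3da_al.CT
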